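import Pool.Agent.Helper46.R.Defs

set_option autoImplicit false

namespace Pool.Agent.Helper46.R.J11b

open Finset Filter

theorem choose_exp_aux (h K : ℕ) (m : ℕ) (hm : m ≤ K + 1) :
    ((2 * h).choose (h + m) : ℝ) ≤
      ((2 * h).choose h : ℝ) * Real.exp (-((m : ℝ) ^ 2 / ((h : ℝ) + K + 1))) := by
  induction m with
  | zero => simp
  | succ m ih =>
    have ih' := ih (by omega)
    have hpos : (0 : ℝ) < (h : ℝ) + K + 1 := by positivity
    have hpos2 : (0 : ℝ) < (h : ℝ) + m + 1 := by positivity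
    have hC : (0 : ℝ) ≤ ((2 * h).choose (h + m) : ℝ) := by positivity
    -- ratio
    have key : ((2 * h).choose (h + (m + 1)) : ℝ) ≤
        ((2 * h).choose (h + m) : ℝ) * (1 - (2 * m + 1) / ((h : ℝ) + m + 1)) := by
      by_cases hmh : m ≤ h
      · have e1 := Nat.choose_succ_right_eq (2 * h) (h + m)
        have e2 : 2 * h - (h + m) = h - m := by omega
        rw [e2] at e1
        have e3 : ((2 * h).choose (h + m + 1) : ℝ) * ((h : ℝ) + m + 1) =
            ((2 * h).choose (h + m) : ℝ) * ((h : ℝ) - m) := by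
          have := congrArg (fun x : ℕ => (x : ℝ)) e1
          simp only [Nat.cast_mul, Nat.cast_add, Nat.cast_one] at this
          rw [Nat.cast_sub hmh] at this
          exact this
        have e4 : ((2 * h).choose (h + (m + 1)) : ℝ) =
            ((2 * h).choose (h + m) : ℝ) * ((h : ℝ) - m) / ((h : ℝ) + m + 1) := by
          rw [eq_div_iff hpos2.ne']
          exact e3
        rw [e4]
        apply le_of_eq
        field_simp
        ring
      · have h0 : (2 * h).choose (h + (m + 1)) = 0 := Nat.choose_eq_zero_of_lt (by omega)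
        have h1 : (2 * h).choose (h + m) = 0 := Nat.choose_eq_zero_of_lt (by omega)
        rw [h0, h1]; simp
    have e5 : 1 - (2 * (m : ℝ) + 1) / ((h : ℝ) + m + 1) ≤
        Real.exp (-((2 * (m : ℝ) + 1) / ((h : ℝ) + K + 1))) := by
      have h1 : (2 * (m : ℝ) + 1) / ((h : ℝ) + K + 1) ≤ (2 * (m : ℝ) + 1) / ((h : ℝ) + m + 1) := by
        apply div_le_div_of_nonneg_left (by positivity) hpos2
        have : (m : ℝ) ≤ K := by exact_mod_cast (by omega : m ≤ K)
        linarith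
      have h2 := Real.add_one_le_exp (-((2 * (m : ℝ) + 1) / ((h : ℝ) + K + 1)))
      linarith
    calc ((2 * h).choose (h + (m + 1)) : ℝ)
        ≤ ((2 * h).choose (h + m) : ℝ) * (1 - (2 * m + 1) / ((h : ℝ) + m + 1)) := key
      _ ≤ ((2 * h).choose (h + m) : ℝ) * Real.exp (-((2 * (m : ℝ) + 1) / ((h : ℝ) + K + 1))) :=
          mul_le_mul_of_nonneg_left e5 hC
      _ ≤ (((2 * h).choose h : ℝ) * Real.exp (-((m : ℝ) ^ 2 / ((h : ℝ) + K + 1)))) *
            Real.exp (-((2 * (m : ℝ) + 1) / ((h : ℝ) + K + 1))) :=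
          mul_le_mul_of_nonneg_right ih' (Real.exp_pos _).le
      _ = ((2 * h).choose h : ℝ) * Real.exp (-(((m + 1 : ℕ) : ℝ) ^ 2 / ((h : ℝ) + K + 1))) := by
          rw [mul_assoc, ← Real.exp_add]
          congr 2
          push_cast
          field_simp
          ring

theorem binom_even (K : ℕ) (lam : ℝ) (h0 : 0 < lam) (h1 : lam * (2 * K + 1) < 2 * ((K : ℝ) + 1) ^ 2) :
    ∃ h0 : ℕ, ∀ h : ℕ, h0 ≤ h →
      ((2 * h).choose (h + K + 1) : ℝ) * ((2 * (h : ℝ)) / (2 * (h : ℝ) - 2 * K - 1)) ^ lam ≤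
        (1 - 1 / (2 * (h : ℝ)) ^ 2) * ((2 * h).choose h : ℝ) := by
  set A : ℝ := ((K : ℝ) + 1) ^ 2 with hA
  set B : ℝ := lam * (2 * K + 1) with hB
  set δ : ℝ := 2 * A - B with hδ
  have hδpos : 0 < δ := by rw [hδ]; linarith
  have t1 : Tendsto (fun h : ℕ => (h : ℝ) / ((h : ℝ) + (K + 1))) atTop (nhds 1) :=
    tendsto_natCast_div_add_atTop ((K : ℝ) + 1)
  have t2 : Tendsto (fun h : ℕ => (h : ℝ) / ((h : ℝ) + (-(2 * K + 1) / 2))) atTop (nhds 1) :=
    tendsto_natCast_div_add_atTop (-(2 * (K : ℝ) + 1) / 2)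
  have t3 : Tendsto (fun h : ℕ => -(A * ((h : ℝ) / ((h : ℝ) + (K + 1)))) +
      B / 2 * ((h : ℝ) / ((h : ℝ) + (-(2 * K + 1) / 2)))) atTop (nhds (-(A * 1) + B / 2 * 1)) :=
    (t1.const_mul A).neg.add (t2.const_mul (B / 2))
  have hlt : -(A * 1) + B / 2 * 1 < -(δ / 4) := by rw [hδ]; linarith
  have ev1 := t3.eventually (gt_mem_nhds hlt)
  have ev2 : ∀ᶠ h : ℕ in atTop, (1 + δ) / δ ≤ (h : ℝ) :=
    tendsto_natCast_atTop_atTop.eventually (eventually_ge_atTop _)
  have ev3 : ∀ᶠ h : ℕ in atTop, K + 1 ≤ h := eventually_ge_atTop _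
  obtain ⟨h₀, hh₀⟩ := Filter.eventually_atTop.1 (ev1.and (ev2.and ev3))
  refine ⟨h₀, fun h hh => ?_⟩
  obtain ⟨e1, e2, e3⟩ := hh₀ h hh
  have e3' : (K : ℝ) + 1 ≤ h := by exact_mod_cast e3
  have hK0 : (0 : ℝ) ≤ K := Nat.cast_nonneg K
  have hhpos : (0 : ℝ) < h := by linarith
  have hd : (0 : ℝ) < 2 * (h : ℝ) - 2 * K - 1 := by linarith
  have hd2 : (0 : ℝ) < (h : ℝ) + K + 1 := by linarith
  have c1 := choose_exp_aux h K (K + 1) le_rfl
  have c2 : ((2 * (h : ℝ)) / (2 * (h : ℝ) - 2 * K - 1)) ^ lam ≤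
      Real.exp (B / (2 * (h : ℝ) - 2 * K - 1)) := by
    have h1 : (2 * (h : ℝ)) / (2 * (h : ℝ) - 2 * K - 1) ≤
        Real.exp ((2 * K + 1) / (2 * (h : ℝ) - 2 * K - 1)) := by
      have := Real.add_one_le_exp ((2 * (K : ℝ) + 1) / (2 * (h : ℝ) - 2 * K - 1))
      refine le_trans (le_of_eq ?_) this
      rw [div_add_one hd.ne']
      congr 1
      ring
    have h2 := Real.rpow_le_rpow (by positivity) h1 h0.le
    refine h2.trans (le_of_eq ?_)
    rw [← Real.exp_mul]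
    congr 1
    rw [hB]; ring
  have c3 : -(A / ((h : ℝ) + K + 1)) + B / (2 * (h : ℝ) - 2 * K - 1) ≤ -(δ / (4 * h)) := by
    have h1 : -(A * ((h : ℝ) / ((h : ℝ) + (K + 1)))) +
      B / 2 * ((h : ℝ) / ((h : ℝ) + (-(2 * K + 1) / 2))) =
        (h : ℝ) * (-(A / ((h : ℝ) + K + 1)) + B / (2 * (h : ℝ) - 2 * K - 1)) := by
      have hne : (h : ℝ) + (-(2 * K + 1) / 2) ≠ 0 := by
        have : (0 : ℝ) < (h : ℝ) + (-(2 * K + 1) / 2) := by linarith
        exact this.ne'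
      have hx : (h : ℝ) + (-(2 * K + 1) / 2) = (2 * (h : ℝ) - 2 * K - 1) / 2 := by ring
      rw [hx, ← add_assoc]
      field_simp
    rw [h1] at e1
    have h2 : (h : ℝ) * -(δ / (4 * h)) = -(δ / 4) := by field_simp
    have h3 : (h : ℝ) * (-(A / ((h : ℝ) + K + 1)) + B / (2 * (h : ℝ) - 2 * K - 1)) ≤
        (h : ℝ) * -(δ / (4 * h)) := by rw [h2]; exact e1.le
    exact le_of_mul_le_mul_left h3 hhpos
  have c4 : Real.exp (-(δ / (4 * h))) ≤ 1 - 1 / (2 * (h : ℝ)) ^ 2 := by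
    have hy : 0 < δ / (4 * h) := by positivity
    have h1 : Real.exp (-(δ / (4 * h))) ≤ 1 / (1 + δ / (4 * h)) := by
      rw [Real.exp_neg, ← one_div]
      apply one_div_le_one_div_of_le (by positivity)
      have := Real.add_one_le_exp (δ / (4 * h))
      linarith
    refine h1.trans ?_
    rw [div_le_iff₀ (by positivity)]
    have h2 : 1 + δ ≤ h * δ := by
      rw [div_le_iff₀ hδpos] at e2
      exact e2
    have h3 : (1 - 1 / (2 * (h : ℝ)) ^ 2) * (1 + δ / (4 * h)) =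
        1 + (h * δ - 1 - δ / (4 * h)) / (4 * h ^ 2) := by
      field_simp
      ring
    rw [h3]
    have h4 : δ / (4 * h) ≤ δ := by
      rw [div_le_iff₀ (by positivity)]
      nlinarith
    have h5 : 0 ≤ (h * δ - 1 - δ / (4 * h)) / (4 * h ^ 2) := by
      apply div_nonneg
      · linarith
      · positivity
    linarith
  have hCpos : (0 : ℝ) ≤ ((2 * h).choose h : ℝ) := by positivity
  have hr0 : 0 ≤ ((2 * (h : ℝ)) / (2 * (h : ℝ) - 2 * K - 1)) ^ lam :=
    Real.rpow_nonneg (by positivity) _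
  calc ((2 * h).choose (h + K + 1) : ℝ) * ((2 * (h : ℝ)) / (2 * (h : ℝ) - 2 * K - 1)) ^ lam
      ≤ (((2 * h).choose h : ℝ) * Real.exp (-(((K + 1 : ℕ) : ℝ) ^ 2 / ((h : ℝ) + K + 1)))) *
          Real.exp (B / (2 * (h : ℝ) - 2 * K - 1)) :=
        mul_le_mul c1 c2 hr0 (by positivity)
    _ = ((2 * h).choose h : ℝ) *
          Real.exp (-(A / ((h : ℝ) + K + 1)) + B / (2 * (h : ℝ) - 2 * K - 1)) := by
        rw [mul_assoc, ← Real.exp_add]
        push_cast
        rfl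
    _ ≤ ((2 * h).choose h : ℝ) * (1 - 1 / (2 * (h : ℝ)) ^ 2) :=
        mul_le_mul_of_nonneg_left ((Real.exp_le_exp.2 c3).trans c4) hCpos
    _ = (1 - 1 / (2 * (h : ℝ)) ^ 2) * ((2 * h).choose h : ℝ) := by ring

end Pool.Agent.Helper46.R.J11b
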