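import Pool.Agent.Helper46.R.Defs

set_option autoImplicit false

namespace Pool.Agent.Helper46.R.J11c

open Finset Filter

theorem binom_odd_aux1 (h K : ℕ) (hh : K + 1 ≤ h) : ∀ j : ℕ, j ≤ K + 1 →
    ((2 * h + 1).choose (h + j + 1) : ℝ) ≤ ((2 * h + 1).choose (h + 1) : ℝ) *
      Real.exp (-((j : ℝ) * (j + 1)) / ((h : ℝ) + K + 2)) := by
  intro j
  induction j with
  | zero => intro _; simp
  | succ j ih =>
    intro hj
    have ih' := ih (by omega)
    have h1 : (2 * h + 1).choose (h + j + 1 + 1) * (h + j + 1 + 1)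
        = (2 * h + 1).choose (h + j + 1) * (2 * h + 1 - (h + j + 1)) :=
      Nat.choose_succ_right_eq _ _
    have h2 : 2 * h + 1 - (h + j + 1) = h - j := by omega
    rw [h2] at h1
    have h3 : ((2 * h + 1).choose (h + j + 1 + 1) : ℝ) * ((h : ℝ) + j + 2)
        = (2 * h + 1).choose (h + j + 1) * ((h : ℝ) - j) := by
      have := congrArg (Nat.cast (R := ℝ)) h1
      push_cast [Nat.cast_sub (show j ≤ h by omega)] at this
      linarith
    have hpos : 0 < (h : ℝ) + j + 2 := by positivity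
    have h4 : ((2 * h + 1).choose (h + j + 1 + 1) : ℝ)
        = (2 * h + 1).choose (h + j + 1) * (((h : ℝ) - j) / ((h : ℝ) + j + 2)) := by
      rw [← mul_div_assoc, eq_div_iff hpos.ne']
      exact h3
    have h5 : ((h : ℝ) - j) / ((h : ℝ) + j + 2)
        ≤ Real.exp (-(2 * ((j : ℝ) + 1)) / ((h : ℝ) + K + 2)) := by
      have e1 : ((h : ℝ) - j) / ((h : ℝ) + j + 2)
          = 1 + (-(2 * ((j : ℝ) + 1)) / ((h : ℝ) + j + 2)) := by
        rw [div_eq_iff hpos.ne', add_mul, div_mul_cancel₀ _ hpos.ne']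
        ring
      rw [e1]
      have e2 : (-(2 * ((j : ℝ) + 1)) / ((h : ℝ) + j + 2))
          ≤ (-(2 * ((j : ℝ) + 1)) / ((h : ℝ) + K + 2)) := by
        rw [neg_div, neg_div, neg_le_neg_iff]
        apply div_le_div_of_nonneg_left (by positivity) hpos
        have : (j : ℝ) ≤ K := by exact_mod_cast (by omega : j ≤ K)
        linarith
      have := Real.add_one_le_exp (-(2 * ((j : ℝ) + 1)) / ((h : ℝ) + K + 2))
      linarith
    have h7 : Real.exp (-(((j + 1 : ℕ) : ℝ) * (((j + 1 : ℕ) : ℝ) + 1)) / ((h : ℝ) + K + 2))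
        = Real.exp (-((j : ℝ) * (j + 1)) / ((h : ℝ) + K + 2)) *
          Real.exp (-(2 * ((j : ℝ) + 1)) / ((h : ℝ) + K + 2)) := by
      rw [← Real.exp_add]
      congr 1
      push_cast
      ring
    rw [h7, show h + (j + 1) + 1 = h + j + 1 + 1 by ring, h4, ← mul_assoc]
    apply mul_le_mul ih' h5
    · apply div_nonneg _ hpos.le
      have : (j : ℝ) ≤ h := by exact_mod_cast (by omega : j ≤ h)
      linarith
    · positivity

theorem binom_odd (K : ℕ) (lam : ℝ) (h0 : 0 < lam) (h1 : lam < (K : ℝ) + 2) :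
    ∃ h0 : ℕ, ∀ h : ℕ, h0 ≤ h →
      ((2 * h + 1).choose (h + K + 2) : ℝ) * ((2 * (h : ℝ) + 1) / (2 * (h : ℝ) - 2 * K - 1)) ^ lam ≤
        (1 - 1 / (2 * (h : ℝ) + 1) ^ 2) * ((2 * h + 1).choose (h + 1) : ℝ) := by
  classical
  set k : ℝ := (K : ℝ) with hk
  have hk0 : 0 ≤ k := by positivity
  set D : ℝ := (k + 1) * (k + 2 - lam) with hD
  have hDpos : 0 < D := by
    apply mul_pos (by linarith)
    linarith
  have t1 : Tendsto (fun h : ℕ => -((k + 1) * (k + 2)) * ((h : ℝ) / ((h : ℝ) + (k + 2)))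
      + lam * (k + 1) * ((h : ℝ) / ((h : ℝ) + (-(k + 1 / 2))))) atTop
      (nhds (-((k + 1) * (k + 2)) * 1 + lam * (k + 1) * 1)) :=
    ((tendsto_natCast_div_add_atTop (k + 2)).const_mul _).add
      ((tendsto_natCast_div_add_atTop (-(k + 1 / 2))).const_mul _)
  have e1 : -((k + 1) * (k + 2)) * 1 + lam * (k + 1) * 1 = -D := by rw [hD]; ring
  rw [e1] at t1
  have t2 := t1.eventually_lt_const (show -D < -D / 2 by linarith)
  have t3 : ∀ᶠ h : ℕ in atTop, D ≤ (h : ℝ) :=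
    tendsto_natCast_atTop_atTop.eventually_ge_atTop D
  have t4 : ∀ᶠ h : ℕ in atTop, 1 / D ≤ (h : ℝ) :=
    tendsto_natCast_atTop_atTop.eventually_ge_atTop (1 / D)
  have t5 : ∀ᶠ h : ℕ in atTop, K + 1 ≤ h := eventually_ge_atTop _
  obtain ⟨N, hN⟩ := eventually_atTop.1 (t2.and (t3.and (t4.and t5)))
  refine ⟨N, fun h hh => ?_⟩
  obtain ⟨a2, a3, a4, a5⟩ := hN h hh
  have hr : (k : ℝ) + 1 ≤ (h : ℝ) := by rw [hk]; exact_mod_cast a5
  have hhpos : (0 : ℝ) < h := by linarith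
  have b1 := binom_odd_aux1 h K a5 (K + 1) le_rfl
  rw [show h + (K + 1) + 1 = h + K + 2 by ring] at b1
  have hp2 : (0 : ℝ) < 2 * (h : ℝ) - 2 * k - 1 := by linarith
  have b2 : ((2 * (h : ℝ) + 1) / (2 * (h : ℝ) - 2 * k - 1)) ^ lam
      ≤ Real.exp ((2 * k + 2) / (2 * (h : ℝ) - 2 * k - 1) * lam) := by
    rw [Real.exp_mul]
    apply Real.rpow_le_rpow (by positivity) _ h0.le
    have e2 : (2 * (h : ℝ) + 1) / (2 * (h : ℝ) - 2 * k - 1)
        = (2 * k + 2) / (2 * (h : ℝ) - 2 * k - 1) + 1 := by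
      rw [div_eq_iff hp2.ne', add_mul, div_mul_cancel₀ _ hp2.ne']
      ring
    rw [e2]
    exact Real.add_one_le_exp _
  have b3 : -(((K + 1 : ℕ) : ℝ) * (((K + 1 : ℕ) : ℝ) + 1)) / ((h : ℝ) + k + 2)
      + (2 * k + 2) / (2 * (h : ℝ) - 2 * k - 1) * lam ≤ -(D / (2 * h)) := by
    have e3 : -(((K + 1 : ℕ) : ℝ) * (((K + 1 : ℕ) : ℝ) + 1)) / ((h : ℝ) + k + 2)
      + (2 * k + 2) / (2 * (h : ℝ) - 2 * k - 1) * lam
      = (-((k + 1) * (k + 2)) * ((h : ℝ) / ((h : ℝ) + (k + 2)))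
      + lam * (k + 1) * ((h : ℝ) / ((h : ℝ) + (-(k + 1 / 2))))) / h := by
      have q1 : (h : ℝ) + k + 2 ≠ 0 := by positivity
      have q2 : (h : ℝ) + (k + 2) ≠ 0 := by positivity
      have q3 : (h : ℝ) + (-(k + 1 / 2)) ≠ 0 := by linarith
      have q4 : 2 * (h : ℝ) - 2 * k - 1 ≠ 0 := hp2.ne'
      have q5 : (h : ℝ) ≠ 0 := hhpos.ne'
      have q6 : 2 * (h : ℝ) - 2 * k - 1 = 2 * ((h : ℝ) + (-(k + 1 / 2))) := by ring
      rw [q6, show (h : ℝ) + k + 2 = (h : ℝ) + (k + 2) by ring]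
      push_cast
      rw [← hk]
      generalize hX : (h : ℝ) + (k + 2) = X at *
      generalize hY : (h : ℝ) + (-(k + 1 / 2)) = Y at *
      field_simp
      ring
    rw [e3, ← neg_div, div_le_div_iff₀ hhpos (by positivity)]
    nlinarith
  have hC : (0 : ℝ) ≤ ((2 * h + 1).choose (h + 1) : ℝ) := by positivity
  have b4 : Real.exp (-(D / (2 * h))) ≤ 1 - 1 / (2 * (h : ℝ) + 1) ^ 2 := by
    have ht0 : 0 < D / (2 * h) := by positivity
    have ht1 : D / (2 * h) ≤ 1 := by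
      rw [div_le_one (by positivity)]; linarith
    have c1 : Real.exp (-(D / (2 * h))) ≤ 1 - D / (2 * h) / 2 := by
      rw [Real.exp_neg]
      have := Real.add_one_le_exp (D / (2 * h))
      rw [inv_le_comm₀ (Real.exp_pos _) (by linarith)]
      refine le_trans ?_ this
      rw [inv_le_comm₀ (by linarith) (by linarith)]
      rw [inv_eq_one_div, div_le_iff₀ (by linarith)]
      nlinarith
    have c2 : 1 / (2 * (h : ℝ) + 1) ^ 2 ≤ D / (2 * h) / 2 := by
      rw [div_div, div_le_div_iff₀ (by positivity) (by positivity)]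
      have : 1 ≤ D * h := by
        rw [div_le_iff₀ hDpos] at a4
        linarith
      nlinarith
    linarith
  calc ((2 * h + 1).choose (h + K + 2) : ℝ) * ((2 * (h : ℝ) + 1) / (2 * (h : ℝ) - 2 * k - 1)) ^ lam
      ≤ (((2 * h + 1).choose (h + 1) : ℝ) *
          Real.exp (-(((K + 1 : ℕ) : ℝ) * (((K + 1 : ℕ) : ℝ) + 1)) / ((h : ℝ) + k + 2))) *
          Real.exp ((2 * k + 2) / (2 * (h : ℝ) - 2 * k - 1) * lam) := by
        apply mul_le_mul b1 b2 (by positivity) (by positivity)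
    _ = ((2 * h + 1).choose (h + 1) : ℝ) *
          Real.exp (-(((K + 1 : ℕ) : ℝ) * (((K + 1 : ℕ) : ℝ) + 1)) / ((h : ℝ) + k + 2)
            + (2 * k + 2) / (2 * (h : ℝ) - 2 * k - 1) * lam) := by
        rw [Real.exp_add, mul_assoc]
    _ ≤ ((2 * h + 1).choose (h + 1) : ℝ) * (1 - 1 / (2 * (h : ℝ) + 1) ^ 2) := by
        apply mul_le_mul_of_nonneg_left _ hC
        exact (Real.exp_le_exp.2 b3).trans b4
    _ = _ := by ring

end Pool.Agent.Helper46.R.J11c
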