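import Pool.Agent.Helper46.R.J11a
import Pool.Agent.Helper46.R.J11b
import Pool.Agent.Helper46.R.J11c

set_option autoImplicit false

namespace Pool.Agent.Helper46.R

open Finset Filter

theorem binom (K : ℕ) (lam : ℝ) (h0 : 0 < lam) (h1 : lam < 2 * ((K : ℝ) + 1) ^ 2 / (2 * K + 1)) :
    ∃ n0 : ℕ, ∀ n : ℕ, n0 ≤ n → ∀ r : ℕ, n + 2 * K + 2 ≤ 2 * r → r ≤ n →
      (n.choose r : ℝ) * ((n : ℝ) / ((2 * (n - r) + 1 : ℕ) : ℝ)) ^ lam ≤
        (1 - 1 / (n : ℝ) ^ 2) * (n.choose ((n + 1) / 2) : ℝ) := by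
  have hK0 : (0 : ℝ) ≤ (K : ℝ) := by positivity
  have hE : lam * (2 * K + 1) < 2 * ((K : ℝ) + 1) ^ 2 := by
    rwa [lt_div_iff₀ (by positivity)] at h1
  have hO : lam < (K : ℝ) + 2 := by
    by_contra hcon
    push Not at hcon
    have : ((K : ℝ) + 2) * (2 * K + 1) ≤ lam * (2 * K + 1) :=
      mul_le_mul_of_nonneg_right hcon (by positivity)
    nlinarith
  obtain ⟨n1, H1⟩ := J11a.binom_step K lam h0 (by linarith)
  obtain ⟨h2, H2⟩ := J11b.binom_even K lam h0 hE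
  obtain ⟨h3, H3⟩ := J11c.binom_odd K lam h0 hO
  refine ⟨n1 + 2 * h2 + 2 * h3 + 2 * K + 10, fun n hn r hr hrn => ?_⟩
  -- decreasing in `r`
  set r0 : ℕ := (n + 2 * K + 3) / 2 with hr0
  have hr0r : r0 ≤ r := by omega
  have hdec : ∀ s : ℕ, r0 ≤ s → s ≤ n →
      (n.choose s : ℝ) * ((n : ℝ) / ((2 * (n - s) + 1 : ℕ) : ℝ)) ^ lam ≤
        (n.choose r0 : ℝ) * ((n : ℝ) / ((2 * (n - r0) + 1 : ℕ) : ℝ)) ^ lam := by
    intro s hs
    induction s, hs using Nat.le_induction with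
    | base => intro _; exact le_refl _
    | succ s hs ih =>
      intro hsn
      exact (H1 n (by omega) s (by omega) hsn).trans (ih (by omega))
  refine (hdec r hr0r hrn).trans ?_
  rcases Nat.even_or_odd' n with ⟨h, rfl | rfl⟩
  · have e1 : r0 = h + K + 1 := by omega
    have e2 : (2 * h + 1) / 2 = h := by omega
    rw [e1, e2]
    have e3 : ((2 * (2 * h - (h + K + 1)) + 1 : ℕ) : ℝ) = 2 * (h : ℝ) - 2 * K - 1 := by
      have : 2 * (2 * h - (h + K + 1)) + 1 + 2 * K + 1 = 2 * h := by omega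
      have h' : ((2 * (2 * h - (h + K + 1)) + 1 + 2 * K + 1 : ℕ) : ℝ) = ((2 * h : ℕ) : ℝ) := by rw [this]
      push_cast at h' ⊢
      linarith
    rw [e3]
    have := H2 h (by omega)
    push_cast
    exact this
  · have e1 : r0 = h + K + 2 := by omega
    have e2 : (2 * h + 1 + 1) / 2 = h + 1 := by omega
    rw [e1, e2]
    have e3 : ((2 * (2 * h + 1 - (h + K + 2)) + 1 : ℕ) : ℝ) = 2 * (h : ℝ) - 2 * K - 1 := by
      have : 2 * (2 * h + 1 - (h + K + 2)) + 1 + 2 * K + 1 = 2 * h := by omega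
      have h' : ((2 * (2 * h + 1 - (h + K + 2)) + 1 + 2 * K + 1 : ℕ) : ℝ) = ((2 * h : ℕ) : ℝ) := by rw [this]
      push_cast at h' ⊢
      linarith
    rw [e3]
    have := H3 h (by omega)
    push_cast
    exact this

end Pool.Agent.Helper46.R
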