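import Pool.Agent.Helper46.R.Main
import Pool.Agent.Helper46.A.F

set_option autoImplicit false

namespace Pool.Agent.Helper46.R

open Finset Filter

/-- the matroids with ground set `Fin n` -/
abbrev XM (n : ℕ) : Type := {M : Matroid (Fin n) // M.E = Set.univ}

/-- isomorphism -/
abbrev RR (n : ℕ) : XM n → XM n → Prop := fun M N =>
  ∃ σ : Equiv.Perm (Fin n), ∀ B : Set (Fin n), M.1.IsBase B ↔ N.1.IsBase (σ '' B)

/-- the rank is within `K + 1/2` of `n / 2` -/
def Cen (K : ℕ) {n : ℕ} (M : Matroid (Fin n)) : Prop :=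
  ∀ B : Set (Fin n), M.IsBase B → n ≤ 2 * B.ncard + (2 * K + 1) ∧ 2 * B.ncard ≤ n + (2 * K + 1)

/-- the non-central ranks -/
def badR (K n : ℕ) : Finset ℕ :=
  (range (n + 1)).filter (fun r => n + 2 * K + 2 ≤ 2 * r ∨ 2 * r + 2 * K + 2 ≤ n)

theorem classes_lower (n c : ℕ) (hc : c ≤ n) :
    ((BF n c).card : ℝ) ≤ (Nat.card (Quot (RR n)) : ℝ) * (n.factorial : ℝ) := by
  have h1 : ((BF n c).card : ℝ) ≤ A.mm n := by
    unfold A.mm
    exact single_le_sum (f := fun r => ((BF n r).card : ℝ)) (fun _ _ => by positivity)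
      (mem_range.2 (by omega))
  have h2 := A.F.mm_le_22726 n
  have h3 : (Nat.card (A.F.XM_22726 n) : ℝ) ≤
      (Nat.card (Quot (RR n)) : ℝ) * (n.factorial : ℝ) := by
    exact_mod_cast A.F.card_le_22726 n
  exact h1.trans (h2.trans h3)

theorem classes_bad (K n : ℕ) :
    (Nat.card {q : Quot (RR n) // ¬ ∀ M : XM n, q = Quot.mk _ M → Cen K M.1} : ℝ) ≤
      ∑ r ∈ badR K n, ((BF n r).card : ℝ) := by
  classical
  haveI : Finite (XM n) := A.F.finX_22726 n
  have hex : ∀ q : {q : Quot (RR n) // ¬ ∀ M : XM n, q = Quot.mk _ M → Cen K M.1},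
      ∃ M : XM n, q.1 = Quot.mk _ M ∧ ¬ Cen K M.1 := by
    rintro ⟨q, hq⟩
    push Not at hq
    exact hq
  choose f hf1 hf2 using hex
  have hmem : ∀ q, A.F.bs_22726 (f q).1 ∈ (badR K n).biUnion (fun r => BF n r) := by
    intro q
    obtain ⟨r, hrn, hr⟩ := A.F.bs_isBF_22726 (f q).1
    rw [mem_biUnion]
    refine ⟨r, ?_, ?_⟩
    · have h2 := hf2 q
      unfold Cen at h2
      push Not at h2
      obtain ⟨B, hB, h3⟩ := h2
      lift B to Finset (Fin n) using B.toFinite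
      have h4 : B ∈ A.F.bs_22726 (f q).1 := (A.F.mem_bs_22726 _ _).2 hB
      have h5 := hr.card B h4
      rw [Set.ncard_coe_finset, h5] at h3
      rw [badR, mem_filter, mem_range]
      refine ⟨by omega, ?_⟩
      by_contra hcon
      push Not at hcon
      have := h3 (by omega)
      omega
    · rw [A.BF, mem_filter]
      exact ⟨mem_univ _, hr⟩
  have hinj : Function.Injective (fun q => (⟨A.F.bs_22726 (f q).1, hmem q⟩ :
      {B : Fam n // B ∈ (badR K n).biUnion (fun r => BF n r)})) := by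
    intro q q' h
    have h1 : A.F.bs_22726 (f q).1 = A.F.bs_22726 (f q').1 := by
      simpa using h
    have h2 : f q = f q' := A.F.bs_inj_22726 h1
    apply Subtype.ext
    rw [hf1 q, hf1 q', h2]
  have h3 := Nat.card_le_card_of_injective _ hinj
  have h4 : Nat.card {B : Fam n // B ∈ (badR K n).biUnion (fun r => BF n r)} =
      ((badR K n).biUnion (fun r => BF n r)).card := by
    rw [Nat.card_eq_fintype_card, Fintype.card_coe]
  rw [h4] at h3
  have h5 := h3.trans card_biUnion_le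
  exact_mod_cast h5

theorem classes_split (K n : ℕ) :
    (Nat.card (Quot (RR n)) : ℝ) =
      (Nat.card {q : Quot (RR n) // ∀ M : XM n, q = Quot.mk _ M → Cen K M.1} : ℝ) +
      (Nat.card {q : Quot (RR n) // ¬ ∀ M : XM n, q = Quot.mk _ M → Cen K M.1} : ℝ) := by
  classical
  haveI : Finite (XM n) := A.F.finX_22726 n
  haveI : Finite (Quot (RR n)) := Quot.finite _
  haveI : Fintype (Quot (RR n)) := Fintype.ofFinite _
  rw [Nat.card_eq_fintype_card, Nat.card_eq_fintype_card, Nat.card_eq_fintype_card]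
  have := Fintype.card_subtype_compl (fun q : Quot (RR n) => ∀ M : XM n, q = Quot.mk _ M → Cen K M.1)
  have h2 := Fintype.card_subtype_le (fun q : Quot (RR n) => ∀ M : XM n, q = Quot.mk _ M → Cen K M.1)
  rw [this, Nat.cast_sub h2]
  ring

/-- the proportion of central classes -/
noncomputable def prop (K n : ℕ) : ℝ :=
  (Nat.card {q : Quot (RR n) // ∀ M : XM n, q = Quot.mk _ M → Cen K M.1} : ℝ) /
    (Nat.card (Quot (RR n)) : ℝ)

theorem S_mid_two {n : ℕ} (hn : 2 ≤ n) : 2 ≤ (S n ((n + 1) / 2) : ℝ) := by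
  have h := A.B6.st_le_BF (n := n) (r := (n + 1) / 2) (by omega) (by omega)
  have h1 := A.B1.st_lower (n := n) (by omega) (powersetCard ((n + 1) / 2) (univ : Finset (Fin n)))
  have h2 : (1 : ℝ) ≤ ((A.St (powersetCard ((n + 1) / 2) (univ : Finset (Fin n)))).card : ℝ) :=
    le_trans (Real.one_le_rpow (by norm_num) (by positivity)) h1
  have h3 : ((A.St (powersetCard ((n + 1) / 2) (univ : Finset (Fin n)))).card : ℝ) ≤
      (BF n ((n + 1) / 2)).card := by exact_mod_cast h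
  unfold S
  push_cast
  linarith

theorem good_of_record (K : ℕ) (lam : ℝ) (h0 : 0 < lam)
    (h1 : lam < 2 * ((K : ℝ) + 1) ^ 2 / (2 * K + 1)) :
    ∃ n0 : ℕ, ∀ n : ℕ, n0 ≤ n →
      (∀ m : ℕ, 1 ≤ m → m < n → b n - b m < lam * (Real.log n - Real.log m)) →
      1 - 1 / 2 ^ n ≤ prop K n := by
  classical
  obtain ⟨n1, H1⟩ := binom K lam h0 h1
  obtain ⟨n2, H2⟩ := eventually_atTop.1 J12.numtail
  refine ⟨n1 + n2 + 2, fun n hn hrec => ?_⟩
  have hn2 : 2 ≤ n := by omega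
  set c := (n + 1) / 2 with hc
  set x : ℝ := (n.choose c : ℝ) / (n : ℝ) ^ 3 with hx
  have hSc := S_mid_two hn2
  have hbad : (Nat.card {q : Quot (RR n) // ¬ ∀ M : XM n, q = Quot.mk _ M → Cen K M.1} : ℝ) ≤
      ((n : ℝ) + 1) * ((S n c : ℝ) * (2 : ℝ) ^ (-x)) := by
    refine (classes_bad K n).trans ?_
    have h2 : ∀ r ∈ badR K n, ((BF n r).card : ℝ) ≤ (S n c : ℝ) * (2 : ℝ) ^ (-x) := by
      intro r hr
      rw [badR, mem_filter, mem_range] at hr
      exact key_count hn2 h0 hrec (fun r h3 h4 => H1 n (by omega) r h3 h4) r (by omega) hr.2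
    refine (sum_le_card_nsmul _ _ _ h2).trans ?_
    rw [nsmul_eq_mul]
    have h3 : ((badR K n).card : ℝ) ≤ (n : ℝ) + 1 := by
      have : (badR K n).card ≤ n + 1 := by
        have := card_filter_le (range (n + 1)) (fun r => n + 2 * K + 2 ≤ 2 * r ∨ 2 * r + 2 * K + 2 ≤ n)
        rwa [card_range] at this
      exact_mod_cast this
    exact mul_le_mul_of_nonneg_right h3 (by positivity)
  have hT := classes_lower n c (by omega)
  have hBF : (S n c : ℝ) / 2 ≤ ((BF n c).card : ℝ) := by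
    have h4 : (S n c : ℝ) = ((BF n c).card : ℝ) + 1 := by unfold S; push_cast; ring
    linarith
  have hTpos : 0 < (Nat.card (Quot (RR n)) : ℝ) := by
    by_contra hcon
    have h5 : (Nat.card (Quot (RR n)) : ℝ) = 0 := le_antisymm (not_lt.1 hcon) (by positivity)
    rw [h5, zero_mul] at hT
    linarith
  have hnum := H2 n (by omega)
  have hsplit := classes_split K n
  unfold prop
  rw [le_div_iff₀ hTpos]
  set T : ℝ := (Nat.card (Quot (RR n)) : ℝ)
  set B : ℝ := (Nat.card {q : Quot (RR n) // ¬ ∀ M : XM n, q = Quot.mk _ M → Cen K M.1} : ℝ)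
  -- `B ≤ T / 2 ^ n`
  have h6 : B * 2 ^ n ≤ T := by
    have hfac : ((n + 1).factorial : ℝ) = ((n : ℝ) + 1) * (n.factorial : ℝ) := by
      rw [Nat.factorial_succ]; push_cast; ring
    have hx2 : (0 : ℝ) < (2 : ℝ) ^ x := by positivity
    have h7 : (2 : ℝ) ^ (-x) * (2 : ℝ) ^ x = 1 := by
      rw [← Real.rpow_add (by norm_num)]; simp
    have h8 : (S n c : ℝ) ≤ 2 * (T * (n.factorial : ℝ)) := by linarith
    have h9 : B * 2 ^ n * (2 : ℝ) ^ x ≤ T * (2 : ℝ) ^ x := by
      calc B * 2 ^ n * (2 : ℝ) ^ x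
          ≤ (((n : ℝ) + 1) * ((S n c : ℝ) * (2 : ℝ) ^ (-x))) * 2 ^ n * (2 : ℝ) ^ x := by gcongr
        _ = ((n : ℝ) + 1) * (S n c : ℝ) * 2 ^ n * ((2 : ℝ) ^ (-x) * (2 : ℝ) ^ x) := by ring
        _ = ((n : ℝ) + 1) * (S n c : ℝ) * 2 ^ n := by rw [h7, mul_one]
        _ ≤ ((n : ℝ) + 1) * (2 * (T * (n.factorial : ℝ))) * 2 ^ n := by gcongr
        _ = T * (2 * ((n + 1).factorial : ℝ) * 2 ^ n) := by rw [hfac]; ring
        _ ≤ T * (2 : ℝ) ^ x := mul_le_mul_of_nonneg_left hnum hTpos.le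
    exact le_of_mul_le_mul_right h9 hx2
  have h10 : B ≤ 1 / 2 ^ n * T := by
    rw [one_div, inv_mul_eq_div, le_div_iff₀ (by positivity)]
    exact h6
  rw [sub_mul, one_mul]
  linarith

/-- main theorem -/
theorem main (K : ℕ) (ε : ℝ) (hε : 0 < ε) :
    ∃ N0 : ℕ, ∀ N : ℕ, N0 ≤ N →
      (1 - (2 * (K : ℝ) + 1) / (2 * ((K : ℝ) + 1) ^ 2) - ε) * Real.log N ≤
        ∑ n ∈ (Icc 1 N).filter (fun n : ℕ => 1 - 1 / 2 ^ n ≤ prop K n), (1 : ℝ) / n := by
  classical
  have hK0 : (0 : ℝ) ≤ (K : ℝ) := by positivity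
  set u : ℝ := (2 * (K : ℝ) + 1) / (2 * ((K : ℝ) + 1) ^ 2) with hu
  have hu0 : 0 < u := by positivity
  have hu1 : u ≤ 1 / 2 := by
    rw [hu, div_le_div_iff₀ (by positivity) (by norm_num)]
    nlinarith
  set δ : ℝ := min (ε / 2) (1 / 4) with hδ
  have hδ0 : 0 < δ := lt_min (by linarith) (by norm_num)
  have hδ1 : δ ≤ ε / 2 := min_le_left _ _
  have hδ2 : δ ≤ 1 / 4 := min_le_right _ _
  set lam : ℝ := 1 / (u + δ) with hlam
  have hl1 : 1 < lam := by
    rw [hlam, lt_div_iff₀ (by positivity)]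
    linarith
  have hl2 : lam < 2 * ((K : ℝ) + 1) ^ 2 / (2 * K + 1) := by
    have e : 2 * ((K : ℝ) + 1) ^ 2 / (2 * K + 1) = 1 / u := by
      rw [hu, one_div_div]
    rw [e, hlam]
    exact one_div_lt_one_div_of_lt hu0 (by linarith)
  have hl3 : 1 / lam = u + δ := by rw [hlam, one_div_one_div]
  obtain ⟨C, hC⟩ := b_upper
  obtain ⟨C', hC'⟩ := J10.records b (fun m n _ h => b_mono m n h) C hC lam hl1
  obtain ⟨n0, hn0⟩ := good_of_record K lam (by linarith) hl2
  set D : ℝ := ∑ n ∈ range n0, (1 : ℝ) / n with hD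
  obtain ⟨N1, hN1⟩ := eventually_atTop.1
    ((Real.tendsto_log_atTop.comp tendsto_natCast_atTop_atTop).eventually_ge_atTop (2 * (C' + D) / ε))
  refine ⟨N1 + 1, fun N hN => ?_⟩
  have hlog : 2 * (C' + D) / ε ≤ Real.log N := hN1 N (by omega)
  have hlog0 : 0 ≤ Real.log N := Real.log_natCast_nonneg N
  have h1 := hC' N (by omega)
  rw [hl3] at h1
  set R := (Icc 2 N).filter (fun n : ℕ => ∀ m : ℕ, 1 ≤ m → m < n →
          b n - b m < lam * (Real.log n - Real.log m)) with hR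
  set G := (Icc 1 N).filter (fun n : ℕ => 1 - 1 / 2 ^ n ≤ prop K n) with hG
  have hsub : R ⊆ range n0 ∪ G := by
    intro n hn
    rw [hR, mem_filter, mem_Icc] at hn
    rw [mem_union, mem_range]
    rcases lt_or_ge n n0 with h | h
    · exact Or.inl h
    · right
      rw [hG, mem_filter, mem_Icc]
      exact ⟨⟨by omega, hn.1.2⟩, hn0 n h hn.2⟩
  have h2 : ∑ n ∈ R, (1 : ℝ) / n ≤ D + ∑ n ∈ G, (1 : ℝ) / n := by
    refine (sum_le_sum_of_subset_of_nonneg hsub (fun n _ _ => by positivity)).trans ?_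
    have := sum_union_inter (s₁ := range n0) (s₂ := G) (f := fun n : ℕ => (1 : ℝ) / n)
    have h3 : 0 ≤ ∑ n ∈ range n0 ∩ G, (1 : ℝ) / n := sum_nonneg (fun n _ => by positivity)
    linarith
  have h4 : C' + D ≤ ε / 2 * Real.log N := by
    rw [div_le_iff₀ hε] at hlog
    linarith
  have h5 : δ * Real.log N ≤ ε / 2 * Real.log N := mul_le_mul_of_nonneg_right hδ1 hlog0
  have h6 : (1 - (u + δ)) * Real.log N = (1 - u - ε) * Real.log N + ε * Real.log N - δ * Real.log N := by ring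
  linarith

end Pool.Agent.Helper46.R
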