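import Pool.Agent.Helper46.A.Defs

set_option autoImplicit false

namespace Pool.Agent.Helper46.R

open Finset

export Pool.Agent.Helper46.A (Fam IsBF BF)

/-- number of base families of rank `r` on `Fin n`, plus one (for the empty family) -/
noncomputable def S (n r : ℕ) : ℕ := (BF n r).card + 1

noncomputable def phi (n r : ℕ) : ℝ := Real.log (S n r) / (n.choose r : ℝ)

noncomputable def a (m : ℕ) : ℝ := phi m ((m + 1) / 2)

end Pool.Agent.Helper46.R
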