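import Pool.Agent.Helper46.R.GDefs

set_option autoImplicit false

namespace Pool.Agent.Helper46.R

open Finset

open Classical in
/-- contraction of `e` -/
noncomputable def gm_rec_con {n : ℕ} (e : Fin (n + 1)) (B : Fam (n + 1)) : Fam n :=
  univ.filter (fun X => insert e (X.map e.succAboveEmb) ∈ B)

open Classical in
/-- deletion of `e` -/
noncomputable def gm_rec_del {n : ℕ} (e : Fin (n + 1)) (B : Fam (n + 1)) : Fam n :=
  univ.filter (fun X => X.map e.succAboveEmb ∈ B)

theorem gm_rec_memc {n : ℕ} (e : Fin (n + 1)) (B : Fam (n + 1)) (X : Finset (Fin n)) :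
    X ∈ gm_rec_con e B ↔ insert e (X.map e.succAboveEmb) ∈ B := by
  classical
  unfold gm_rec_con
  rw [mem_filter]
  constructor
  · intro h; convert h.2
  · intro h; refine ⟨mem_univ _, ?_⟩; convert h

theorem gm_rec_memd {n : ℕ} (e : Fin (n + 1)) (B : Fam (n + 1)) (X : Finset (Fin n)) :
    X ∈ gm_rec_del e B ↔ X.map e.succAboveEmb ∈ B := by
  classical
  unfold gm_rec_del
  rw [mem_filter]
  exact ⟨fun h => h.2, fun h => ⟨mem_univ _, h⟩⟩

theorem gm_rec_hnot {n : ℕ} (e : Fin (n + 1)) (X : Finset (Fin n)) : e ∉ X.map e.succAboveEmb := by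
  intro h
  rw [mem_map] at h
  obtain ⟨i, _, hi⟩ := h
  exact Fin.succAbove_ne e i hi

theorem gm_rec_map_surj {n : ℕ} (e : Fin (n + 1)) (X : Finset (Fin (n + 1))) (h : e ∉ X) :
    (univ.filter (fun i => e.succAbove i ∈ X)).map e.succAboveEmb = X := by
  ext y
  simp only [mem_map, mem_filter, mem_univ, true_and, Fin.succAboveEmb_apply]
  constructor
  · rintro ⟨i, hi, rfl⟩
    exact hi
  · intro hy
    have hne : y ≠ e := by
      rintro rfl
      exact h hy
    obtain ⟨i, rfl⟩ := Fin.exists_succAbove_eq hne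
    exact ⟨i, hy, rfl⟩

theorem gm_rec_key {n : ℕ} (e : Fin (n + 1)) (Z : Finset (Fin (n + 1))) (hZ : e ∈ Z) :
    insert e ((univ.filter (fun i => e.succAbove i ∈ Z)).map e.succAboveEmb) = Z := by
  ext y
  simp only [mem_insert, mem_map, mem_filter, mem_univ, true_and, Fin.succAboveEmb_apply]
  constructor
  · rintro (rfl | ⟨i, hi, rfl⟩)
    · exact hZ
    · exact hi
  · intro hy
    by_cases h : y = e
    · left; exact h
    · right
      obtain ⟨i, rfl⟩ := Fin.exists_succAbove_eq h
      exact ⟨i, hy, rfl⟩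

theorem gm_rec_con_mem {n r : ℕ} (e : Fin (n + 1)) (B : Fam (n + 1)) (hB' : IsBF (r + 1) B)
    (h0 : gm_rec_con e B ≠ ∅) : IsBF r (gm_rec_con e B) := by
  have hins : ∀ (X : Finset (Fin n)) (i : Fin n),
      e.succAbove i ∈ insert e (X.map e.succAboveEmb) ↔ i ∈ X := by
    intro X i
    rw [mem_insert]
    constructor
    · rintro (h | h)
      · exact absurd h (Fin.succAbove_ne e i)
      · rw [mem_map] at h
        obtain ⟨k, hk, hk'⟩ := h
        rwa [← (Fin.succAbove_right_injective hk')]
    · intro h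
      right
      exact mem_map.2 ⟨i, h, rfl⟩
  refine ⟨nonempty_iff_ne_empty.2 h0, ?_, ?_⟩
  · intro X hX
    have h1 := hB'.card _ ((gm_rec_memc e B X).1 hX)
    rw [card_insert_of_notMem (gm_rec_hnot e X), card_map] at h1
    omega
  · intro X hX Y hY x hx
    rw [mem_sdiff] at hx
    obtain ⟨y, hy, hy'⟩ := hB'.exch _ ((gm_rec_memc e B X).1 hX) _ ((gm_rec_memc e B Y).1 hY)
      (e.succAbove x) (mem_sdiff.2 ⟨(hins X x).2 hx.1, fun h => hx.2 ((hins Y x).1 h)⟩)
    rw [mem_sdiff] at hy
    have hye : y ≠ e := by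
      rintro rfl
      exact hy.2 (mem_insert_self _ _)
    obtain ⟨y', rfl⟩ := Fin.exists_succAbove_eq hye
    refine ⟨y', mem_sdiff.2 ⟨(hins Y y').1 hy.1, fun h => hy.2 ((hins X y').2 h)⟩, ?_⟩
    rw [gm_rec_memc, map_insert, map_erase]
    have e1 : insert e (insert (e.succAboveEmb y') ((X.map e.succAboveEmb).erase
        (e.succAboveEmb x))) = insert (e.succAbove y')
        ((insert e (X.map e.succAboveEmb)).erase (e.succAbove x)) := by
      rw [Finset.insert_comm, erase_insert_of_ne (Fin.succAbove_ne e x).symm]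
      rfl
    rw [e1]
    exact hy'

theorem gm_rec_del_mem {n r : ℕ} (e : Fin (n + 1)) (B : Fam (n + 1)) (hBF : IsBF r B)
    (h0 : gm_rec_del e B ≠ ∅) : IsBF r (gm_rec_del e B) := by
  refine ⟨nonempty_iff_ne_empty.2 h0, ?_, ?_⟩
  · intro X hX
    have h1 := hBF.card _ ((gm_rec_memd e B X).1 hX)
    rwa [Finset.card_map] at h1
  · intro X hX Y hY x hx
    have hX' := (gm_rec_memd e B X).1 hX
    have hY' := (gm_rec_memd e B Y).1 hY
    have hx1 := (Finset.mem_sdiff.1 hx).1
    have hx2 := (Finset.mem_sdiff.1 hx).2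
    obtain ⟨y, hy, hy2⟩ := hBF.exch _ hX' _ hY' (e.succAboveEmb x) (by
      rw [Finset.mem_sdiff, Finset.mem_map', Finset.mem_map']
      exact ⟨hx1, hx2⟩)
    rw [Finset.mem_sdiff] at hy
    obtain ⟨y0, hy0, rfl⟩ := Finset.mem_map.1 hy.1
    have hy3 : y0 ∉ X := by
      intro h
      exact hy.2 (Finset.mem_map_of_mem _ h)
    refine ⟨y0, Finset.mem_sdiff.2 ⟨hy0, hy3⟩, (gm_rec_memd e B _).2 ?_⟩
    rw [Finset.map_insert, Finset.map_erase]
    exact hy2

theorem gm_rec_inj {n : ℕ} (e : Fin (n + 1)) (B B' : Fam (n + 1))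
    (h1 : gm_rec_con e B = gm_rec_con e B') (h2 : gm_rec_del e B = gm_rec_del e B') : B = B' := by
  ext Z
  by_cases hZ : e ∈ Z
  · have h3 := Finset.ext_iff.1 h1 (univ.filter (fun i => e.succAbove i ∈ Z))
    rw [gm_rec_memc, gm_rec_memc, gm_rec_key e Z hZ] at h3
    exact h3
  · have h3 := Finset.ext_iff.1 h2 (univ.filter (fun i => e.succAbove i ∈ Z))
    rw [gm_rec_memd, gm_rec_memd, gm_rec_map_surj e Z hZ] at h3
    exact h3

theorem gm_rec_empty_BF {n r : ℕ} : (∅ : Fam n) ∉ BF n r := by
  classical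
  intro h
  unfold BF at h
  exact Finset.not_nonempty_empty (mem_filter.1 h).2.ne

theorem gm_rec_empty_GF {n r : ℕ} (C : Finset (Fin n)) : (∅ : Fam n) ∉ GF n r C := by
  classical
  intro h
  unfold GF at h
  exact gm_rec_empty_BF (mem_filter.1 h).1

theorem gm_rec_one (n r m : ℕ) (C : Finset (Fin (n + 1))) (hC : C.card = m + 1) :
    (GF (n + 1) (r + 1) C).card + 1 ≤ S n (r + 1) * (gm n r m + 1) := by
  classical
  obtain ⟨e, he⟩ : C.Nonempty := by
    rw [← card_pos, hC]; exact Nat.succ_pos m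
  obtain ⟨C1, hC1⟩ : ∃ C1 : Finset (Fin n), C1 = univ.filter (fun i => e.succAbove i ∈ C) :=
    ⟨_, rfl⟩
  have hCe : insert e (C1.map e.succAboveEmb) = C := by
    rw [hC1]; exact gm_rec_key e C he
  have hC1c : C1.card = m := by
    have h1 := congrArg Finset.card hCe
    rw [card_insert_of_notMem (gm_rec_hnot e C1), card_map, hC] at h1
    omega
  have hgm : (GF n r C1).card ≤ gm n r m := by
    unfold gm
    exact Finset.le_sup (f := fun C => (GF n r C).card)
      (mem_powersetCard.2 ⟨subset_univ _, hC1c⟩)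
  have hmap : ∀ B ∈ insert ∅ (GF (n + 1) (r + 1) C),
      (gm_rec_del e B, gm_rec_con e B) ∈
        (insert ∅ (BF n (r + 1))) ×ˢ (insert ∅ (GF n r C1)) := by
    intro B hB
    rw [mem_product]
    rw [mem_insert] at hB
    rcases hB with rfl | hB
    · constructor
      · apply mem_insert.2
        left
        apply eq_empty_of_forall_notMem
        intro X hX
        exact absurd ((gm_rec_memd e _ X).1 hX) (notMem_empty _)
      · apply mem_insert.2
        left
        apply eq_empty_of_forall_notMem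
        intro X hX
        exact absurd ((gm_rec_memc e _ X).1 hX) (notMem_empty _)
    · unfold GF at hB
      obtain ⟨hB1, hB2⟩ := mem_filter.1 hB
      unfold BF at hB1
      have hB3 := (mem_filter.1 hB1).2
      constructor
      · apply mem_insert.2
        by_cases h0 : gm_rec_del e B = ∅
        · left; exact h0
        · right
          unfold BF
          exact mem_filter.2 ⟨mem_univ _, gm_rec_del_mem e B hB3 h0⟩
      · apply mem_insert.2
        by_cases h0 : gm_rec_con e B = ∅
        · left; exact h0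
        · right
          unfold GF
          refine mem_filter.2 ⟨?_, ?_⟩
          · unfold BF
            exact mem_filter.2 ⟨mem_univ _, gm_rec_con_mem e B hB3 h0⟩
          · intro X hX hCX
            apply hB2 _ ((gm_rec_memc e B X).1 hX)
            rw [← hCe]
            exact insert_subset_insert _ (map_subset_map.2 hCX)
  have hinj : Set.InjOn (fun B : Fam (n + 1) => (gm_rec_del e B, gm_rec_con e B))
      (insert ∅ (GF (n + 1) (r + 1) C) : Finset (Fam (n + 1))) := by
    intro B _ B' _ h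
    exact gm_rec_inj e B B' (congrArg Prod.snd h) (congrArg Prod.fst h)
  have hcard := Finset.card_le_card_of_injOn
    (fun B : Fam (n + 1) => (gm_rec_del e B, gm_rec_con e B)) hmap hinj
  rw [card_insert_of_notMem (gm_rec_empty_GF C), card_product,
    card_insert_of_notMem (gm_rec_empty_GF C1), card_insert_of_notMem gm_rec_empty_BF] at hcard
  refine hcard.trans ?_
  unfold S
  exact Nat.mul_le_mul le_rfl (Nat.succ_le_succ hgm)

theorem gm_rec (n r m : ℕ) : gm (n + 1) (r + 1) (m + 1) + 1 ≤ S n (r + 1) * (gm n r m + 1) := by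
  have hpos : 1 ≤ S n (r + 1) * (gm n r m + 1) := by
    unfold S
    exact Nat.mul_pos (Nat.succ_pos _) (Nat.succ_pos _)
  have hle : gm (n + 1) (r + 1) (m + 1) ≤ S n (r + 1) * (gm n r m + 1) - 1 := by
    conv_lhs => unfold gm
    apply Finset.sup_le
    intro C hC
    have h1 := gm_rec_one n r m C (mem_powersetCard.1 hC).2
    omega
  omega

end Pool.Agent.Helper46.R
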