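import Pool.Agent.Helper46.R.GDefs

set_option autoImplicit false

namespace Pool.Agent.Helper46.R

open Finset

theorem gm_zero (n r : ℕ) : gm n r 0 = 0 := by
  classical
  unfold gm
  rw [Finset.powersetCard_zero, Finset.sup_singleton, Finset.card_eq_zero]
  unfold GF
  rw [Finset.filter_eq_empty_iff]
  intro B hB h
  have hB' : IsBF r B := by
    unfold BF at hB
    simpa using hB
  obtain ⟨X, hX⟩ := hB'.ne
  exact h X hX (Finset.empty_subset X)

theorem gm_log (rec : ∀ n r m : ℕ, gm (n + 1) (r + 1) (m + 1) + 1 ≤ S n (r + 1) * (gm n r m + 1))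
    (A : ℝ) (m : ℕ) : ∀ n r : ℕ, m ≤ r → r < n →
    (∀ i : ℕ, i < m → phi (n - 1 - i) (r - i) ≤ A) →
    Real.log ((gm n r m : ℝ) + 1) ≤ A * ((n.choose r : ℝ) - ((n - m).choose (r - m) : ℝ)) := by
  induction m with
  | zero =>
    intro n r _ _ _
    rw [gm_zero]
    simp
  | succ m ih =>
    intro n r hmr hrn hA
    obtain ⟨n, rfl⟩ : ∃ k, n = k + 1 := ⟨n - 1, by omega⟩
    obtain ⟨r, rfl⟩ : ∃ k, r = k + 1 := ⟨r - 1, by omega⟩
    have h0 : phi n (r + 1) ≤ A := by
      have := hA 0 (Nat.succ_pos m)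
      simpa using this
    have hIH := ih n r (by omega) (by omega) (by
      intro i hi
      have := hA (i + 1) (by omega)
      have e1 : n + 1 - 1 - (i + 1) = n - 1 - i := by omega
      have e2 : r + 1 - (i + 1) = r - i := by omega
      rwa [e1, e2] at this)
    have hrec := rec n r m
    have hS : (0 : ℝ) < (S n (r + 1) : ℝ) := by
      unfold S; positivity
    have hg : (0 : ℝ) < (gm n r m : ℝ) + 1 := by positivity
    have hch : (0 : ℝ) < (n.choose (r + 1) : ℝ) := by
      exact_mod_cast Nat.choose_pos (by omega)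
    have hrec' : ((gm (n + 1) (r + 1) (m + 1) : ℝ) + 1) ≤ (S n (r + 1) : ℝ) * ((gm n r m : ℝ) + 1) := by
      exact_mod_cast hrec
    have hl1 : Real.log ((gm (n + 1) (r + 1) (m + 1) : ℝ) + 1) ≤
        Real.log (S n (r + 1) : ℝ) + Real.log ((gm n r m : ℝ) + 1) := by
      rw [← Real.log_mul hS.ne' hg.ne']
      exact Real.log_le_log (by positivity) hrec'
    have hl2 : Real.log (S n (r + 1) : ℝ) ≤ A * (n.choose (r + 1) : ℝ) := by
      have : phi n (r + 1) * (n.choose (r + 1) : ℝ) = Real.log (S n (r + 1) : ℝ) := by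
        unfold phi
        field_simp
      rw [← this]
      exact mul_le_mul_of_nonneg_right h0 hch.le
    have e3 : n + 1 - (m + 1) = n - m := by omega
    have e4 : r + 1 - (m + 1) = r - m := by omega
    rw [e3, e4, Nat.choose_succ_succ]
    push_cast
    have : A * ((n.choose r : ℝ) + (n.choose (r + 1) : ℝ) - ((n - m).choose (r - m) : ℝ)) =
        A * (n.choose (r + 1) : ℝ) + A * ((n.choose r : ℝ) - ((n - m).choose (r - m) : ℝ)) := by ring
    simp only [Nat.succ_eq_add_one]
    rw [this]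
    linarith

end Pool.Agent.Helper46.R
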