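import Mathlib

set_option autoImplicit false

namespace Pool.Agent.Helper46.R.G3

open Finset

theorem slow_tele (b : ℕ → ℝ) (M N L : ℕ) (hL : L ≤ M) (hMN : M ≤ N) (hLN : M + 1 ≤ N + 1 - L) :
    ∑ n ∈ Ico (M+1) (N+1), (b n - b (n - L)) =
      ∑ n ∈ Ico (N+1-L) (N+1), b n - ∑ n ∈ Ico (M+1-L) (M+1), b n := by
  rw [Finset.sum_sub_distrib]
  have hshift : ∑ n ∈ Ico (M+1) (N+1), b (n - L) = ∑ n ∈ Ico (M+1-L) (N+1-L), b n := by
    have := Finset.sum_Ico_add' (fun x => b (x - L)) (M+1-L) (N+1-L) L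
    have e1 : M + 1 - L + L = M + 1 := by omega
    have e2 : N + 1 - L + L = N + 1 := by omega
    rw [e1, e2] at this
    rw [← this]
    apply Finset.sum_congr rfl
    intro x _
    simp
  rw [hshift]
  have h1 := Finset.sum_Ico_consecutive b (show M+1-L ≤ M+1 by omega) (show M+1 ≤ N+1 by omega)
  have h2 := Finset.sum_Ico_consecutive b (show M+1-L ≤ N+1-L by omega)
    (show N+1-L ≤ N+1 by omega)
  linarith

open Classical in
theorem slow (b : ℕ → ℝ) (hmono : ∀ m n : ℕ, m ≤ n → b m ≤ b n) (C1 : ℝ)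
    (hb1 : ∀ n : ℕ, 1 ≤ n → b n ≤ Real.log n + C1)
    (hb2 : ∀ n : ℕ, 1 ≤ n → Real.log n - C1 ≤ b n) (δ : ℝ) (hδ : 0 < δ) :
    ∃ C : ℝ, 0 < C ∧ ∀ N : ℕ, 1 ≤ N → ∀ L : ℕ, 1 ≤ L →
      (((Ioc (N / 2) N).filter (fun n : ℕ => ¬ b n - b (n - L) < δ)).card : ℝ) ≤ C * L := by
  have hC1 : 0 ≤ C1 := by
    have h1 := hb1 1 le_rfl
    have h2 := hb2 1 le_rfl
    linarith
  have hlog8 : 0 < Real.log 8 := Real.log_pos (by norm_num)
  refine ⟨8 + (Real.log 8 + 2 * C1) / δ, by positivity, fun N hN L hL => ?_⟩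
  have hLpos : (0:ℝ) < L := by exact_mod_cast hL
  have hquot : 0 ≤ (Real.log 8 + 2 * C1) / δ := by positivity
  rcases Nat.lt_or_ge (8 * L) N with hlt | hge
  · -- main case
    set M := N / 2 with hM
    have hIoc : Ioc M N = Ico (M+1) (N+1) := by
      ext x; simp only [Finset.mem_Ioc, Finset.mem_Ico]; omega
    have hsum : δ * ((((Ioc M N).filter (fun n : ℕ => ¬ b n - b (n - L) < δ)).card : ℝ)) ≤
        ∑ n ∈ Ioc M N, (b n - b (n - L)) := by
      have h1 : ∑ n ∈ (Ioc M N).filter (fun n : ℕ => ¬ b n - b (n - L) < δ), (b n - b (n - L)) ≤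
          ∑ n ∈ Ioc M N, (b n - b (n - L)) := by
        apply Finset.sum_le_sum_of_subset_of_nonneg (Finset.filter_subset _ _)
        intro n _ _
        have := hmono (n - L) n (Nat.sub_le _ _)
        linarith
      have h2 := Finset.card_nsmul_le_sum
        ((Ioc M N).filter (fun n : ℕ => ¬ b n - b (n - L) < δ)) (fun n => b n - b (n - L)) δ
        (fun n hn => not_lt.1 (Finset.mem_filter.1 hn).2)
      rw [nsmul_eq_mul] at h2
      linarith
    rw [hIoc, slow_tele b M N L (by omega) (by omega) (by omega)] at hsum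
    have hup : ∑ n ∈ Ico (N+1-L) (N+1), b n ≤ L * b N := by
      have h := Finset.sum_le_card_nsmul (Ico (N+1-L) (N+1)) b (b N)
        (fun n hn => hmono n N (by have := (Finset.mem_Ico.1 hn).2; omega))
      rw [Nat.card_Ico, nsmul_eq_mul] at h
      have e : N + 1 - (N + 1 - L) = L := by omega
      rw [e] at h
      exact h
    have hlow : L * b (M+1-L) ≤ ∑ n ∈ Ico (M+1-L) (M+1), b n := by
      have h := Finset.card_nsmul_le_sum (Ico (M+1-L) (M+1)) b (b (M+1-L))
        (fun n hn => hmono _ n (Finset.mem_Ico.1 hn).1)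
      rw [Nat.card_Ico, nsmul_eq_mul] at h
      have e : M + 1 - (M + 1 - L) = L := by omega
      rw [e] at h
      exact h
    have hdiff : b N - b (M+1-L) ≤ Real.log 8 + 2 * C1 := by
      have h1 := hb1 N hN
      have h2 := hb2 (M+1-L) (by omega)
      have hle : (N : ℝ) ≤ 8 * ((M+1-L : ℕ) : ℝ) := by
        have : N ≤ 8 * (M+1-L) := by omega
        exact_mod_cast this
      have hpos : (0:ℝ) < ((M+1-L : ℕ) : ℝ) := by
        have : 0 < M+1-L := by omega
        exact_mod_cast this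
      have hNpos : (0:ℝ) < N := by exact_mod_cast hN
      have h3 : Real.log N ≤ Real.log 8 + Real.log ((M+1-L : ℕ) : ℝ) := by
        rw [← Real.log_mul (by norm_num) hpos.ne']
        exact Real.log_le_log hNpos hle
      linarith
    rw [← hIoc] at hsum
    have hfin : δ * ((((Ioc M N).filter (fun n : ℕ => ¬ b n - b (n - L) < δ)).card : ℝ)) ≤
        L * (Real.log 8 + 2 * C1) := by
      have : (L:ℝ) * (b N - b (M+1-L)) ≤ L * (Real.log 8 + 2 * C1) :=
        mul_le_mul_of_nonneg_left hdiff hLpos.le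
      nlinarith
    have hdiv : ((((Ioc M N).filter (fun n : ℕ => ¬ b n - b (n - L) < δ)).card : ℝ)) ≤
        (Real.log 8 + 2 * C1) / δ * L := by
      rw [div_mul_eq_mul_div, le_div_iff₀ hδ]
      linarith
    nlinarith
  · have hcard : ((Ioc (N / 2) N).filter (fun n : ℕ => ¬ b n - b (n - L) < δ)).card ≤ 8 * L := by
      calc ((Ioc (N / 2) N).filter (fun n : ℕ => ¬ b n - b (n - L) < δ)).card
          ≤ (Ioc (N / 2) N).card := Finset.card_filter_le _ _
        _ = N - N / 2 := Nat.card_Ioc _ _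
        _ ≤ 8 * L := by omega
    have hcast : (((Ioc (N / 2) N).filter (fun n : ℕ => ¬ b n - b (n - L) < δ)).card : ℝ) ≤
        8 * L := by exact_mod_cast hcard
    nlinarith

end Pool.Agent.Helper46.R.G3
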