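import Mathlib

set_option autoImplicit false

namespace Pool.Agent.Helper46.R.G4u

open Finset

theorem choose_ratio_step (n r : ℕ) (h : n + 1 ≤ 4 * (r + 1)) :
    (n + 1).choose (r + 1) ≤ 4 * n.choose r := by
  have e := Nat.add_one_mul_choose_eq n r
  have h1 : (n + 1).choose (r + 1) * (r + 1) ≤ (4 * n.choose r) * (r + 1) := by
    rw [← e]
    calc (n + 1) * n.choose r ≤ (4 * (r + 1)) * n.choose r := Nat.mul_le_mul_right _ h
      _ = (4 * n.choose r) * (r + 1) := by ring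
  exact Nat.le_of_mul_le_mul_right h1 (Nat.succ_pos r)

theorem choose_ratio (m : ℕ) : ∀ n r : ℕ, n + 4 * m ≤ 4 * r → r ≤ n →
    n.choose r ≤ 4 ^ m * (n - m).choose (r - m) := by
  induction m with
  | zero => intro n r _ _; simp
  | succ m ih =>
    intro n r h1 h2
    obtain ⟨r', rfl⟩ : ∃ r', r = r' + 1 := ⟨r - 1, by omega⟩
    obtain ⟨n', rfl⟩ : ∃ n', n = n' + 1 := ⟨n - 1, by omega⟩
    have h3 := choose_ratio_step n' r' (by omega)
    have h4 := ih n' r' (by omega) (by omega)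
    rw [show n' + 1 - (m + 1) = n' - m by omega, show r' + 1 - (m + 1) = r' - m by omega]
    calc (n' + 1).choose (r' + 1) ≤ 4 * n'.choose r' := h3
      _ ≤ 4 * (4 ^ m * (n' - m).choose (r' - m)) := Nat.mul_le_mul_left _ h4
      _ = 4 ^ (m + 1) * (n' - m).choose (r' - m) := by ring

theorem gnum_mid (n : ℕ) : 2 ^ n ≤ (n + 1) * n.choose ((n + 1) / 2) := by
  have h1 : n.choose ((n + 1) / 2) = n.choose (n / 2) := by
    have h := Nat.choose_symm (n := n) (k := n / 2) (Nat.div_le_self n 2)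
    rw [← h]
    congr 1
    omega
  rw [h1, ← Nat.sum_range_choose]
  calc ∑ k ∈ range (n + 1), n.choose k ≤ ∑ _k ∈ range (n + 1), n.choose (n / 2) :=
        Finset.sum_le_sum fun k _ => Nat.choose_le_middle k n
    _ = (n + 1) * n.choose (n / 2) := by simp

/-- final numerics -/
theorem gnum : ∃ n0 : ℕ, ∀ n : ℕ, n0 ≤ n → ∀ m : ℕ, 4 ^ m ≤ n →
    ((n : ℝ) + 1) * ((1 : ℝ) * (2 : ℝ) ^ (-((n.choose ((n + 1) / 2) : ℝ) / (n : ℝ) ^ 3)) +
      4 * (n.choose m : ℝ) * (2 : ℝ) ^ (-((1 / 4 : ℝ) ^ (2 * m) * (n.choose ((n + 1) / 2) : ℝ) / n))) *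
      (2 * (n.factorial : ℝ) * 2 ^ n) ≤ 1 := by
  have ht := tendsto_pow_const_div_const_pow_of_one_lt 8 (r := (2 : ℝ)) (by norm_num)
  have hev : ∀ᶠ n : ℕ in Filter.atTop, (n : ℝ) ^ 8 / 2 ^ n < 1 / 16 :=
    ht.eventually_lt_const (by norm_num)
  obtain ⟨n0, hn0⟩ := Filter.eventually_atTop.1 hev
  refine ⟨max n0 1, fun n hn m hm => ?_⟩
  set κ : ℝ := (1 / 4 : ℝ) ^ (2 * m) with hκ
  have hκ0 : 0 < κ := by positivity
  have hκ1 : κ ≤ 1 := pow_le_one₀ (by norm_num) (by norm_num)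
  have hn1 : 1 ≤ n := le_trans (le_max_right _ _) hn
  have hnR : (1 : ℝ) ≤ n := by exact_mod_cast hn1
  have hpos2 : (0 : ℝ) < 2 ^ n := by positivity
  have h6 : 16 * (n : ℝ) ^ 6 ≤ κ * 2 ^ n := by
    have h8 := hn0 n (le_trans (le_max_left _ _) hn)
    rw [div_lt_iff₀ hpos2] at h8
    have hm' : (4 : ℝ) ^ m ≤ n := by exact_mod_cast hm
    have hk : 1 ≤ κ * (n : ℝ) ^ 2 := by
      have e : κ * ((4 : ℝ) ^ m) ^ 2 = 1 := by
        rw [hκ, ← pow_mul, mul_comm m 2, ← mul_pow]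
        norm_num
      rw [← e]
      gcongr
    have hn6 : (0 : ℝ) ≤ 16 * (n : ℝ) ^ 6 := by positivity
    calc 16 * (n : ℝ) ^ 6 ≤ 16 * (n : ℝ) ^ 6 * (κ * (n : ℝ) ^ 2) := le_mul_of_one_le_right hn6 hk
      _ = κ * (16 * (n : ℝ) ^ 8) := by ring
      _ ≤ κ * 2 ^ n := by
        apply mul_le_mul_of_nonneg_left _ hκ0.le
        linarith
  set c : ℝ := (n.choose ((n + 1) / 2) : ℝ) with hc
  have hcm : (2 : ℝ) ^ n ≤ ((n : ℝ) + 1) * c := by
    have := gnum_mid n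
    rw [hc]
    exact_mod_cast this
  have hc0 : 0 ≤ c := by rw [hc]; positivity
  set X : ℝ := (n : ℝ) ^ 2 + 3 * n + 4 with hX
  have hX8 : X ≤ 8 * (n : ℝ) ^ 2 := by rw [hX]; nlinarith
  have hX0 : 0 < X := by positivity
  have hκc : 16 * (n : ℝ) ^ 6 ≤ κ * (((n : ℝ) + 1) * c) := by
    refine h6.trans (mul_le_mul_of_nonneg_left hcm hκ0.le)
  have hn2 : (n : ℝ) + 1 ≤ 2 * n := by linarith
  -- second exponent
  have hE2 : X ≤ κ * c / n := by
    rw [le_div_iff₀ (by linarith)]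
    have h1 : κ * (((n : ℝ) + 1) * c) ≤ (2 * n) * (κ * c) := by
      have : 0 ≤ κ * c := by positivity
      nlinarith
    have h2 : 8 * (n : ℝ) ^ 5 ≤ κ * c := by
      have h3 : (2 * (n : ℝ)) * (8 * (n : ℝ) ^ 5) ≤ (2 * n) * (κ * c) := by
        calc (2 * (n : ℝ)) * (8 * (n : ℝ) ^ 5) = 16 * (n : ℝ) ^ 6 := by ring
          _ ≤ _ := hκc.trans h1
      exact le_of_mul_le_mul_left h3 (by linarith)
    have h4 : X * n ≤ 8 * (n : ℝ) ^ 3 := by
      calc X * n ≤ (8 * (n : ℝ) ^ 2) * n := mul_le_mul_of_nonneg_right hX8 (by linarith)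
        _ = 8 * (n : ℝ) ^ 3 := by ring
    have h5 : (n : ℝ) ^ 3 ≤ (n : ℝ) ^ 5 := pow_le_pow_right₀ hnR (by norm_num)
    linarith
  have hE1 : X ≤ c / (n : ℝ) ^ 3 := by
    rw [le_div_iff₀ (by positivity)]
    have h1 : κ * (((n : ℝ) + 1) * c) ≤ (2 * n) * c := by
      have h7 : ((n : ℝ) + 1) * c ≤ (2 * n) * c := mul_le_mul_of_nonneg_right hn2 hc0
      have h8 : κ * (((n : ℝ) + 1) * c) ≤ 1 * (((n : ℝ) + 1) * c) :=
        mul_le_mul_of_nonneg_right hκ1 (by positivity)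
      linarith
    have h2 : 8 * (n : ℝ) ^ 5 ≤ c := by
      have h3 : (2 * (n : ℝ)) * (8 * (n : ℝ) ^ 5) ≤ (2 * n) * c := by
        calc (2 * (n : ℝ)) * (8 * (n : ℝ) ^ 5) = 16 * (n : ℝ) ^ 6 := by ring
          _ ≤ _ := hκc.trans h1
      exact le_of_mul_le_mul_left h3 (by linarith)
    calc X * (n : ℝ) ^ 3 ≤ (8 * (n : ℝ) ^ 2) * (n : ℝ) ^ 3 :=
          mul_le_mul_of_nonneg_right hX8 (by positivity)
      _ = 8 * (n : ℝ) ^ 5 := by ring
      _ ≤ c := h2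
  set P : ℝ := (2 : ℝ) ^ (-X) with hP
  have hP0 : 0 < P := by positivity
  have hp1 : (2 : ℝ) ^ (-(c / (n : ℝ) ^ 3)) ≤ P :=
    Real.rpow_le_rpow_of_exponent_le (by norm_num) (by linarith)
  have hp2 : (2 : ℝ) ^ (-(κ * c / n)) ≤ P :=
    Real.rpow_le_rpow_of_exponent_le (by norm_num) (by linarith)
  have hPe : P * 2 ^ (n ^ 2 + 3 * n + 4) = 1 := by
    rw [hP, Real.rpow_neg (by norm_num)]
    have : (2 : ℝ) ^ X = 2 ^ (n ^ 2 + 3 * n + 4) := by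
      rw [← Real.rpow_natCast]
      congr 1
      rw [hX]; push_cast; ring
    rw [this, inv_mul_cancel₀ (by positivity)]
  have b1 : (n : ℝ) + 1 ≤ 2 ^ n := by
    have : n + 1 ≤ 2 ^ n := Nat.lt_two_pow_self
    exact_mod_cast this
  have b2 : (n.choose m : ℝ) ≤ 2 ^ n := by
    exact_mod_cast Nat.choose_le_two_pow n m
  have b3 : (n.factorial : ℝ) ≤ 2 ^ (n ^ 2) := by
    have h1 : n.factorial ≤ n ^ n := Nat.factorial_le_pow n
    have h2 : n ^ n ≤ (2 ^ n) ^ n := Nat.pow_le_pow_left (Nat.lt_two_pow_self).le n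
    have h3 : (2 ^ n) ^ n = 2 ^ (n ^ 2) := by rw [← pow_mul, sq]
    rw [h3] at h2
    exact_mod_cast h1.trans h2
  have b4 : (1 : ℝ) ≤ 2 ^ n := one_le_pow₀ (by norm_num)
  have s1 : (1 : ℝ) * (2 : ℝ) ^ (-(c / (n : ℝ) ^ 3)) +
      4 * (n.choose m : ℝ) * (2 : ℝ) ^ (-(κ * c / n)) ≤ 8 * 2 ^ n * P := by
    have q1 : 4 * (n.choose m : ℝ) * (2 : ℝ) ^ (-(κ * c / n)) ≤ 4 * 2 ^ n * P := by
      apply mul_le_mul _ hp2 (by positivity) (by positivity)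
      linarith
    have q2 : P ≤ 2 ^ n * P := le_mul_of_one_le_left hP0.le b4
    nlinarith
  have s2 : 2 * (n.factorial : ℝ) * 2 ^ n ≤ 2 * 2 ^ (n ^ 2) * 2 ^ n := by
    apply mul_le_mul_of_nonneg_right _ (by positivity)
    linarith
  calc ((n : ℝ) + 1) * ((1 : ℝ) * (2 : ℝ) ^ (-(c / (n : ℝ) ^ 3)) +
      4 * (n.choose m : ℝ) * (2 : ℝ) ^ (-(κ * c / n))) * (2 * (n.factorial : ℝ) * 2 ^ n)
      ≤ (2 ^ n * (8 * 2 ^ n * P)) * (2 * 2 ^ (n ^ 2) * 2 ^ n) := by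
        apply mul_le_mul _ s2 (by positivity) (by positivity)
        apply mul_le_mul b1 s1 (by positivity) (by positivity)
    _ = P * 2 ^ (n ^ 2 + 3 * n + 4) := by
        rw [pow_add, pow_add, show 3 * n = n + n + n by ring, pow_add, pow_add]
        ring
    _ ≤ 1 := hPe.le

end Pool.Agent.Helper46.R.G4u
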