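import Pool.Agent.Helper46.R.GDefs

set_option autoImplicit false

namespace Pool.Agent.Helper46.R

open Finset

export Pool.Agent.Helper46.A (dualF)

/-- the matroid of a base family -/
theorem dc_toMat {n r : ℕ} {B : Fam n} (hB : IsBF r B) :
    ∃ M : Matroid (Fin n), M.E = Set.univ ∧ ∀ X : Finset (Fin n), M.IsBase (X : Set (Fin n)) ↔ X ∈ B := by
  classical
  let P : Set (Fin n) → Prop := fun S => S.toFinite.toFinset ∈ B
  have hP : ∀ X : Finset (Fin n), P (X : Set (Fin n)) ↔ X ∈ B := by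
    intro X
    simp only [P]
    rw [Set.Finite.toFinset_eq_toFinset]
    simp
  refine ⟨Matroid.ofIsBaseOfFinite (E := Set.univ) Set.finite_univ P ?_ ?_ (fun _ _ => Set.subset_univ _), rfl, ?_⟩
  · obtain ⟨X, hX⟩ := hB.ne
    exact ⟨X, (hP X).2 hX⟩
  · intro S T hS hT x hx
    lift S to Finset (Fin n) using S.toFinite
    lift T to Finset (Fin n) using T.toFinite
    rw [hP] at hS hT
    have hx' : x ∈ S \ T := by
      rw [Finset.mem_sdiff]; exact ⟨by exact_mod_cast hx.1, by exact_mod_cast hx.2⟩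
    obtain ⟨y, hy, hyB⟩ := hB.exch S hS T hT x hx'
    rw [Finset.mem_sdiff] at hy
    refine ⟨y, ⟨by exact_mod_cast hy.1, by exact_mod_cast hy.2⟩, ?_⟩
    have : (insert y ((S : Set (Fin n)) \ {x})) = ((insert y (S.erase x) : Finset (Fin n)) : Set (Fin n)) := by
      simp
    rw [this, hP]
    exact hyB
  · intro X
    exact hP X

theorem dc_dual_mat {n r : ℕ} {B : Fam n} (hB : IsBF r B) {M : Matroid (Fin n)} (hE : M.E = Set.univ)
    (hM : ∀ X : Finset (Fin n), M.IsBase (X : Set (Fin n)) ↔ X ∈ B) (S : Finset (Fin n)) :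
    M✶.IsBase (S : Set (Fin n)) ↔ S ∈ dualF B := by
  classical
  rw [Matroid.dual_isBase_iff (by rw [hE]; exact Set.subset_univ _), hE]
  have : (Set.univ \ (S : Set (Fin n))) = ((Sᶜ : Finset (Fin n)) : Set (Fin n)) := by
    simp [Set.compl_eq_univ_sdiff]
  rw [this, hM]
  unfold dualF
  constructor
  · intro h
    exact Finset.mem_image.2 ⟨Sᶜ, h, compl_compl S⟩
  · intro h
    obtain ⟨X, hX, rfl⟩ := Finset.mem_image.1 h
    rwa [compl_compl]

theorem dc_dual_isBF {n r : ℕ} {B : Fam n} (hB : IsBF r B) : IsBF (n - r) (dualF B) := by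
  classical
  obtain ⟨M, hE, hM⟩ := dc_toMat hB
  refine ⟨?_, ?_, ?_⟩
  · obtain ⟨X, hX⟩ := hB.ne
    exact ⟨Xᶜ, Finset.mem_image.2 ⟨X, hX, rfl⟩⟩
  · intro X hX
    obtain ⟨Y, hY, rfl⟩ := Finset.mem_image.1 hX
    rw [Finset.card_compl, Fintype.card_fin, hB.card Y hY]
  · intro X hX Y hY x hx
    rw [← dc_dual_mat hB hE hM] at hX hY
    have hx' : x ∈ (X : Set (Fin n)) \ (Y : Set (Fin n)) := by
      rw [Finset.mem_sdiff] at hx; exact ⟨by exact_mod_cast hx.1, by exact_mod_cast hx.2⟩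
    obtain ⟨y, hy, hyB⟩ := hX.exchange hY hx'
    refine ⟨y, by rw [Finset.mem_sdiff]; exact ⟨by exact_mod_cast hy.1, by exact_mod_cast hy.2⟩, ?_⟩
    rw [← dc_dual_mat hB hE hM]
    simpa using hyB

open Classical in
theorem dual_count (n r m : ℕ) (hr : r ≤ n) (C : Finset (Fin n)) (hC : C.card = m) :
    ((BF n r).filter (fun B => ∀ X ∈ B, (X ∩ C).Nonempty)).card ≤ gm n (n - r) m := by
  have h1 : (GF n (n - r) C).card ≤ gm n (n - r) m := by
    unfold gm
    exact Finset.le_sup (f := fun C => (GF n (n - r) C).card)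
      (mem_powersetCard.2 ⟨subset_univ _, hC⟩)
  refine le_trans ?_ h1
  refine card_le_card_of_injOn dualF ?_ ?_
  · intro B hB
    rw [mem_coe, mem_filter] at hB
    obtain ⟨hB1, hB2⟩ := hB
    rw [BF, mem_filter] at hB1
    rw [mem_coe, GF, mem_filter, BF, mem_filter]
    refine ⟨⟨mem_univ _, dc_dual_isBF hB1.2⟩, ?_⟩
    intro X hX hCX
    obtain ⟨Y, hY, rfl⟩ := mem_image.1 hX
    obtain ⟨x, hx⟩ := hB2 Y hY
    rw [mem_inter] at hx
    have := hCX hx.2
    rw [mem_compl] at this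
    exact this hx.1
  · intro B _ B' _ h
    have hinj : Function.Injective (fun X : Finset (Fin n) => Xᶜ) := compl_injective
    exact image_injective hinj h

open Classical in
/-- base families of rank `r` for which some `m`-set is dependent or meets every basis -/
theorem bad_count (n r m : ℕ) (hr : r ≤ n) :
    ((BF n r).filter (fun B => (∃ C : Finset (Fin n), C.card = m ∧ ∀ X ∈ B, ¬ C ⊆ X) ∨
      (∃ C : Finset (Fin n), C.card = m ∧ ∀ X ∈ B, (X ∩ C).Nonempty))).card ≤
    n.choose m * (gm n r m + gm n (n - r) m) := by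
  have hsub : (BF n r).filter (fun B => (∃ C : Finset (Fin n), C.card = m ∧ ∀ X ∈ B, ¬ C ⊆ X) ∨
      (∃ C : Finset (Fin n), C.card = m ∧ ∀ X ∈ B, (X ∩ C).Nonempty)) ⊆
      (powersetCard m (univ : Finset (Fin n))).biUnion
        (fun C => GF n r C ∪ (BF n r).filter (fun B => ∀ X ∈ B, (X ∩ C).Nonempty)) := by
    intro B hB
    rw [mem_filter] at hB
    rw [mem_biUnion]
    obtain ⟨hB1, hB2⟩ := hB
    rcases hB2 with ⟨C, hC, h⟩ | ⟨C, hC, h⟩
    · refine ⟨C, mem_powersetCard.2 ⟨subset_univ _, hC⟩, ?_⟩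
      rw [mem_union]
      left
      rw [GF, mem_filter]
      exact ⟨hB1, h⟩
    · refine ⟨C, mem_powersetCard.2 ⟨subset_univ _, hC⟩, ?_⟩
      rw [mem_union]
      right
      rw [mem_filter]
      exact ⟨hB1, h⟩
  refine (card_le_card hsub).trans ?_
  have hcard : (powersetCard m (univ : Finset (Fin n))).card = n.choose m := by
    rw [card_powersetCard, card_univ, Fintype.card_fin]
  rw [← hcard]
  apply card_biUnion_le_card_mul
  intro C hC
  have hC' := (mem_powersetCard.1 hC).2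
  refine (card_union_le _ _).trans ?_
  apply Nat.add_le_add
  · unfold gm
    exact Finset.le_sup (f := fun C => (GF n r C).card) hC
  · exact dual_count n r m hr C hC'

end Pool.Agent.Helper46.R
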