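import Mathlib

set_option autoImplicit false

namespace Pool.Agent.Helper46.R.V1

open Finset

open Classical in
theorem nonrec_window (b : ℕ → ℝ) (hmono : ∀ m n, 1 ≤ m → m ≤ n → b m ≤ b n) (C1 : ℝ)
    (h1 : ∀ n : ℕ, 1 ≤ n → b n ≤ Real.log n + C1)
    (h2 : ∀ n : ℕ, 1 ≤ n → Real.log n - C1 ≤ b n) :
    ∃ C2 : ℝ, 0 < C2 ∧ ∀ lam : ℝ, 2 ≤ lam → ∀ N : ℕ, 1 ≤ N →
      (((Ioc (N / 2) N).filter (fun n : ℕ => ¬ ∀ m : ℕ, 1 ≤ m → m < n →
        b n - b m < lam * (Real.log n - Real.log m))).card : ℝ) ≤ C2 * N / lam := by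
  have hC1 : 0 ≤ C1 := by
    have e1 := h1 1 le_rfl
    have e2 := h2 1 le_rfl
    simp only [Nat.cast_one, Real.log_one] at e1 e2
    linarith
  have hl4 : 0 < Real.log 4 := Real.log_pos (by norm_num)
  refine ⟨Real.log 4 + 4 * C1, by linarith, ?_⟩
  intro lam hlam N hN
  set R := (Ioc (N / 2) N).filter (fun n : ℕ => ¬ ∀ m : ℕ, 1 ≤ m → m < n →
        b n - b m < lam * (Real.log n - Real.log m)) with hR
  have hNpos : (0 : ℝ) < N := by exact_mod_cast hN
  have hlampos : 0 < lam := by linarith
  obtain ⟨M, hM1, hMN, hMw, hMlog⟩ : ∃ M : ℕ, 1 ≤ M ∧ M ≤ N ∧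
      (∀ n ∈ R, ∃ m : ℕ, M ≤ m ∧ m < n ∧ lam * (Real.log n - Real.log m) ≤ b n - b m) ∧
      Real.log N - Real.log M ≤ Real.log 4 + 2 * C1 := by
    set x : ℝ := N * Real.exp (-(2 * C1)) / 2 with hx
    have hexp1 : Real.exp (-(2 * C1)) ≤ 1 := Real.exp_le_one_iff.mpr (by linarith)
    have hexp0 : 0 < Real.exp (-(2 * C1)) := Real.exp_pos _
    have hx0 : 0 ≤ x := by positivity
    have hxN : x ≤ N := by
      rw [hx]
      have : (N : ℝ) * Real.exp (-(2 * C1)) ≤ N * 1 := by gcongr
      linarith
    refine ⟨max 1 ⌊x⌋₊, le_max_left _ _, ?_, ?_, ?_⟩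
    · refine max_le hN ?_
      exact Nat.floor_le_of_le hxN
    · intro n hn
      rw [hR, mem_filter, mem_Ioc] at hn
      obtain ⟨⟨hn1, hn2⟩, hn3⟩ := hn
      push Not at hn3
      obtain ⟨m, hm1, hm2, hm3⟩ := hn3
      refine ⟨m, max_le hm1 ?_, hm2, hm3⟩
      apply Nat.floor_le_of_le
      have hn0 : 1 ≤ n := by omega
      have hnpos : (0 : ℝ) < n := by exact_mod_cast hn0
      have hmpos : (0 : ℝ) < m := by exact_mod_cast hm1
      have hlog : Real.log m ≤ Real.log n :=
        Real.log_le_log hmpos (by exact_mod_cast hm2.le)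
      have e1 := h1 n hn0
      have e2 := h2 m hm1
      have e3 : Real.log n - Real.log m ≤ 2 * C1 := by
        nlinarith [mul_nonneg (by linarith : (0:ℝ) ≤ lam - 2) (sub_nonneg.mpr hlog)]
      have e4 : Real.exp (Real.log n + -(2 * C1)) ≤ Real.exp (Real.log m) :=
        Real.exp_le_exp.mpr (by linarith)
      rw [Real.exp_add, Real.exp_log hnpos, Real.exp_log hmpos] at e4
      have e5 : (N : ℝ) ≤ 2 * n := by
        have : N ≤ 2 * n := by omega
        exact_mod_cast this
      have e6 : (N : ℝ) * Real.exp (-(2 * C1)) ≤ 2 * n * Real.exp (-(2 * C1)) := by gcongr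
      rw [hx]; linarith
    · set M := max 1 ⌊x⌋₊ with hMdef
      have hMpos : (0 : ℝ) < M := by
        have : 1 ≤ M := le_max_left _ _
        exact_mod_cast this
      have f1 := Nat.lt_floor_add_one x
      have f2 : (⌊x⌋₊ : ℝ) ≤ M := by
        have : ⌊x⌋₊ ≤ M := le_max_right _ _
        exact_mod_cast this
      have f3 : (1 : ℝ) ≤ M := by
        have : 1 ≤ M := le_max_left _ _
        exact_mod_cast this
      have f4 : x ≤ 2 * M := by linarith
      have f5 : (N : ℝ) * Real.exp (-(2 * C1)) ≤ 4 * M := by rw [hx] at f4; linarith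
      have f6 := Real.log_le_log (by positivity) f5
      rw [Real.log_mul hNpos.ne' (Real.exp_pos _).ne', Real.log_exp,
        Real.log_mul (by norm_num) hMpos.ne'] at f6
      linarith
  have hRM : ∀ n ∈ R, M < n := by
    intro n hn
    obtain ⟨m, h3, h4, _⟩ := hMw n hn
    omega
  have hcard : ∀ k, ((R.filter (fun n => n ≤ k + 1)).card : ℝ) =
      (R.filter (fun n => n ≤ k)).card + if k + 1 ∈ R then (1 : ℝ) else 0 := by
    intro k
    by_cases hk : k + 1 ∈ R
    · rw [if_pos hk]
      have : R.filter (fun n => n ≤ k + 1) = insert (k + 1) (R.filter (fun n => n ≤ k)) := by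
        ext n
        simp only [mem_filter, mem_insert]
        constructor
        · rintro ⟨h5, h6⟩
          by_cases h7 : n = k + 1
          · exact Or.inl h7
          · exact Or.inr ⟨h5, by omega⟩
        · rintro (h5 | ⟨h5, h6⟩)
          · subst h5; exact ⟨hk, le_rfl⟩
          · exact ⟨h5, by omega⟩
      rw [this, card_insert_of_notMem (by simp)]
      push_cast; ring
    · rw [if_neg hk, add_zero]
      congr 2
      ext n
      simp only [mem_filter]
      constructor
      · rintro ⟨h5, h6⟩
        refine ⟨h5, ?_⟩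
        have : n ≠ k + 1 := fun e => hk (e ▸ h5)
        omega
      · rintro ⟨h5, h6⟩
        exact ⟨h5, by omega⟩
  have key : ∀ k, M ≤ k → k ≤ N → ∀ m : ℕ, M ≤ m → m ≤ k →
      b M - lam * Real.log M - lam * (Real.log k - Real.log M) +
        lam / N * ((R.filter (fun n => n ≤ k)).card : ℝ) ≤ b m - lam * Real.log m := by
    intro k hk
    induction k, hk using Nat.le_induction with
    | base =>
      intro _ m hm1 hm2
      have e : m = M := le_antisymm hm2 hm1
      subst e
      have : R.filter (fun n => n ≤ m) = ∅ := by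
        apply filter_eq_empty_iff.mpr
        intro n hn
        have := hRM n hn
        omega
      rw [this]
      simp
    | succ k hk ih =>
      intro hkN
      have hkpos : (0 : ℝ) < k := by
        have : 1 ≤ k := le_trans hM1 hk
        exact_mod_cast this
      have hlk : Real.log ((k + 1 : ℕ) : ℝ) - Real.log k ≥ 1 / N := by
        have g1 : Real.log ((k : ℝ) / (k + 1)) ≤ (k : ℝ) / (k + 1) - 1 :=
          Real.log_le_sub_one_of_pos (by positivity)
        rw [Real.log_div hkpos.ne' (by positivity)] at g1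
        have g2 : (k : ℝ) / (k + 1) - 1 = - (1 / (k + 1)) := by field_simp; ring
        have g3 : (1 : ℝ) / N ≤ 1 / (k + 1) := by
          apply one_div_le_one_div_of_le (by positivity)
          exact_mod_cast hkN
        push_cast
        linarith
      have hstep : ∀ m : ℕ, M ≤ m → m ≤ k →
          b M - lam * Real.log M - lam * (Real.log ((k + 1 : ℕ) : ℝ) - Real.log M) +
          lam / N * ((R.filter (fun n => n ≤ k + 1)).card : ℝ) ≤ b m - lam * Real.log m := by
        intro m hm1 hm2
        have e1 := ih (by omega) m hm1 hm2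
        rw [hcard k]
        have e2 : lam / N * (if k + 1 ∈ R then (1 : ℝ) else 0) ≤ lam / N := by
          have : 0 < lam / N := by positivity
          split_ifs <;> simp <;> positivity
        have e3 : lam / N ≤ lam * (Real.log ((k + 1 : ℕ) : ℝ) - Real.log k) := by
          have := mul_le_mul_of_nonneg_left hlk hlampos.le
          rw [mul_one_div] at this
          exact this
        rw [mul_add]
        linarith
      intro m hm1 hm2
      by_cases hmk : m ≤ k
      · exact hstep m hm1 hmk
      · have e : m = k + 1 := by omega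
        subst e
        by_cases hkR : k + 1 ∈ R
        · obtain ⟨m0, g1, g2, g3⟩ := hMw _ hkR
          have g4 := hstep m0 g1 (by omega)
          linarith
        · have e1 := ih (by omega) k hk le_rfl
          rw [hcard k, if_neg hkR, add_zero]
          have e2 := hmono k (k + 1) (by omega) (by omega)
          linarith
  have hfin := key N hMN le_rfl N hMN le_rfl
  have hRN : R.filter (fun n => n ≤ N) = R := by
    apply filter_true_of_mem
    intro n hn
    rw [hR, mem_filter, mem_Ioc] at hn
    exact hn.1.2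
  rw [hRN] at hfin
  have e1 := h1 N hN
  have e2 := h2 M hM1
  have e3 : lam / N * (R.card : ℝ) ≤ Real.log 4 + 4 * C1 := by linarith
  rw [le_div_iff₀ hlampos]
  have e4 : lam / N * (R.card : ℝ) * N = R.card * lam := by field_simp
  nlinarith [mul_le_mul_of_nonneg_right e3 hNpos.le]

end Pool.Agent.Helper46.R.V1
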