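import Mathlib

set_option autoImplicit false

namespace Pool.Agent.Helper46.R.V2

open Finset

theorem rec_pos_ind (b : ℕ → ℝ) (hmono : ∀ m n, 1 ≤ m → m ≤ n → b m ≤ b n) (M : ℕ) (hM : 1 ≤ M)
    (A : ℝ) (hA : ∀ m : ℕ, 1 ≤ m → m ≤ M → A ≤ b m - 3 / 2 * Real.log m) (P : ℕ → Prop)
    [DecidablePred P] (hP : ∀ n, P n ↔ ∀ m : ℕ, 1 ≤ m → m < n →
        b n - b m < (3 / 2) * (Real.log n - Real.log m)) (N : ℕ) (hN : M ≤ N) :
    ∀ m : ℕ, 1 ≤ m → m ≤ N →
      A - (3 / 2) / M * (((Ioc M N).filter P).card : ℝ) ≤ b m - 3 / 2 * Real.log m := by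
  have hM0 : (0:ℝ) < M := by exact_mod_cast hM
  induction N, hN using Nat.le_induction with
  | base =>
    intro m hm1 hm2
    simpa using hA m hm1 hm2
  | succ N hN ih =>
    have hN0 : (0:ℝ) < N := by exact_mod_cast (lt_of_lt_of_le (by omega : 0 < M) hN)
    have hMN : (M:ℝ) ≤ N := by exact_mod_cast hN
    have hIoc : Ioc M (N + 1) = insert (N + 1) (Ioc M N) := by
      ext x
      simp only [mem_Ioc, mem_insert]
      omega
    have hnot : N + 1 ∉ Ioc M N := by simp
    intro m hm1 hm2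
    by_cases hp : P (N + 1)
    · have hc : (((Ioc M (N + 1)).filter P).card : ℝ) = ((Ioc M N).filter P).card + 1 := by
        rw [hIoc, filter_insert, if_pos hp, card_insert_of_notMem (fun h => hnot (mem_filter.1 h).1)]
        push_cast
        ring
      rw [hc]
      have hlam : (0:ℝ) < (3 / 2) / M := by positivity
      rcases Nat.lt_or_ge m (N + 1) with h | h
      · have := ih m hm1 (by omega)
        nlinarith
      · have hme : m = N + 1 := by omega
        subst hme
        have h1 := ih N (by omega) le_rfl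
        have h2 := hmono N (N + 1) (by omega) (by omega)
        have h3 : Real.log ((N + 1 : ℕ) : ℝ) - Real.log N ≤ 1 / M := by
          rw [← Real.log_div (by positivity) (by positivity)]
          have h4 := Real.log_le_sub_one_of_pos (x := ((N + 1 : ℕ) : ℝ) / N) (by positivity)
          have h5 : ((N + 1 : ℕ) : ℝ) / N - 1 = 1 / N := by
            push_cast
            field_simp
            ring
          rw [h5] at h4
          exact h4.trans (one_div_le_one_div_of_le hM0 hMN)
        have h6 : (3:ℝ) / 2 / M = 3 / 2 * (1 / M) := by ring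
        rw [h6] at h1 ⊢
        nlinarith
    · have hc : (((Ioc M (N + 1)).filter P).card : ℝ) = ((Ioc M N).filter P).card := by
        rw [hIoc, filter_insert, if_neg hp]
      rw [hc]
      rcases Nat.lt_or_ge m (N + 1) with h | h
      · exact ih m hm1 (by omega)
      · have hme : m = N + 1 := by omega
        subst hme
        rw [hP] at hp
        push Not at hp
        obtain ⟨m', hm1', hm2', hm3⟩ := hp
        have := ih m' hm1' (by omega)
        linarith

open Classical in
theorem rec_pos (b : ℕ → ℝ) (hmono : ∀ m n, 1 ≤ m → m ≤ n → b m ≤ b n) (C1 : ℝ)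
    (h1 : ∀ n : ℕ, 1 ≤ n → b n ≤ Real.log n + C1)
    (h2 : ∀ n : ℕ, 1 ≤ n → Real.log n - C1 ≤ b n) :
    ∃ c : ℝ, 0 < c ∧ ∃ N0 : ℕ, ∀ N : ℕ, N0 ≤ N →
      c * N ≤ (((Icc 2 N).filter (fun n : ℕ => ∀ m : ℕ, 1 ≤ m → m < n →
        b n - b m < (3 / 2) * (Real.log n - Real.log m))).card : ℝ) := by
  
  have hC1 : 0 ≤ C1 := by
    have e1 := h1 1 le_rfl
    have e2 := h2 1 le_rfl
    simp at e1 e2
    linarith
  set ε : ℝ := Real.exp (-(4 * C1 + 2)) with hε
  have hε0 : 0 < ε := Real.exp_pos _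
  have hε1 : ε ≤ 1 := Real.exp_le_one_iff.2 (by linarith)
  refine ⟨ε / 3, by positivity, ⌈2 / ε⌉₊, fun N hN => ?_⟩
  have hN1 : 2 / ε ≤ N := (Nat.le_ceil _).trans (by exact_mod_cast hN)
  rw [div_le_iff₀ hε0] at hN1
  have hN0 : (0:ℝ) < N := by
    by_contra h
    push Not at h
    nlinarith
  set M := ⌊ε * N⌋₊ with hMdef
  have hM1 : 1 ≤ M := by
    apply Nat.le_floor
    push_cast
    linarith
  have hM0 : (0:ℝ) < M := by exact_mod_cast hM1
  have hMle : (M:ℝ) ≤ ε * N := Nat.floor_le (by positivity)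
  have hMgt : ε * N < M + 1 := Nat.lt_floor_add_one _
  have hMN : M ≤ N := by
    have : (M:ℝ) ≤ N := by nlinarith
    exact_mod_cast this
  have hkey := rec_pos_ind b hmono M hM1 (-C1 - 1 / 2 * Real.log M) (by
      intro m hm1 hm2
      have e1 := h2 m hm1
      have e2 : Real.log m ≤ Real.log M := Real.log_le_log (by exact_mod_cast hm1)
        (by exact_mod_cast hm2)
      linarith)
    (fun n : ℕ => ∀ m : ℕ, 1 ≤ m → m < n →
        b n - b m < (3 / 2) * (Real.log n - Real.log m)) (fun n => Iff.rfl) N hMN N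
    (by omega) le_rfl
  set R := (Ioc M N).filter (fun n : ℕ => ∀ m : ℕ, 1 ≤ m → m < n →
        b n - b m < (3 / 2) * (Real.log n - Real.log m)) with hR
  have hcard : (R.card : ℝ) ≤ (((Icc 2 N).filter (fun n : ℕ => ∀ m : ℕ, 1 ≤ m → m < n →
        b n - b m < (3 / 2) * (Real.log n - Real.log m))).card : ℝ) := by
    have : R.card ≤ ((Icc 2 N).filter (fun n : ℕ => ∀ m : ℕ, 1 ≤ m → m < n →
        b n - b m < (3 / 2) * (Real.log n - Real.log m))).card := by
      apply card_le_card
      intro x hx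
      rw [hR, mem_filter, mem_Ioc] at hx
      rw [mem_filter, mem_Icc]
      exact ⟨⟨by omega, hx.1.2⟩, hx.2⟩
    exact_mod_cast this
  refine le_trans ?_ hcard
  have hbN := h1 N (by omega)
  have hlog : 4 * C1 + 2 ≤ Real.log N - Real.log M := by
    rw [← Real.log_div hN0.ne' hM0.ne', Real.le_log_iff_exp_le (by positivity),
      le_div_iff₀ hM0]
    have e1 : Real.exp (4 * C1 + 2) * ε = 1 := by
      rw [hε, ← Real.exp_add]
      simp
    have e2 : 0 < Real.exp (4 * C1 + 2) := Real.exp_pos _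
    calc Real.exp (4 * C1 + 2) * M ≤ Real.exp (4 * C1 + 2) * (ε * N) :=
          mul_le_mul_of_nonneg_left hMle e2.le
      _ = (Real.exp (4 * C1 + 2) * ε) * N := by ring
      _ = N := by rw [e1, one_mul]
  have h3 : 1 ≤ 3 / 2 / M * (R.card : ℝ) := by linarith
  have h4 : (M:ℝ) ≤ 3 / 2 * R.card := by
    have e3 : 3 / 2 / M * (R.card : ℝ) = (3 / 2 * R.card) / M := by ring
    rw [e3, le_div_iff₀ hM0] at h3
    linarith
  nlinarith


end Pool.Agent.Helper46.R.V2
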