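import Pool.Agent.Helper46.R.KW
import Pool.Agent.Helper46.R.V1
import Pool.Agent.Helper46.R.V2

set_option autoImplicit false

namespace Pool.Agent.Helper46.R

open Finset Filter

open Classical in
/-- general form: a property that holds at the records holds outside few integers of each window -/
theorem window_gen (P : ℕ → ℕ → Prop) (n2 : ℕ)
    (H2 : ∀ n : ℕ, n2 ≤ n → ∀ (K : ℕ) (lam : ℝ), 0 < lam →
      (∀ r : ℕ, n + 2 * K + 2 ≤ 2 * r → r ≤ n →
        (n.choose r : ℝ) * ((n : ℝ) / ((2 * (n - r) + 1 : ℕ) : ℝ)) ^ lam ≤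
          (1 - 1 / (n : ℝ) ^ 2) * (n.choose ((n + 1) / 2) : ℝ)) →
      (∀ m : ℕ, 1 ≤ m → m < n → b n - b m < lam * (Real.log n - Real.log m)) → P K n) :
    ∃ C : ℝ, 0 < C ∧ ∀ N : ℕ, 2 ≤ N → ∀ K : ℕ, 1 ≤ K → K ^ 2 ≤ N →
      (((Ioc (N / 2) N).filter (fun n : ℕ => ¬ P K n)).card : ℝ) ≤ C * N / K := by
  obtain ⟨n1, H1⟩ := binom2
  obtain ⟨C1, hb1, hb2⟩ := b_two
  obtain ⟨C2, hC2, HV⟩ := V1.nonrec_window b (fun m n _ h => b_mono m n h) C1 hb1 hb2
  set n0 : ℕ := n1 + n2 + 2 with hn0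
  refine ⟨4 * C2 + 7 + 2 * n0, by positivity, fun N hN K hK hKN => ?_⟩
  have hKr : (1 : ℝ) ≤ (K : ℝ) := by exact_mod_cast hK
  have hNr : (0 : ℝ) < (N : ℝ) := by exact_mod_cast (by omega : 0 < N)
  have htriv : (((Ioc (N / 2) N).filter (fun n : ℕ => ¬ P K n)).card : ℝ) ≤ N := by
    have : ((Ioc (N / 2) N).filter (fun n : ℕ => ¬ P K n)).card ≤ N := by
      refine (card_filter_le _ _).trans ?_
      rw [Nat.card_Ioc]
      omega
    exact_mod_cast this
  rcases Nat.lt_or_ge K 7 with hK7 | hK7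
  · refine htriv.trans ?_
    rw [le_div_iff₀ (by linarith)]
    have : (K : ℝ) ≤ 7 := by exact_mod_cast hK7.le
    calc (N : ℝ) * K ≤ N * (4 * C2 + 7 + 2 * n0) := by
          apply mul_le_mul_of_nonneg_left _ hNr.le
          have : (0 : ℝ) ≤ n0 := by positivity
          linarith
      _ = _ := by ring
  rcases le_or_gt N (2 * n0) with hc | hc
  · refine htriv.trans ?_
    rw [le_div_iff₀ (by linarith)]
    have hKn0 : (K : ℝ) ≤ 2 * n0 := by
      have : K ≤ 2 * n0 := by nlinarith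
      exact_mod_cast this
    calc (N : ℝ) * K ≤ N * (4 * C2 + 7 + 2 * n0) := by
          apply mul_le_mul_of_nonneg_left _ hNr.le
          linarith
      _ = _ := by ring
  · set lam : ℝ := ((K : ℝ) + 1) / 4 with hlam
    have hK7' : (7 : ℝ) ≤ K := by exact_mod_cast hK7
    have hlam2 : 2 ≤ lam := by rw [hlam]; linarith
    have hlam0 : 0 < lam := by linarith
    have h1 := HV lam hlam2 N (by omega)
    have hsub : ((Ioc (N / 2) N).filter (fun n : ℕ => ¬ P K n)) ⊆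
        ((Ioc (N / 2) N).filter (fun n : ℕ => ¬ ∀ m : ℕ, 1 ≤ m → m < n →
          b n - b m < lam * (Real.log n - Real.log m))) := by
      intro n hn
      rw [mem_filter, mem_Ioc] at hn
      rw [mem_filter, mem_Ioc]
      refine ⟨hn.1, fun hrec => hn.2 ?_⟩
      have hK2 : K ^ 2 ≤ 2 * n := by omega
      exact H2 n (by omega) K lam hlam0 (fun r h3 h4 => H1 n (by omega) K hK hK2 r h3 h4) hrec
    have h2 : (((Ioc (N / 2) N).filter (fun n : ℕ => ¬ P K n)).card : ℝ) ≤ C2 * N / lam := by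
      refine le_trans ?_ h1
      exact_mod_cast card_le_card hsub
    refine h2.trans ?_
    rw [div_le_div_iff₀ hlam0 (by linarith)]
    have h6 : (K : ℝ) ≤ 4 * lam := by rw [hlam]; linarith
    calc C2 * N * K ≤ C2 * N * (4 * lam) := by gcongr
      _ ≤ (4 * C2 + 7 + 2 * n0) * N * lam := by
        have : (0 : ℝ) ≤ (7 + 2 * n0) * N * lam := by positivity
        linarith

open Classical in
theorem wg_window_nat : ∃ C : ℝ, 0 < C ∧ ∀ N : ℕ, 2 ≤ N → ∀ K : ℕ, 1 ≤ K → K ^ 2 ≤ N →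
    (((Ioc (N / 2) N).filter (fun n : ℕ => ¬ WG K n)).card : ℝ) ≤ C * N / K := by
  obtain ⟨n2, H2⟩ := wg_of_record
  exact window_gen WG n2 H2

open Classical in
theorem prop_window_nat : ∃ C : ℝ, 0 < C ∧ ∀ N : ℕ, 2 ≤ N → ∀ K : ℕ, 1 ≤ K → K ^ 2 ≤ N →
    (((Ioc (N / 2) N).filter (fun n : ℕ => ¬ 1 - 1 / 2 ^ n ≤ prop K n)).card : ℝ) ≤ C * N / K := by
  obtain ⟨n2, H2⟩ := good_of_record'
  exact window_gen (fun K n => 1 - 1 / 2 ^ n ≤ prop K n) n2 H2

open Classical in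
/-- positive lower density of the integers where the middle rank is the most frequent one -/
theorem welsh_nat : ∃ c : ℝ, 0 < c ∧ ∃ N0 : ℕ, ∀ N : ℕ, N0 ≤ N →
    c * N ≤ (((Icc 1 N).filter WelshAt).card : ℝ) := by
  obtain ⟨C1, hb1, hb2⟩ := b_two
  obtain ⟨c, hc, N0, HV⟩ := V2.rec_pos b (fun m n _ h => b_mono m n h) C1 hb1 hb2
  obtain ⟨n1, hn1⟩ := binom 0 (3 / 2) (by norm_num) (by norm_num)
  obtain ⟨n2, hn2⟩ := welsh_of_record
  set n0 := n1 + n2 with hn0
  obtain ⟨N1, hN1⟩ := exists_nat_gt (2 * (n0 : ℝ) / c)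
  refine ⟨c / 2, by positivity, N0 + N1, fun N hN => ?_⟩
  have h1 := HV N (by omega)
  set R := (Icc 2 N).filter (fun n : ℕ => ∀ m : ℕ, 1 ≤ m → m < n →
        b n - b m < (3 / 2) * (Real.log n - Real.log m)) with hR
  set G := (Icc 1 N).filter WelshAt with hG
  have hsub : R ⊆ range n0 ∪ G := by
    intro n hn
    rw [hR, mem_filter, mem_Icc] at hn
    rw [mem_union, mem_range]
    rcases lt_or_ge n n0 with h | h
    · exact Or.inl h
    · right
      rw [hG, mem_filter, mem_Icc]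
      exact ⟨⟨by omega, hn.1.2⟩, welshAt_of (hn2 n (by omega) (3 / 2) (by norm_num)
        (fun r h3 h4 => hn1 n (by omega) r h3 h4) hn.2)⟩
  have h2 : R.card ≤ n0 + G.card := by
    have h3 := card_le_card hsub
    have h4 := card_union_le (range n0) G
    rw [card_range] at h4
    exact h3.trans h4
  have h2' : (R.card : ℝ) ≤ n0 + G.card := by exact_mod_cast h2
  have h5 : (n0 : ℝ) ≤ c / 2 * N := by
    have h6 : 2 * (n0 : ℝ) / c < N := hN1.trans_le (by exact_mod_cast (by omega : N1 ≤ N))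
    rw [div_lt_iff₀ hc] at h6
    linarith
  linarith

end Pool.Agent.Helper46.R
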