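import Pool.Agent.Helper46.R.GStub
import Pool.Agent.Helper46.R.Nat

set_option autoImplicit false

namespace Pool.Agent.Helper46.R

open Finset Filter

theorem phi_dual {n r : ℕ} (hr : r ≤ n) : phi n (n - r) = phi n r := by
  unfold phi
  rw [S_dual hr, Nat.choose_symm hr]

theorem phi_le_min {n r t : ℕ} (hr : r ≤ n) (h1 : t ≤ 2 * r) (h2 : t ≤ 2 * (n - r)) :
    phi n r ≤ a t := by
  rcases lt_trichotomy n (2 * r) with h | h | h
  · exact (phi_le_a n r h hr).trans (a_anti _ _ (by omega))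
  · have e : phi n r = a n := by
      unfold a
      have : (n + 1) / 2 = r := by omega
      rw [this]
    rw [e]
    exact a_anti _ _ (by omega)
  · rw [← phi_dual hr]
    exact (phi_le_a n (n - r) (by omega) (by omega)).trans (a_anti _ _ (by omega))

theorem gm_bound (m : ℕ) {n r L : ℕ} (hn : 4 * m + 4 * L + 8 ≤ n)
    (hs : b n - b (n - L) < Real.log (1 + (1 / 4 : ℝ) ^ m))
    (h1 : n + 2 * m ≤ 2 * r + L) (h2 : 2 * r + 2 ≤ n + L) :
    (gm n r m : ℝ) ≤ (S n ((n + 1) / 2) : ℝ) *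
      (2 : ℝ) ^ (-((1 / 4 : ℝ) ^ (2 * m) * (n.choose ((n + 1) / 2) : ℝ) / n)) := by
  set δ : ℝ := (1 / 4 : ℝ) ^ m with hδ
  have hδ0 : 0 < δ := by positivity
  have hδ1 : δ ≤ 1 := pow_le_one₀ (by norm_num) (by norm_num)
  have hrn : r < n := by omega
  have hmr : m ≤ r := by omega
  have hg := gm_log gm_rec (a (n - L)) m n r hmr hrn (fun i hi =>
    phi_le_min (by omega) (by omega) (by omega))
  have ha : a (n - L) ≤ (1 + δ) * a n := by
    have h3 : Real.log (a (n - L)) ≤ Real.log ((1 + δ) * a n) := by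
      rw [Real.log_mul (by positivity) (a_pos n).ne']
      unfold b at hs
      linarith
    exact (Real.log_le_log_iff (a_pos _) (mul_pos (by positivity) (a_pos n))).1 h3
  have hch := choose_ratio m n r (by omega) hrn.le
  have hch' : (n.choose r : ℝ) ≤ 4 ^ m * ((n - m).choose (r - m) : ℝ) := by exact_mod_cast hch
  have h4 : δ * (n.choose r : ℝ) ≤ ((n - m).choose (r - m) : ℝ) := by
    calc δ * (n.choose r : ℝ) ≤ δ * (4 ^ m * ((n - m).choose (r - m) : ℝ)) := by gcongr
      _ = ((1 / 4 : ℝ) ^ m * 4 ^ m) * ((n - m).choose (r - m) : ℝ) := by rw [hδ]; ring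
      _ = ((n - m).choose (r - m) : ℝ) := by
        rw [← mul_pow]; norm_num
  have hmid : (n.choose r : ℝ) ≤ (n.choose ((n + 1) / 2) : ℝ) := by
    have h5 := Nat.choose_le_middle r n
    have e : n.choose (n / 2) = n.choose ((n + 1) / 2) := by
      have : n - n / 2 = (n + 1) / 2 := by omega
      rw [← this, Nat.choose_symm (by omega)]
    rw [e] at h5
    exact_mod_cast h5
  have hlogS := log_S_mid n
  have hS0 : (0 : ℝ) < (S n ((n + 1) / 2) : ℝ) := by
    unfold S; push_cast; positivity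
  have h6 : Real.log ((gm n r m : ℝ) + 1) ≤ (1 - δ ^ 2) * Real.log (S n ((n + 1) / 2)) := by
    refine hg.trans ?_
    rw [hlogS]
    have h7 : (n.choose r : ℝ) - ((n - m).choose (r - m) : ℝ) ≤ (1 - δ) * (n.choose r : ℝ) := by
      linarith
    have h8 : 0 ≤ (1 - δ) * (n.choose r : ℝ) := mul_nonneg (by linarith) (by positivity)
    calc a (n - L) * ((n.choose r : ℝ) - ((n - m).choose (r - m) : ℝ))
        ≤ a (n - L) * ((1 - δ) * (n.choose r : ℝ)) := mul_le_mul_of_nonneg_left h7 (a_pos _).le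
      _ ≤ ((1 + δ) * a n) * ((1 - δ) * (n.choose r : ℝ)) := mul_le_mul_of_nonneg_right ha h8
      _ = (1 - δ ^ 2) * a n * (n.choose r : ℝ) := by ring
      _ ≤ (1 - δ ^ 2) * a n * (n.choose ((n + 1) / 2) : ℝ) := by
        apply mul_le_mul_of_nonneg_left hmid
        apply mul_nonneg _ (a_pos n).le
        nlinarith
      _ = (1 - δ ^ 2) * ((n.choose ((n + 1) / 2) : ℝ) * a n) := by ring
  have hal := a_lower (n := n) (by omega)
  have hCc := choose_pos' n
  have hn0 : (0 : ℝ) < n := by exact_mod_cast (by omega : 0 < n)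
  have h9 : Real.log 2 * ((1 / 4 : ℝ) ^ (2 * m) * (n.choose ((n + 1) / 2) : ℝ) / n) ≤
      δ ^ 2 * Real.log (S n ((n + 1) / 2)) := by
    rw [hlogS]
    have e : (1 / 4 : ℝ) ^ (2 * m) = δ ^ 2 := by rw [hδ, ← pow_mul, mul_comm]
    rw [e]
    calc Real.log 2 * (δ ^ 2 * (n.choose ((n + 1) / 2) : ℝ) / n)
        = δ ^ 2 * ((n.choose ((n + 1) / 2) : ℝ) * (Real.log 2 / n)) := by ring
      _ ≤ δ ^ 2 * ((n.choose ((n + 1) / 2) : ℝ) * a n) := by gcongr
  have h10 : Real.log ((gm n r m : ℝ) + 1) ≤ Real.log ((S n ((n + 1) / 2) : ℝ) *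
      (2 : ℝ) ^ (-((1 / 4 : ℝ) ^ (2 * m) * (n.choose ((n + 1) / 2) : ℝ) / n))) := by
    rw [Real.log_mul hS0.ne' (by positivity), Real.log_rpow (by norm_num)]
    linarith
  have h11 := (Real.log_le_log_iff (by positivity) (by positivity)).1 h10
  linarith

/-- number of labelled bad base families -/
noncomputable def badB {n : ℕ} (m : ℕ) (B : Fam n) : Prop :=
  (∃ C : Finset (Fin n), C.card = m ∧ ∀ X ∈ B, ¬ C ⊆ X) ∨
      (∃ C : Finset (Fin n), C.card = m ∧ ∀ X ∈ B, (X ∩ C).Nonempty)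

/-- non-central ranks are rare -/
def PK (K n : ℕ) : Prop := ∀ r ∈ badR K n, ((BF n r).card : ℝ) ≤
  (S n ((n + 1) / 2) : ℝ) * (2 : ℝ) ^ (-((n.choose ((n + 1) / 2) : ℝ) / (n : ℝ) ^ 3))

open Classical in
theorem bad_total (m : ℕ) {n K : ℕ} (hn : 8 * K + 12 * m + 20 ≤ n) (hP : PK K n)
    (hs : b n - b (n - (2 * K + 2 * m + 3)) < Real.log (1 + (1 / 4 : ℝ) ^ m)) :
    ∑ r ∈ range (n + 1), (((BF n r).filter (badB m)).card : ℝ) ≤
      ((n : ℝ) + 1) * ((S n ((n + 1) / 2) : ℝ) *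
        ((2 : ℝ) ^ (-((n.choose ((n + 1) / 2) : ℝ) / (n : ℝ) ^ 3)) +
        2 * (n.choose m : ℝ) *
          (2 : ℝ) ^ (-((1 / 4 : ℝ) ^ (2 * m) * (n.choose ((n + 1) / 2) : ℝ) / n)))) := by
  set S0 : ℝ := (S n ((n + 1) / 2) : ℝ) with hS0
  have hS0' : 0 ≤ S0 := by positivity
  set x : ℝ := (2 : ℝ) ^ (-((n.choose ((n + 1) / 2) : ℝ) / (n : ℝ) ^ 3)) with hx
  set y : ℝ := (2 : ℝ) ^ (-((1 / 4 : ℝ) ^ (2 * m) * (n.choose ((n + 1) / 2) : ℝ) / n)) with hy
  have hx0 : 0 ≤ x := by positivity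
  have hy0 : 0 ≤ y := by positivity
  have key : ∀ r ∈ range (n + 1), (((BF n r).filter (badB m)).card : ℝ) ≤
      S0 * (x + 2 * (n.choose m : ℝ) * y) := by
    intro r hr
    rw [mem_range] at hr
    by_cases hb : r ∈ badR K n
    · have h1 : (((BF n r).filter (badB m)).card : ℝ) ≤ ((BF n r).card : ℝ) := by
        exact_mod_cast card_filter_le _ _
      refine h1.trans ((hP r hb).trans ?_)
      have : 0 ≤ S0 * (2 * (n.choose m : ℝ) * y) := by positivity
      calc S0 * x ≤ S0 * x + S0 * (2 * (n.choose m : ℝ) * y) := by linarith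
        _ = _ := by ring
    · rw [badR, mem_filter, mem_range] at hb
      push Not at hb
      have hb' := hb hr
      have h1 : ((BF n r).filter (badB m)).card ≤ n.choose m * (gm n r m + gm n (n - r) m) := by
        have h := bad_count n r m (by omega)
        convert h using 2
        ext B
        simp only [mem_filter, badB]
      have h1' : (((BF n r).filter (badB m)).card : ℝ) ≤
          (n.choose m : ℝ) * ((gm n r m : ℝ) + (gm n (n - r) m : ℝ)) := by
        exact_mod_cast h1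
      have g1 := gm_bound m (n := n) (r := r) (L := 2 * K + 2 * m + 3) (by omega) hs (by omega) (by omega)
      have g2 := gm_bound m (n := n) (r := n - r) (L := 2 * K + 2 * m + 3) (by omega) hs (by omega) (by omega)
      refine h1'.trans ?_
      calc (n.choose m : ℝ) * ((gm n r m : ℝ) + (gm n (n - r) m : ℝ))
          ≤ (n.choose m : ℝ) * (S0 * y + S0 * y) := by gcongr
        _ = S0 * (2 * (n.choose m : ℝ) * y) := by ring
        _ ≤ S0 * (x + 2 * (n.choose m : ℝ) * y) := by gcongr; linarith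
  refine (sum_le_card_nsmul _ _ _ key).trans ?_
  rw [nsmul_eq_mul, card_range]
  push_cast
  exact le_refl _

end Pool.Agent.Helper46.R
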