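import Pool.Agent.Helper46.R.GA1
import Pool.Agent.Helper46.R.Classes

set_option autoImplicit false

namespace Pool.Agent.Helper46.R

open Finset Filter

/-- no separation with a side of at most `m` elements -/
def NoSep (m : ℕ) {n : ℕ} (M : Matroid (Fin n)) : Prop :=
  ∀ (j : ℕ) (X : Set (Fin n)), X.ncard ≤ m →
    ¬ (j ≤ X.ncard ∧ j ≤ (Xᶜ).ncard ∧ M.eRk X + M.eRk Xᶜ + 1 ≤ M.eRank + j)

theorem nosep_of {m n : ℕ} (hm : m ≤ n) (M : Matroid (Fin n))
    (h : ¬ badB m (A.F.bs_22726 M)) : NoSep m M := by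
  classical
  rintro j X hX ⟨h1, -, h3⟩
  lift X to Finset (Fin n) using X.toFinite
  rw [Set.ncard_coe_finset] at hX h1
  obtain ⟨C, hXC, hC⟩ := Finset.exists_superset_card_eq hX (by rw [Fintype.card_fin]; exact hm)
  unfold badB at h
  push Not at h
  obtain ⟨hA, hB⟩ := h
  obtain ⟨B, hB1, hCB⟩ := hA C hC
  obtain ⟨B', hB2, hd⟩ := hB C hC
  rw [A.F.mem_bs_22726] at hB1 hB2
  have hXB : (X : Set (Fin n)) ⊆ (B : Set (Fin n)) := by
    exact_mod_cast hXC.trans hCB
  have hXi : M.Indep (X : Set (Fin n)) := hB1.indep.subset hXB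
  have e1 : M.eRk (X : Set (Fin n)) = (X.card : ℕ∞) := by
    rw [hXi.eRk_eq_encard, Set.encard_coe_eq_coe_finsetCard]
  have hB'X : (B' : Set (Fin n)) ⊆ (X : Set (Fin n))ᶜ := by
    intro y hy hyX
    have hy' : y ∈ B' ∩ C := mem_inter.2 ⟨by exact_mod_cast hy, hXC (by exact_mod_cast hyX)⟩
    rw [hd] at hy'
    exact absurd hy' (notMem_empty y)
  have e2 : M.eRank ≤ M.eRk (X : Set (Fin n))ᶜ := by
    rw [← hB2.encard_eq_eRank, ← hB2.indep.eRk_eq_encard]
    exact M.eRk_mono hB'X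
  have hfin : M.eRank ≠ ⊤ := by
    rw [← hB2.encard_eq_eRank, Set.encard_coe_eq_coe_finsetCard]
    exact ENat.natCast_ne_top _
  rw [e1] at h3
  have h4 : (X.card : ℕ∞) + M.eRank + 1 ≤ M.eRank + j := le_trans (by gcongr) h3
  obtain ⟨e, he⟩ := ENat.ne_top_iff_exists.1 hfin
  rw [← he] at h4
  norm_cast at h4
  omega

open Classical in
/-- number of labelled bad base families -/
noncomputable def badN (m n : ℕ) : ℝ := ∑ r ∈ range (n + 1), (((BF n r).filter (badB m)).card : ℝ)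

open Classical in
theorem bad_mem {m n : ℕ} (hm : m ≤ n) (M : Matroid (Fin n)) (h : ¬ NoSep m M) :
    A.F.bs_22726 M ∈ (range (n + 1)).biUnion (fun r => (BF n r).filter (badB m)) := by
  obtain ⟨r, hrn, hr⟩ := A.F.bs_isBF_22726 M
  rw [mem_biUnion]
  refine ⟨r, mem_range.2 (by omega), ?_⟩
  rw [mem_filter]
  refine ⟨?_, ?_⟩
  · rw [A.BF, mem_filter]
    exact ⟨mem_univ _, hr⟩
  · by_contra hcon
    exact h (nosep_of hm M hcon)

open Classical in
theorem biU_le (m n : ℕ) :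
    ((((range (n + 1)).biUnion (fun r => (BF n r).filter (badB m))).card : ℕ) : ℝ) ≤ badN m n := by
  unfold badN
  exact_mod_cast card_biUnion_le

theorem lab_bad {m n : ℕ} (hm : m ≤ n) :
    (Nat.card {M : XM n // ¬ NoSep m M.1} : ℝ) ≤ badN m n := by
  classical
  have hinj : Function.Injective (fun M : {M : XM n // ¬ NoSep m M.1} =>
      (⟨A.F.bs_22726 M.1.1, bad_mem hm M.1.1 M.2⟩ :
      {B : Fam n // B ∈ (range (n + 1)).biUnion (fun r => (BF n r).filter (badB m))})) := by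
    intro q q' h
    have h1 : A.F.bs_22726 q.1.1 = A.F.bs_22726 q'.1.1 := by
      simpa using h
    exact Subtype.ext (A.F.bs_inj_22726 h1)
  have h3 := Nat.card_le_card_of_injective _ hinj
  have h4 : Nat.card {B : Fam n // B ∈ (range (n + 1)).biUnion (fun r => (BF n r).filter (badB m))} =
      ((range (n + 1)).biUnion (fun r => (BF n r).filter (badB m))).card := by
    rw [Nat.card_eq_fintype_card, Fintype.card_coe]
  rw [h4] at h3
  refine le_trans ?_ (biU_le m n)
  exact_mod_cast h3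

theorem cls_bad {m n : ℕ} (hm : m ≤ n) :
    (Nat.card {q : Quot (RR n) // ¬ ∀ M : XM n, q = Quot.mk _ M → NoSep m M.1} : ℝ) ≤ badN m n := by
  classical
  haveI : Finite (XM n) := A.F.finX_22726 n
  have hex : ∀ q : {q : Quot (RR n) // ¬ ∀ M : XM n, q = Quot.mk _ M → NoSep m M.1},
      ∃ M : XM n, q.1 = Quot.mk _ M ∧ ¬ NoSep m M.1 := by
    rintro ⟨q, hq⟩
    push Not at hq
    exact hq
  choose f hf1 hf2 using hex
  refine le_trans ?_ (lab_bad hm)
  have hinj : Function.Injective (fun q => (⟨f q, hf2 q⟩ : {M : XM n // ¬ NoSep m M.1})) := by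
    intro q q' h
    have h2 : f q = f q' := by simpa using h
    apply Subtype.ext
    rw [hf1 q, hf1 q', h2]
  exact_mod_cast Nat.card_le_card_of_injective _ hinj

theorem card_split {T : Type} [Finite T] (p : T → Prop) :
    (Nat.card T : ℝ) = (Nat.card {x : T // p x} : ℝ) + (Nat.card {x : T // ¬ p x} : ℝ) := by
  classical
  haveI : Fintype T := Fintype.ofFinite _
  rw [Nat.card_eq_fintype_card, Nat.card_eq_fintype_card, Nat.card_eq_fintype_card]
  have := Fintype.card_subtype_compl p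
  have h2 := Fintype.card_subtype_le p
  rw [this, Nat.cast_sub h2]
  ring

theorem prop_ge {T : Type} [Finite T] (p : T → Prop) (n : ℕ) (hT : 0 < (Nat.card T : ℝ))
    (h : (Nat.card {x : T // ¬ p x} : ℝ) * 2 ^ n ≤ (Nat.card T : ℝ)) :
    1 - 1 / 2 ^ n ≤ (Nat.card {x : T // p x} : ℝ) / (Nat.card T : ℝ) := by
  rw [le_div_iff₀ hT]
  have hs := card_split p
  have h10 : (Nat.card {x : T // ¬ p x} : ℝ) ≤ 1 / 2 ^ n * (Nat.card T : ℝ) := by
    rw [one_div, inv_mul_eq_div, le_div_iff₀ (by positivity)]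
    exact h
  rw [sub_mul, one_mul]
  linarith

/-- unlabelled and labelled proportions -/
noncomputable def propU (m n : ℕ) : ℝ :=
  (Nat.card {q : Quot (RR n) // ∀ M : XM n, q = Quot.mk _ M → NoSep m M.1} : ℝ) /
    (Nat.card (Quot (RR n)) : ℝ)

noncomputable def propL (m n : ℕ) : ℝ :=
  (Nat.card {M : XM n // NoSep m M.1} : ℝ) / (Nat.card (XM n) : ℝ)

theorem both_good (m : ℕ) : ∃ n0 : ℕ, ∀ n K : ℕ, n0 ≤ n → 8 * K + 12 * m + 20 ≤ n → PK K n →
    b n - b (n - (2 * K + 2 * m + 3)) < Real.log (1 + (1 / 4 : ℝ) ^ m) →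
    1 - 1 / 2 ^ n ≤ propU m n ∧ 1 - 1 / 2 ^ n ≤ propL m n := by
  obtain ⟨n0, H⟩ := gnum m
  refine ⟨n0, fun n K hn0 hn hP hs => ?_⟩
  haveI : Finite (XM n) := A.F.finX_22726 n
  haveI : Finite (Quot (RR n)) := Quot.finite _
  have ht : badN m n ≤ _ := bad_total m hn hP hs
  have hnum := H n hn0
  set S0 : ℝ := (S n ((n + 1) / 2) : ℝ) with hS0
  have hSc : 2 ≤ S0 := S_mid_two (by omega)
  set x : ℝ := (2 : ℝ) ^ (-((n.choose ((n + 1) / 2) : ℝ) / (n : ℝ) ^ 3)) with hx
  set y : ℝ := (2 : ℝ) ^ (-((1 / 4 : ℝ) ^ (2 * m) * (n.choose ((n + 1) / 2) : ℝ) / n)) with hy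
  have hx0 : 0 ≤ x := by positivity
  have hy0 : 0 ≤ y := by positivity
  have hc0 : (0 : ℝ) ≤ (n.choose m : ℝ) := by positivity
  have hfac : (1 : ℝ) ≤ (n.factorial : ℝ) := by exact_mod_cast Nat.factorial_pos n
  have h2n : (0 : ℝ) < 2 ^ n := by positivity
  have hbad : badN m n * (2 * (n.factorial : ℝ) * 2 ^ n) ≤ S0 := by
    calc badN m n * (2 * (n.factorial : ℝ) * 2 ^ n)
        ≤ (((n : ℝ) + 1) * (S0 * (x + 2 * (n.choose m : ℝ) * y))) * (2 * (n.factorial : ℝ) * 2 ^ n) := by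
          gcongr
      _ ≤ (((n : ℝ) + 1) * (S0 * (1 * x + 4 * (n.choose m : ℝ) * y))) * (2 * (n.factorial : ℝ) * 2 ^ n) := by
          have : 2 * (n.choose m : ℝ) * y ≤ 4 * (n.choose m : ℝ) * y := by
            have := mul_nonneg hc0 hy0
            nlinarith
          gcongr
          linarith
      _ = S0 * (((n : ℝ) + 1) * (1 * x + 4 * (n.choose m : ℝ) * y) * (2 * (n.factorial : ℝ) * 2 ^ n)) := by
          ring
      _ ≤ S0 * 1 := mul_le_mul_of_nonneg_left hnum (by linarith)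
      _ = S0 := mul_one _
  have hbad0 : 0 ≤ badN m n := sum_nonneg (fun _ _ => Nat.cast_nonneg _)
  have hBF : S0 / 2 ≤ ((BF n ((n + 1) / 2)).card : ℝ) := by
    have h4 : S0 = ((BF n ((n + 1) / 2)).card : ℝ) + 1 := by rw [hS0]; unfold S; push_cast; ring
    linarith
  have hU := classes_lower n ((n + 1) / 2) (by omega)
  have hL : ((BF n ((n + 1) / 2)).card : ℝ) ≤ (Nat.card (XM n) : ℝ) := by
    have h1 : ((BF n ((n + 1) / 2)).card : ℝ) ≤ A.mm n := by
      unfold A.mm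
      exact single_le_sum (f := fun r => ((BF n r).card : ℝ)) (fun _ _ => by positivity)
        (mem_range.2 (by omega))
    exact h1.trans (A.F.mm_le_22726 n)
  constructor
  · have hTpos : 0 < (Nat.card (Quot (RR n)) : ℝ) := by
      by_contra hcon
      have h5 : (Nat.card (Quot (RR n)) : ℝ) = 0 := le_antisymm (not_lt.1 hcon) (by positivity)
      rw [h5, zero_mul] at hU
      linarith
    refine prop_ge _ n hTpos ?_
    have h6 := cls_bad (m := m) (n := n) (by omega)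
    set T : ℝ := (Nat.card (Quot (RR n)) : ℝ)
    have h7 : badN m n * 2 ^ n * (2 * (n.factorial : ℝ)) ≤ T * (2 * (n.factorial : ℝ)) := by
      calc badN m n * 2 ^ n * (2 * (n.factorial : ℝ)) = badN m n * (2 * (n.factorial : ℝ) * 2 ^ n) := by ring
        _ ≤ S0 := hbad
        _ ≤ T * (2 * (n.factorial : ℝ)) := by linarith
    have h8 := le_of_mul_le_mul_right h7 (by positivity)
    exact le_trans (mul_le_mul_of_nonneg_right h6 h2n.le) h8
  · have hTpos : 0 < (Nat.card (XM n) : ℝ) := by linarith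
    refine prop_ge _ n hTpos ?_
    have h6 := lab_bad (m := m) (n := n) (by omega)
    have h7 : badN m n * 2 ^ n * 2 ≤ (Nat.card (XM n) : ℝ) * 2 := by
      calc badN m n * 2 ^ n * 2 ≤ badN m n * (2 * (n.factorial : ℝ) * 2 ^ n) := by
            have : badN m n * 2 ^ n * 2 * 1 ≤ badN m n * 2 ^ n * 2 * (n.factorial : ℝ) := by gcongr
            linarith
        _ ≤ S0 := hbad
        _ ≤ (Nat.card (XM n) : ℝ) * 2 := by linarith
    have h8 := le_of_mul_le_mul_right h7 (by norm_num)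
    exact le_trans (mul_le_mul_of_nonneg_right h6 h2n.le) h8

end Pool.Agent.Helper46.R
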