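import Pool.Agent.Helper46.R.GA2

set_option autoImplicit false

namespace Pool.Agent.Helper46.R

open Finset Filter

open Classical in
theorem PK_window : ∃ C : ℝ, 0 < C ∧ ∀ N : ℕ, 2 ≤ N → ∀ K : ℕ, 1 ≤ K → K ^ 2 ≤ N →
    (((Ioc (N / 2) N).filter (fun n : ℕ => ¬ PK K n)).card : ℝ) ≤ C * N / K := by
  refine window_gen PK 2 (fun n hn K lam hl hbin hrec r hr => ?_)
  rw [badR, mem_filter, mem_range] at hr
  exact key_count hn hl hrec hbin r (by omega) hr.2

open Classical in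
theorem conn_main (m : ℕ) : ∃ C : ℝ, 0 < C ∧ ∀ N : ℕ, 1 ≤ N →
    (((Ioc (N / 2) N).filter (fun n : ℕ =>
      ¬ (1 - 1 / 2 ^ n ≤ propU m n ∧ 1 - 1 / 2 ^ n ≤ propL m n))).card : ℝ) ≤ C * Real.sqrt N := by
  obtain ⟨CA, hCA, HA⟩ := PK_window
  obtain ⟨C1, hb1, hb2⟩ := b_two
  have hq : (0 : ℝ) < (1 / 4 : ℝ) ^ m := by positivity
  obtain ⟨CB, hCB, HB⟩ := G3.slow b b_mono C1 hb1 hb2 (Real.log (1 + (1 / 4 : ℝ) ^ m))
    (Real.log_pos (by linarith))
  obtain ⟨n0, H0⟩ := both_good m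
  set N1 : ℕ := 1104 + 48 * m + 2 * n0 with hN1
  refine ⟨2 * CA + CB * (2 * m + 5) + N1, by positivity, fun N hN => ?_⟩
  have hNr : (1 : ℝ) ≤ (N : ℝ) := by exact_mod_cast hN
  have hs0 : 0 ≤ Real.sqrt N := Real.sqrt_nonneg _
  have hs1 : 1 ≤ Real.sqrt N := by
    rw [← Real.sqrt_one]; exact Real.sqrt_le_sqrt hNr
  have hss : Real.sqrt N * Real.sqrt N = N := Real.mul_self_sqrt (by linarith)
  set F := ((Ioc (N / 2) N).filter (fun n : ℕ =>
      ¬ (1 - 1 / 2 ^ n ≤ propU m n ∧ 1 - 1 / 2 ^ n ≤ propL m n))) with hF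
  rcases Nat.lt_or_ge N N1 with hc | hc
  · have h1 : F.card ≤ N := by
      refine (card_filter_le _ _).trans ?_
      rw [Nat.card_Ioc]
      omega
    have h2 : (F.card : ℝ) ≤ N1 := by exact_mod_cast h1.trans hc.le
    have h3 : 0 ≤ (2 * CA + CB * (2 * m + 5)) * Real.sqrt N := by positivity
    have h4 : (N1 : ℝ) ≤ N1 * Real.sqrt N := le_mul_of_one_le_right (by positivity) hs1
    calc (F.card : ℝ) ≤ N1 := h2
      _ ≤ (2 * CA + CB * (2 * m + 5)) * Real.sqrt N + N1 * Real.sqrt N := by linarith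
      _ = _ := by ring
  · set K : ℕ := Nat.sqrt N with hK
    have hK1 : K * K ≤ N := Nat.sqrt_le N
    have hK2 : N < (K + 1) * (K + 1) := Nat.lt_succ_sqrt N
    have hK32 : 32 ≤ K := by
      rw [hK, Nat.le_sqrt]; omega
    have hKr : (32 : ℝ) ≤ (K : ℝ) := by exact_mod_cast hK32
    have hK1r : (K : ℝ) * K ≤ N := by exact_mod_cast hK1
    have hKs : (K : ℝ) ≤ Real.sqrt N := Real.le_sqrt_of_sq_le (by rw [sq]; exact hK1r)
    have hsK : Real.sqrt N ≤ 2 * K := by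
      rw [Real.sqrt_le_left (by positivity)]
      have : (N : ℝ) ≤ ((K : ℝ) + 1) * (K + 1) := by exact_mod_cast hK2.le
      nlinarith
    have hA := HA N (by omega) K (by omega) (by rw [sq]; exact hK1)
    have hB := HB N hN (2 * K + 2 * m + 3) (by omega)
    have hsub : F ⊆ ((Ioc (N / 2) N).filter (fun n : ℕ => ¬ PK K n)) ∪
        ((Ioc (N / 2) N).filter (fun n : ℕ => ¬ b n - b (n - (2 * K + 2 * m + 3)) <
          Real.log (1 + (1 / 4 : ℝ) ^ m))) := by
      intro n hn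
      rw [hF, mem_filter, mem_Ioc] at hn
      rw [mem_union, mem_filter, mem_filter, mem_Ioc]
      by_contra hcon
      push Not at hcon
      obtain ⟨g1, g2⟩ := hcon
      have k1 : 8 * K ≤ N / 4 := by
        have : 32 * K ≤ N := (Nat.mul_le_mul_right K hK32).trans hK1
        omega
      exact hn.2 (H0 n K (by omega) (by omega) (g1 hn.1) (g2 hn.1))
    have h1 : (F.card : ℝ) ≤ (((Ioc (N / 2) N).filter (fun n : ℕ => ¬ PK K n)).card : ℝ) +
        (((Ioc (N / 2) N).filter (fun n : ℕ => ¬ b n - b (n - (2 * K + 2 * m + 3)) <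
          Real.log (1 + (1 / 4 : ℝ) ^ m))).card : ℝ) := by
      exact_mod_cast (card_le_card hsub).trans (card_union_le _ _)
    have h2 : CA * N / K ≤ 2 * CA * Real.sqrt N := by
      rw [div_le_iff₀ (by linarith)]
      calc CA * N = CA * (Real.sqrt N * Real.sqrt N) := by rw [hss]
        _ ≤ CA * (Real.sqrt N * (2 * K)) := by gcongr
        _ = 2 * CA * Real.sqrt N * K := by ring
    have h3 : CB * ((2 * K + 2 * m + 3 : ℕ) : ℝ) ≤ CB * (2 * m + 5) * Real.sqrt N := by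
      push_cast
      have hm0 : (0 : ℝ) ≤ m := by positivity
      have : 2 * (K : ℝ) + 2 * m + 3 ≤ (2 * m + 5) * Real.sqrt N := by nlinarith
      calc CB * (2 * (K : ℝ) + 2 * m + 3) ≤ CB * ((2 * m + 5) * Real.sqrt N) := by gcongr
        _ = _ := by ring
    have h4 : 0 ≤ (N1 : ℝ) * Real.sqrt N := by positivity
    calc (F.card : ℝ) ≤ 2 * CA * Real.sqrt N + CB * (2 * m + 5) * Real.sqrt N := by linarith
      _ ≤ (2 * CA + CB * (2 * m + 5) + N1) * Real.sqrt N := by nlinarith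

end Pool.Agent.Helper46.R
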