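import Pool.Agent.Helper46.R.GA3
import Pool.Agent.Helper46.R.G3u
import Pool.Agent.Helper46.R.G4u

set_option autoImplicit false

namespace Pool.Agent.Helper46.R

open Finset Filter

theorem both_good_u : ∃ n0 : ℕ, ∀ n K m : ℕ, n0 ≤ n → 4 ^ m ≤ n → 8 * K + 12 * m + 20 ≤ n → PK K n →
    b n - b (n - (2 * K + 2 * m + 3)) < Real.log (1 + (1 / 4 : ℝ) ^ m) →
    1 - 1 / 2 ^ n ≤ propU m n ∧ 1 - 1 / 2 ^ n ≤ propL m n := by
  obtain ⟨n0, H⟩ := G4u.gnum
  refine ⟨n0, fun n K m hn0 hm4 hn hP hs => ?_⟩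
  haveI : Finite (XM n) := A.F.finX_22726 n
  haveI : Finite (Quot (RR n)) := Quot.finite _
  have ht : badN m n ≤ _ := bad_total m hn hP hs
  have hnum := H n hn0 m hm4
  set S0 : ℝ := (S n ((n + 1) / 2) : ℝ) with hS0
  have hSc : 2 ≤ S0 := S_mid_two (by omega)
  set x : ℝ := (2 : ℝ) ^ (-((n.choose ((n + 1) / 2) : ℝ) / (n : ℝ) ^ 3)) with hx
  set y : ℝ := (2 : ℝ) ^ (-((1 / 4 : ℝ) ^ (2 * m) * (n.choose ((n + 1) / 2) : ℝ) / n)) with hy
  have hx0 : 0 ≤ x := by positivity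
  have hy0 : 0 ≤ y := by positivity
  have hc0 : (0 : ℝ) ≤ (n.choose m : ℝ) := by positivity
  have hfac : (1 : ℝ) ≤ (n.factorial : ℝ) := by exact_mod_cast Nat.factorial_pos n
  have h2n : (0 : ℝ) < 2 ^ n := by positivity
  have hbad : badN m n * (2 * (n.factorial : ℝ) * 2 ^ n) ≤ S0 := by
    calc badN m n * (2 * (n.factorial : ℝ) * 2 ^ n)
        ≤ (((n : ℝ) + 1) * (S0 * (x + 2 * (n.choose m : ℝ) * y))) * (2 * (n.factorial : ℝ) * 2 ^ n) := by
          gcongr
      _ ≤ (((n : ℝ) + 1) * (S0 * (1 * x + 4 * (n.choose m : ℝ) * y))) * (2 * (n.factorial : ℝ) * 2 ^ n) := by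
          have : 2 * (n.choose m : ℝ) * y ≤ 4 * (n.choose m : ℝ) * y := by
            have := mul_nonneg hc0 hy0
            nlinarith
          gcongr
          linarith
      _ = S0 * (((n : ℝ) + 1) * (1 * x + 4 * (n.choose m : ℝ) * y) * (2 * (n.factorial : ℝ) * 2 ^ n)) := by
          ring
      _ ≤ S0 * 1 := mul_le_mul_of_nonneg_left hnum (by linarith)
      _ = S0 := mul_one _
  have hbad0 : 0 ≤ badN m n := sum_nonneg (fun _ _ => Nat.cast_nonneg _)
  have hBF : S0 / 2 ≤ ((BF n ((n + 1) / 2)).card : ℝ) := by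
    have h4 : S0 = ((BF n ((n + 1) / 2)).card : ℝ) + 1 := by rw [hS0]; unfold S; push_cast; ring
    linarith
  have hU := classes_lower n ((n + 1) / 2) (by omega)
  have hL : ((BF n ((n + 1) / 2)).card : ℝ) ≤ (Nat.card (XM n) : ℝ) := by
    have h1 : ((BF n ((n + 1) / 2)).card : ℝ) ≤ A.mm n := by
      unfold A.mm
      exact single_le_sum (f := fun r => ((BF n r).card : ℝ)) (fun _ _ => by positivity)
        (mem_range.2 (by omega))
    exact h1.trans (A.F.mm_le_22726 n)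
  constructor
  · have hTpos : 0 < (Nat.card (Quot (RR n)) : ℝ) := by
      by_contra hcon
      have h5 : (Nat.card (Quot (RR n)) : ℝ) = 0 := le_antisymm (not_lt.1 hcon) (by positivity)
      rw [h5, zero_mul] at hU
      linarith
    refine prop_ge _ n hTpos ?_
    have h6 := cls_bad (m := m) (n := n) (by omega)
    set T : ℝ := (Nat.card (Quot (RR n)) : ℝ)
    have h7 : badN m n * 2 ^ n * (2 * (n.factorial : ℝ)) ≤ T * (2 * (n.factorial : ℝ)) := by
      calc badN m n * 2 ^ n * (2 * (n.factorial : ℝ)) = badN m n * (2 * (n.factorial : ℝ) * 2 ^ n) := by ring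
        _ ≤ S0 := hbad
        _ ≤ T * (2 * (n.factorial : ℝ)) := by linarith
    have h8 := le_of_mul_le_mul_right h7 (by positivity)
    exact le_trans (mul_le_mul_of_nonneg_right h6 h2n.le) h8
  · have hTpos : 0 < (Nat.card (XM n) : ℝ) := by linarith
    refine prop_ge _ n hTpos ?_
    have h6 := lab_bad (m := m) (n := n) (by omega)
    have h7 : badN m n * 2 ^ n * 2 ≤ (Nat.card (XM n) : ℝ) * 2 := by
      calc badN m n * 2 ^ n * 2 ≤ badN m n * (2 * (n.factorial : ℝ) * 2 ^ n) := by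
            have : badN m n * 2 ^ n * 2 * 1 ≤ badN m n * 2 ^ n * 2 * (n.factorial : ℝ) := by gcongr
            linarith
        _ ≤ S0 := hbad
        _ ≤ (Nat.card (XM n) : ℝ) * 2 := by linarith
    have h8 := le_of_mul_le_mul_right h7 (by norm_num)
    exact le_trans (mul_le_mul_of_nonneg_right h6 h2n.le) h8


open Classical in
theorem conn_unif : ∃ C : ℝ, 0 < C ∧ ∀ N : ℕ, 1 ≤ N → ∀ m : ℕ,
    (((Ioc (N / 2) N).filter (fun n : ℕ =>
      ¬ (1 - 1 / 2 ^ n ≤ propU m n ∧ 1 - 1 / 2 ^ n ≤ propL m n))).card : ℝ) ≤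
      C * 4 ^ m * Real.sqrt N := by
  obtain ⟨CA, hCA, HA⟩ := PK_window
  obtain ⟨C1, hb1, hb2⟩ := b_two
  have hC1 : 0 ≤ C1 := by
    have h1 := hb1 1 le_rfl
    have h2 := hb2 1 le_rfl
    linarith
  have hlog8 : 0 < Real.log 8 := Real.log_pos (by norm_num)
  set c : ℝ := Real.log 8 + 2 * C1 with hc
  have hc0 : 0 ≤ c := by rw [hc]; positivity
  obtain ⟨n0, H0⟩ := both_good_u
  set N1 : ℕ := 4096 + 2 * n0 with hN1
  refine ⟨2 * CA + 5 * (8 + 2 * c) + N1, by positivity, fun N hN m => ?_⟩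
  have hNr : (1 : ℝ) ≤ (N : ℝ) := by exact_mod_cast hN
  have hs0 : 0 ≤ Real.sqrt N := Real.sqrt_nonneg _
  have hs1 : 1 ≤ Real.sqrt N := by
    rw [← Real.sqrt_one]; exact Real.sqrt_le_sqrt hNr
  have hss : Real.sqrt N * Real.sqrt N = N := Real.mul_self_sqrt (by linarith)
  have h4m : (1 : ℝ) ≤ 4 ^ m := one_le_pow₀ (by norm_num)
  set F := ((Ioc (N / 2) N).filter (fun n : ℕ =>
      ¬ (1 - 1 / 2 ^ n ≤ propU m n ∧ 1 - 1 / 2 ^ n ≤ propL m n))) with hF
  have hFN : F.card ≤ N := by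
    refine (card_filter_le _ _).trans ?_
    rw [Nat.card_Ioc]
    omega
  have hFN' : (F.card : ℝ) ≤ N := by exact_mod_cast hFN
  have hN1r : (1 : ℝ) ≤ N1 := by
    have : 1 ≤ N1 := by omega
    exact_mod_cast this
  rcases Nat.lt_or_ge N N1 with hcN | hcN
  · have h2 : (F.card : ℝ) ≤ N1 := by exact_mod_cast hFN.trans hcN.le
    have h5 : (1 : ℝ) ≤ 4 ^ m * Real.sqrt N := one_le_mul_of_one_le_of_one_le h4m hs1
    have h3 : 0 ≤ (2 * CA + 5 * (8 + 2 * c)) * (4 ^ m * Real.sqrt N) := by positivity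
    have h4 : (N1 : ℝ) ≤ N1 * (4 ^ m * Real.sqrt N) := le_mul_of_one_le_right (by positivity) h5
    calc (F.card : ℝ) ≤ N1 := h2
      _ ≤ (2 * CA + 5 * (8 + 2 * c)) * (4 ^ m * Real.sqrt N) + N1 * (4 ^ m * Real.sqrt N) := by linarith
      _ = _ := by ring
  · set K : ℕ := Nat.sqrt N with hK
    have hK1 : K * K ≤ N := Nat.sqrt_le N
    have hK2 : N < (K + 1) * (K + 1) := Nat.lt_succ_sqrt N
    have hK64 : 64 ≤ K := by
      rw [hK, Nat.le_sqrt]; omega
    have hKr : (64 : ℝ) ≤ (K : ℝ) := by exact_mod_cast hK64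
    have hK1r : (K : ℝ) * K ≤ N := by exact_mod_cast hK1
    have hKs : (K : ℝ) ≤ Real.sqrt N := Real.le_sqrt_of_sq_le (by rw [sq]; exact hK1r)
    have hsK : Real.sqrt N ≤ 2 * K := by
      rw [Real.sqrt_le_left (by positivity)]
      have : (N : ℝ) ≤ ((K : ℝ) + 1) * (K + 1) := by exact_mod_cast hK2.le
      nlinarith
    rcases Nat.lt_or_ge K (4 ^ m) with hm | hm
    · -- trivial range
      have hm' : (K : ℝ) + 1 ≤ 4 ^ m := by exact_mod_cast hm
      have hsK1 : Real.sqrt N ≤ (K : ℝ) + 1 := by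
        rw [Real.sqrt_le_left (by positivity)]
        have : (N : ℝ) ≤ ((K : ℝ) + 1) * (K + 1) := by exact_mod_cast hK2.le
        nlinarith
      calc (F.card : ℝ) ≤ N := hFN'
        _ = Real.sqrt N * Real.sqrt N := hss.symm
        _ ≤ 4 ^ m * Real.sqrt N := by gcongr; linarith
        _ ≤ (2 * CA + 5 * (8 + 2 * c) + N1) * (4 ^ m * Real.sqrt N) := by
          apply le_mul_of_one_le_left (by positivity)
          nlinarith
        _ = _ := by ring
    · have hmK : m ≤ K := (Nat.lt_pow_self (by norm_num : 1 < 4)).le.trans hm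
      set δ : ℝ := Real.log (1 + (1 / 4 : ℝ) ^ m) with hδ
      have hq : (0 : ℝ) < (1 / 4 : ℝ) ^ m := by positivity
      have hq1 : (1 / 4 : ℝ) ^ m ≤ 1 := pow_le_one₀ (by norm_num) (by norm_num)
      have hδ0 : 0 < δ := Real.log_pos (by linarith)
      have hδ2 : (1 / 4 : ℝ) ^ m / 2 ≤ δ := by
        have h := Real.one_sub_inv_le_log_of_pos (x := 1 + (1 / 4 : ℝ) ^ m) (by linarith)
        refine le_trans ?_ h
        rw [le_sub_iff_add_le, inv_eq_one_div, ← le_sub_iff_add_le', div_le_iff₀ (by linarith)]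
        nlinarith
      have hA := HA N (by omega) K (by omega) (by rw [sq]; exact hK1)
      have hB := G3u.slow b b_mono C1 hb1 hb2 δ hδ0 N hN (2 * K + 2 * m + 3) (by omega)
      have hKK : 64 * K ≤ N := (Nat.mul_le_mul_right K hK64).trans hK1
      have hsub : F ⊆ ((Ioc (N / 2) N).filter (fun n : ℕ => ¬ PK K n)) ∪
          ((Ioc (N / 2) N).filter (fun n : ℕ => ¬ b n - b (n - (2 * K + 2 * m + 3)) < δ)) := by
        intro n hn
        rw [hF, mem_filter, mem_Ioc] at hn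
        rw [mem_union, mem_filter, mem_filter, mem_Ioc]
        by_contra hcon
        push Not at hcon
        obtain ⟨g1, g2⟩ := hcon
        exact hn.2 (H0 n K m (by omega) (by omega) (by omega) (g1 hn.1) (g2 hn.1))
      have h1 : (F.card : ℝ) ≤ (((Ioc (N / 2) N).filter (fun n : ℕ => ¬ PK K n)).card : ℝ) +
          (((Ioc (N / 2) N).filter (fun n : ℕ =>
            ¬ b n - b (n - (2 * K + 2 * m + 3)) < δ)).card : ℝ) := by
        exact_mod_cast (card_le_card hsub).trans (card_union_le _ _)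
      have h2 : CA * N / K ≤ 2 * CA * (4 ^ m * Real.sqrt N) := by
        rw [div_le_iff₀ (by linarith)]
        calc CA * N = CA * (Real.sqrt N * Real.sqrt N) := by rw [hss]
          _ ≤ CA * (Real.sqrt N * (2 * K)) := by gcongr
          _ = 2 * CA * (1 * Real.sqrt N) * K := by ring
          _ ≤ 2 * CA * (4 ^ m * Real.sqrt N) * K := by gcongr
      have h3 : (8 + c / δ) * ((2 * K + 2 * m + 3 : ℕ) : ℝ) ≤ 5 * (8 + 2 * c) * (4 ^ m * Real.sqrt N) := by
        have hL : ((2 * K + 2 * m + 3 : ℕ) : ℝ) ≤ 5 * Real.sqrt N := by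
          have : 2 * K + 2 * m + 3 ≤ 5 * K := by omega
          have h' : ((2 * K + 2 * m + 3 : ℕ) : ℝ) ≤ ((5 * K : ℕ) : ℝ) := by exact_mod_cast this
          push_cast at h' ⊢
          linarith
        have hcd : c / δ ≤ 2 * c * 4 ^ m := by
          rw [div_le_iff₀ hδ0]
          have e : (4 : ℝ) ^ m * (1 / 4 : ℝ) ^ m = 1 := by
            rw [← mul_pow]; norm_num
          calc c = 2 * c * 4 ^ m * ((1 / 4 : ℝ) ^ m / 2) := by
                have : 2 * c * 4 ^ m * ((1 / 4 : ℝ) ^ m / 2) = c * ((4 : ℝ) ^ m * (1 / 4 : ℝ) ^ m) := by ring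
                rw [this, e, mul_one]
            _ ≤ 2 * c * 4 ^ m * δ := by gcongr
        have h8 : 8 + c / δ ≤ (8 + 2 * c) * 4 ^ m := by nlinarith
        have h80 : 0 ≤ 8 + c / δ := by positivity
        calc (8 + c / δ) * ((2 * K + 2 * m + 3 : ℕ) : ℝ) ≤ ((8 + 2 * c) * 4 ^ m) * (5 * Real.sqrt N) := by
              gcongr
          _ = _ := by ring
      have h4 : 0 ≤ (N1 : ℝ) * (4 ^ m * Real.sqrt N) := by positivity
      calc (F.card : ℝ) ≤ 2 * CA * (4 ^ m * Real.sqrt N) + 5 * (8 + 2 * c) * (4 ^ m * Real.sqrt N) := by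
            linarith
        _ ≤ 2 * CA * (4 ^ m * Real.sqrt N) + 5 * (8 + 2 * c) * (4 ^ m * Real.sqrt N) +
            (N1 : ℝ) * (4 ^ m * Real.sqrt N) := by linarith
        _ = _ := by ring

end Pool.Agent.Helper46.R
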