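import Pool.Agent.Helper46.R.GA4

set_option autoImplicit false

namespace Pool.Agent.Helper46.R

open Finset Filter

/-- every circuit of `M` and of its dual has more than `m` elements -/
def LG (m : ℕ) {n : ℕ} (M : Matroid (Fin n)) : Prop :=
  ∀ C : Set (Fin n), (M.IsCircuit C ∨ M✶.IsCircuit C) → m < C.ncard

theorem lg_of_nosep {m n : ℕ} (hm : 2 * m ≤ n) (M : Matroid (Fin n)) (hE : M.E = Set.univ)
    (h : NoSep m M) : LG m M := by
  intro C hC
  by_contra hlt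
  push Not at hlt
  have hcompl : (Cᶜ).ncard = n - C.ncard := by
    have := Set.ncard_add_ncard_compl C
    rw [Nat.card_eq_fintype_card, Fintype.card_fin] at this
    omega
  have hCe : C.encard = (C.ncard : ℕ∞) := (C.toFinite.cast_ncard_eq).symm
  refine h C.ncard C hlt ⟨le_rfl, by omega, ?_⟩
  rcases hC with hC | hC
  · have h1 : M.eRk C + 1 = C.encard := hC.eRk_add_one_eq
    calc M.eRk C + M.eRk Cᶜ + 1 = (M.eRk C + 1) + M.eRk Cᶜ := by ring
      _ ≤ C.encard + M.eRank := by rw [h1]; gcongr; exact M.eRk_le_eRank _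
      _ = M.eRank + C.ncard := by rw [hCe, add_comm]
  · have h2 : M.eRk Cᶜ + 1 ≤ M.eRank := by
      by_contra hcon
      have h3 : M.eRank ≤ M.eRk Cᶜ := by
        rw [not_le] at hcon
        exact Order.le_of_lt_add_one hcon
      have hsp : M.Spanning Cᶜ := by
        rw [Matroid.spanning_iff_eRk_le]
        exact h3
      have hco : M.Coindep C := by
        rw [Matroid.coindep_iff_compl_spanning, hE]
        rwa [← Set.compl_eq_univ_diff]
      exact hC.not_indep hco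
    calc M.eRk C + M.eRk Cᶜ + 1 = M.eRk C + (M.eRk Cᶜ + 1) := by ring
      _ ≤ C.encard + M.eRank := by gcongr; exact M.eRk_le_encard C
      _ = M.eRank + C.ncard := by rw [hCe, add_comm]

noncomputable def lgU (m n : ℕ) : ℝ :=
  (Nat.card {q : Quot (RR n) // ∀ M : XM n, q = Quot.mk _ M → LG m M.1} : ℝ) /
    (Nat.card (Quot (RR n)) : ℝ)

noncomputable def lgL (m n : ℕ) : ℝ :=
  (Nat.card {M : XM n // LG m M.1} : ℝ) / (Nat.card (XM n) : ℝ)

theorem lgU_ge {m n : ℕ} (hm : 2 * m ≤ n) : propU m n ≤ lgU m n := by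
  have : Finite (XM n) := A.F.finX_22726 n
  have : Finite (Quot (RR n)) := Quot.finite _
  unfold propU lgU
  gcongr
  exact Nat.card_le_card_of_injective
    (fun q : {q : Quot (RR n) // ∀ M : XM n, q = Quot.mk _ M → NoSep m M.1} =>
      (⟨q.1, fun M hM => lg_of_nosep hm M.1 M.2 (q.2 M hM)⟩ :
        {q : Quot (RR n) // ∀ M : XM n, q = Quot.mk _ M → LG m M.1}))
    (fun q q' h => Subtype.ext (by simpa using h))

theorem lgL_ge {m n : ℕ} (hm : 2 * m ≤ n) : propL m n ≤ lgL m n := by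
  have : Finite (XM n) := A.F.finX_22726 n
  unfold propL lgL
  gcongr
  exact Nat.card_le_card_of_injective
    (fun M : {M : XM n // NoSep m M.1} =>
      (⟨M.1, lg_of_nosep hm M.1.1 M.1.2 M.2⟩ : {M : XM n // LG m M.1}))
    (fun q q' h => Subtype.ext (by simpa using h))

open Classical in
theorem girth_unif : ∃ C : ℝ, 0 < C ∧ ∀ N : ℕ, 1 ≤ N → ∀ m : ℕ,
    (((Ioc (N / 2) N).filter (fun n : ℕ =>
      ¬ (1 - 1 / 2 ^ n ≤ lgU m n ∧ 1 - 1 / 2 ^ n ≤ lgL m n))).card : ℝ) ≤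
      C * 4 ^ m * Real.sqrt N := by
  obtain ⟨C, hC, H⟩ := conn_unif
  refine ⟨C + 4, by positivity, fun N hN m => ?_⟩
  have hNr : (1 : ℝ) ≤ (N : ℝ) := by exact_mod_cast hN
  have hs1 : 1 ≤ Real.sqrt N := by
    rw [← Real.sqrt_one]; exact Real.sqrt_le_sqrt hNr
  have h4m : (1 : ℝ) ≤ 4 ^ m := one_le_pow₀ (by norm_num)
  have h5 : (4 : ℝ) ^ m ≤ 4 ^ m * Real.sqrt N := le_mul_of_one_le_right (by positivity) hs1
  rcases Nat.lt_or_ge N (4 * m) with hc | hc
  · have hFN : ((Ioc (N / 2) N).filter (fun n : ℕ =>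
        ¬ (1 - 1 / 2 ^ n ≤ lgU m n ∧ 1 - 1 / 2 ^ n ≤ lgL m n))).card ≤ N := by
      refine (card_filter_le _ _).trans ?_
      rw [Nat.card_Ioc]
      omega
    have h1 : m ≤ 4 ^ m := (Nat.lt_pow_self (by norm_num : 1 < 4)).le
    have h2 : (((Ioc (N / 2) N).filter (fun n : ℕ =>
        ¬ (1 - 1 / 2 ^ n ≤ lgU m n ∧ 1 - 1 / 2 ^ n ≤ lgL m n))).card : ℝ) ≤ 4 * 4 ^ m := by
      have : ((Ioc (N / 2) N).filter (fun n : ℕ =>
        ¬ (1 - 1 / 2 ^ n ≤ lgU m n ∧ 1 - 1 / 2 ^ n ≤ lgL m n))).card ≤ 4 * 4 ^ m := by omega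
      exact_mod_cast this
    have h3 : 0 ≤ C * 4 ^ m * Real.sqrt N := by positivity
    calc _ ≤ (4 : ℝ) * 4 ^ m := h2
      _ ≤ C * 4 ^ m * Real.sqrt N + 4 * (4 ^ m * Real.sqrt N) := by linarith
      _ = (C + 4) * 4 ^ m * Real.sqrt N := by ring
  · have hsub : ((Ioc (N / 2) N).filter (fun n : ℕ =>
        ¬ (1 - 1 / 2 ^ n ≤ lgU m n ∧ 1 - 1 / 2 ^ n ≤ lgL m n))) ⊆
        ((Ioc (N / 2) N).filter (fun n : ℕ =>
        ¬ (1 - 1 / 2 ^ n ≤ propU m n ∧ 1 - 1 / 2 ^ n ≤ propL m n))) := by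
      intro n hn
      rw [mem_filter, mem_Ioc] at hn ⊢
      refine ⟨hn.1, fun hg => hn.2 ⟨hg.1.trans (lgU_ge (by omega)), hg.2.trans (lgL_ge (by omega))⟩⟩
    have h1 := H N hN m
    have h2 : (((Ioc (N / 2) N).filter (fun n : ℕ =>
        ¬ (1 - 1 / 2 ^ n ≤ lgU m n ∧ 1 - 1 / 2 ^ n ≤ lgL m n))).card : ℝ) ≤ C * 4 ^ m * Real.sqrt N := by
      refine le_trans ?_ h1
      exact_mod_cast card_le_card hsub
    refine h2.trans ?_
    gcongr
    linarith

end Pool.Agent.Helper46.R
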