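import Pool.Agent.Helper46.R.Main

set_option autoImplicit false

namespace Pool.Agent.Helper46.R

open Finset

open Classical in
/-- base families of rank `r` in which no basis contains `C` -/
noncomputable def GF (n r : ℕ) (C : Finset (Fin n)) : Finset (Fam n) :=
  (BF n r).filter (fun B => ∀ X ∈ B, ¬ C ⊆ X)

/-- largest size of `GF n r C` over the sets `C` with `m` elements -/
noncomputable def gm (n r m : ℕ) : ℕ :=
  (powersetCard m (univ : Finset (Fin n))).sup (fun C => (GF n r C).card)

end Pool.Agent.Helper46.R
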