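import Pool.Agent.Helper46.R.G1
import Pool.Agent.Helper46.R.G2
import Pool.Agent.Helper46.R.G3
import Pool.Agent.Helper46.R.G4
import Pool.Agent.Helper46.R.G5

set_option autoImplicit false

namespace Pool.Agent.Helper46.R

open Finset

theorem choose_ratio (m : ℕ) : ∀ n r : ℕ, n + 4 * m ≤ 4 * r → r ≤ n →
    n.choose r ≤ 4 ^ m * (n - m).choose (r - m) := G4.choose_ratio m

theorem gnum (m : ℕ) : ∃ n0 : ℕ, ∀ n : ℕ, n0 ≤ n →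
    ((n : ℝ) + 1) * ((1 : ℝ) * (2 : ℝ) ^ (-((n.choose ((n + 1) / 2) : ℝ) / (n : ℝ) ^ 3)) +
      4 * (n.choose m : ℝ) * (2 : ℝ) ^ (-((1 / 4 : ℝ) ^ (2 * m) * (n.choose ((n + 1) / 2) : ℝ) / n))) *
      (2 * (n.factorial : ℝ) * 2 ^ n) ≤ 1 := G4.gnum m

end Pool.Agent.Helper46.R
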