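import Pool.Agent.Helper46.R.Defs

set_option autoImplicit false

namespace Pool.Agent.Helper46.R.J1

open Finset

theorem shearer_amgm {ι : Type*} (T : Finset ι) (hT : 0 < T.card) (z : ι → ℝ)
    (hz : ∀ i ∈ T, 0 ≤ z i) : ∏ i ∈ T, z i ≤ ((∑ i ∈ T, z i) / (T.card : ℝ)) ^ T.card := by
  have h := Real.geom_mean_le_arith_mean T (fun _ => (1 : ℝ)) z (fun _ _ => zero_le_one)
    (by simp; exact Finset.card_pos.mp hT) hz
  simp only [Real.rpow_one, one_mul, Finset.sum_const, nsmul_eq_mul, mul_one] at h
  have h2 := pow_le_pow_left₀ (Real.rpow_nonneg (Finset.prod_nonneg hz) _) h T.card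
  rwa [Real.rpow_inv_natCast_pow (Finset.prod_nonneg hz) hT.ne'] at h2

theorem shearer_hoelder {ι : Type*} [Fintype ι] [DecidableEq ι] (T : Finset ι) (k : ℕ) (hk : 0 < k)
    (hT : k ≤ T.card) (u v p : ι → ℕ) (h1 : ∀ i ∈ T, u i + v i ≤ p i)
    (h2 : ∀ i, i ∉ T → u i ≤ p i ∧ v i ≤ p i) (x y : ℕ) (hx : x ^ k ≤ ∏ i, u i)
    (hy : y ^ k ≤ ∏ i, v i) : (x + y) ^ k ≤ ∏ i, p i := by
  have hup : ∀ i, u i ≤ p i := fun i => by
    by_cases hi : i ∈ T
    · have := h1 i hi; omega
    · exact (h2 i hi).1
  have hvp : ∀ i, v i ≤ p i := fun i => by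
    by_cases hi : i ∈ T
    · have := h1 i hi; omega
    · exact (h2 i hi).2
  rcases Nat.eq_zero_or_pos x with h0 | hx0
  · subst h0
    rw [Nat.zero_add]
    exact hy.trans (Finset.prod_le_prod' fun i _ => hvp i)
  rcases Nat.eq_zero_or_pos y with h0 | hy0
  · subst h0
    rw [Nat.add_zero]
    exact hx.trans (Finset.prod_le_prod' fun i _ => hup i)
  have hupos : ∀ i, 0 < u i := by
    intro i
    have : 0 < ∏ i, u i := lt_of_lt_of_le (pow_pos hx0 k) hx
    exact Nat.pos_of_ne_zero fun h => by
      rw [Finset.prod_eq_zero (Finset.mem_univ i) h] at this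
      exact lt_irrefl _ this
  have hppos : ∀ i, (0 : ℝ) < p i := fun i => by exact_mod_cast lt_of_lt_of_le (hupos i) (hup i)
  have hTpos : 0 < T.card := lt_of_lt_of_le hk hT
  have hTpos' : (0 : ℝ) < (T.card : ℝ) := by exact_mod_cast hTpos
  set P : ℝ := ∏ i, (p i : ℝ) with hP
  have hPpos : 0 < P := Finset.prod_pos fun i _ => hppos i
  set q : ℝ := P ^ ((k : ℝ)⁻¹) with hq
  have hq0 : 0 ≤ q := Real.rpow_nonneg hPpos.le _
  have hqk : q ^ k = P := Real.rpow_inv_natCast_pow hPpos.le hk.ne'
  -- key bound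
  have key : ∀ (w : ι → ℕ) (X : ℕ), (∀ i, w i ≤ p i) → X ^ k ≤ ∏ i, w i →
      (X : ℝ) ≤ q * ((∑ i ∈ T, (w i : ℝ) / (p i : ℝ)) / (T.card : ℝ)) := by
    intro w X hw hX
    set α : ℝ := (∑ i ∈ T, (w i : ℝ) / (p i : ℝ)) / (T.card : ℝ) with hα
    have hwp : ∀ i, (w i : ℝ) / (p i : ℝ) ≤ 1 := fun i => by
      rw [div_le_one (hppos i)]
      exact_mod_cast hw i
    have hwp0 : ∀ i, 0 ≤ (w i : ℝ) / (p i : ℝ) := fun i => by positivity
    have hα0 : 0 ≤ α := by
      rw [hα]
      exact div_nonneg (Finset.sum_nonneg fun i _ => hwp0 i) hTpos'.le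
    have hα1 : α ≤ 1 := by
      rw [hα, div_le_one hTpos']
      calc ∑ i ∈ T, (w i : ℝ) / (p i : ℝ) ≤ ∑ i ∈ T, (1 : ℝ) := Finset.sum_le_sum fun i _ => hwp i
        _ = (T.card : ℝ) := by simp
    have hprod : ∏ i ∈ T, (w i : ℝ) / (p i : ℝ) ≤ α ^ k :=
      (shearer_amgm T hTpos _ fun i _ => hwp0 i).trans (pow_le_pow_of_le_one hα0 hα1 hT)
    have hXr : (X : ℝ) ^ k ≤ ∏ i, (w i : ℝ) := by exact_mod_cast hX
    have hall : ∏ i, (w i : ℝ) = P * ∏ i, ((w i : ℝ) / (p i : ℝ)) := by
      rw [hP, ← Finset.prod_mul_distrib]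
      refine Finset.prod_congr rfl fun i _ => ?_
      rw [mul_div_cancel₀]
      exact (hppos i).ne'
    have hle : ∏ i, ((w i : ℝ) / (p i : ℝ)) ≤ ∏ i ∈ T, ((w i : ℝ) / (p i : ℝ)) := by
      rw [← Finset.prod_mul_prod_compl T]
      calc _ ≤ (∏ i ∈ T, ((w i : ℝ) / (p i : ℝ))) * 1 :=
            mul_le_mul_of_nonneg_left (Finset.prod_le_one (fun i _ => hwp0 i) fun i _ => hwp i)
              (Finset.prod_nonneg fun i _ => hwp0 i)
        _ = _ := mul_one _
    have hfin : (X : ℝ) ^ k ≤ (q * α) ^ k := by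
      rw [mul_pow, hqk]
      calc (X : ℝ) ^ k ≤ P * ∏ i, ((w i : ℝ) / (p i : ℝ)) := by rw [← hall]; exact hXr
        _ ≤ P * α ^ k := mul_le_mul_of_nonneg_left (hle.trans hprod) hPpos.le
    exact le_of_pow_le_pow_left₀ hk.ne' (mul_nonneg hq0 hα0) hfin
  have e1 := key u x hup hx
  have e2 := key v y hvp hy
  have hsum : (∑ i ∈ T, (u i : ℝ) / (p i : ℝ)) / (T.card : ℝ) +
      (∑ i ∈ T, (v i : ℝ) / (p i : ℝ)) / (T.card : ℝ) ≤ 1 := by
    rw [← add_div, div_le_one hTpos', ← Finset.sum_add_distrib]
    calc ∑ i ∈ T, ((u i : ℝ) / (p i : ℝ) + (v i : ℝ) / (p i : ℝ)) ≤ ∑ i ∈ T, (1 : ℝ) := by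
          refine Finset.sum_le_sum fun i hi => ?_
          rw [← add_div, div_le_one (hppos i)]
          exact_mod_cast h1 i hi
      _ = (T.card : ℝ) := by simp
  have hxy : ((x : ℝ) + y) ≤ q := by
    calc (x : ℝ) + y ≤ q * ((∑ i ∈ T, (u i : ℝ) / (p i : ℝ)) / (T.card : ℝ)) +
          q * ((∑ i ∈ T, (v i : ℝ) / (p i : ℝ)) / (T.card : ℝ)) := add_le_add e1 e2
      _ = q * ((∑ i ∈ T, (u i : ℝ) / (p i : ℝ)) / (T.card : ℝ) +
          (∑ i ∈ T, (v i : ℝ) / (p i : ℝ)) / (T.card : ℝ)) := by ring
      _ ≤ q * 1 := mul_le_mul_of_nonneg_left hsum hq0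
      _ = q := mul_one _
  have hfin : ((x : ℝ) + y) ^ k ≤ P := by
    rw [← hqk]
    exact pow_le_pow_left₀ (by positivity) hxy k
  rw [hP] at hfin
  exact_mod_cast hfin

/-- Shearer's lemma -/
theorem shearer {α ι : Type*} [DecidableEq α] [Fintype ι] [DecidableEq ι] (F : Finset (Finset α))
    (A : ι → Finset α) (k : ℕ) (hk : 0 < k) (U : Finset α) (hF : ∀ B ∈ F, B ⊆ U)
    (hcov : ∀ x ∈ U, k ≤ (univ.filter (fun i => x ∈ A i)).card) :
    F.card ^ k ≤ ∏ i, (F.image (fun B => B ∩ A i)).card := by
  induction U using Finset.induction_on generalizing F with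
  | empty =>
    rcases F.eq_empty_or_nonempty with h | h
    · subst h
      simp [hk.ne']
    · have h1 : F.card ≤ 1 := by
        rw [Finset.card_le_one]
        intro a ha b hb
        have := hF a ha
        have := hF b hb
        simp_all
      have h2 : F.card ^ k ≤ 1 := by
        calc F.card ^ k ≤ 1 ^ k := Nat.pow_le_pow_left h1 k
          _ = 1 := one_pow k
      refine h2.trans ?_
      exact Finset.prod_pos fun i _ => Finset.card_pos.mpr (h.image _)
  | insert x U' hx ih =>
    set F0 := F.filter (fun B => x ∉ B) with hF0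
    set F1' := F.filter (fun B => x ∈ B) with hF1'
    set F1 := F1'.image (fun B => B.erase x) with hF1
    have hcard1 : F1.card = F1'.card := by
      rw [hF1]
      apply Finset.card_image_of_injOn
      intro a ha b hb hab
      have ha' : x ∈ a := by
        have := Finset.mem_coe.mp ha
        rw [hF1', Finset.mem_filter] at this
        exact this.2
      have hb' : x ∈ b := by
        have := Finset.mem_coe.mp hb
        rw [hF1', Finset.mem_filter] at this
        exact this.2
      have hab' : a.erase x = b.erase x := hab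
      rw [← Finset.insert_erase ha', ← Finset.insert_erase hb', hab']
    have hcard : F.card = F0.card + F1.card := by
      rw [hcard1, hF0, hF1', add_comm]
      exact (Finset.card_filter_add_card_filter_not (s := F) (fun B => x ∈ B)).symm
    rw [hcard]
    have hcov' : ∀ y ∈ U', k ≤ (univ.filter (fun i => y ∈ A i)).card :=
      fun y hy => hcov y (Finset.mem_insert_of_mem hy)
    have ih0 := ih F0 (by
      intro B hB
      rw [hF0, Finset.mem_filter] at hB
      have := hF B hB.1
      intro y hy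
      have h3 := Finset.mem_insert.mp (this hy)
      rcases h3 with h3 | h3
      · exact absurd (h3 ▸ hy) hB.2
      · exact h3) hcov'
    have ih1 := ih F1 (by
      intro B hB
      rw [hF1, Finset.mem_image] at hB
      obtain ⟨C, hC, rfl⟩ := hB
      rw [hF1', Finset.mem_filter] at hC
      intro y hy
      rw [Finset.mem_erase] at hy
      have h3 := Finset.mem_insert.mp (hF C hC.1 hy.2)
      rcases h3 with h3 | h3
      · exact absurd h3 hy.1
      · exact h3) hcov'
    refine shearer_hoelder (univ.filter (fun i => x ∈ A i)) k hk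
      (hcov x (Finset.mem_insert_self _ _))
      (fun i => (F0.image (fun B => B ∩ A i)).card) (fun i => (F1.image (fun B => B ∩ A i)).card)
      _ ?_ ?_ _ _ ih0 ih1
    · intro i hi
      have hxi : x ∈ A i := by simpa using hi
      have h1 : (F1.image (fun B => B ∩ A i)).card ≤ (F1'.image (fun B => B ∩ A i)).card := by
        have : F1.image (fun B => B ∩ A i) =
            (F1'.image (fun B => B ∩ A i)).image (fun B => B.erase x) := by
          rw [hF1, Finset.image_image, Finset.image_image]
          apply Finset.image_congr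
          intro B _
          simp only [Function.comp]
          ext y
          simp only [Finset.mem_inter, Finset.mem_erase]
          tauto
        rw [this]
        exact Finset.card_image_le
      have h2 : Disjoint (F0.image (fun B => B ∩ A i)) (F1'.image (fun B => B ∩ A i)) := by
        rw [Finset.disjoint_left]
        intro B hB hB'
        rw [Finset.mem_image] at hB hB'
        obtain ⟨C, hC, rfl⟩ := hB
        obtain ⟨D, hD, hD'⟩ := hB'
        rw [hF0, Finset.mem_filter] at hC
        rw [hF1', Finset.mem_filter] at hD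
        have : x ∈ D ∩ A i := Finset.mem_inter.mpr ⟨hD.2, hxi⟩
        rw [hD'] at this
        exact hC.2 (Finset.mem_inter.mp this).1
      calc (F0.image (fun B => B ∩ A i)).card + (F1.image (fun B => B ∩ A i)).card
          ≤ (F0.image (fun B => B ∩ A i)).card + (F1'.image (fun B => B ∩ A i)).card :=
            Nat.add_le_add_left h1 _
        _ = (F0.image (fun B => B ∩ A i) ∪ F1'.image (fun B => B ∩ A i)).card :=
            (Finset.card_union_of_disjoint h2).symm
        _ ≤ (F.image (fun B => B ∩ A i)).card := by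
            apply Finset.card_le_card
            apply Finset.union_subset
            · exact Finset.image_subset_image (Finset.filter_subset _ _)
            · exact Finset.image_subset_image (Finset.filter_subset _ _)
    · intro i hi
      have hxi : x ∉ A i := by simpa using hi
      constructor
      · exact Finset.card_le_card (Finset.image_subset_image (Finset.filter_subset _ _))
      · apply Finset.card_le_card
        intro B hB
        rw [hF1, Finset.image_image, Finset.mem_image] at hB
        obtain ⟨C, hC, rfl⟩ := hB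
        rw [hF1', Finset.mem_filter] at hC
        rw [Finset.mem_image]
        refine ⟨C, hC.1, ?_⟩
        simp only [Function.comp]
        ext y
        simp only [Finset.mem_inter, Finset.mem_erase]
        constructor
        · rintro ⟨h3, h4⟩
          exact ⟨⟨fun h5 => hxi (h5 ▸ h4), h3⟩, h4⟩
        · rintro ⟨⟨_, h3⟩, h4⟩
          exact ⟨h3, h4⟩

end Pool.Agent.Helper46.R.J1
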