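import Pool.Agent.Helper46.R.Defs

set_option autoImplicit false

namespace Pool.Agent.Helper46.R.J10

open Finset Filter

theorem records_aux (b : ℕ → ℝ) (hmono : ∀ m n, 1 ≤ m → m ≤ n → b m ≤ b n) (lam : ℝ)
    (hl : 0 < lam) (R : ℕ → Prop) [DecidablePred R]
    (hR : ∀ n, R n ↔ ∀ m : ℕ, 1 ≤ m → m < n → b n - b m < lam * (Real.log n - Real.log m))
    (N : ℕ) (hN : 1 ≤ N) :
    ∃ m : ℕ, 1 ≤ m ∧ m ≤ N ∧
      (∀ k : ℕ, 1 ≤ k → k ≤ N → b m - lam * Real.log m ≤ b k - lam * Real.log k) ∧
      b 1 - (b m - lam * Real.log m) ≤ ∑ n ∈ (Icc 2 N).filter R, lam / ((n : ℝ) - 1) := by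
  induction N, hN using Nat.le_induction with
  | base =>
    refine ⟨1, le_rfl, le_rfl, ?_, ?_⟩
    · intro k h1 h2
      have : k = 1 := le_antisymm h2 h1
      rw [this]
    · simp
  | succ N hN ih =>
    obtain ⟨m, hm1, hm2, hm3, hm4⟩ := ih
    have hIcc : Icc 2 (N + 1) = insert (N + 1) (Icc 2 N) := by
      ext k; simp only [mem_Icc, mem_insert]; omega
    have hnot : N + 1 ∉ (Icc 2 N).filter R := by
      simp
    by_cases hr : R (N + 1)
    · rw [hIcc, Finset.filter_insert, if_pos hr, Finset.sum_insert hnot]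
      have hr' := (hR _).1 hr
      refine ⟨N + 1, by omega, le_rfl, ?_, ?_⟩
      · intro k h1 h2
        rcases Nat.lt_or_ge k (N + 1) with h | h
        · have := hr' k h1 h
          linarith
        · have : k = N + 1 := le_antisymm h2 h
          rw [this]
      · have h1 := hm3 N hN le_rfl
        have h2 := hmono N (N + 1) hN (by omega)
        have hNp : (0 : ℝ) < N := by exact_mod_cast hN
        have h3 : Real.log ((N + 1 : ℕ) : ℝ) - Real.log N ≤ 1 / N := by
          rw [← Real.log_div (by positivity) hNp.ne']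
          have h4 := Real.log_le_sub_one_of_pos
            (show (0 : ℝ) < ((N + 1 : ℕ) : ℝ) / N by positivity)
          refine h4.trans (le_of_eq ?_)
          push_cast
          field_simp
          ring
        have h5 : lam / (((N + 1 : ℕ) : ℝ) - 1) = lam * (1 / N) := by
          push_cast
          rw [add_sub_cancel_right]
          ring
        rw [h5]
        have h6 := mul_le_mul_of_nonneg_left h3 hl.le
        linarith
    · rw [hIcc, Finset.filter_insert, if_neg hr]
      refine ⟨m, hm1, by omega, ?_, hm4⟩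
      intro k h1 h2
      rcases Nat.lt_or_ge k (N + 1) with h | h
      · exact hm3 k h1 (by omega)
      · have hk : k = N + 1 := le_antisymm h2 h
        rw [hk]
        rw [hR] at hr
        push Not at hr
        obtain ⟨j, hj1, hj2, hj3⟩ := hr
        have := hm3 j hj1 (by omega)
        linarith

theorem records_tel (N : ℕ) (hN : 1 ≤ N) :
    ∑ n ∈ Icc 2 N, (1 / ((n : ℝ) - 1) - 1 / n) = 1 - 1 / N := by
  induction N, hN using Nat.le_induction with
  | base => simp
  | succ N hN ih =>
    have hIcc : Icc 2 (N + 1) = insert (N + 1) (Icc 2 N) := by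
      ext k; simp only [mem_Icc, mem_insert]; omega
    rw [hIcc, Finset.sum_insert (by simp), ih]
    push_cast
    rw [add_sub_cancel_right]
    ring

/-- records: an almost logarithmic nondecreasing function has many `n` from which it has grown by less
than `lam` times the logarithm over every earlier `m`. -/
theorem records (b : ℕ → ℝ) (hmono : ∀ m n, 1 ≤ m → m ≤ n → b m ≤ b n) (C : ℝ)
    (hub : ∀ n : ℕ, 1 ≤ n → b n ≤ Real.log n + C) (lam : ℝ) (hl : 1 < lam) :
    ∃ C' : ℝ, ∀ N : ℕ, 1 ≤ N →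
      (1 - 1 / lam) * Real.log N - C' ≤
        ∑ n ∈ (Icc 2 N).filter (fun n : ℕ => ∀ m : ℕ, 1 ≤ m → m < n →
          b n - b m < lam * (Real.log n - Real.log m)), (1 : ℝ) / n := by
  have hl0 : 0 < lam := by linarith
  refine ⟨1 + (C - b 1) / lam, ?_⟩
  intro N hN
  obtain ⟨m, hm1, hm2, hm3, hm4⟩ := records_aux b hmono lam hl0
    (fun n : ℕ => ∀ m : ℕ, 1 ≤ m → m < n → b n - b m < lam * (Real.log n - Real.log m))
    (fun n => Iff.rfl) N hN
  set T := (Icc 2 N).filter (fun n : ℕ => ∀ m : ℕ, 1 ≤ m → m < n →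
          b n - b m < lam * (Real.log n - Real.log m)) with hT
  have h1 := hm3 N hN le_rfl
  have h2 := hub N hN
  have h3 : b 1 - C + (lam - 1) * Real.log N ≤ ∑ n ∈ T, lam / ((n : ℝ) - 1) := by
    linarith
  have h4 : ∑ n ∈ T, lam / ((n : ℝ) - 1) = lam * ∑ n ∈ T, 1 / ((n : ℝ) - 1) := by
    rw [Finset.mul_sum]
    apply Finset.sum_congr rfl
    intro n _
    ring
  have h5 : ∑ n ∈ T, (1 / ((n : ℝ) - 1) - 1 / n) ≤ 1 := by
    have h6 : ∑ n ∈ T, (1 / ((n : ℝ) - 1) - 1 / n) ≤
        ∑ n ∈ Icc 2 N, (1 / ((n : ℝ) - 1) - 1 / n) := by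
      apply Finset.sum_le_sum_of_subset_of_nonneg (Finset.filter_subset _ _)
      intro n hn _
      rw [mem_Icc] at hn
      have hn2 : (2 : ℝ) ≤ n := by exact_mod_cast hn.1
      rw [sub_nonneg]
      apply one_div_le_one_div_of_le <;> linarith
    rw [records_tel N hN] at h6
    have : (0 : ℝ) ≤ 1 / N := by positivity
    linarith
  rw [Finset.sum_sub_distrib] at h5
  rw [h4] at h3
  have h7 : (b 1 - C) / lam + (1 - 1 / lam) * Real.log N ≤ ∑ n ∈ T, 1 / ((n : ℝ) - 1) := by
    have e : (b 1 - C) / lam + (1 - 1 / lam) * Real.log N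
        = (b 1 - C + (lam - 1) * Real.log N) / lam := by
      field_simp
    rw [e, div_le_iff₀ hl0, mul_comm _ lam]
    exact h3
  have h8 : (C - b 1) / lam = -((b 1 - C) / lam) := by ring
  rw [h8]
  linarith

end Pool.Agent.Helper46.R.J10
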