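import Pool.Agent.Helper46.R.Defs

set_option autoImplicit false

namespace Pool.Agent.Helper46.R.J11a

open Finset Filter

theorem binom_step (K : ℕ) (lam : ℝ) (h0 : 0 < lam) (h1 : lam < 2 * (K : ℝ) + 3) :
    ∃ n1 : ℕ, ∀ n : ℕ, n1 ≤ n → ∀ r : ℕ, n + 2 * K + 2 ≤ 2 * r → r + 1 ≤ n →
      (n.choose (r + 1) : ℝ) * ((n : ℝ) / ((2 * (n - (r + 1)) + 1 : ℕ) : ℝ)) ^ lam ≤
        (n.choose r : ℝ) * ((n : ℝ) / ((2 * (n - r) + 1 : ℕ) : ℝ)) ^ lam := by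
  obtain ⟨c, hc⟩ : ∃ c : ℝ, c = 2 * (K : ℝ) + 3 := ⟨_, rfl⟩
  have hK0 : (0:ℝ) ≤ K := Nat.cast_nonneg K
  have hcl : 0 < c - lam := by rw [hc]; linarith
  have hc0 : 0 < c := by rw [hc]; positivity
  obtain ⟨k0, hk0⟩ : ∃ k0 : ℕ, (c + lam ^ 2) / (c - lam) + lam + 1 ≤ (k0 : ℝ) := exists_nat_ge _
  obtain ⟨n2, hn2⟩ : ∃ n2 : ℕ, (k0 : ℝ) * (3:ℝ) ^ lam ≤ (n2 : ℝ) := exists_nat_ge _
  refine ⟨k0 + n2, fun n hn r hr1 hr2 => ?_⟩
  obtain ⟨k, hk⟩ : ∃ k : ℕ, n = r + 1 + k := ⟨n - (r + 1), by omega⟩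
  have e1 : n - (r + 1) = k := by omega
  have e2 : n - r = k + 1 := by omega
  rw [e1, e2]
  have hkr : k + 1 + 2 * K + 2 ≤ r := by omega
  have hkrR : (k : ℝ) + 1 + 2 * K + 2 ≤ r := by exact_mod_cast hkr
  have hkR : (0:ℝ) ≤ k := Nat.cast_nonneg k
  have hrR : (0:ℝ) ≤ r := Nat.cast_nonneg r
  -- the key inequality
  have key : ((k : ℝ) + 1) * (((2 * (k : ℝ) + 3)) / (2 * (k : ℝ) + 1)) ^ lam ≤ (r : ℝ) + 1 := by
    have hpos : (0:ℝ) < 2 * (k : ℝ) + 1 := by positivity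
    have hx : (2 * (k : ℝ) + 3) / (2 * (k : ℝ) + 1) = 1 + 2 / (2 * (k : ℝ) + 1) := by
      field_simp; ring
    rcases le_or_gt k0 (k + 1) with hbig | hsmall
    · -- large k
      have hbigR : (k0 : ℝ) ≤ (k : ℝ) + 1 := by exact_mod_cast hbig
      have hq : 0 ≤ (c + lam ^ 2) / (c - lam) := by positivity
      have hkl : lam ≤ (k : ℝ) := by linarith
      have hkq : (c + lam ^ 2) / (c - lam) ≤ (k : ℝ) := by linarith
      have hkq' : c + lam ^ 2 ≤ (k : ℝ) * (c - lam) := by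
        rwa [div_le_iff₀ hcl] at hkq
      have s1 : ((2 * (k : ℝ) + 3) / (2 * (k : ℝ) + 1)) ^ lam
          ≤ Real.exp (lam * (2 / (2 * (k : ℝ) + 1))) := by
        rw [hx]
        have h2 : 1 + 2 / (2 * (k : ℝ) + 1) ≤ Real.exp (2 / (2 * (k : ℝ) + 1)) := by
          have := Real.add_one_le_exp (2 / (2 * (k : ℝ) + 1))
          linarith
        calc (1 + 2 / (2 * (k : ℝ) + 1)) ^ lam
            ≤ (Real.exp (2 / (2 * (k : ℝ) + 1))) ^ lam :=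
              Real.rpow_le_rpow (by positivity) h2 h0.le
          _ = Real.exp (lam * (2 / (2 * (k : ℝ) + 1))) := by
              rw [← Real.exp_mul, mul_comm]
      have hy0 : 0 ≤ lam * (2 / (2 * (k : ℝ) + 1)) := by positivity
      have hy1 : lam * (2 / (2 * (k : ℝ) + 1)) ≤ 1 := by
        rw [← mul_div_assoc, div_le_one hpos]; linarith
      have s2 := Real.abs_exp_sub_one_sub_id_le (x := lam * (2 / (2 * (k : ℝ) + 1)))
        (by rw [abs_of_nonneg hy0]; exact hy1)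
      have s3 := (abs_le.1 s2).2
      have s4 : ((k : ℝ) + 1) * (1 + lam * (2 / (2 * (k : ℝ) + 1))
          + (lam * (2 / (2 * (k : ℝ) + 1))) ^ 2) ≤ (k : ℝ) + 1 + c := by
        have e3 : ((k : ℝ) + 1) * (1 + lam * (2 / (2 * (k : ℝ) + 1))
          + (lam * (2 / (2 * (k : ℝ) + 1))) ^ 2) = (k : ℝ) + 1 +
            ((k : ℝ) + 1) * (2 * lam * (2 * (k : ℝ) + 1) + 4 * lam ^ 2) / (2 * (k : ℝ) + 1) ^ 2 := by
          field_simp; ring
        rw [e3]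
        have : ((k : ℝ) + 1) * (2 * lam * (2 * (k : ℝ) + 1) + 4 * lam ^ 2)
            / (2 * (k : ℝ) + 1) ^ 2 ≤ c := by
          rw [div_le_iff₀ (by positivity)]
          nlinarith [mul_nonneg hkR (sub_nonneg.2 hkq'), mul_nonneg hkR hkR, sq_nonneg lam,
            mul_nonneg hkR hcl.le, mul_nonneg hkR h0.le]
        linarith
      have s5 : ((2 * (k : ℝ) + 3) / (2 * (k : ℝ) + 1)) ^ lam ≤
          1 + lam * (2 / (2 * (k : ℝ) + 1)) + (lam * (2 / (2 * (k : ℝ) + 1))) ^ 2 := by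
        linarith
      calc ((k : ℝ) + 1) * (((2 * (k : ℝ) + 3)) / (2 * (k : ℝ) + 1)) ^ lam
          ≤ ((k : ℝ) + 1) * (1 + lam * (2 / (2 * (k : ℝ) + 1))
            + (lam * (2 / (2 * (k : ℝ) + 1))) ^ 2) :=
            mul_le_mul_of_nonneg_left s5 (by positivity)
        _ ≤ (k : ℝ) + 1 + c := s4
        _ ≤ (r : ℝ) + 1 := by rw [hc]; linarith
    · -- small k
      have hsmallR : (k : ℝ) + 1 ≤ (k0 : ℝ) := by exact_mod_cast hsmall.le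
      have h3 : (2 * (k : ℝ) + 3) / (2 * (k : ℝ) + 1) ≤ 3 := by
        rw [div_le_iff₀ hpos]; linarith
      have h3l : ((2 * (k : ℝ) + 3) / (2 * (k : ℝ) + 1)) ^ lam ≤ (3:ℝ) ^ lam :=
        Real.rpow_le_rpow (by positivity) h3 h0.le
      have h3p : (0:ℝ) ≤ (3:ℝ) ^ lam := by positivity
      have hnr : k0 + n2 ≤ r + 1 + k := by omega
      have hnrR : (k0 : ℝ) + n2 ≤ r + 1 + k := by exact_mod_cast hnr
      calc ((k : ℝ) + 1) * (((2 * (k : ℝ) + 3)) / (2 * (k : ℝ) + 1)) ^ lam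
          ≤ (k0 : ℝ) * (3:ℝ) ^ lam :=
            mul_le_mul hsmallR h3l (by positivity) (by positivity)
        _ ≤ n2 := hn2
        _ ≤ (r : ℝ) + 1 := by linarith
  -- binomials
  have hch : (n.choose (r + 1) : ℝ) * ((r : ℝ) + 1) = (n.choose r : ℝ) * ((k : ℝ) + 1) := by
    have := Nat.choose_succ_right_eq n r
    rw [e2] at this
    exact_mod_cast this
  have hr1 : (0:ℝ) < (r : ℝ) + 1 := by positivity
  have e4 : (((2 * k + 1 : ℕ) : ℝ)) = 2 * (k : ℝ) + 1 := by push_cast; ring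
  have e5 : (((2 * (k + 1) + 1 : ℕ) : ℝ)) = 2 * (k : ℝ) + 3 := by push_cast; ring
  rw [e4, e5]
  have e6 : ((n : ℝ) / (2 * (k : ℝ) + 1)) ^ lam =
      ((n : ℝ) / (2 * (k : ℝ) + 3)) ^ lam * ((2 * (k : ℝ) + 3) / (2 * (k : ℝ) + 1)) ^ lam := by
    rw [← Real.mul_rpow (by positivity) (by positivity)]
    congr 1
    field_simp
  rw [e6]
  have hA : (0:ℝ) ≤ ((n : ℝ) / (2 * (k : ℝ) + 3)) ^ lam := by positivity
  have hC : (0:ℝ) ≤ (n.choose r : ℝ) := Nat.cast_nonneg _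
  have e7 : (n.choose (r + 1) : ℝ) = (n.choose r : ℝ) * ((k : ℝ) + 1) / ((r : ℝ) + 1) := by
    rw [eq_div_iff hr1.ne']; exact hch
  rw [e7]
  calc (n.choose r : ℝ) * ((k : ℝ) + 1) / ((r : ℝ) + 1) *
        (((n : ℝ) / (2 * (k : ℝ) + 3)) ^ lam * ((2 * (k : ℝ) + 3) / (2 * (k : ℝ) + 1)) ^ lam)
      = ((n.choose r : ℝ) * ((n : ℝ) / (2 * (k : ℝ) + 3)) ^ lam) *
        ((((k : ℝ) + 1) * ((2 * (k : ℝ) + 3) / (2 * (k : ℝ) + 1)) ^ lam) / ((r : ℝ) + 1)) := by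
        ring
    _ ≤ ((n.choose r : ℝ) * ((n : ℝ) / (2 * (k : ℝ) + 3)) ^ lam) * 1 := by
        apply mul_le_mul_of_nonneg_left _ (mul_nonneg hC hA)
        rw [div_le_one hr1]
        exact key
    _ = _ := by ring

end Pool.Agent.Helper46.R.J11a
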