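import Pool.Agent.Helper46.R.Defs

set_option autoImplicit false

namespace Pool.Agent.Helper46.R.J12

open Finset Filter

theorem numtail : ∀ᶠ n : ℕ in atTop,
    (2 : ℝ) * ((n + 1).factorial : ℝ) * 2 ^ n ≤
      (2 : ℝ) ^ ((n.choose ((n + 1) / 2) : ℝ) / (n : ℝ) ^ 3) := by
  have h7 : ∀ᶠ n : ℕ in atTop, (n : ℝ) ^ 7 ≤ 2 ^ n := by
    have h := tendsto_pow_const_div_const_pow_of_one_lt 7 (r := (2 : ℝ)) (by norm_num)
    filter_upwards [h.eventually (gt_mem_nhds (show (0 : ℝ) < 1 by norm_num))] with n hn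
    have h2 : (0 : ℝ) < 2 ^ n := by positivity
    rw [div_lt_one h2] at hn
    exact hn.le
  filter_upwards [h7, eventually_ge_atTop 12] with n hn h12
  have hnR : (12 : ℝ) ≤ (n : ℝ) := by exact_mod_cast h12
  -- left-hand side
  have h1 : 2 * (n + 1).factorial * 2 ^ n ≤ 2 ^ (1 + (n + 1) ^ 2 + n) := by
    have h3 : (n + 1).factorial ≤ 2 ^ ((n + 1) ^ 2) := by
      calc (n + 1).factorial ≤ (n + 1) ^ (n + 1) := Nat.factorial_le_pow (n + 1)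
        _ ≤ (2 ^ (n + 1)) ^ (n + 1) := Nat.pow_le_pow_left (Nat.lt_two_pow_self).le _
        _ = 2 ^ ((n + 1) ^ 2) := by rw [← pow_mul, sq]
    calc 2 * (n + 1).factorial * 2 ^ n ≤ 2 * 2 ^ ((n + 1) ^ 2) * 2 ^ n := by gcongr
      _ = 2 ^ (1 + (n + 1) ^ 2 + n) := by rw [pow_add, pow_add, pow_one]
  have h1' : (2 : ℝ) * ((n + 1).factorial : ℝ) * 2 ^ n ≤ 2 ^ (1 + (n + 1) ^ 2 + n) := by
    exact_mod_cast h1
  -- the central binomial coefficient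
  have hc : n.choose ((n + 1) / 2) = n.choose (n / 2) :=
    Nat.choose_symm_of_eq_add (by omega)
  have h2 : 2 ^ n ≤ (n + 1) * n.choose ((n + 1) / 2) := by
    rw [hc, ← Nat.sum_range_choose n]
    calc ∑ m ∈ range (n + 1), n.choose m ≤ ∑ _m ∈ range (n + 1), n.choose (n / 2) :=
          Finset.sum_le_sum fun i _ => Nat.choose_le_middle i n
      _ = (n + 1) * n.choose (n / 2) := by
          rw [Finset.sum_const, Finset.card_range, smul_eq_mul]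
  have h2' : (2 : ℝ) ^ n ≤ ((n : ℝ) + 1) * (n.choose ((n + 1) / 2) : ℝ) := by
    exact_mod_cast h2
  refine h1'.trans ?_
  rw [← Real.rpow_natCast]
  refine Real.rpow_le_rpow_of_exponent_le (by norm_num) ?_
  have hn3 : (0 : ℝ) < (n : ℝ) ^ 3 := by positivity
  rw [le_div_iff₀ hn3]
  push_cast
  have h4 : (1 + ((n : ℝ) + 1) ^ 2 + n) * (n : ℝ) ^ 3 * ((n : ℝ) + 1) ≤ (n : ℝ) ^ 7 := by
    have h5 : (1 + ((n : ℝ) + 1) ^ 2 + n) ≤ 2 * (n : ℝ) ^ 2 := by nlinarith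
    have h6 : (n : ℝ) + 1 ≤ 2 * n := by linarith
    have h8 : (1 + ((n : ℝ) + 1) ^ 2 + n) * (n : ℝ) ^ 3 * ((n : ℝ) + 1) ≤
        (2 * (n : ℝ) ^ 2) * (n : ℝ) ^ 3 * (2 * n) := by gcongr
    have h9 : (2 * (n : ℝ) ^ 2) * (n : ℝ) ^ 3 * (2 * n) = 4 * (n : ℝ) ^ 6 := by ring
    have h10 : (n : ℝ) ^ 7 = n * (n : ℝ) ^ 6 := by ring
    rw [h9] at h8
    rw [h10]
    have h11 : (0 : ℝ) ≤ (n : ℝ) ^ 6 := by positivity
    nlinarith
  have hn1 : (0 : ℝ) < (n : ℝ) + 1 := by linarith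
  have h12' : (1 + ((n : ℝ) + 1) ^ 2 + n) * (n : ℝ) ^ 3 * ((n : ℝ) + 1) ≤
      (n.choose ((n + 1) / 2) : ℝ) * ((n : ℝ) + 1) := by
    calc _ ≤ (n : ℝ) ^ 7 := h4
      _ ≤ 2 ^ n := hn
      _ ≤ _ := by rw [mul_comm]; exact h2'
  exact le_of_mul_le_mul_right h12' hn1

end Pool.Agent.Helper46.R.J12
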