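import Pool.Agent.Helper46.R.Defs

set_option autoImplicit false

namespace Pool.Agent.Helper46.R.J2

open Finset

/-- contraction: the traces of the base families of rank `r + 1` on the sets containing `e` -/
theorem trace_con (n r : ℕ) (e : Fin (n + 1)) :
    ((insert ∅ (BF (n + 1) (r + 1))).image
      (fun B : Fam (n + 1) => B ∩ (univ : Finset (Finset (Fin (n + 1)))).filter (fun X => e ∈ X))).card ≤ S n r := by
  classical
  set c : Fam (n + 1) → Fam n :=
    fun B => univ.filter (fun X => insert e (X.map e.succAboveEmb) ∈ B) with hc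
  have memc : ∀ (B : Fam (n + 1)) (X : Finset (Fin n)),
      X ∈ c B ↔ insert e (X.map e.succAboveEmb) ∈ B := by
    intro B X
    simp [hc]
  have key : ∀ Z : Finset (Fin (n + 1)), e ∈ Z →
      insert e ((univ.filter (fun i => e.succAbove i ∈ Z)).map e.succAboveEmb) = Z := by
    intro Z hZ
    ext y
    simp only [mem_insert, mem_map, mem_filter, mem_univ, true_and, Fin.succAboveEmb_apply]
    constructor
    · rintro (rfl | ⟨i, hi, rfl⟩)
      · exact hZ
      · exact hi
    · intro hy
      by_cases h : y = e
      · left; exact h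
      · right
        obtain ⟨i, rfl⟩ := Fin.exists_succAbove_eq h
        exact ⟨i, hy, rfl⟩
  have hnot : ∀ X : Finset (Fin n), e ∉ X.map e.succAboveEmb := by
    intro X h
    rw [mem_map] at h
    obtain ⟨i, _, hi⟩ := h
    exact Fin.succAbove_ne e i hi
  have hins : ∀ (X : Finset (Fin n)) (i : Fin n),
      e.succAbove i ∈ insert e (X.map e.succAboveEmb) ↔ i ∈ X := by
    intro X i
    rw [mem_insert]
    constructor
    · rintro (h | h)
      · exact absurd h (Fin.succAbove_ne e i)
      · rw [mem_map] at h
        obtain ⟨k, hk, hk'⟩ := h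
        rwa [← (Fin.succAbove_right_injective hk')]
    · intro h
      right
      exact mem_map.2 ⟨i, h, rfl⟩
  have hcB : ∀ B ∈ insert ∅ (BF (n + 1) (r + 1)), c B ∈ insert ∅ (BF n r) := by
    intro B hB
    rw [mem_insert] at hB ⊢
    rcases hB with rfl | hB
    · left
      ext X
      simp [memc]
    · by_cases h0 : c B = ∅
      · left; exact h0
      · right
        have hB' : IsBF (r + 1) B := (mem_filter.1 hB).2
        refine mem_filter.2 ⟨mem_univ _, ?_, ?_, ?_⟩
        · exact nonempty_iff_ne_empty.2 h0
        · intro X hX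
          have h1 := hB'.card _ ((memc B X).1 hX)
          rw [card_insert_of_notMem (hnot X), card_map] at h1
          omega
        · intro X hX Y hY x hx
          rw [mem_sdiff] at hx
          obtain ⟨y, hy, hy'⟩ := hB'.exch _ ((memc B X).1 hX) _ ((memc B Y).1 hY)
            (e.succAbove x) (mem_sdiff.2 ⟨(hins X x).2 hx.1, fun h => hx.2 ((hins Y x).1 h)⟩)
          rw [mem_sdiff] at hy
          have hye : y ≠ e := by
            rintro rfl
            exact hy.2 (mem_insert_self _ _)
          obtain ⟨y', rfl⟩ := Fin.exists_succAbove_eq hye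
          refine ⟨y', mem_sdiff.2 ⟨(hins Y y').1 hy.1, fun h => hy.2 ((hins X y').2 h)⟩, ?_⟩
          rw [memc, map_insert, map_erase]
          have e1 : insert e (insert (e.succAboveEmb y') ((X.map e.succAboveEmb).erase
              (e.succAboveEmb x))) = insert (e.succAbove y')
              ((insert e (X.map e.succAboveEmb)).erase (e.succAbove x)) := by
            rw [Finset.insert_comm, erase_insert_of_ne (Fin.succAbove_ne e x).symm]
            rfl
          rw [e1]
          exact hy'
  have hle : ((insert ∅ (BF (n + 1) (r + 1))).image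
      (fun B : Fam (n + 1) => B ∩ (univ : Finset (Finset (Fin (n + 1)))).filter
        (fun X => e ∈ X))).card ≤ (insert ∅ (BF n r)).card := by
    refine card_le_card_of_injOn c ?_ ?_
    · intro T hT
      rw [mem_coe, mem_image] at hT
      obtain ⟨B, hB, rfl⟩ := hT
      have : c (B ∩ (univ : Finset (Finset (Fin (n + 1)))).filter (fun X => e ∈ X)) = c B := by
        ext X
        rw [memc, memc]
        simp
      rw [this]
      exact hcB B hB
    · intro T hT T' hT' h
      rw [mem_coe, mem_image] at hT hT'
      obtain ⟨B, hB, rfl⟩ := hT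
      obtain ⟨B', hB', rfl⟩ := hT'
      have h1 : ∀ (Z : Finset (Fin (n + 1))), e ∈ Z →
          (Z ∈ B ∩ (univ : Finset (Finset (Fin (n + 1)))).filter (fun X => e ∈ X) ↔
            Z ∈ B' ∩ (univ : Finset (Finset (Fin (n + 1)))).filter (fun X => e ∈ X)) := by
        intro Z hZ
        have h2 := Finset.ext_iff.1 h (univ.filter (fun i => e.succAbove i ∈ Z))
        rw [memc, memc, key Z hZ] at h2
        exact h2
      ext Z
      by_cases hZ : e ∈ Z
      · exact h1 Z hZ
      · simp [hZ]
  refine hle.trans ?_
  unfold S
  exact card_insert_le _ _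

end Pool.Agent.Helper46.R.J2
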