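import Pool.Agent.Helper46.R.Defs

set_option autoImplicit false

namespace Pool.Agent.Helper46.R.J3

open Finset

theorem map_surj_w {n : ℕ} (e : Fin (n + 1)) (X : Finset (Fin (n + 1))) (h : e ∉ X) :
    (univ.filter (fun i => e.succAbove i ∈ X)).map e.succAboveEmb = X := by
  ext y
  simp only [mem_map, mem_filter, mem_univ, true_and, Fin.succAboveEmb_apply]
  constructor
  · rintro ⟨i, hi, rfl⟩
    exact hi
  · intro hy
    have hne : y ≠ e := by
      rintro rfl
      exact h hy
    obtain ⟨i, rfl⟩ := Fin.exists_succAbove_eq hne
    exact ⟨i, hy, rfl⟩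

theorem e_notMem_map_w {n : ℕ} (e : Fin (n + 1)) (X : Finset (Fin n)) :
    e ∉ X.map e.succAboveEmb := by
  simp only [mem_map, Fin.succAboveEmb_apply, not_exists, not_and]
  intro i _ h
  exact Fin.succAbove_ne e i h

/-- deletion: the traces of the base families of rank `r` on the sets not containing `e` -/
theorem trace_del (n r : ℕ) (e : Fin (n + 1)) :
    ((insert ∅ (BF (n + 1) r)).image
      (fun B : Fam (n + 1) => B ∩ (univ : Finset (Finset (Fin (n + 1)))).filter (fun X => e ∉ X))).card ≤ S n r := by
  classical
  have hmain : ((insert ∅ (BF (n + 1) r)).image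
      (fun B : Fam (n + 1) => B ∩ (univ : Finset (Finset (Fin (n + 1)))).filter (fun X => e ∉ X))).card ≤
      (insert ∅ (BF n r)).card := by
    refine Finset.card_le_card_of_injOn
      (fun T => univ.filter (fun X : Finset (Fin n) => X.map e.succAboveEmb ∈ T)) ?_ ?_
    · intro T hT
      rw [Finset.mem_coe, Finset.mem_image] at hT
      obtain ⟨B, hB, rfl⟩ := hT
      rw [Finset.mem_coe]
      have hmem : ∀ X : Finset (Fin n), X ∈ (univ.filter (fun X : Finset (Fin n) =>
          X.map e.succAboveEmb ∈ B ∩ (univ : Finset (Finset (Fin (n + 1)))).filter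
            (fun X => e ∉ X))) ↔ X.map e.succAboveEmb ∈ B := by
        intro X
        rw [Finset.mem_filter, Finset.mem_inter, Finset.mem_filter]
        constructor
        · rintro ⟨-, h, -⟩
          exact h
        · intro h
          exact ⟨mem_univ _, h, mem_univ _, e_notMem_map_w e X⟩
      rcases Finset.mem_insert.1 hB with rfl | hB
      · apply Finset.mem_insert.2
        left
        apply Finset.eq_empty_of_forall_notMem
        intro X hX
        exact absurd ((hmem X).1 hX) (Finset.notMem_empty _)
      · have hBF : IsBF r B := by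
          unfold BF at hB
          exact (Finset.mem_filter.1 hB).2
        apply Finset.mem_insert.2
        rcases Finset.eq_empty_or_nonempty (univ.filter (fun X : Finset (Fin n) =>
          X.map e.succAboveEmb ∈ B ∩ (univ : Finset (Finset (Fin (n + 1)))).filter
            (fun X => e ∉ X))) with h0 | h0
        · left
          exact h0
        · right
          unfold BF
          refine Finset.mem_filter.2 ⟨mem_univ _, h0, ?_, ?_⟩
          · intro X hX
            have h1 := hBF.card _ ((hmem X).1 hX)
            rwa [Finset.card_map] at h1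
          · intro X hX Y hY x hx
            have hX' := (hmem X).1 hX
            have hY' := (hmem Y).1 hY
            have hx1 := (Finset.mem_sdiff.1 hx).1
            have hx2 := (Finset.mem_sdiff.1 hx).2
            obtain ⟨y, hy, hy2⟩ := hBF.exch _ hX' _ hY' (e.succAboveEmb x) (by
              rw [Finset.mem_sdiff, Finset.mem_map', Finset.mem_map']
              exact ⟨hx1, hx2⟩)
            rw [Finset.mem_sdiff] at hy
            obtain ⟨y0, hy0, rfl⟩ := Finset.mem_map.1 hy.1
            have hy3 : y0 ∉ X := by
              intro h
              exact hy.2 (Finset.mem_map_of_mem _ h)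
            refine ⟨y0, Finset.mem_sdiff.2 ⟨hy0, hy3⟩, (hmem _).2 ?_⟩
            rw [Finset.map_insert, Finset.map_erase]
            exact hy2
    · intro T1 hT1 T2 hT2 h12
      have key : ∀ T T' : Fam (n + 1), T ∈ ((insert ∅ (BF (n + 1) r)).image
          (fun B : Fam (n + 1) => B ∩ (univ : Finset (Finset (Fin (n + 1)))).filter
            (fun X => e ∉ X))) →
          (univ.filter (fun X : Finset (Fin n) => X.map e.succAboveEmb ∈ T)) =
          (univ.filter (fun X : Finset (Fin n) => X.map e.succAboveEmb ∈ T')) → T ⊆ T' := by
        intro T T' hT h X hX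
        obtain ⟨B, hB, rfl⟩ := Finset.mem_image.1 hT
        have he : e ∉ X := (Finset.mem_filter.1 (Finset.mem_inter.1 hX).2).2
        have h1 := map_surj_w e X he
        have h2 : (univ.filter (fun i => e.succAbove i ∈ X)) ∈
            (univ.filter (fun X : Finset (Fin n) => X.map e.succAboveEmb ∈
              B ∩ (univ : Finset (Finset (Fin (n + 1)))).filter (fun X => e ∉ X))) := by
          rw [Finset.mem_filter, h1]
          exact ⟨mem_univ _, hX⟩
        rw [h, Finset.mem_filter, h1] at h2
        exact h2.2
      exact Finset.Subset.antisymm (key T1 T2 hT1 h12) (key T2 T1 hT2 h12.symm)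
  refine hmain.trans ?_
  unfold S
  exact Finset.card_insert_le _ _

end Pool.Agent.Helper46.R.J3
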