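import Pool.Agent.Helper46.R.Defs

set_option autoImplicit false

namespace Pool.Agent.Helper46.R.J4

open Finset

theorem s_card_insert (n r : ℕ) : (insert ∅ (BF n r)).card = S n r := by
  classical
  unfold S
  rw [Finset.card_insert_of_notMem]
  intro h
  unfold BF at h
  rw [Finset.mem_filter] at h
  exact Finset.not_nonempty_empty h.2.ne

theorem s_sub (n r : ℕ) (B : Fam n) (hB : B ∈ insert ∅ (BF n r)) :
    B ⊆ Finset.powersetCard r (univ : Finset (Fin n)) := by
  classical
  rcases Finset.mem_insert.1 hB with h | h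
  · rw [h]
    exact Finset.empty_subset _
  · unfold BF at h
    rw [Finset.mem_filter] at h
    intro X hX
    rw [Finset.mem_powersetCard]
    exact ⟨Finset.subset_univ X, h.2.card X hX⟩

/-- Shearer's lemma (another worker proves it; take it as hypothesis) and the traces give the two
power inequalities -/
theorem S_con
    (shearer : ∀ (m : ℕ) (F : Finset (Fam m)) (A : Fin m → Fam m) (k : ℕ), 0 < k → ∀ (U : Fam m),
      (∀ B ∈ F, B ⊆ U) → (∀ x ∈ U, k ≤ (univ.filter (fun i => x ∈ A i)).card) →
      F.card ^ k ≤ ∏ i, (F.image (fun B => B ∩ A i)).card)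
    (trace_con : ∀ (n r : ℕ) (e : Fin (n + 1)),
      ((insert ∅ (BF (n + 1) (r + 1))).image
        (fun B : Fam (n + 1) => B ∩ (univ : Finset (Finset (Fin (n + 1)))).filter (fun X => e ∈ X))).card ≤ S n r)
    (n r : ℕ) : (S (n + 1) (r + 1)) ^ (r + 1) ≤ (S n r) ^ (n + 1) := by
  have h := shearer (n + 1) (insert ∅ (BF (n + 1) (r + 1)))
    (fun e => (univ : Finset (Finset (Fin (n + 1)))).filter (fun X => e ∈ X)) (r + 1)
    (Nat.succ_pos r) (Finset.powersetCard (r + 1) univ) (s_sub (n + 1) (r + 1)) (by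
      intro x hx
      rw [Finset.mem_powersetCard] at hx
      have h1 : (univ.filter (fun i => x ∈ (univ : Finset (Finset (Fin (n + 1)))).filter
          (fun X => i ∈ X))) = x := by
        ext i
        simp
      rw [h1, hx.2])
  rw [s_card_insert] at h
  refine h.trans ?_
  refine (Finset.prod_le_pow_card _ _ (S n r) (fun e _ => trace_con n r e)).trans ?_
  rw [Finset.card_univ, Fintype.card_fin]

theorem S_del
    (shearer : ∀ (m : ℕ) (F : Finset (Fam m)) (A : Fin m → Fam m) (k : ℕ), 0 < k → ∀ (U : Fam m),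
      (∀ B ∈ F, B ⊆ U) → (∀ x ∈ U, k ≤ (univ.filter (fun i => x ∈ A i)).card) →
      F.card ^ k ≤ ∏ i, (F.image (fun B => B ∩ A i)).card)
    (trace_del : ∀ (n r : ℕ) (e : Fin (n + 1)),
      ((insert ∅ (BF (n + 1) r)).image
        (fun B : Fam (n + 1) => B ∩ (univ : Finset (Finset (Fin (n + 1)))).filter (fun X => e ∉ X))).card ≤ S n r)
    (n r : ℕ) (hr : r ≤ n) : (S (n + 1) r) ^ (n + 1 - r) ≤ (S n r) ^ (n + 1) := by
  have h := shearer (n + 1) (insert ∅ (BF (n + 1) r))
    (fun e => (univ : Finset (Finset (Fin (n + 1)))).filter (fun X => e ∉ X)) (n + 1 - r)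
    (by omega) (Finset.powersetCard r univ) (s_sub (n + 1) r) (by
      intro x hx
      rw [Finset.mem_powersetCard] at hx
      have h1 : (univ.filter (fun i => x ∈ (univ : Finset (Finset (Fin (n + 1)))).filter
          (fun X => i ∉ X))) = xᶜ := by
        ext i
        simp
      rw [h1, Finset.card_compl, Fintype.card_fin, hx.2])
  rw [s_card_insert] at h
  refine h.trans ?_
  refine (Finset.prod_le_pow_card _ _ (S n r) (fun e _ => trace_del n r e)).trans ?_
  rw [Finset.card_univ, Fintype.card_fin]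

end Pool.Agent.Helper46.R.J4
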