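import Pool.Agent.Helper46.R.Defs

set_option autoImplicit false

namespace Pool.Agent.Helper46.R.J6

open Finset

/-- the normalised logarithms are monotone -/
theorem phi_con (hcon : ∀ n r : ℕ, (S (n + 1) (r + 1)) ^ (r + 1) ≤ (S n r) ^ (n + 1))
    (n r : ℕ) (hr : r ≤ n) : phi (n + 1) (r + 1) ≤ phi n r := by
  have hs : (1 : ℝ) ≤ S n r := by exact_mod_cast Nat.succ_le_succ (Nat.zero_le _)
  have hs' : (1 : ℝ) ≤ S (n + 1) (r + 1) := by exact_mod_cast Nat.succ_le_succ (Nat.zero_le _)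
  have h1 : ((r : ℝ) + 1) * Real.log (S (n + 1) (r + 1)) ≤ ((n : ℝ) + 1) * Real.log (S n r) := by
    have h2 : ((S (n + 1) (r + 1) : ℕ) : ℝ) ^ (r + 1) ≤ ((S n r : ℕ) : ℝ) ^ (n + 1) := by
      exact_mod_cast hcon n r
    have h3 := Real.log_le_log (by positivity) h2
    rw [Real.log_pow, Real.log_pow] at h3
    push_cast at h3
    exact h3
  have hc : (0 : ℝ) < n.choose r := by exact_mod_cast Nat.choose_pos hr
  have hc' : (0 : ℝ) < (n + 1).choose (r + 1) := by
    exact_mod_cast Nat.choose_pos (Nat.succ_le_succ hr)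
  have hcc : ((n : ℝ) + 1) * n.choose r = (n + 1).choose (r + 1) * ((r : ℝ) + 1) := by
    exact_mod_cast Nat.add_one_mul_choose_eq n r
  unfold phi
  rw [div_le_div_iff₀ hc' hc]
  have hr0 : (0 : ℝ) < (r : ℝ) + 1 := by positivity
  refine le_of_mul_le_mul_left ?_ hr0
  calc ((r : ℝ) + 1) * (Real.log (S (n + 1) (r + 1)) * (n.choose r : ℝ))
      = ((r : ℝ) + 1) * Real.log (S (n + 1) (r + 1)) * (n.choose r : ℝ) := by ring
    _ ≤ ((n : ℝ) + 1) * Real.log (S n r) * (n.choose r : ℝ) :=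
        mul_le_mul_of_nonneg_right h1 hc.le
    _ = Real.log (S n r) * (((n : ℝ) + 1) * n.choose r) := by ring
    _ = ((r : ℝ) + 1) * (Real.log (S n r) * ((n + 1).choose (r + 1) : ℝ)) := by
        rw [hcc]
        ring

theorem phi_del (hdel : ∀ n r : ℕ, r ≤ n → (S (n + 1) r) ^ (n + 1 - r) ≤ (S n r) ^ (n + 1))
    (n r : ℕ) (hr : r ≤ n) : phi (n + 1) r ≤ phi n r := by
  have hs : (1 : ℝ) ≤ S n r := by exact_mod_cast Nat.succ_le_succ (Nat.zero_le _)
  have hs' : (1 : ℝ) ≤ S (n + 1) r := by exact_mod_cast Nat.succ_le_succ (Nat.zero_le _)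
  have h1 : ((n + 1 - r : ℕ) : ℝ) * Real.log (S (n + 1) r) ≤
      ((n : ℝ) + 1) * Real.log (S n r) := by
    have h2 : ((S (n + 1) r : ℕ) : ℝ) ^ (n + 1 - r) ≤ ((S n r : ℕ) : ℝ) ^ (n + 1) := by
      exact_mod_cast hdel n r hr
    have h3 := Real.log_le_log (by positivity) h2
    rw [Real.log_pow, Real.log_pow, Nat.cast_add, Nat.cast_one] at h3
    exact h3
  have hc : (0 : ℝ) < n.choose r := by exact_mod_cast Nat.choose_pos hr
  have hc' : (0 : ℝ) < (n + 1).choose r := by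
    exact_mod_cast Nat.choose_pos (Nat.le_succ_of_le hr)
  have hcc : (n.choose r : ℝ) * ((n : ℝ) + 1) = (n + 1).choose r * ((n + 1 - r : ℕ) : ℝ) := by
    exact_mod_cast Nat.choose_mul_succ_eq n r
  unfold phi
  rw [div_le_div_iff₀ hc' hc]
  have hr0 : (0 : ℝ) < ((n + 1 - r : ℕ) : ℝ) := by
    have : 0 < n + 1 - r := by omega
    exact_mod_cast this
  refine le_of_mul_le_mul_left ?_ hr0
  calc ((n + 1 - r : ℕ) : ℝ) * (Real.log (S (n + 1) r) * (n.choose r : ℝ))
      = ((n + 1 - r : ℕ) : ℝ) * Real.log (S (n + 1) r) * (n.choose r : ℝ) := by ring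
    _ ≤ ((n : ℝ) + 1) * Real.log (S n r) * (n.choose r : ℝ) :=
        mul_le_mul_of_nonneg_right h1 hc.le
    _ = Real.log (S n r) * ((n.choose r : ℝ) * ((n : ℝ) + 1)) := by ring
    _ = ((n + 1 - r : ℕ) : ℝ) * (Real.log (S n r) * ((n + 1).choose r : ℝ)) := by
        rw [hcc]
        ring

/-- `a` is nonincreasing -/
theorem a_anti (pc : ∀ n r : ℕ, r ≤ n → phi (n + 1) (r + 1) ≤ phi n r)
    (pd : ∀ n r : ℕ, r ≤ n → phi (n + 1) r ≤ phi n r) (m n : ℕ) (h : m ≤ n) : a n ≤ a m := by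
  have h1 : Antitone a := by
    refine antitone_nat_of_succ_le (fun m => ?_)
    unfold a
    rcases Nat.even_or_odd m with ⟨k, hk⟩ | ⟨k, hk⟩
    · have e1 : (m + 1 + 1) / 2 = (m + 1) / 2 + 1 := by omega
      rw [e1]
      exact pc m ((m + 1) / 2) (by omega)
    · have e1 : (m + 1 + 1) / 2 = (m + 1) / 2 := by omega
      rw [e1]
      exact pd m ((m + 1) / 2) (by omega)
  exact h1 h

/-- contract `2 r - n - 1` elements -/
theorem phi_le_a (pc : ∀ n r : ℕ, r ≤ n → phi (n + 1) (r + 1) ≤ phi n r)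
    (n r : ℕ) (h1 : n < 2 * r) (h2 : r ≤ n) : phi n r ≤ a (2 * (n - r) + 1) := by
  have key : ∀ j : ℕ, j ≤ r → phi n r ≤ phi (n - j) (r - j) := by
    intro j
    induction j with
    | zero => intro _; simp
    | succ j ih =>
      intro hj
      have h3 := ih (by omega)
      have h4 := pc (n - (j + 1)) (r - (j + 1)) (by omega)
      have e1 : n - (j + 1) + 1 = n - j := by omega
      have e2 : r - (j + 1) + 1 = r - j := by omega
      rw [e1, e2] at h4
      exact h3.trans h4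
  have h3 := key (2 * r - n - 1) (by omega)
  have e1 : n - (2 * r - n - 1) = 2 * (n - r) + 1 := by omega
  have e2 : r - (2 * r - n - 1) = (2 * (n - r) + 1 + 1) / 2 := by omega
  rw [e1, e2] at h3
  exact h3

end Pool.Agent.Helper46.R.J6
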