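import Pool.Agent.Helper46.R.Defs

set_option autoImplicit false

namespace Pool.Agent.Helper46.R.K1

open Finset Filter

/-- step: `q r = choose n r * (n / (2 (n-r) + 1)) ^ ((K+1)/4)` is nonincreasing for `n - r ≥ K` -/
theorem step2 (K n r : ℕ) (hK : 1 ≤ K) (h1 : n + 2 * K + 2 ≤ 2 * r) (h2 : r + K ≤ n) :
    (n.choose (r + 1) : ℝ) * ((n : ℝ) / ((2 * (n - (r + 1)) + 1 : ℕ) : ℝ)) ^ (((K : ℝ) + 1) / 4) ≤
      (n.choose r : ℝ) * ((n : ℝ) / ((2 * (n - r) + 1 : ℕ) : ℝ)) ^ (((K : ℝ) + 1) / 4) := by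
  obtain ⟨k, hk⟩ : ∃ k, n = r + k := ⟨n - r, by omega⟩
  have hkK : K ≤ k := by omega
  have hk1 : 1 ≤ k := by omega
  have e1 : n - r = k := by omega
  have e2 : 2 * (n - (r + 1)) + 1 = 2 * k - 1 := by omega
  have hch : (n.choose (r + 1) : ℝ) * ((r : ℝ) + 1) = (n.choose r : ℝ) * (k : ℝ) := by
    have h := Nat.choose_succ_right_eq n r
    rw [e1] at h
    exact_mod_cast h
  rw [e2, e1]
  have hkR : (1 : ℝ) ≤ (k : ℝ) := by exact_mod_cast hk1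
  have hKR : (1 : ℝ) ≤ (K : ℝ) := by exact_mod_cast hK
  have hKk : (K : ℝ) ≤ (k : ℝ) := by exact_mod_cast hkK
  have hrR : (k : ℝ) + (K : ℝ) + 1 ≤ (r : ℝ) + 1 := by
    have : k + K + 1 ≤ r + 1 := by omega
    exact_mod_cast this
  have c1 : ((2 * k - 1 : ℕ) : ℝ) = 2 * (k : ℝ) - 1 := by
    rw [Nat.cast_sub (by omega)]
    push_cast
    ring
  have c2 : ((2 * k + 1 : ℕ) : ℝ) = 2 * (k : ℝ) + 1 := by
    push_cast
    ring
  rw [c1, c2]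
  have hp1 : (0 : ℝ) < 2 * (k : ℝ) - 1 := by linarith
  have hp2 : (0 : ℝ) < 2 * (k : ℝ) + 1 := by linarith
  have hk0 : (0 : ℝ) < (k : ℝ) := by linarith
  have hr0 : (0 : ℝ) < (r : ℝ) + 1 := by positivity
  have hn0 : (0 : ℝ) ≤ (n : ℝ) := by positivity
  have hl : (0 : ℝ) < ((K : ℝ) + 1) / 4 := by positivity
  have hsplit : ((n : ℝ) / (2 * (k : ℝ) - 1)) ^ (((K : ℝ) + 1) / 4) =
      ((n : ℝ) / (2 * (k : ℝ) + 1)) ^ (((K : ℝ) + 1) / 4) *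
        ((2 * (k : ℝ) + 1) / (2 * (k : ℝ) - 1)) ^ (((K : ℝ) + 1) / 4) := by
    rw [← Real.mul_rpow (by positivity) (by positivity)]
    congr 1
    field_simp
  have hmain : ((2 * (k : ℝ) + 1) / (2 * (k : ℝ) - 1)) ^ (((K : ℝ) + 1) / 4) ≤
      ((r : ℝ) + 1) / k := by
    have h3 : (2 * (k : ℝ) + 1) / (2 * (k : ℝ) - 1) ≤ Real.exp (2 / (2 * (k : ℝ) - 1)) := by
      have h4 := Real.add_one_le_exp (2 / (2 * (k : ℝ) - 1))
      have h5 : (2 * (k : ℝ) + 1) / (2 * (k : ℝ) - 1) = 2 / (2 * (k : ℝ) - 1) + 1 := by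
        field_simp
        ring
      rw [h5]
      exact h4
    have h6 : ((2 * (k : ℝ) + 1) / (2 * (k : ℝ) - 1)) ^ (((K : ℝ) + 1) / 4) ≤
        Real.exp (2 / (2 * (k : ℝ) - 1)) ^ (((K : ℝ) + 1) / 4) :=
      Real.rpow_le_rpow (by positivity) h3 hl.le
    rw [← Real.exp_mul] at h6
    have h7 : 2 / (2 * (k : ℝ) - 1) * (((K : ℝ) + 1) / 4) ≤ ((K : ℝ) + 1) / (2 * k) := by
      have h8 : 2 / (2 * (k : ℝ) - 1) ≤ 2 / k := by
        apply div_le_div_of_nonneg_left (by norm_num) hk0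
        linarith
      calc 2 / (2 * (k : ℝ) - 1) * (((K : ℝ) + 1) / 4) ≤ 2 / k * (((K : ℝ) + 1) / 4) :=
            mul_le_mul_of_nonneg_right h8 hl.le
        _ = ((K : ℝ) + 1) / (2 * k) := by
            field_simp
            ring
    have h9 := h6.trans (Real.exp_le_exp.2 h7)
    set y := ((K : ℝ) + 1) / (2 * k) with hy
    have hy0 : 0 ≤ y := by positivity
    have hy1 : y ≤ 1 := by
      rw [hy, div_le_one (by positivity)]
      linarith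
    have h10 := (abs_le.1 (Real.abs_exp_sub_one_sub_id_le (x := y)
      (by rw [abs_of_nonneg hy0]; exact hy1))).2
    have h11 : Real.exp y ≤ 1 + 2 * y := by nlinarith
    have h12 : 1 + 2 * y ≤ ((r : ℝ) + 1) / k := by
      have : 1 + 2 * y = ((k : ℝ) + K + 1) / k := by
        rw [hy]
        field_simp
        ring
      rw [this]
      exact div_le_div_of_nonneg_right hrR hk0.le
    linarith
  have hA : (0 : ℝ) ≤ ((n : ℝ) / (2 * (k : ℝ) + 1)) ^ (((K : ℝ) + 1) / 4) := by positivity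
  have hC : (n.choose (r + 1) : ℝ) = (n.choose r : ℝ) * ((k : ℝ) / ((r : ℝ) + 1)) := by
    field_simp
    linarith
  rw [hsplit, hC]
  have hfin : ((k : ℝ) / ((r : ℝ) + 1)) *
      ((2 * (k : ℝ) + 1) / (2 * (k : ℝ) - 1)) ^ (((K : ℝ) + 1) / 4) ≤ 1 := by
    calc ((k : ℝ) / ((r : ℝ) + 1)) *
        ((2 * (k : ℝ) + 1) / (2 * (k : ℝ) - 1)) ^ (((K : ℝ) + 1) / 4)
        ≤ ((k : ℝ) / ((r : ℝ) + 1)) * (((r : ℝ) + 1) / k) :=
          mul_le_mul_of_nonneg_left hmain (by positivity)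
      _ = 1 := by field_simp
  calc (n.choose r : ℝ) * ((k : ℝ) / ((r : ℝ) + 1)) *
      (((n : ℝ) / (2 * (k : ℝ) + 1)) ^ (((K : ℝ) + 1) / 4) *
        ((2 * (k : ℝ) + 1) / (2 * (k : ℝ) - 1)) ^ (((K : ℝ) + 1) / 4))
      = (n.choose r : ℝ) * ((n : ℝ) / (2 * (k : ℝ) + 1)) ^ (((K : ℝ) + 1) / 4) *
        (((k : ℝ) / ((r : ℝ) + 1)) *
          ((2 * (k : ℝ) + 1) / (2 * (k : ℝ) - 1)) ^ (((K : ℝ) + 1) / 4)) := by ring
    _ ≤ (n.choose r : ℝ) * ((n : ℝ) / (2 * (k : ℝ) + 1)) ^ (((K : ℝ) + 1) / 4) * 1 :=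
        mul_le_mul_of_nonneg_left hfin (by positivity)
    _ = _ := by ring

end Pool.Agent.Helper46.R.K1
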