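import Pool.Agent.Helper46.R.Defs

set_option autoImplicit false

namespace Pool.Agent.Helper46.R.K2

open Finset Filter

/-- ranks very close to `n` -/
theorem tail2 : ∃ n0 : ℕ, ∀ n : ℕ, n0 ≤ n → ∀ K : ℕ, 1 ≤ K → K ^ 2 ≤ 2 * n → ∀ r : ℕ, r ≤ n →
    n ≤ r + K →
      (n.choose r : ℝ) * ((n : ℝ) / ((2 * (n - r) + 1 : ℕ) : ℝ)) ^ (((K : ℝ) + 1) / 4) ≤
        (1 - 1 / (n : ℝ) ^ 2) * (n.choose ((n + 1) / 2) : ℝ) := by
  have hlog : ∃ N : ℕ, ∀ n : ℕ, N ≤ n → Real.log n ≤ (1 / 100) * Real.sqrt n := by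
    have h := (isLittleO_log_rpow_atTop (r := (1 / 2 : ℝ)) (by norm_num)).bound
      (show (0 : ℝ) < 1 / 100 by norm_num)
    have h2 := tendsto_natCast_atTop_atTop (R := ℝ) |>.eventually h
    obtain ⟨N, hN⟩ := Filter.eventually_atTop.mp h2
    refine ⟨N, fun n hn => ?_⟩
    have h3 := hN n hn
    rw [Real.norm_eq_abs, Real.norm_eq_abs, ← Real.sqrt_eq_rpow,
      abs_of_nonneg (Real.sqrt_nonneg _)] at h3
    exact (le_abs_self _).trans h3
  obtain ⟨N, hN⟩ := hlog
  refine ⟨max N 4, ?_⟩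
  intro n hn K hK1 hK2 r hr hrK
  have hn4 : 4 ≤ n := le_trans (le_max_right _ _) hn
  have hnN : N ≤ n := le_trans (le_max_left _ _) hn
  have hL := hN n hnN
  have hn4' : (4 : ℝ) ≤ n := by exact_mod_cast hn4
  have hn0 : (0 : ℝ) < n := by linarith
  have hn1 : (1 : ℝ) ≤ n := by linarith
  have hL0 : 0 ≤ Real.log n := Real.log_nonneg hn1
  have hs0 : 0 ≤ Real.sqrt n := Real.sqrt_nonneg _
  have hss : Real.sqrt n * Real.sqrt n = n := Real.mul_self_sqrt hn0.le
  -- bound for the left side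
  have hleft : (n.choose r : ℝ) * ((n : ℝ) / ((2 * (n - r) + 1 : ℕ) : ℝ)) ^ (((K : ℝ) + 1) / 4) ≤
      (n : ℝ) ^ (2 * K) := by
    have h1 : (n.choose r : ℝ) ≤ (n : ℝ) ^ K := by
      have h2 : n.choose r ≤ n ^ K := by
        rw [← Nat.choose_symm hr]
        calc n.choose (n - r) ≤ n ^ (n - r) := Nat.choose_le_pow _ _
          _ ≤ n ^ K := Nat.pow_le_pow_right (by omega) (by omega)
      exact_mod_cast h2
    have hden : (1 : ℝ) ≤ ((2 * (n - r) + 1 : ℕ) : ℝ) := by
      have : 1 ≤ 2 * (n - r) + 1 := by omega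
      exact_mod_cast this
    have hK1' : (1 : ℝ) ≤ K := by exact_mod_cast hK1
    have h3 : ((n : ℝ) / ((2 * (n - r) + 1 : ℕ) : ℝ)) ^ (((K : ℝ) + 1) / 4) ≤ (n : ℝ) ^ K := by
      calc ((n : ℝ) / ((2 * (n - r) + 1 : ℕ) : ℝ)) ^ (((K : ℝ) + 1) / 4)
          ≤ (n : ℝ) ^ (((K : ℝ) + 1) / 4) := by
            apply Real.rpow_le_rpow
            · positivity
            · exact div_le_self hn0.le hden
            · positivity
        _ ≤ (n : ℝ) ^ ((K : ℝ)) := by
            apply Real.rpow_le_rpow_of_exponent_le hn1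
            linarith
        _ = (n : ℝ) ^ K := Real.rpow_natCast _ _
    calc (n.choose r : ℝ) * ((n : ℝ) / ((2 * (n - r) + 1 : ℕ) : ℝ)) ^ (((K : ℝ) + 1) / 4)
        ≤ (n : ℝ) ^ K * (n : ℝ) ^ K := by
          apply mul_le_mul h1 h3
          · positivity
          · positivity
      _ = (n : ℝ) ^ (2 * K) := by
          rw [two_mul, pow_add]
  -- the exponential comparison
  have hexp : (n : ℝ) ^ (2 * K) * (2 * ((n : ℝ) + 1)) ≤ 2 ^ n := by
    have hK2' : (K : ℝ) ≤ 2 * Real.sqrt n := by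
      have h1 : (K : ℝ) ^ 2 ≤ 2 * n := by exact_mod_cast hK2
      apply abs_le_of_sq_le_sq' _ (by positivity) |>.2
      rw [mul_pow, sq (Real.sqrt n), hss]
      linarith
    have h1 : (n : ℝ) ^ (2 * K) = Real.exp (((2 * K : ℕ) : ℝ) * Real.log n) := by
      rw [Real.exp_nat_mul, Real.exp_log hn0]
    have h2 : (2 * ((n : ℝ) + 1)) ≤ Real.exp (2 * Real.log n) := by
      have : Real.exp (2 * Real.log n) = (n : ℝ) ^ 2 := by
        have h5 := Real.exp_nat_mul (Real.log n) 2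
        rw [Real.exp_log hn0] at h5
        rw [← h5]
        norm_num
      rw [this]
      nlinarith
    have h3 : (2 : ℝ) ^ n = Real.exp ((n : ℝ) * Real.log 2) := by
      rw [Real.exp_nat_mul, Real.exp_log (by norm_num)]
    rw [h1, h3]
    calc Real.exp (((2 * K : ℕ) : ℝ) * Real.log n) * (2 * ((n : ℝ) + 1))
        ≤ Real.exp (((2 * K : ℕ) : ℝ) * Real.log n) * Real.exp (2 * Real.log n) :=
          mul_le_mul_of_nonneg_left h2 (Real.exp_pos _).le
      _ = Real.exp (((2 * K : ℕ) : ℝ) * Real.log n + 2 * Real.log n) := by rw [Real.exp_add]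
      _ ≤ Real.exp ((n : ℝ) * Real.log 2) := by
          apply Real.exp_le_exp.mpr
          have hlog2 := Real.log_two_gt_d9
          push_cast
          have h6 : (K : ℝ) * Real.log n ≤ (2 * Real.sqrt n) * ((1 / 100) * Real.sqrt n) :=
            mul_le_mul hK2' hL hL0 (by positivity)
          have h7 : (2 * Real.sqrt n) * ((1 / 100) * Real.sqrt n) = n / 50 := by
            have : (2 * Real.sqrt n) * ((1 / 100) * Real.sqrt n) =
              (Real.sqrt n * Real.sqrt n) / 50 := by ring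
            rw [this, hss]
          have h8 : Real.sqrt n ≤ n := by
            have : Real.sqrt n ≤ Real.sqrt n * Real.sqrt n := by
              have h9 : 1 ≤ Real.sqrt n := by
                rw [← Real.sqrt_one]
                exact Real.sqrt_le_sqrt hn1
              nlinarith
            rwa [hss] at this
          nlinarith
  -- the middle binomial coefficient
  have hmid : (2 : ℝ) ^ n ≤ ((n : ℝ) + 1) * (n.choose ((n + 1) / 2) : ℝ) := by
    have h1 : n.choose ((n + 1) / 2) = n.choose (n / 2) := by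
      apply Nat.choose_symm_of_eq_add
      omega
    have h2 : 2 ^ n ≤ (n + 1) * n.choose (n / 2) := by
      rw [← Nat.sum_range_choose]
      calc ∑ i ∈ Finset.range (n + 1), n.choose i
          ≤ ∑ i ∈ Finset.range (n + 1), n.choose (n / 2) :=
            Finset.sum_le_sum (fun i _ => Nat.choose_le_middle i n)
        _ = (n + 1) * n.choose (n / 2) := by
            rw [Finset.sum_const, Finset.card_range, smul_eq_mul]
    rw [h1]
    exact_mod_cast h2
  refine hleft.trans ?_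
  have hC0 : (0 : ℝ) ≤ (n.choose ((n + 1) / 2) : ℝ) := Nat.cast_nonneg _
  have h1 : (1 / 2 : ℝ) ≤ 1 - 1 / (n : ℝ) ^ 2 := by
    have h2 : 1 / (n : ℝ) ^ 2 ≤ 1 / 2 := by
      apply one_div_le_one_div_of_le (by norm_num)
      nlinarith
    linarith
  have h2 : (n : ℝ) ^ (2 * K) ≤ (1 / 2) * (n.choose ((n + 1) / 2) : ℝ) := by
    have h3 : (n : ℝ) ^ (2 * K) * (2 * ((n : ℝ) + 1)) ≤
        ((n : ℝ) + 1) * (n.choose ((n + 1) / 2) : ℝ) := hexp.trans hmid
    have h4 : (0 : ℝ) < (n : ℝ) + 1 := by linarith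
    have h5 : ((n : ℝ) + 1) * (2 * (n : ℝ) ^ (2 * K)) ≤
        ((n : ℝ) + 1) * (n.choose ((n + 1) / 2) : ℝ) := by
      linarith
    have h6 := le_of_mul_le_mul_left h5 h4
    linarith
  calc (n : ℝ) ^ (2 * K) ≤ (1 / 2) * (n.choose ((n + 1) / 2) : ℝ) := h2
    _ ≤ (1 - 1 / (n : ℝ) ^ 2) * (n.choose ((n + 1) / 2) : ℝ) :=
      mul_le_mul_of_nonneg_right h1 hC0

end Pool.Agent.Helper46.R.K2
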