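import Pool.Agent.Helper46.R.Defs

set_option autoImplicit false

namespace Pool.Agent.Helper46.R.K3

open Finset Filter

theorem choose_exp_bd (h m : ℕ) (hm : m ≤ h) (hh : 0 < h) : ∀ j ≤ m,
    ((2 * h).choose (h + j) : ℝ) ≤ ((2 * h).choose h : ℝ) * Real.exp (-((j : ℝ) ^ 2 / ((h : ℝ) + m))) := by
  intro j
  induction j with
  | zero => intro _; simp
  | succ j ih =>
    intro hj
    have ih' := ih (by omega)
    have h1 : (2 * h).choose (h + j + 1) * (h + j + 1) = (2 * h).choose (h + j) * (2 * h - (h + j)) :=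
      Nat.choose_succ_right_eq _ _
    have h2 : 2 * h - (h + j) = h - j := by omega
    rw [h2] at h1
    have h3 : ((2 * h).choose (h + j + 1) : ℝ) * ((h : ℝ) + j + 1)
        = ((2 * h).choose (h + j) : ℝ) * ((h : ℝ) - j) := by
      have h4 : (((2 * h).choose (h + j + 1) * (h + j + 1) : ℕ) : ℝ)
          = (((2 * h).choose (h + j) * (h - j) : ℕ) : ℝ) := by exact_mod_cast h1
      push_cast [Nat.cast_sub (show j ≤ h by omega)] at h4
      exact h4
    have hH : (0 : ℝ) < h := by exact_mod_cast hh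
    have hj0 : (0 : ℝ) ≤ j := Nat.cast_nonneg _
    have hjm : (j : ℝ) + 1 ≤ m := by exact_mod_cast hj
    have hmh : (m : ℝ) ≤ h := by exact_mod_cast hm
    have hpos : 0 < (h : ℝ) + j + 1 := by linarith
    have h5 : ((2 * h).choose (h + j + 1) : ℝ)
        = ((2 * h).choose (h + j) : ℝ) * (((h : ℝ) - j) / ((h : ℝ) + j + 1)) := by
      rw [mul_div_assoc', eq_div_iff hpos.ne']
      exact h3
    have h6 : ((h : ℝ) - j) / ((h : ℝ) + j + 1) ≤ Real.exp (-((2 * (j : ℝ) + 1) / ((h : ℝ) + m))) := by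
      have h7 : ((h : ℝ) - j) / ((h : ℝ) + j + 1) = -((2 * (j : ℝ) + 1) / ((h : ℝ) + j + 1)) + 1 := by
        field_simp
        ring
      rw [h7]
      refine (Real.add_one_le_exp _).trans (Real.exp_le_exp.2 ?_)
      rw [neg_le_neg_iff]
      exact div_le_div_of_nonneg_left (by positivity) hpos (by linarith)
    have h8 : 0 ≤ ((h : ℝ) - j) / ((h : ℝ) + j + 1) := div_nonneg (by linarith) hpos.le
    have e1 : h + (j + 1) = h + j + 1 := by ring
    rw [e1, h5]
    calc ((2 * h).choose (h + j) : ℝ) * (((h : ℝ) - j) / ((h : ℝ) + j + 1))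
        ≤ (((2 * h).choose h : ℝ) * Real.exp (-((j : ℝ) ^ 2 / ((h : ℝ) + m)))) *
          Real.exp (-((2 * (j : ℝ) + 1) / ((h : ℝ) + m))) :=
          mul_le_mul ih' h6 h8 (by positivity)
      _ = _ := by
          rw [mul_assoc, ← Real.exp_add]
          congr 2
          push_cast
          have : (h : ℝ) + m ≠ 0 := by positivity
          field_simp
          ring

theorem even2 : ∃ h0 : ℕ, ∀ h : ℕ, h0 ≤ h → ∀ K : ℕ, 1 ≤ K → K ^ 2 ≤ 4 * h →
      ((2 * h).choose (h + K + 1) : ℝ) *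
        ((2 * (h : ℝ)) / (2 * (h : ℝ) - 2 * K - 1)) ^ (((K : ℝ) + 1) / 4) ≤
        (1 - 1 / (2 * (h : ℝ)) ^ 2) * ((2 * h).choose h : ℝ) := by
  refine ⟨200, fun h hh K hK1 hK2 => ?_⟩
  have hKh : 5 * (K + 1) ≤ h := by
    by_contra hc
    push Not at hc
    nlinarith
  have hA := choose_exp_bd h (K + 1) (by omega) (by omega) (K + 1) le_rfl
  obtain ⟨H, hH⟩ : ∃ H : ℝ, H = (h : ℝ) := ⟨_, rfl⟩
  obtain ⟨k, hk⟩ : ∃ k : ℝ, k = (K : ℝ) := ⟨_, rfl⟩
  have hH200 : 200 ≤ H := by rw [hH]; exact_mod_cast hh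
  have hk1 : 1 ≤ k := by rw [hk]; exact_mod_cast hK1
  have hkH : 5 * (k + 1) ≤ H := by rw [hk, hH]; exact_mod_cast hKh
  push_cast at hA
  rw [← hH, ← hk] at hA
  rw [← hH, ← hk]
  have e1 : h + (K + 1) = h + K + 1 := by ring
  rw [e1] at hA
  obtain ⟨C, hC⟩ : ∃ C : ℝ, C = ((2 * h).choose h : ℝ) := ⟨_, rfl⟩
  have hC0 : 0 ≤ C := by rw [hC]; positivity
  rw [← hC] at hA ⊢
  have hden : 0 < 2 * H - 2 * k - 1 := by linarith
  have hB : ((2 * H) / (2 * H - 2 * k - 1)) ^ ((k + 1) / 4) ≤ Real.exp ((k + 1) ^ 2 / (4 * (H - (k + 1)))) := by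
    have h1 : (2 * H) / (2 * H - 2 * k - 1) ≤ Real.exp ((2 * k + 1) / (2 * H - 2 * k - 1)) := by
      have h2 : (2 * H) / (2 * H - 2 * k - 1) = (2 * k + 1) / (2 * H - 2 * k - 1) + 1 := by
        rw [div_add_one hden.ne']
        congr 1
        ring
      rw [h2]
      exact Real.add_one_le_exp _
    refine (Real.rpow_le_rpow (by positivity) h1 (by positivity)).trans ?_
    rw [← Real.exp_mul]
    refine Real.exp_le_exp.2 ?_
    have h3 : (2 * k + 1) / (2 * H - 2 * k - 1) ≤ (2 * (k + 1)) / (2 * (H - (k + 1))) := by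
      rw [div_le_div_iff₀ hden (by linarith)]
      nlinarith
    have h4 : (k + 1) ^ 2 / (4 * (H - (k + 1))) = (2 * (k + 1)) / (2 * (H - (k + 1))) * ((k + 1) / 4) := by
      have : H - (k + 1) ≠ 0 := by linarith
      field_simp
      try ring
    rw [h4]
    exact mul_le_mul_of_nonneg_right h3 (by linarith)
  have hexp : Real.exp (-((k + 1) ^ 2 / (H + (k + 1)))) * Real.exp ((k + 1) ^ 2 / (4 * (H - (k + 1))))
      ≤ 1 - 1 / (2 * H) ^ 2 := by
    rw [← Real.exp_add]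
    have g1 : 5 * (k + 1) ^ 2 / (6 * H) ≤ (k + 1) ^ 2 / (H + (k + 1)) := by
      rw [div_le_div_iff₀ (by linarith) (by linarith)]
      nlinarith [sq_nonneg (k + 1)]
    have g2 : (k + 1) ^ 2 / (4 * (H - (k + 1))) ≤ 5 * (k + 1) ^ 2 / (16 * H) := by
      rw [div_le_div_iff₀ (by linarith) (by linarith)]
      nlinarith [mul_nonneg (sq_nonneg (k + 1)) (sub_nonneg.2 hkH)]
    have g3 : 5 * (k + 1) ^ 2 / (16 * H) - 5 * (k + 1) ^ 2 / (6 * H) ≤ -(2 / H) := by
      have g4 : 5 * (k + 1) ^ 2 / (16 * H) - 5 * (k + 1) ^ 2 / (6 * H) = -((25 * (k + 1) ^ 2 / 48) / H) := by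
        have : H ≠ 0 := by linarith
        field_simp
        ring
      rw [g4, neg_le_neg_iff]
      refine div_le_div_of_nonneg_right ?_ (by linarith)
      nlinarith
    have g5 : Real.exp (-((k + 1) ^ 2 / (H + (k + 1))) + (k + 1) ^ 2 / (4 * (H - (k + 1))))
        ≤ Real.exp (-(2 / H)) := Real.exp_le_exp.2 (by linarith)
    refine g5.trans ?_
    have g6 : 2 / H + 1 ≤ Real.exp (2 / H) := Real.add_one_le_exp _
    rw [Real.exp_neg]
    have g7 : (Real.exp (2 / H))⁻¹ ≤ (2 / H + 1)⁻¹ := inv_anti₀ (by positivity) g6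
    refine g7.trans ?_
    have g8 : (2 / H + 1)⁻¹ = 1 - 2 / (H + 2) := by
      have : H ≠ 0 := by linarith
      have : H + 2 ≠ 0 := by linarith
      have : 2 + H ≠ 0 := by linarith
      field_simp
      ring
    rw [g8]
    have g9 : 1 / (2 * H) ^ 2 ≤ 2 / (H + 2) := by
      rw [div_le_div_iff₀ (by positivity) (by linarith)]
      nlinarith
    linarith
  calc ((2 * h).choose (h + K + 1) : ℝ) * ((2 * H) / (2 * H - 2 * k - 1)) ^ ((k + 1) / 4)
      ≤ (C * Real.exp (-((k + 1) ^ 2 / (H + (k + 1))))) * Real.exp ((k + 1) ^ 2 / (4 * (H - (k + 1)))) :=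
        mul_le_mul hA hB (by positivity) (by positivity)
    _ = C * (Real.exp (-((k + 1) ^ 2 / (H + (k + 1)))) * Real.exp ((k + 1) ^ 2 / (4 * (H - (k + 1))))) := by
        ring
    _ ≤ C * (1 - 1 / (2 * H) ^ 2) := mul_le_mul_of_nonneg_left hexp hC0
    _ = (1 - 1 / (2 * H) ^ 2) * C := by ring

end Pool.Agent.Helper46.R.K3
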