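import Pool.Agent.Helper46.R.Defs

set_option autoImplicit false

namespace Pool.Agent.Helper46.R.K4

open Finset Filter

theorem odd2_choose (h J : ℕ) : ∀ j : ℕ, j ≤ J → J ≤ h →
    ((2 * h + 1).choose (h + 1 + j) : ℝ) ≤
      ((2 * h + 1).choose (h + 1) : ℝ) * Real.exp (-((j : ℝ) * (j + 1)) / ((h : ℝ) + 1 + J)) := by
  intro j
  induction j with
  | zero => intro _ _; simp
  | succ j ih =>
    intro hj hJ
    have ih' := ih (by omega) hJ
    have h1 := Nat.choose_succ_right_eq (2 * h + 1) (h + 1 + j)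
    have h2 : 2 * h + 1 - (h + 1 + j) = h - j := by omega
    rw [h2] at h1
    have h3 : ((2 * h + 1).choose (h + 1 + j + 1) : ℝ) * ((h : ℝ) + 1 + j + 1) =
        ((2 * h + 1).choose (h + 1 + j) : ℝ) * ((h : ℝ) - j) := by
      have := congrArg (Nat.cast : ℕ → ℝ) h1
      push_cast [Nat.cast_sub (show j ≤ h by omega)] at this
      linarith
    have hjh : (j : ℝ) + 1 ≤ h := by exact_mod_cast (show j + 1 ≤ h by omega)
    have hjJ : (j : ℝ) + 1 ≤ J := by exact_mod_cast hj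
    have hj0 : (0 : ℝ) ≤ j := Nat.cast_nonneg j
    have hpos : (0 : ℝ) < (h : ℝ) + 1 + j + 1 := by positivity
    have hposJ : (0 : ℝ) < (h : ℝ) + 1 + J := by positivity
    have h4 : ((2 * h + 1).choose (h + 1 + (j + 1)) : ℝ) =
        ((2 * h + 1).choose (h + 1 + j) : ℝ) * (((h : ℝ) - j) / ((h : ℝ) + 1 + j + 1)) := by
      rw [← add_assoc, ← mul_div_assoc, eq_div_iff hpos.ne']
      exact h3
    have h5 : ((h : ℝ) - j) / ((h : ℝ) + 1 + j + 1) ≤
        Real.exp (-(2 * ((j : ℝ) + 1)) / ((h : ℝ) + 1 + J)) := by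
      have e1 : ((h : ℝ) - j) / ((h : ℝ) + 1 + j + 1) =
          -(2 * ((j : ℝ) + 1)) / ((h : ℝ) + 1 + j + 1) + 1 := by
        field_simp
        ring
      have e2 : -(2 * ((j : ℝ) + 1)) / ((h : ℝ) + 1 + j + 1) ≤
          -(2 * ((j : ℝ) + 1)) / ((h : ℝ) + 1 + J) := by
        rw [neg_div, neg_div, neg_le_neg_iff]
        apply div_le_div_of_nonneg_left (by positivity) hpos
        linarith
      calc _ = -(2 * ((j : ℝ) + 1)) / ((h : ℝ) + 1 + j + 1) + 1 := e1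
        _ ≤ -(2 * ((j : ℝ) + 1)) / ((h : ℝ) + 1 + J) + 1 := by linarith
        _ ≤ _ := Real.add_one_le_exp _
    have h6 : (0 : ℝ) ≤ ((h : ℝ) - j) / ((h : ℝ) + 1 + j + 1) := by
      apply div_nonneg
      · linarith
      · exact hpos.le
    rw [h4]
    calc _ ≤ (((2 * h + 1).choose (h + 1) : ℝ) *
          Real.exp (-((j : ℝ) * (j + 1)) / ((h : ℝ) + 1 + J))) *
          Real.exp (-(2 * ((j : ℝ) + 1)) / ((h : ℝ) + 1 + J)) := by
            apply mul_le_mul ih' h5 h6 (by positivity)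
      _ = _ := by
        rw [mul_assoc, ← Real.exp_add]
        congr 2
        push_cast
        rw [← add_div]
        congr 1
        ring

theorem odd2 : ∃ h0 : ℕ, ∀ h : ℕ, h0 ≤ h → ∀ K : ℕ, 1 ≤ K → K ^ 2 ≤ 2 * (2 * h + 1) →
      ((2 * h + 1).choose (h + K + 2) : ℝ) *
        ((2 * (h : ℝ) + 1) / (2 * (h : ℝ) - 2 * K - 1)) ^ (((K : ℝ) + 1) / 4) ≤
        (1 - 1 / (2 * (h : ℝ) + 1) ^ 2) * ((2 * h + 1).choose (h + 1) : ℝ) := by
  refine ⟨1000, ?_⟩
  intro h hh K hK hK2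
  have hhR : (1000 : ℝ) ≤ h := by exact_mod_cast hh
  have hKR : (1 : ℝ) ≤ K := by exact_mod_cast hK
  have hK2R : (K : ℝ) ^ 2 ≤ 2 * (2 * h + 1) := by exact_mod_cast hK2
  have hK8 : 8 * (K : ℝ) ≤ h := by
    by_contra hc
    push Not at hc
    nlinarith
  have hKh : K + 1 ≤ h := by
    have : (K : ℝ) + 1 ≤ h := by linarith
    exact_mod_cast this
  have hA := odd2_choose h (K + 1) (K + 1) le_rfl hKh
  have hA' : ((2 * h + 1).choose (h + K + 2) : ℝ) ≤ ((2 * h + 1).choose (h + 1) : ℝ) *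
      Real.exp (-(((K : ℝ) + 1) * (K + 2)) / ((h : ℝ) + K + 2)) := by
    have e1 : h + 1 + (K + 1) = h + K + 2 := by ring
    rw [e1] at hA
    refine hA.trans_eq ?_
    congr 2
    push_cast
    congr 1
    · ring
    · ring
  have hD : (0 : ℝ) < 2 * (h : ℝ) - 2 * K - 1 := by linarith
  have hB : ((2 * (h : ℝ) + 1) / (2 * (h : ℝ) - 2 * K - 1)) ^ (((K : ℝ) + 1) / 4) ≤
      Real.exp ((2 * (K : ℝ) + 2) / (2 * (h : ℝ) - 2 * K - 1) * (((K : ℝ) + 1) / 4)) := by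
    rw [Real.exp_mul]
    apply Real.rpow_le_rpow
    · positivity
    · have e1 : (2 * (h : ℝ) + 1) / (2 * (h : ℝ) - 2 * K - 1) =
          (2 * (K : ℝ) + 2) / (2 * (h : ℝ) - 2 * K - 1) + 1 := by
        rw [div_add_one hD.ne']
        congr 1
        ring
      rw [e1]
      exact Real.add_one_le_exp _
    · positivity
  have hC : Real.exp (-(1 / (h : ℝ))) ≤ 1 - 1 / (2 * (h : ℝ) + 1) ^ 2 := by
    have e1 : 1 + 1 / (h : ℝ) ≤ Real.exp (1 / (h : ℝ)) := by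
      have := Real.add_one_le_exp (1 / (h : ℝ))
      linarith
    have hpos : (0 : ℝ) < h := by linarith
    have e2 : Real.exp (-(1 / (h : ℝ))) ≤ 1 / (1 + 1 / (h : ℝ)) := by
      rw [Real.exp_neg, ← one_div]
      apply one_div_le_one_div_of_le (by positivity) e1
    have e3 : 1 / (1 + 1 / (h : ℝ)) = 1 - 1 / ((h : ℝ) + 1) := by
      field_simp
      ring
    have e4 : 1 / (2 * (h : ℝ) + 1) ^ 2 ≤ 1 / ((h : ℝ) + 1) := by
      apply one_div_le_one_div_of_le (by positivity)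
      nlinarith
    linarith
  have hE : -(((K : ℝ) + 1) * (K + 2)) / ((h : ℝ) + K + 2) +
      (2 * (K : ℝ) + 2) / (2 * (h : ℝ) - 2 * K - 1) * (((K : ℝ) + 1) / 4) ≤ -(1 / (h : ℝ)) := by
    have hpos : (0 : ℝ) < h := by linarith
    have f1 : (4 / 5 : ℝ) * ((K : ℝ) + 1) ^ 2 / h ≤ (((K : ℝ) + 1) * (K + 2)) / ((h : ℝ) + K + 2) := by
      rw [div_le_div_iff₀ hpos (by positivity)]
      nlinarith
    have f2 : (2 * (K : ℝ) + 2) / (2 * (h : ℝ) - 2 * K - 1) * (((K : ℝ) + 1) / 4) ≤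
        (5 / 16 : ℝ) * ((K : ℝ) + 1) ^ 2 / h := by
      have e1 : (2 * (K : ℝ) + 2) / (2 * (h : ℝ) - 2 * K - 1) * (((K : ℝ) + 1) / 4) =
          (((K : ℝ) + 1) ^ 2 / 2) / (2 * (h : ℝ) - 2 * K - 1) := by
        field_simp
        ring
      rw [e1, div_le_div_iff₀ hD hpos]
      nlinarith [mul_nonneg (sq_nonneg ((K : ℝ) + 1)) (show (0 : ℝ) ≤ h - 8 * K by linarith),
        mul_nonneg (sq_nonneg ((K : ℝ) + 1)) (show (0 : ℝ) ≤ h - 1000 by linarith)]
    have f3 : 1 / (h : ℝ) ≤ (39 / 80 : ℝ) * ((K : ℝ) + 1) ^ 2 / h := by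
      apply div_le_div_of_nonneg_right _ hpos.le
      nlinarith
    have f4 : (4 / 5 : ℝ) * ((K : ℝ) + 1) ^ 2 / h - (5 / 16 : ℝ) * ((K : ℝ) + 1) ^ 2 / h =
        (39 / 80 : ℝ) * ((K : ℝ) + 1) ^ 2 / h := by ring
    rw [neg_div]
    linarith
  have hc0 : (0 : ℝ) ≤ ((2 * h + 1).choose (h + 1) : ℝ) := Nat.cast_nonneg _
  calc _ ≤ (((2 * h + 1).choose (h + 1) : ℝ) *
        Real.exp (-(((K : ℝ) + 1) * (K + 2)) / ((h : ℝ) + K + 2))) *
        Real.exp ((2 * (K : ℝ) + 2) / (2 * (h : ℝ) - 2 * K - 1) * (((K : ℝ) + 1) / 4)) := by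
          apply mul_le_mul hA' hB
          · apply Real.rpow_nonneg
            positivity
          · positivity
    _ = ((2 * h + 1).choose (h + 1) : ℝ) * Real.exp (-(((K : ℝ) + 1) * (K + 2)) / ((h : ℝ) + K + 2) +
        (2 * (K : ℝ) + 2) / (2 * (h : ℝ) - 2 * K - 1) * (((K : ℝ) + 1) / 4)) := by
          rw [mul_assoc, ← Real.exp_add]
    _ ≤ ((2 * h + 1).choose (h + 1) : ℝ) * (1 - 1 / (2 * (h : ℝ) + 1) ^ 2) := by
          apply mul_le_mul_of_nonneg_left _ hc0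
          exact (Real.exp_le_exp.mpr hE).trans hC
    _ = _ := by ring

end Pool.Agent.Helper46.R.K4
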