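import Pool.Agent.Helper46.R.Defs

set_option autoImplicit false

namespace Pool.Agent.Helper46.R.K5

open Finset Filter

theorem nonrecords_ind (b : ℕ → ℝ) (hmono : ∀ m n, 1 ≤ m → m ≤ n → b m ≤ b n) (lam : ℝ)
    (hl : 0 < lam) (P : ℕ → Prop) [DecidablePred P]
    (hP : ∀ n, P n ↔ ¬ ∀ m : ℕ, 1 ≤ m → m < n → b n - b m < lam * (Real.log n - Real.log m))
    (N : ℕ) (hN : 1 ≤ N) : ∀ m, 1 ≤ m → m ≤ N →
      b 1 - lam * Real.log N + lam * ∑ n ∈ (Icc 2 N).filter P,
        (Real.log n - Real.log ((n : ℝ) - 1)) ≤ b m - lam * Real.log m := by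
  induction N, hN using Nat.le_induction with
  | base =>
    intro m hm1 hm2
    have : m = 1 := le_antisymm hm2 hm1
    subst this
    have h1 : (Icc 2 1 : Finset ℕ) = ∅ := by decide
    rw [h1, Finset.filter_empty, Finset.sum_empty]
    simp
  | succ N hN ih =>
    have hins : Icc 2 (N + 1) = insert (N + 1) (Icc 2 N) := by
      ext x
      simp only [Finset.mem_Icc, Finset.mem_insert]
      omega
    have hnot : N + 1 ∉ (Icc 2 N).filter P := by
      rw [Finset.mem_filter, Finset.mem_Icc]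
      omega
    have hNr : (0 : ℝ) < N := by exact_mod_cast hN
    have hlog : Real.log N ≤ Real.log ((N : ℝ) + 1) := Real.log_le_log hNr (by linarith)
    have hcast : (((N + 1 : ℕ) : ℝ)) - 1 = N := by push_cast; ring
    intro m hm1 hm2
    rw [hins, Finset.filter_insert]
    by_cases hPN : P (N + 1)
    · rw [if_pos hPN, Finset.sum_insert hnot, hcast]
      have hR : b 1 - lam * Real.log ((N + 1 : ℕ) : ℝ) + lam *
          ((Real.log ((N + 1 : ℕ) : ℝ) - Real.log N) + ∑ n ∈ (Icc 2 N).filter P,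
            (Real.log n - Real.log ((n : ℝ) - 1))) =
          b 1 - lam * Real.log N + lam * ∑ n ∈ (Icc 2 N).filter P,
            (Real.log n - Real.log ((n : ℝ) - 1)) := by ring
      rw [hR]
      rcases Nat.lt_or_ge N m with h | h
      · have hmN : m = N + 1 := by omega
        subst hmN
        rw [hP] at hPN
        push Not at hPN
        obtain ⟨m', hm'1, hm'2, hm'3⟩ := hPN
        have := ih m' hm'1 (by omega)
        linarith
      · exact ih m hm1 h
    · rw [if_neg hPN]
      have hlog' : Real.log N ≤ Real.log ((N + 1 : ℕ) : ℝ) := by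
        push_cast
        exact hlog
      have h2 := mul_le_mul_of_nonneg_left hlog' hl.le
      rcases Nat.lt_or_ge N m with h | h
      · have hmN : m = N + 1 := by omega
        subst hmN
        have h3 := ih N hN le_rfl
        have h4 := hmono N (N + 1) hN (by omega)
        linarith
      · have := ih m hm1 h
        linarith

theorem nonrecords_gen (b : ℕ → ℝ) (hmono : ∀ m n, 1 ≤ m → m ≤ n → b m ≤ b n) (C : ℝ)
    (hub : ∀ n : ℕ, 1 ≤ n → b n ≤ Real.log n + C) (lam : ℝ) (hl : 0 < lam) (N : ℕ) (hN : 1 ≤ N)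
    (P : ℕ → Prop) [DecidablePred P]
    (hP : ∀ n, P n ↔ ¬ ∀ m : ℕ, 1 ≤ m → m < n → b n - b m < lam * (Real.log n - Real.log m)) :
    (((Icc 2 N).filter P).card : ℝ) ≤ N * (Real.log N + C - b 1) / lam := by
  have h1 := nonrecords_ind b hmono lam hl P hP N hN N hN le_rfl
  have h2 := hub N hN
  have hNr : (0 : ℝ) < N := by exact_mod_cast hN
  have h3 : (((Icc 2 N).filter P).card : ℝ) * (1 / N) ≤ ∑ n ∈ (Icc 2 N).filter P,
      (Real.log n - Real.log ((n : ℝ) - 1)) := by
    rw [← nsmul_eq_mul, ← Finset.sum_const]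
    apply Finset.sum_le_sum
    intro n hn
    rw [Finset.mem_filter, Finset.mem_Icc] at hn
    have hn2 : (2 : ℝ) ≤ n := by exact_mod_cast hn.1.1
    have hnN : (n : ℝ) ≤ N := by exact_mod_cast hn.1.2
    have h4 : Real.log (((n : ℝ) - 1) / n) ≤ ((n : ℝ) - 1) / n - 1 :=
      Real.log_le_sub_one_of_pos (div_pos (by linarith) (by linarith))
    rw [Real.log_div (by linarith) (by linarith)] at h4
    have h5 : ((n : ℝ) - 1) / n - 1 = -(1 / n) := by
      field_simp
      ring
    have h6 : 1 / (N : ℝ) ≤ 1 / n := one_div_le_one_div_of_le (by linarith) hnN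
    linarith
  rw [le_div_iff₀ hl]
  have h4 : lam * ∑ n ∈ (Icc 2 N).filter P, (Real.log n - Real.log ((n : ℝ) - 1)) ≤
      Real.log N + C - b 1 := by linarith
  have h5 := mul_le_mul_of_nonneg_left h3 hl.le
  have h6 : lam * ((((Icc 2 N).filter P).card : ℝ) * (1 / N)) ≤ Real.log N + C - b 1 :=
    h5.trans h4
  have h7 := mul_le_mul_of_nonneg_left h6 hNr.le
  have h8 : (N : ℝ) * (lam * ((((Icc 2 N).filter P).card : ℝ) * (1 / N))) =
      (((Icc 2 N).filter P).card : ℝ) * lam := by
    field_simp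
  linarith

/-- the number of non-records -/
theorem nonrecords (b : ℕ → ℝ) (hmono : ∀ m n, 1 ≤ m → m ≤ n → b m ≤ b n) (C : ℝ)
    (hub : ∀ n : ℕ, 1 ≤ n → b n ≤ Real.log n + C) (lam : ℝ) (hl : 0 < lam) (N : ℕ) (hN : 1 ≤ N) :
    (((Icc 2 N).filter (fun n : ℕ => ¬ ∀ m : ℕ, 1 ≤ m → m < n →
          b n - b m < lam * (Real.log n - Real.log m))).card : ℝ) ≤
      N * (Real.log N + C - b 1) / lam :=
  nonrecords_gen b hmono C hub lam hl N hN _ (fun _ => Iff.rfl)

end Pool.Agent.Helper46.R.K5
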