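import Pool.Agent.Helper46.R.Lag
import Pool.Agent.Helper46.A.G3

set_option autoImplicit false

namespace Pool.Agent.Helper46.R

open Finset Filter

theorem BF_le_info {n r l : ℕ} :
    (BF n r).card ≤ ((BF n r).image (A.info l r)).card *
      (A.St (powersetCard r (univ : Finset (Fin n)))).card := by
  classical
  have hQ : ∀ B ∈ BF n r, ∀ X : Finset (Fin n), X.card = r → A.Q (A.info l r B) X → X ∉ B :=
    fun B hB X hX h => A.C1.Q_not_mem (A.mem_BF.1 hB) hX h
  have htie : ∀ B ∈ BF n r, ∀ X Y : Finset (Fin n), A.tie (A.info l r B) X Y → (X ∈ B ↔ Y ∈ B) :=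
    fun B hB X Y h => A.C2.tie_mem (A.mem_BF.1 hB) h
  have hadj : ∀ B ∈ BF n r, ∀ X Y : Finset (Fin n), X.card = r → Y.card = r → X ∉ B → Y ∉ B →
      ¬ A.Q (A.info l r B) X → ¬ A.Q (A.info l r B) Y → A.Adj X Y → A.tie (A.info l r B) X Y :=
    fun B hB X Y h1 h2 h3 h4 h5 h6 h7 => A.adj_tie (A.mem_BF.1 hB) h1 h2 h3 h4 h5 h6 h7
  have f1 := A.D2.F1 (l := l) hQ htie hadj
  refine le_trans ?_ f1
  rw [card_eq_sum_ones]
  exact sum_le_sum (fun B _ => Nat.one_le_two_pow)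

theorem St_upper : ∀ᶠ n : ℕ in atTop,
    ((A.St (powersetCard ((n + 1) / 2) (univ : Finset (Fin n)))).card : ℝ) ≤
      (2 : ℝ) ^ ((3 : ℝ) / 5 * (((4 * n.choose ((n + 1) / 2) + 1 : ℕ) : ℝ) / n)) := by
  filter_upwards [A.E7.s_ev] with n hev
  obtain ⟨hn8, E1, E2⟩ := hev
  set r : ℕ := (n + 1) / 2 with hr
  have hn' : (8 : ℝ) ≤ n := by exact_mod_cast hn8
  have hrn : r ≤ n := by omega
  have hc : 0 < n.choose r := Nat.choose_pos hrn
  have hN : (n : ℝ) * (n - 1) / 2 ≤ ((4 * n.choose r + 1 : ℕ) : ℝ) := by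
    have h0 := Nat.choose_le_middle 2 n
    have e : n.choose (n / 2) = n.choose r := by
      have : n - n / 2 = r := by omega
      rw [← this, Nat.choose_symm (by omega)]
    rw [e] at h0
    have h' : ((n.choose 2 : ℕ) : ℝ) ≤ ((n.choose r : ℕ) : ℝ) := by exact_mod_cast h0
    rw [Nat.cast_choose_two] at h'
    push_cast
    have : (0 : ℝ) ≤ (n.choose r : ℝ) := by positivity
    linarith
  have hV : (powersetCard r (univ : Finset (Fin n))).card = n.choose r := by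
    rw [card_powersetCard, card_univ, Fintype.card_fin]
  have hlam : (1 : ℝ) ≤ (n : ℝ) ^ 4 := one_le_pow₀ (by linarith)
  have hc' : (0 : ℝ) < n.choose r := by exact_mod_cast hc
  have h2r : (n : ℝ) ≤ 2 * r := by
    have : n ≤ 2 * r := by omega
    exact_mod_cast this
  have h2r' : 2 * (r : ℝ) ≤ n + 1 := by
    have : 2 * r ≤ n + 1 := by omega
    exact_mod_cast this
  have hD0 : (0 : ℝ) < (n : ℝ) - r + 1 := by linarith
  have hr0 : (0 : ℝ) < r := by linarith
  have hrows := A.A3.super_rows (n := n) univ r (by omega) (by rw [card_univ, Fintype.card_fin]; omega)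
  have hrow : ∀ A' : Fam n, A' ⊆ powersetCard r (univ : Finset (Fin n)) →
      (1 + (1 / 10 : ℝ)) * ((n.choose r : ℝ) / ((n : ℝ) - r + 1)) < (A'.card : ℝ) →
      ∃ v ∈ A', ((1 / 10 : ℝ) / (1 + (1 / 10 : ℝ))) *
        ((r : ℝ) * ((n : ℝ) - r + 1) / (n.choose r : ℝ)) *
      (A'.card : ℝ) ≤ ((A'.filter (fun u => A.Adj v u)).card : ℝ) := by
    intro A' hA hcard
    have := hrows (1 / 10) (by norm_num) A' hA (by rw [card_univ, Fintype.card_fin]; exact hcard)
    rw [card_univ, Fintype.card_fin] at this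
    exact this
  have key := A.kwU ((1 + (1 / 10 : ℝ)) * ((n.choose r : ℝ) / ((n : ℝ) - r + 1)))
      (((1 / 10 : ℝ) / (1 + (1 / 10 : ℝ))) *
        ((r : ℝ) * ((n : ℝ) - r + 1) / (n.choose r : ℝ))) (by positivity) (by positivity)
      (powersetCard r univ) (fun A' hA hlt => hrow A' hA hlt) ((n : ℝ) ^ 4) hlam
  rw [hV] at key
  refine key.trans ?_
  exact A.E7.s_core n (n.choose r) (4 * n.choose r + 1) ((n : ℝ) - r + 1) r hc (by omega) hN
      (by linarith) (by linarith) (by linarith) hn8 E1 E2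

theorem S_upper : ∃ n0 : ℕ, ∀ n : ℕ, n0 ≤ n →
    (S n ((n + 1) / 2) : ℝ) ≤ (2 : ℝ) ^ (3 * ((n.choose ((n + 1) / 2) : ℝ) / n)) := by
  have hSB : ∀ n k : ℕ, 1 ≤ n → (AN.SB n k : ℝ) ≤ (n : ℝ) ^ (4 * k) *
      Real.exp ((2 : ℝ) ^ n / (n : ℝ) ^ 4) := fun n k hn => AN.E2.SB_le n k hn
  refine eventually_atTop.1 ?_
  filter_upwards [AN.E3.num1 AN.E1.tail hSB, St_upper, eventually_ge_atTop 100] with n h1 h2 hn
  set r : ℕ := (n + 1) / 2 with hr
  have hI := A.C6.info_card (n := n) (l := n / 8) (by omega) r (fun s B hB => A.C4.relH_card hB)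
  have hI' : (((BF n r).image (A.info (n / 8) r)).card : ℝ) ≤
      ((2 : ℝ) ^ (AN.Fs n)) ^ 2 * ((AN.SB n (2 * AN.N0 n / (n / 8) ^ 2) : ℕ) : ℝ) ^ 2 := by
    exact_mod_cast hI
  have hB := BF_le_info (n := n) (r := r) (l := n / 8)
  have hB' : ((BF n r).card : ℝ) ≤ (((BF n r).image (A.info (n / 8) r)).card : ℝ) *
      ((A.St (powersetCard r (univ : Finset (Fin n)))).card : ℝ) := by exact_mod_cast hB
  set I : ℝ := (((BF n r).image (A.info (n / 8) r)).card : ℝ)
  set St' : ℝ := ((A.St (powersetCard r (univ : Finset (Fin n)))).card : ℝ)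
  set Nn : ℝ := (n.choose r : ℝ) with hNn
  have hN0 : AN.N0 n = n.choose r := by
    unfold AN.N0
    have : n - n / 2 = r := by omega
    rw [← this, Nat.choose_symm (by omega)]
  have hn0 : (0 : ℝ) < n := by exact_mod_cast (by omega : 0 < n)
  have hn100 : (100 : ℝ) ≤ n := by exact_mod_cast hn
  have hP : (0 : ℝ) < 2 ^ (n ^ 2 + n + 2) := by positivity
  have e1 : I * 2 ^ (n ^ 2 + n + 2) ≤ 2 ^ (AN.Kn n) :=
    le_trans (mul_le_mul_of_nonneg_right hI' hP.le) h1
  have e2 : I * 16 ≤ 2 ^ (AN.Kn n) := by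
    refine le_trans (mul_le_mul_of_nonneg_left ?_ (by positivity)) e1
    calc (16 : ℝ) = 2 ^ 4 := by norm_num
      _ ≤ 2 ^ (n ^ 2 + n + 2) := pow_le_pow_right₀ (by norm_num) (by nlinarith)
  have hS : (S n r : ℝ) ≤ 2 * ((BF n r).card : ℝ) := by
    have h3 : 1 ≤ ((BF n r).card : ℝ) := by
      have h8 := A.B6.st_le_BF (n := n) (r := r) (by omega) (by omega)
      have h9 := A.B1.st_lower (n := n) (by omega) (powersetCard r (univ : Finset (Fin n)))
      have h10 : (1 : ℝ) ≤ (2 : ℝ) ^ (((powersetCard r (univ : Finset (Fin n))).card : ℝ) / n) :=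
        Real.one_le_rpow (by norm_num) (by positivity)
      have h11 : ((A.St (powersetCard r (univ : Finset (Fin n)))).card : ℝ) ≤ (BF n r).card := by
        exact_mod_cast h8
      linarith
    have : (S n r : ℝ) = ((BF n r).card : ℝ) + 1 := by unfold S; push_cast; ring
    linarith
  have hKn : ((AN.Kn n : ℕ) : ℝ) ≤ Nn / n / 5 := by
    have h3 : AN.Kn n ≤ n.choose r / (n * 5) := by
      unfold AN.Kn
      rw [hN0]
      apply Nat.div_le_div_left _ (by omega)
      apply Nat.mul_le_mul_left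
      rw [Nat.le_sqrt]
      omega
    have h4 : ((AN.Kn n : ℕ) : ℝ) ≤ ((n.choose r / (n * 5) : ℕ) : ℝ) := by exact_mod_cast h3
    refine h4.trans (Nat.cast_div_le.trans (le_of_eq ?_))
    push_cast
    rw [div_div]
  have hSt : St' ≤ (2 : ℝ) ^ ((12 : ℝ) / 5 * (Nn / n)) * 2 := by
    refine h2.trans ?_
    have e : (2 : ℝ) ^ ((12 : ℝ) / 5 * (Nn / n)) * 2 = (2 : ℝ) ^ ((12 : ℝ) / 5 * (Nn / n) + 1) := by
      rw [Real.rpow_add (by norm_num), Real.rpow_one]
    rw [e]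
    apply Real.rpow_le_rpow_of_exponent_le (by norm_num)
    push_cast
    have : (3 : ℝ) / 5 * ((4 * Nn + 1) / n) = (12 : ℝ) / 5 * (Nn / n) + 3 / 5 * (1 / n) := by ring
    rw [this]
    have h5 : 1 / (n : ℝ) ≤ 1 := by
      rw [div_le_one hn0]; linarith
    linarith
  have hSt0 : 0 ≤ St' := by positivity
  calc (S n r : ℝ) ≤ 2 * (I * St') := by linarith
    _ ≤ 2 * (I * ((2 : ℝ) ^ ((12 : ℝ) / 5 * (Nn / n)) * 2)) := by gcongr
    _ ≤ (I * 16) * (2 : ℝ) ^ ((12 : ℝ) / 5 * (Nn / n)) := by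
        have : 0 ≤ I * (2 : ℝ) ^ ((12 : ℝ) / 5 * (Nn / n)) := by positivity
        nlinarith
    _ ≤ 2 ^ (AN.Kn n) * (2 : ℝ) ^ ((12 : ℝ) / 5 * (Nn / n)) := by gcongr
    _ = (2 : ℝ) ^ (((AN.Kn n : ℕ) : ℝ) + (12 : ℝ) / 5 * (Nn / n)) := by
        rw [Real.rpow_add (by norm_num), Real.rpow_natCast]
    _ ≤ (2 : ℝ) ^ (3 * (Nn / n)) := by
        apply Real.rpow_le_rpow_of_exponent_le (by norm_num)
        have : 0 ≤ Nn / n := by positivity
        linarith

/-- two-sided control of `b` -/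
theorem b_two : ∃ C1 : ℝ, (∀ n : ℕ, 1 ≤ n → b n ≤ Real.log n + C1) ∧
    (∀ n : ℕ, 1 ≤ n → Real.log n - C1 ≤ b n) := by
  obtain ⟨C, hC⟩ := b_upper
  obtain ⟨n0, hn0⟩ := S_upper
  set D : ℝ := Real.log (3 * Real.log 2) with hD
  set E : ℝ := Real.log (n0 + 1 : ℕ) - b 1 with hE
  refine ⟨max C (max D E), fun n hn => (hC n hn).trans (by
    have := le_max_left C (max D E); linarith), fun n hn => ?_⟩
  have hDm : D ≤ max C (max D E) := (le_max_left _ _).trans (le_max_right _ _)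
  have hEm : E ≤ max C (max D E) := (le_max_right _ _).trans (le_max_right _ _)
  have hnR : (0 : ℝ) < n := by exact_mod_cast hn
  rcases Nat.lt_or_ge n n0 with h | h
  · have h1 := b_mono 1 n hn
    have h2 : Real.log n ≤ Real.log (n0 + 1 : ℕ) :=
      Real.log_le_log hnR (by exact_mod_cast (by omega : n ≤ n0 + 1))
    rw [hE] at hEm
    linarith
  · have h1 := hn0 n h
    have hS : (0 : ℝ) < (S n ((n + 1) / 2) : ℝ) := by unfold S; positivity
    have h2 := Real.log_le_log hS h1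
    rw [Real.log_rpow (by norm_num), log_S_mid] at h2
    have hC' := choose_pos' n
    have e : 3 * ((n.choose ((n + 1) / 2) : ℝ) / n) * Real.log 2 =
        (n.choose ((n + 1) / 2) : ℝ) * (3 * Real.log 2 / n) := by ring
    rw [e] at h2
    have h3 : a n ≤ 3 * Real.log 2 / n := le_of_mul_le_mul_left h2 hC'
    have h4 := Real.log_le_log (a_pos n) h3
    have hl2 : 0 < Real.log 2 := Real.log_pos (by norm_num)
    rw [Real.log_div (by positivity) hnR.ne'] at h4
    unfold b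
    linarith

end Pool.Agent.Helper46.R
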