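import Mathlib

set_option autoImplicit false

namespace Pool.Agent.Helper46.R.U1

open Finset

open Classical in
theorem rrecords_core (b : ℕ → ℝ) (hmono : ∀ m n, 1 ≤ m → m ≤ n → b m ≤ b n) (C : ℝ)
    (hub : ∀ n : ℕ, 1 ≤ n → b n ≤ Real.log n + C) (lam : ℝ) (hl : 1 < lam) (N : ℕ) (hN : 1 ≤ N)
    (rec : ℕ → Prop)
    (hrec : ∀ n : ℕ, ¬ rec n → ∃ m : ℕ, n < m ∧ m ≤ 2 * n ∧
      lam * (Real.log m - Real.log n) ≤ b m - b n) (j : ℕ) (hj : j ≤ N) :
    ∀ m : ℕ, N + 1 - j ≤ m → m ≤ 2 * N → b m - lam * Real.log m ≤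
      C - (lam - 1) * Real.log N + ∑ n ∈ Icc (N + 1 - j) N, if rec n then lam / (n : ℝ) else 0 := by
  induction j with
  | zero =>
    intro m hm hm2
    have e : Icc (N + 1 - 0) N = ∅ := by
      rw [Finset.Icc_eq_empty]; omega
    rw [e, Finset.sum_empty, add_zero]
    have h1 := hub m (by omega)
    have h2 : Real.log N ≤ Real.log m := by
      apply Real.log_le_log
      · exact_mod_cast hN
      · exact_mod_cast (show N ≤ m by omega)
    nlinarith
  | succ j ih =>
    have ih := ih (by omega)
    set k := N + 1 - (j + 1) with hk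
    have hk1 : N + 1 - j = k + 1 := by omega
    rw [hk1] at ih
    have hkpos : 1 ≤ k := by omega
    have hkN : k ≤ N := by omega
    have e : Icc k N = insert k (Icc (k + 1) N) := by
      ext x
      simp only [Finset.mem_Icc, Finset.mem_insert]
      omega
    have hnot : k ∉ Icc (k + 1) N := by
      simp
    rw [e, Finset.sum_insert hnot]
    have hk0 : (0:ℝ) < k := by exact_mod_cast hkpos
    have hnn : (0:ℝ) ≤ if rec k then lam / (k : ℝ) else 0 := by
      split_ifs
      · positivity
      · exact le_rfl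
    intro m hm hm2
    rcases Nat.eq_or_lt_of_le hm with h | h
    · subst h
      by_cases hr : rec k
      · rw [if_pos hr]
        have h1 := ih (k + 1) le_rfl (by omega)
        have h2 := hmono k (k + 1) hkpos (by omega)
        have h3 : Real.log ((k + 1 : ℕ) : ℝ) - Real.log k ≤ 1 / k := by
          have h4 : (0:ℝ) < ((k + 1 : ℕ) : ℝ) := by positivity
          rw [← Real.log_div h4.ne' hk0.ne']
          refine (Real.log_le_sub_one_of_pos (by positivity)).trans (le_of_eq ?_)
          push_cast
          field_simp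
          ring
        have h5 : lam * (Real.log ((k + 1 : ℕ) : ℝ) - Real.log k) ≤ lam / k := by
          have := mul_le_mul_of_nonneg_left h3 (by linarith : (0:ℝ) ≤ lam)
          refine this.trans (le_of_eq ?_)
          ring
        linarith
      · obtain ⟨m', h1, h2, h3⟩ := hrec k hr
        have h4 := ih m' h1 (by omega)
        linarith
    · have h4 := ih m h hm2
      linarith

open Classical in
/-- right records: an almost logarithmic nondecreasing function has many `n` from which it grows by
less than `lam` times the logarithm up to every later `m ≤ 2 n`. -/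
theorem rrecords (b : ℕ → ℝ) (hmono : ∀ m n, 1 ≤ m → m ≤ n → b m ≤ b n) (C : ℝ)
    (hub : ∀ n : ℕ, 1 ≤ n → b n ≤ Real.log n + C) (lam : ℝ) (hl : 1 < lam) :
    ∃ C' : ℝ, ∀ N : ℕ, 1 ≤ N →
      (1 - 1 / lam) * Real.log N - C' ≤
        ∑ n ∈ (Icc 1 N).filter (fun n : ℕ => ∀ m : ℕ, n < m → m ≤ 2 * n →
          b m - b n < lam * (Real.log m - Real.log n)), (1 : ℝ) / n := by
  refine ⟨(C - b 1) / lam, fun N hN => ?_⟩
  have key := rrecords_core b hmono C hub lam hl N hN
    (fun n : ℕ => ∀ m : ℕ, n < m → m ≤ 2 * n → b m - b n < lam * (Real.log m - Real.log n))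
    (fun n hn => by
      push Not at hn
      exact hn) N le_rfl 1 (by omega) (by omega)
  have e : N + 1 - N = 1 := by omega
  rw [e, ← Finset.sum_filter] at key
  have hl0 : 0 < lam := by linarith
  have e2 : ∀ s : Finset ℕ, ∑ n ∈ s, lam / (n : ℝ) = lam * ∑ n ∈ s, (1 : ℝ) / n := by
    intro s
    rw [Finset.mul_sum]
    refine Finset.sum_congr rfl fun n _ => ?_
    ring
  rw [e2] at key
  rw [Nat.cast_one, Real.log_one, mul_zero, sub_zero] at key
  have e3 : (1 - 1 / lam) * Real.log N - (C - b 1) / lam =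
      ((lam - 1) * Real.log N - (C - b 1)) / lam := by
    field_simp
  rw [e3, div_le_iff₀ hl0]
  linarith

end Pool.Agent.Helper46.R.U1
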