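import Mathlib

set_option autoImplicit false

namespace Pool.Agent.Helper46.R.U3a

open Finset

theorem choose_prod_fac (r j : ℕ) : (∏ i ∈ range j, ((r : ℝ) + i + 1)) * (r.factorial : ℝ) = ((r + j).factorial : ℝ) := by
  induction j with
  | zero => simp
  | succ j ih =>
    rw [prod_range_succ, mul_right_comm, ih, ← add_assoc, Nat.factorial_succ]
    push_cast; ring

theorem choose_prod (r y J j : ℕ) (hJ : J ≤ j) (hr : y + j ≤ r) :
    ((r + j + y).choose (r + j) : ℝ) *
      ∏ i ∈ range J, (((r : ℝ) + i + 1) / ((y : ℝ) + i + 1)) ≤ ((r + j + y).choose r : ℝ) := by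
  have hyr' : (y:ℝ) ≤ r := by exact_mod_cast (by omega : y ≤ r)
  have h1 : ∏ i ∈ range J, (((r : ℝ) + i + 1) / ((y : ℝ) + i + 1)) ≤ ∏ i ∈ range j, (((r : ℝ) + i + 1) / ((y : ℝ) + i + 1)) := by
    clear hr
    have hyr : (y:ℝ) ≤ r := hyr'
    induction j, hJ using Nat.le_induction with
    | base => exact le_rfl
    | succ k hk ih =>
      rw [prod_range_succ]
      refine ih.trans ?_
      apply le_mul_of_one_le_right
      · apply prod_nonneg; intro i _; positivity
      · rw [le_div_iff₀ (by positivity)]
        linarith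
  refine (mul_le_mul_of_nonneg_left h1 (by positivity)).trans (le_of_eq ?_)
  rw [Finset.prod_div_distrib]
  have e1 := choose_prod_fac r j
  have e2 := choose_prod_fac y j
  have c1 : ((r + j + y).choose (r + j) : ℝ) * ((r+j).factorial : ℝ) * (y.factorial : ℝ) = ((r+j+y).factorial : ℝ) := by
    have := Nat.choose_mul_factorial_mul_factorial (show r + j ≤ r + j + y by omega)
    have e : r + j + y - (r + j) = y := by omega
    rw [e] at this
    exact_mod_cast this
  have c2 : ((r + j + y).choose r : ℝ) * (r.factorial : ℝ) * ((y+j).factorial : ℝ) = ((r+j+y).factorial : ℝ) := by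
    have := Nat.choose_mul_factorial_mul_factorial (show r ≤ r + j + y by omega)
    have e : r + j + y - r = y + j := by omega
    rw [e] at this
    exact_mod_cast this
  have hy : 0 < (∏ i ∈ range j, ((y : ℝ) + i + 1)) := by
    apply prod_pos; intro i _; positivity
  have hr0 : (0:ℝ) < (r.factorial : ℝ) := by exact_mod_cast r.factorial_pos
  have hy0 : (0:ℝ) < (y.factorial : ℝ) := by exact_mod_cast y.factorial_pos
  rw [mul_div_assoc', div_eq_iff hy.ne']
  rw [← e1] at c1
  rw [← e2] at c2
  have h3 : (r.factorial : ℝ) * (y.factorial : ℝ) ≠ 0 := by positivity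
  apply mul_right_cancel₀ h3
  linear_combination c1 - c2

end Pool.Agent.Helper46.R.U3a
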