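import Mathlib

set_option autoImplicit false

namespace Pool.Agent.Helper46.R.U3b

open Finset

theorem prod_lower_large (J : ℕ) (lam R Y : ℝ) (h0 : 0 < lam) (h1 : lam < J) (hY0 : 0 ≤ Y)
    (hJ : (1 : ℝ) ≤ J) (hYR : Y + J ≤ R) (hJR : (J : ℝ) ≤ R) (hR1 : 1 ≤ R)
    (hdR : 8 ≤ (J - lam) * R) (hYl : lam * (2 * J) ≤ (J - lam) / 2 * (2 * Y + 1)) :
    (1 + 2 / R ^ 2) * ((2 * R) / (2 * Y + 1)) ^ lam ≤ ((R + J) / (Y + J)) ^ J := by
  have hRpos : 0 < R := by linarith
  have hd : 0 < (J : ℝ) - lam := by linarith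
  have hYJ : 0 < Y + J := by linarith
  have hRJ : 0 < R + J := by linarith
  have h2Y : 0 < 2 * Y + 1 := by linarith
  set x : ℝ := (2 * R) / (2 * Y + 1) with hx
  set A : ℝ := (R + J) / (Y + J) with hA
  have hxpos : 0 < x := by positivity
  have hApos : 0 < A := by positivity
  have hlogx : Real.log x ≤ Real.log A + (x / A - 1) := by
    have := Real.log_le_sub_one_of_pos (show 0 < x / A by positivity)
    rw [Real.log_div hxpos.ne' hApos.ne'] at this
    linarith
  set q : ℝ := (R - Y) / (R + J) with hq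
  have hq0 : 0 ≤ q := by
    apply div_nonneg _ hRJ.le
    linarith
  have hxA : x / A - 1 ≤ (2 * J / (2 * Y + 1)) * q := by
    have e : x / A - 1 = (2 * R * (Y + J) - (2 * Y + 1) * (R + J)) / ((2 * Y + 1) * (R + J)) := by
      rw [hx, hA]
      field_simp
    have e2 : (2 * J / (2 * Y + 1)) * q = (2 * J * (R - Y)) / ((2 * Y + 1) * (R + J)) := by
      rw [hq]
      field_simp
    rw [e, e2]
    apply div_le_div_of_nonneg_right _ (by positivity)
    nlinarith
  have hlogA : q ≤ Real.log A := by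
    have := Real.one_sub_inv_le_log_of_pos hApos
    have e : 1 - A⁻¹ = q := by
      rw [hA, hq]
      field_simp
      ring
    rw [← e]
    exact this
  have hl : lam * (2 * J / (2 * Y + 1)) ≤ (J - lam) / 2 := by
    rw [← mul_div_assoc, div_le_iff₀ h2Y]
    exact hYl
  have hq1 : 1 / (2 * R) ≤ q := by
    rw [hq, div_le_div_iff₀ (by positivity) hRJ]
    nlinarith
  have h2R : 2 / R ^ 2 ≤ (J - lam) / 2 * q := by
    have e1 : (J - lam) / 2 * (1 / (2 * R)) ≤ (J - lam) / 2 * q :=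
      mul_le_mul_of_nonneg_left hq1 (by linarith)
    refine le_trans ?_ e1
    have e3 : (J - lam) / 2 * (1 / (2 * R)) = ((J - lam) * R) / (4 * R ^ 2) := by
      field_simp
      ring
    rw [e3, div_le_div_iff₀ (by positivity) (by positivity)]
    nlinarith [sq_nonneg R, mul_le_mul_of_nonneg_right hdR (sq_nonneg R)]
  have hmain : 2 / R ^ 2 + Real.log x * lam ≤ J * Real.log A := by
    have e1 : Real.log x * lam ≤ (Real.log A + (2 * J / (2 * Y + 1)) * q) * lam :=
      mul_le_mul_of_nonneg_right (by linarith) h0.le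
    have e2 : lam * (2 * J / (2 * Y + 1)) * q ≤ (J - lam) / 2 * q :=
      mul_le_mul_of_nonneg_right hl hq0
    have e3 : (J - lam) * q ≤ (J - lam) * Real.log A := mul_le_mul_of_nonneg_left hlogA hd.le
    nlinarith
  have hexp1 : 1 + 2 / R ^ 2 ≤ Real.exp (2 / R ^ 2) := by
    have := Real.add_one_le_exp (2 / R ^ 2)
    linarith
  have hAJ : A ^ J = Real.exp (J * Real.log A) := by
    rw [Real.exp_nat_mul, Real.exp_log hApos]
  rw [Real.rpow_def_of_pos hxpos, hAJ]
  calc (1 + 2 / R ^ 2) * Real.exp (Real.log x * lam)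
      ≤ Real.exp (2 / R ^ 2) * Real.exp (Real.log x * lam) :=
        mul_le_mul_of_nonneg_right hexp1 (Real.exp_pos _).le
    _ = Real.exp (2 / R ^ 2 + Real.log x * lam) := (Real.exp_add _ _).symm
    _ ≤ Real.exp (J * Real.log A) := Real.exp_le_exp.mpr hmain

theorem prod_lower (J : ℕ) (lam : ℝ) (h0 : 0 < lam) (h1 : lam < J) :
    ∃ r0 : ℕ, ∀ r y : ℕ, r0 ≤ r → y + J ≤ r →
      (1 + 2 / (r : ℝ) ^ 2) * ((2 * (r : ℝ)) / (2 * y + 1)) ^ lam ≤
        ∏ i ∈ range J, (((r : ℝ) + i + 1) / ((y : ℝ) + i + 1)) := by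
  have hd : 0 < (J : ℝ) - lam := by linarith
  have hJpos : 0 < J := by
    rcases Nat.eq_zero_or_pos J with h | h
    · subst h
      simp at h1
      linarith
    · exact h
  have hJ1 : (1 : ℝ) ≤ J := by exact_mod_cast hJpos
  set Y0 : ℕ := ⌈2 * (lam * J) / (J - lam)⌉₊ with hY0
  have hY0' : 2 * (lam * J) / (J - lam) ≤ Y0 := Nat.le_ceil _
  rw [div_le_iff₀ hd] at hY0'
  set C : ℝ := 3 * 2 ^ lam * ((Y0 : ℝ) + J) ^ J with hC
  have htend : Filter.Tendsto (fun r : ℕ => (r : ℝ) ^ ((J : ℝ) - lam)) Filter.atTop Filter.atTop :=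
    (tendsto_rpow_atTop hd).comp tendsto_natCast_atTop_atTop
  obtain ⟨r1, hr1⟩ := Filter.eventually_atTop.mp (htend.eventually_ge_atTop C)
  refine ⟨max (max J ⌈8 / ((J : ℝ) - lam)⌉₊) (max r1 1), fun r y hr hyr => ?_⟩
  have hrJ : J ≤ r := le_trans (le_trans (le_max_left _ _) (le_max_left _ _)) hr
  have hr8 : ⌈8 / ((J : ℝ) - lam)⌉₊ ≤ r := le_trans (le_trans (le_max_right _ _) (le_max_left _ _)) hr
  have hrr1 : r1 ≤ r := le_trans (le_trans (le_max_left _ _) (le_max_right _ _)) hr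
  have hrone : 1 ≤ r := le_trans (le_trans (le_max_right _ _) (le_max_right _ _)) hr
  have hRJ : (J : ℝ) ≤ r := by exact_mod_cast hrJ
  have hR1 : (1 : ℝ) ≤ r := by exact_mod_cast hrone
  have hRpos : (0 : ℝ) < r := by linarith
  have hyR : (y : ℝ) + J ≤ r := by exact_mod_cast hyr
  have hy0 : (0 : ℝ) ≤ y := Nat.cast_nonneg y
  have hdR : 8 ≤ ((J : ℝ) - lam) * r := by
    have : 8 / ((J : ℝ) - lam) ≤ r := (Nat.le_ceil _).trans (by exact_mod_cast hr8)
    rw [div_le_iff₀ hd] at this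
    linarith
  rcases le_or_gt Y0 y with hy | hy
  · have hyY : (Y0 : ℝ) ≤ y := by exact_mod_cast hy
    have hYl : lam * (2 * J) ≤ (J - lam) / 2 * (2 * (y : ℝ) + 1) := by nlinarith
    refine (prod_lower_large J lam r y h0 h1 hy0 hJ1 hyR hRJ hR1 hdR hYl).trans ?_
    have e : (((r : ℝ) + J) / (y + J)) ^ J = ∏ _i ∈ range J, (((r : ℝ) + J) / (y + J)) := by
      rw [prod_const, card_range]
    rw [e]
    apply prod_le_prod
    · intro i _
      positivity
    · intro i hi
      rw [mem_range] at hi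
      have hi' : (i : ℝ) + 1 ≤ J := by exact_mod_cast hi
      rw [div_le_div_iff₀ (by positivity) (by positivity)]
      nlinarith
  · have hyY : (y : ℝ) ≤ Y0 := by exact_mod_cast hy.le
    have hprod : ((r : ℝ) / (Y0 + J)) ^ J ≤ ∏ i ∈ range J, (((r : ℝ) + i + 1) / ((y : ℝ) + i + 1)) := by
      have e : ((r : ℝ) / (Y0 + J)) ^ J = ∏ _i ∈ range J, ((r : ℝ) / (Y0 + J)) := by
        rw [prod_const, card_range]
      rw [e]
      apply prod_le_prod
      · intro i _
        positivity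
      · intro i hi
        rw [mem_range] at hi
        have hi' : (i : ℝ) + 1 ≤ J := by exact_mod_cast hi
        have hi0 : (0 : ℝ) ≤ i := Nat.cast_nonneg i
        apply div_le_div₀ (by positivity) (by linarith) (by positivity) (by linarith)
    refine le_trans ?_ hprod
    have h3 : (1 + 2 / (r : ℝ) ^ 2) ≤ 3 := by
      have : 2 / (r : ℝ) ^ 2 ≤ 2 := by
        rw [div_le_iff₀ (by positivity)]
        nlinarith
      linarith
    have h4 : ((2 * (r : ℝ)) / (2 * y + 1)) ^ lam ≤ (2 * (r : ℝ)) ^ lam := by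
      apply Real.rpow_le_rpow (by positivity) _ h0.le
      apply div_le_self (by positivity)
      linarith
    have h5 : C ≤ (r : ℝ) ^ ((J : ℝ) - lam) := hr1 r hrr1
    calc (1 + 2 / (r : ℝ) ^ 2) * ((2 * (r : ℝ)) / (2 * y + 1)) ^ lam
        ≤ 3 * (2 * (r : ℝ)) ^ lam := by
          apply mul_le_mul h3 h4 (by positivity) (by norm_num)
      _ = (3 * 2 ^ lam) * (r : ℝ) ^ lam := by
          rw [Real.mul_rpow (by norm_num) hRpos.le]
          ring
      _ ≤ ((r : ℝ) / (Y0 + J)) ^ J := by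
          rw [div_pow, le_div_iff₀ (by positivity)]
          have e : (r : ℝ) ^ J = (r : ℝ) ^ ((J : ℝ) - lam) * (r : ℝ) ^ lam := by
            rw [← Real.rpow_add hRpos, sub_add_cancel, Real.rpow_natCast]
          rw [e]
          have h6 : C * (r : ℝ) ^ lam ≤ (r : ℝ) ^ ((J : ℝ) - lam) * (r : ℝ) ^ lam :=
            mul_le_mul_of_nonneg_right h5 (by positivity)
          refine le_trans (le_of_eq ?_) h6
          rw [hC]
          ring

end Pool.Agent.Helper46.R.U3b
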