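import Mathlib

set_option autoImplicit false

namespace Pool.Agent.Helper46.R.U4

open Finset

theorem numtail5_ch (n t : ℕ) (ht : 5 ≤ t) : 2 * t ≤ n → n.choose 5 ≤ n.choose t := by
  induction t, ht using Nat.le_induction with
  | base => intro _; exact le_rfl
  | succ t ht ih =>
    intro h
    exact (ih (by omega)).trans (Nat.choose_le_succ_of_lt_half_left (by omega))

theorem numtail5 : ∃ n0 : ℕ, ∀ n t : ℕ, n0 ≤ n → 5 ≤ t → 2 * t ≤ n →
    (n : ℝ) ^ 2 * Real.log (2 * (n.factorial : ℝ)) ≤ Real.log 2 * ((n.choose t : ℝ) / n) := by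
  have hl2 : 0 < Real.log 2 := Real.log_pos (by norm_num)
  have hev := Real.isLittleO_log_id_atTop.def (c := Real.log 2 / 7680) (by positivity)
  have hev2 := tendsto_natCast_atTop_atTop (R := ℝ) |>.eventually hev
  obtain ⟨n1, hn1⟩ := Filter.eventually_atTop.mp hev2
  refine ⟨max n1 8, fun n t hn ht h2t => ?_⟩
  have hn8 : 8 ≤ n := le_trans (le_max_right _ _) hn
  have hnn1 : n1 ≤ n := le_trans (le_max_left _ _) hn
  have hlog := hn1 n hnn1
  have hnR : (8:ℝ) ≤ n := by exact_mod_cast hn8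
  have hlogn : 0 ≤ Real.log n := Real.log_nonneg (by linarith)
  simp only [id_eq, Real.norm_eq_abs, abs_of_nonneg hlogn,
    abs_of_nonneg (show (0:ℝ) ≤ n by linarith)] at hlog
  have h1 : Real.log (2 * (n.factorial : ℝ)) ≤ 2 * n * Real.log n := by
    have hf : (n.factorial : ℝ) ≤ (n:ℝ) ^ n := by exact_mod_cast Nat.factorial_le_pow n
    have hf0 : (0:ℝ) < n.factorial := by exact_mod_cast Nat.factorial_pos n
    have h3 : Real.log (n.factorial : ℝ) ≤ n * Real.log n := by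
      rw [← Real.log_pow]
      exact Real.log_le_log hf0 hf
    have h4 : Real.log 2 ≤ Real.log n := Real.log_le_log (by norm_num) (by linarith)
    have h5 : Real.log n ≤ n * Real.log n := by nlinarith
    rw [Real.log_mul (by norm_num) hf0.ne']
    linarith
  have h6 : (n:ℝ) ^ 5 / 3840 ≤ (n.choose t : ℝ) := by
    have h7 : ((n + 1 - 5 : ℕ) : ℝ) ^ 5 ≤ (n.choose 5 : ℝ) * 120 := by
      have := Nat.pow_sub_le_descFactorial n 5
      rw [Nat.descFactorial_eq_factorial_mul_choose] at this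
      have h8 : (n + 1 - 5) ^ 5 ≤ n.choose 5 * 120 := by
        calc (n + 1 - 5) ^ 5 ≤ Nat.factorial 5 * n.choose 5 := this
          _ = n.choose 5 * 120 := by rw [mul_comm]; rfl
      exact_mod_cast h8
    have h9 : (n:ℝ) / 2 ≤ ((n + 1 - 5 : ℕ) : ℝ) := by
      rw [Nat.cast_sub (by omega)]
      push_cast
      linarith
    have h10 : ((n:ℝ) / 2) ^ 5 ≤ ((n + 1 - 5 : ℕ) : ℝ) ^ 5 :=
      pow_le_pow_left₀ (by positivity) h9 5
    have h11 : (n.choose 5 : ℝ) ≤ n.choose t := by exact_mod_cast numtail5_ch n t ht h2t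
    have h12 : ((n:ℝ) / 2) ^ 5 = n ^ 5 / 32 := by ring
    rw [h12] at h10
    linarith
  have hn0 : (0:ℝ) < n := by linarith
  calc (n : ℝ) ^ 2 * Real.log (2 * (n.factorial : ℝ)) ≤ (n:ℝ) ^ 2 * (2 * n * Real.log n) := by
        gcongr
    _ ≤ (n:ℝ) ^ 2 * (2 * n * (Real.log 2 / 7680 * n)) := by gcongr
    _ = Real.log 2 * (((n:ℝ) ^ 5 / 3840) / n) := by field_simp; ring
    _ ≤ Real.log 2 * ((n.choose t : ℝ) / n) := by gcongr

end Pool.Agent.Helper46.R.U4
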