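import Mathlib

set_option autoImplicit false

namespace Pool.Agent.Helper46.R.U5

open Finset

theorem nt_choose3 (n : ℕ) (hn : 12 ≤ n) :
    (n : ℝ) + (n : ℝ) ^ 2 / 24 ≤ (n.choose 3 : ℝ) / n := by
  obtain ⟨m, rfl⟩ : ∃ m, n = m + 3 := ⟨n - 3, by omega⟩
  have h1 := Nat.descFactorial_eq_factorial_mul_choose (m + 3) 3
  have h2 : (m + 3).descFactorial 3 = (m + 1) * ((m + 2) * (m + 3)) := by
    simp [Nat.descFactorial]
  rw [h2] at h1
  have h3 : ((m : ℝ) + 1) * (((m : ℝ) + 2) * ((m : ℝ) + 3)) = 6 * ((m + 3).choose 3 : ℝ) := by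
    have := congrArg (fun x : ℕ => (x : ℝ)) h1
    simp only [Nat.factorial] at this
    push_cast at this
    linarith
  have hm : (9 : ℝ) ≤ m := by
    have : 9 ≤ m := by omega
    exact_mod_cast this
  push_cast
  rw [le_div_iff₀ (by positivity)]
  have h4 : ((m + 3).choose 3 : ℝ) = ((m : ℝ) + 1) * (((m : ℝ) + 2) * ((m : ℝ) + 3)) / 6 := by
    linarith
  rw [h4]
  have h5 : ((m : ℝ) + 3) + ((m : ℝ) + 3) ^ 2 / 24 ≤ ((m : ℝ) + 1) * ((m : ℝ) + 2) / 6 := by
    nlinarith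
  have h6 := mul_le_mul_of_nonneg_right h5 (by positivity : (0 : ℝ) ≤ (m : ℝ) + 3)
  linarith

theorem nt_choose34 (n : ℕ) (hn : 12 ≤ n) : n.choose 3 ≤ n.choose 4 := by
  have h1 := Nat.choose_succ_right_eq n 3
  have h2 : n.choose 3 * 4 ≤ n.choose 3 * (n - 3) := Nat.mul_le_mul_left _ (by omega)
  simp only [Nat.reduceAdd] at h1
  omega

theorem numtail34 : ∃ n0 : ℕ, ∀ n t : ℕ, n0 ≤ n → 3 ≤ t → t ≤ 4 →
    (2 : ℝ) ^ n * (n.factorial : ℝ) ≤ (2 : ℝ) ^ ((n.choose t : ℝ) / n) := by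
  have hlog2 : 0 < Real.log 2 := Real.log_pos (by norm_num)
  have hc : 0 < Real.log 2 / 24 := by positivity
  have hlo : ∀ᶠ x : ℝ in Filter.atTop, ‖Real.log x‖ ≤ Real.log 2 / 24 * ‖x‖ :=
    Real.isLittleO_log_id_atTop.bound hc
  obtain ⟨X, hX⟩ := Filter.eventually_atTop.1 hlo
  refine ⟨max 12 ⌈X⌉₊, ?_⟩
  intro n t hn ht3 ht4
  have hn12 : 12 ≤ n := (le_max_left _ _).trans hn
  have hnX : X ≤ n := (Nat.le_ceil X).trans (by exact_mod_cast (le_max_right _ _).trans hn)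
  have hnR : (12 : ℝ) ≤ n := by exact_mod_cast hn12
  have hlogn : Real.log n ≤ Real.log 2 / 24 * n := by
    have := hX n hnX
    rw [Real.norm_eq_abs, Real.norm_eq_abs, abs_of_nonneg (by positivity : (0 : ℝ) ≤ n)] at this
    exact (le_abs_self _).trans this
  have hch : (n : ℝ) + (n : ℝ) ^ 2 / 24 ≤ (n.choose t : ℝ) / n := by
    have h3 := nt_choose3 n hn12
    interval_cases t
    · exact h3
    · refine h3.trans ?_
      apply div_le_div_of_nonneg_right _ (by positivity)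
      exact_mod_cast nt_choose34 n hn12
  have hfac : Real.log (n.factorial : ℝ) ≤ n * Real.log n := by
    rw [← Real.log_pow]
    apply Real.log_le_log (by exact_mod_cast n.factorial_pos)
    exact_mod_cast Nat.factorial_le_pow n
  have hpos : (0 : ℝ) < (2 : ℝ) ^ n * (n.factorial : ℝ) := by
    have : (0 : ℝ) < n.factorial := by exact_mod_cast n.factorial_pos
    positivity
  rw [← Real.exp_log hpos, Real.rpow_def_of_pos (by norm_num : (0 : ℝ) < 2)]
  apply Real.exp_le_exp.2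
  rw [Real.log_mul (by positivity) (by exact_mod_cast n.factorial_ne_zero), Real.log_pow]
  have h1 : (n : ℝ) * Real.log n ≤ n * (Real.log 2 / 24 * n) :=
    mul_le_mul_of_nonneg_left hlogn (by positivity)
  have h2 := mul_le_mul_of_nonneg_left hch hlog2.le
  have h3 : Real.log 2 * ((n : ℝ) + (n : ℝ) ^ 2 / 24)
      = n * Real.log 2 + n * (Real.log 2 / 24 * n) := by ring
  linarith

end Pool.Agent.Helper46.R.U5
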