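import Pool.Agent.Helper46.R.Welsh2
import Pool.Agent.Helper46.R.U1
import Pool.Agent.Helper46.R.U3a
import Pool.Agent.Helper46.R.U3b
import Pool.Agent.Helper46.R.U4
import Pool.Agent.Helper46.R.U5

set_option autoImplicit false

namespace Pool.Agent.Helper46.R

open Finset Filter

open Classical in
theorem rrecords (b : ℕ → ℝ) (hmono : ∀ m n, 1 ≤ m → m ≤ n → b m ≤ b n) (C : ℝ)
    (hub : ∀ n : ℕ, 1 ≤ n → b n ≤ Real.log n + C) (lam : ℝ) (hl : 1 < lam) :
    ∃ C' : ℝ, ∀ N : ℕ, 1 ≤ N →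
      (1 - 1 / lam) * Real.log N - C' ≤
        ∑ n ∈ (Icc 1 N).filter (fun n : ℕ => ∀ m : ℕ, n < m → m ≤ 2 * n →
          b m - b n < lam * (Real.log m - Real.log n)), (1 : ℝ) / n :=
  U1.rrecords b hmono C hub lam hl

theorem choose_prod (r y J j : ℕ) (hJ : J ≤ j) (hr : y + j ≤ r) :
    ((r + j + y).choose (r + j) : ℝ) *
      ∏ i ∈ range J, (((r : ℝ) + i + 1) / ((y : ℝ) + i + 1)) ≤ ((r + j + y).choose r : ℝ) :=
  U3a.choose_prod r y J j hJ hr

theorem prod_lower (J : ℕ) (lam : ℝ) (h0 : 0 < lam) (h1 : lam < J) :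
    ∃ r0 : ℕ, ∀ r y : ℕ, r0 ≤ r → y + J ≤ r →
      (1 + 2 / (r : ℝ) ^ 2) * ((2 * (r : ℝ)) / (2 * y + 1)) ^ lam ≤
        ∏ i ∈ range J, (((r : ℝ) + i + 1) / ((y : ℝ) + i + 1)) :=
  U3b.prod_lower J lam h0 h1

theorem numtail5 : ∃ n0 : ℕ, ∀ n t : ℕ, n0 ≤ n → 5 ≤ t → 2 * t ≤ n →
    (n : ℝ) ^ 2 * Real.log (2 * (n.factorial : ℝ)) ≤ Real.log 2 * ((n.choose t : ℝ) / n) :=
  U4.numtail5

theorem S_lower' {n r : ℕ} (h0 : 0 < r) (hr : r < n) :
    (2 : ℝ) ^ ((n.choose r : ℝ) / n) ≤ (S n r : ℝ) := by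
  have h := A.B1.st_lower (n := n) (by omega) (powersetCard r (univ : Finset (Fin n)))
  rw [card_powersetCard, card_univ, Fintype.card_fin] at h
  refine h.trans ?_
  have h2 := A.B6.st_le_BF (n := n) (r := r) h0 hr
  unfold S
  have h3 : ((A.St (powersetCard r (univ : Finset (Fin n)))).card : ℝ) ≤ (BF n r).card := by
    exact_mod_cast h2
  push_cast
  linarith

theorem phi_ge_a (n r : ℕ) (h1 : n ≤ 2 * r) (h2 : r ≤ n) : a (2 * r) ≤ phi n r := by
  have h : ∀ d : ℕ, phi (n + d) r ≤ phi n r := by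
    intro d
    induction d with
    | zero => exact le_refl _
    | succ d ih => exact (phi_del (n + d) r (by omega)).trans ih
  have e : a (2 * r) = phi (n + (2 * r - n)) r := by
    unfold a
    have e1 : n + (2 * r - n) = 2 * r := by omega
    have e2 : (2 * r + 1) / 2 = r := by omega
    rw [e1, e2]
  rw [e]
  exact h _

theorem a_slope {m1 m2 : ℕ} {lam : ℝ} (h1 : 1 ≤ m1) (h2 : 1 ≤ m2)
    (h : b m2 - b m1 < lam * (Real.log m2 - Real.log m1)) :
    a m1 ≤ ((m2 : ℝ) / (m1 : ℝ)) ^ lam * a m2 := by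
  have hm1 : (0 : ℝ) < m1 := by exact_mod_cast h1
  have hm2 : (0 : ℝ) < m2 := by exact_mod_cast h2
  have h3 : Real.log (a m1) ≤ Real.log (((m2 : ℝ) / (m1 : ℝ)) ^ lam * a m2) := by
    rw [Real.log_mul (by positivity) (a_pos m2).ne', Real.log_rpow (by positivity),
      Real.log_div hm2.ne' hm1.ne']
    unfold b at h
    linarith
  exact (Real.log_le_log_iff (a_pos m1) (mul_pos (by positivity) (a_pos m2))).1 h3

theorem log_S {n r : ℕ} (h : r ≤ n) : Real.log (S n r) = (n.choose r : ℝ) * phi n r := by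
  unfold phi
  rw [mul_div_cancel₀]
  have : (0 : ℝ) < (n.choose r : ℝ) := by exact_mod_cast Nat.choose_pos h
  exact this.ne'

/-- two-sided records: the logarithms of the counts grow towards the middle -/
theorem lag_log {J : ℕ} {lam : ℝ} (hJ : 1 ≤ J) (h0 : 0 < lam) {r0 : ℕ}
    (H : ∀ r y : ℕ, r0 ≤ r → y + J ≤ r →
      (1 + 2 / (r : ℝ) ^ 2) * ((2 * (r : ℝ)) / (2 * y + 1)) ^ lam ≤
        ∏ i ∈ range J, (((r : ℝ) + i + 1) / ((y : ℝ) + i + 1)))
    {n r j : ℕ} (hrec : ∀ m : ℕ, 1 ≤ m → m < n → b n - b m < lam * (Real.log n - Real.log m))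
    (hrec' : ∀ m : ℕ, n < m → m ≤ 2 * n → b m - b n < lam * (Real.log m - Real.log n))
    (hr0 : r0 ≤ r) (hr2 : 2 ≤ r) (hn : n ≤ 2 * r) (hj : J ≤ j) (hrj : r + j ≤ n) :
    Real.log (S n (r + j)) ≤ (1 - 1 / (n : ℝ) ^ 2) * Real.log (S n r) := by
  obtain ⟨y, rfl⟩ : ∃ y, n = r + j + y := ⟨n - (r + j), by omega⟩
  have hrR : (0 : ℝ) < r := by exact_mod_cast (by omega : 0 < r)
  have hr2R : (2 : ℝ) ≤ r := by exact_mod_cast hr2
  have h1 := phi_le_a (r + j + y) (r + j) (by omega) (by omega)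
  have e1 : 2 * (r + j + y - (r + j)) + 1 = 2 * y + 1 := by omega
  rw [e1] at h1
  have h2 := phi_ge_a (r + j + y) r hn (by omega)
  have h3 := hrec (2 * y + 1) (by omega) (by omega)
  have h4 : b (2 * r) - b (2 * y + 1) <
      lam * (Real.log ((2 * r : ℕ) : ℝ) - Real.log ((2 * y + 1 : ℕ) : ℝ)) := by
    rcases Nat.lt_or_ge (r + j + y) (2 * r) with h | h
    · have h5 := hrec' (2 * r) h (by omega)
      linarith
    · have e : r + j + y = 2 * r := by omega
      rw [e] at h3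
      exact h3
  have h5 := a_slope (by omega) (by omega) h4
  have h6 := H r y hr0 (by omega)
  have h7 := choose_prod r y J j hj (by omega)
  have e2 : (((2 * r : ℕ) : ℝ) / ((2 * y + 1 : ℕ) : ℝ)) = (2 * (r : ℝ)) / (2 * y + 1) := by
    push_cast
    ring
  rw [e2] at h5
  set x : ℝ := ((2 * (r : ℝ)) / (2 * y + 1)) ^ lam with hx
  have hx0 : 0 < x := by rw [hx]; positivity
  have hC1 : (0 : ℝ) < ((r + j + y).choose (r + j) : ℝ) := by
    exact_mod_cast Nat.choose_pos (by omega)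
  have hC2 : (0 : ℝ) < ((r + j + y).choose r : ℝ) := by
    exact_mod_cast Nat.choose_pos (by omega)
  set n' : ℝ := ((r + j + y : ℕ) : ℝ) with hn'
  have hn'r : (r : ℝ) ≤ n' := by rw [hn']; exact_mod_cast (by omega : r ≤ r + j + y)
  have h8 : ((r + j + y).choose (r + j) : ℝ) * x ≤ (1 - 1 / n' ^ 2) * ((r + j + y).choose r : ℝ) := by
    have h9 : ((r + j + y).choose (r + j) : ℝ) * ((1 + 2 / (r : ℝ) ^ 2) * x) ≤
        ((r + j + y).choose r : ℝ) :=
      (mul_le_mul_of_nonneg_left h6 hC1.le).trans h7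
    have h10 : 1 / n' ^ 2 ≤ 1 / (r : ℝ) ^ 2 := by
      apply one_div_le_one_div_of_le (by positivity)
      gcongr
    have h11 : 1 ≤ (1 - 1 / n' ^ 2) * (1 + 2 / (r : ℝ) ^ 2) := by
      set s : ℝ := 1 / (r : ℝ) ^ 2 with hs
      have hs0 : 0 < s := by rw [hs]; positivity
      have hs1 : s ≤ 1 / 4 := by
        rw [hs]
        apply one_div_le_one_div_of_le (by norm_num)
        nlinarith
      have e3 : 2 / (r : ℝ) ^ 2 = 2 * s := by rw [hs]; ring
      rw [e3]
      have : (1 - s) * (1 + 2 * s) ≤ (1 - 1 / n' ^ 2) * (1 + 2 * s) := by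
        gcongr
      nlinarith
    have h12 : 0 ≤ 1 - 1 / n' ^ 2 := by
      have : 1 / (r : ℝ) ^ 2 ≤ 1 := by
        rw [div_le_one (by positivity)]
        nlinarith
      linarith
    calc ((r + j + y).choose (r + j) : ℝ) * x
        ≤ ((r + j + y).choose (r + j) : ℝ) * x * ((1 - 1 / n' ^ 2) * (1 + 2 / (r : ℝ) ^ 2)) := by
          exact le_mul_of_one_le_right (by positivity) h11
      _ = (1 - 1 / n' ^ 2) * (((r + j + y).choose (r + j) : ℝ) * ((1 + 2 / (r : ℝ) ^ 2) * x)) := by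
          ring
      _ ≤ _ := mul_le_mul_of_nonneg_left h9 h12
  rw [log_S (by omega : r + j ≤ r + j + y), log_S (by omega : r ≤ r + j + y)]
  have h12 : 0 ≤ 1 - 1 / n' ^ 2 := by
    have h13 : 0 ≤ (1 - 1 / n' ^ 2) * ((r + j + y).choose r : ℝ) := le_trans (by positivity) h8
    exact nonneg_of_mul_nonneg_left h13 hC2
  calc ((r + j + y).choose (r + j) : ℝ) * phi (r + j + y) (r + j)
      ≤ ((r + j + y).choose (r + j) : ℝ) * a (2 * y + 1) := mul_le_mul_of_nonneg_left h1 hC1.le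
    _ ≤ ((r + j + y).choose (r + j) : ℝ) * (x * a (2 * r)) := mul_le_mul_of_nonneg_left h5 hC1.le
    _ = (((r + j + y).choose (r + j) : ℝ) * x) * a (2 * r) := by ring
    _ ≤ ((1 - 1 / n' ^ 2) * ((r + j + y).choose r : ℝ)) * a (2 * r) :=
        mul_le_mul_of_nonneg_right h8 (a_pos _).le
    _ ≤ ((1 - 1 / n' ^ 2) * ((r + j + y).choose r : ℝ)) * phi (r + j + y) r :=
        mul_le_mul_of_nonneg_left h2 (by positivity)
    _ = _ := by ring

/-- the counts of isomorphism classes -/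
theorem lag_num {n r j : ℕ} (hn2 : 2 ≤ n) (h : Real.log (S n (r + j)) ≤ (1 - 1 / (n : ℝ) ^ 2) * Real.log (S n r))
    (ht : (n : ℝ) ^ 2 * Real.log (2 * (n.factorial : ℝ)) ≤ Real.log 2 * ((n.choose r : ℝ) / n))
    (h0 : 0 < r) (hr : r < n) : numC n (r + j) ≤ numC n r := by
  have hnR : (0 : ℝ) < n := by exact_mod_cast (by omega : 0 < n)
  have h1 := Real.log_le_log (by positivity) (S_lower' h0 hr)
  rw [Real.log_rpow (by norm_num)] at h1
  have hS1 : (0 : ℝ) < (S n (r + j) : ℝ) := by unfold S; positivity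
  have hS2 : (0 : ℝ) < (S n r : ℝ) := by unfold S; positivity
  have hf : (0 : ℝ) < (n.factorial : ℝ) := by exact_mod_cast Nat.factorial_pos n
  have h2 : Real.log (2 * (n.factorial : ℝ)) ≤ 1 / (n : ℝ) ^ 2 * Real.log (S n r) := by
    rw [one_div, inv_mul_eq_div, le_div_iff₀ (by positivity)]
    linarith
  have h3 : Real.log ((S n (r + j) : ℝ) * (2 * (n.factorial : ℝ))) ≤ Real.log (S n r) := by
    rw [Real.log_mul hS1.ne' (by positivity)]
    linarith
  have h4 := (Real.log_le_log_iff (by positivity) hS2).1 h3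
  have h5 : (numC n (r + j) : ℝ) ≤ (S n (r + j) : ℝ) := by
    have : numC n (r + j) ≤ S n (r + j) := (numC_le n (r + j)).trans (by unfold S; omega)
    exact_mod_cast this
  have h6 : ((BF n r).card : ℝ) ≤ (numC n r : ℝ) * (n.factorial : ℝ) := by
    exact_mod_cast BF_le_numC n r
  have h7 : 1 ≤ ((BF n r).card : ℝ) := by
    have h8 := A.B6.st_le_BF (n := n) (r := r) h0 hr
    have h9 := A.B1.st_lower (n := n) (by omega) (powersetCard r (univ : Finset (Fin n)))
    have h10 : (1 : ℝ) ≤ (2 : ℝ) ^ (((powersetCard r (univ : Finset (Fin n))).card : ℝ) / n) :=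
      Real.one_le_rpow (by norm_num) (by positivity)
    have h11 : ((A.St (powersetCard r (univ : Finset (Fin n)))).card : ℝ) ≤ (BF n r).card := by
      exact_mod_cast h8
    linarith
  have h8 : (S n r : ℝ) ≤ 2 * ((numC n r : ℝ) * (n.factorial : ℝ)) := by
    have : (S n r : ℝ) = ((BF n r).card : ℝ) + 1 := by unfold S; push_cast; ring
    linarith
  have h9 : (S n (r + j) : ℝ) * (2 * (n.factorial : ℝ)) ≤ (numC n r : ℝ) * (2 * (n.factorial : ℝ)) := by
    linarith
  have h10 := le_of_mul_le_mul_right h9 (by positivity)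
  have h11 : (numC n (r + j) : ℝ) ≤ (numC n r : ℝ) := h5.trans h10
  exact_mod_cast h11

/-- unimodality up to lag `J` -/
def LU (J n : ℕ) : Prop :=
  (∀ i j : ℕ, i + J ≤ j → 2 * j ≤ n → numC n i ≤ numC n j) ∧
  (∀ i j : ℕ, n ≤ 2 * i → i + J ≤ j → numC n j ≤ numC n i)

theorem numtail34 : ∃ n0 : ℕ, ∀ n t : ℕ, n0 ≤ n → 3 ≤ t → t ≤ 4 →
    (2 : ℝ) ^ n * (n.factorial : ℝ) ≤ (2 : ℝ) ^ ((n.choose t : ℝ) / n) :=
  U5.numtail34

theorem BF_le_two_pow (n s : ℕ) : (BF n s).card ≤ 2 ^ (n.choose s) := by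
  classical
  have h : BF n s ⊆ (powersetCard s (univ : Finset (Fin n))).powerset := by
    intro B hB
    have hB' : IsBF s B := (Finset.mem_filter.1 hB).2
    rw [mem_powerset]
    intro X hX
    rw [mem_powersetCard]
    exact ⟨subset_univ _, hB'.card X hX⟩
  have := card_le_card h
  rwa [card_powerset, card_powersetCard, card_univ, Fintype.card_fin] at this

theorem lag_small {n r d t : ℕ} (ht : (2 : ℝ) ^ n * (n.factorial : ℝ) ≤ (2 : ℝ) ^ ((n.choose t : ℝ) / n))
    (h0 : 0 < r) (hn : n = r + t) (ht0 : 0 < t) (hd : t ≤ d + 1) (hrd : r + d ≤ n) :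
    numC n (r + d) ≤ numC n r := by
  have h1 : numC n (r + d) ≤ 2 ^ n := by
    refine ((numC_le n (r + d)).trans (BF_le_two_pow n (r + d))).trans ?_
    refine Nat.pow_le_pow_right (by norm_num) ?_
    rw [← Nat.choose_symm hrd]
    have h2 : n - (r + d) ≤ 1 := by omega
    interval_cases h3 : n - (r + d)
    · rw [Nat.choose_zero_right]; omega
    · rw [Nat.choose_one_right]
  have hf : (0 : ℝ) < (n.factorial : ℝ) := by exact_mod_cast Nat.factorial_pos n
  have h6 : ((BF n r).card : ℝ) ≤ (numC n r : ℝ) * (n.factorial : ℝ) := by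
    exact_mod_cast BF_le_numC n r
  have h7 : (2 : ℝ) ^ ((n.choose r : ℝ) / n) ≤ ((BF n r).card : ℝ) := by
    have h8 := A.B6.st_le_BF (n := n) (r := r) h0 (by omega)
    have h9 := A.B1.st_lower (n := n) (by omega) (powersetCard r (univ : Finset (Fin n)))
    rw [card_powersetCard, card_univ, Fintype.card_fin] at h9
    have h11 : ((A.St (powersetCard r (univ : Finset (Fin n)))).card : ℝ) ≤ (BF n r).card := by
      exact_mod_cast h8
    linarith
  have h8 : n.choose r = n.choose t := by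
    subst hn
    exact Nat.choose_symm_add
  rw [h8] at h7
  have h9 : (2 : ℝ) ^ n * (n.factorial : ℝ) ≤ (numC n r : ℝ) * (n.factorial : ℝ) := by linarith
  have h10 := le_of_mul_le_mul_right h9 hf
  have h11 : 2 ^ n ≤ numC n r := by exact_mod_cast h10
  exact h1.trans h11

theorem lag_of_records (J : ℕ) (hJ : 3 ≤ J) (lam : ℝ) (h0 : 0 < lam) (h1 : lam < J) :
    ∃ n0 : ℕ, ∀ n : ℕ, n0 ≤ n →
      (∀ m : ℕ, 1 ≤ m → m < n → b n - b m < lam * (Real.log n - Real.log m)) →
      (∀ m : ℕ, n < m → m ≤ 2 * n → b m - b n < lam * (Real.log m - Real.log n)) → LU J n := by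
  obtain ⟨r0, H⟩ := prod_lower J lam h0 h1
  obtain ⟨n1, H1⟩ := numtail5
  obtain ⟨n2, H2⟩ := numtail34
  refine ⟨2 * r0 + n1 + n2 + 10, fun n hn hrec hrec' => ?_⟩
  have key : ∀ i j : ℕ, n ≤ 2 * i → i + J ≤ j → numC n j ≤ numC n i := by
    intro i j hi hij
    rcases Nat.lt_or_ge n j with hjn | hjn
    · rw [numC_zero n j hjn]; omega
    · obtain ⟨d, rfl⟩ : ∃ d, j = i + d := ⟨j - i, by omega⟩
      rcases Nat.lt_or_ge (n - i) 5 with h5 | h5
      · exact lag_small (t := n - i) (H2 n (n - i) (by omega) (by omega) (by omega)) (by omega)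
          (by omega) (by omega) (by omega) hjn
      · have h2 := lag_log (by omega) h0 H hrec hrec' (r := i) (j := d) (by omega) (by omega) hi
          (by omega) hjn
        have h3 := H1 n (n - i) (by omega) h5 (by omega)
        rw [Nat.choose_symm (by omega : i ≤ n)] at h3
        exact lag_num (by omega) h2 h3 (by omega) (by omega)
  refine ⟨fun i j hij hj => ?_, key⟩
  have h2 := key (n - j) (n - i) (by omega) (by omega)
  have h3 := numC_dual n (n - i) (by omega)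
  have h4 := numC_dual n j (by omega)
  have e : n - (n - i) = i := by omega
  rw [e] at h3
  exact h3.trans (h2.trans h4)

open Classical in
theorem both_records (lam : ℝ) (hl : 1 < lam) :
    ∃ C' : ℝ, ∀ N : ℕ, 1 ≤ N →
      (1 - 2 / lam) * Real.log N - C' ≤
        ∑ n ∈ (Icc 1 N).filter (fun n : ℕ =>
          (∀ m : ℕ, 1 ≤ m → m < n → b n - b m < lam * (Real.log n - Real.log m)) ∧
          (∀ m : ℕ, n < m → m ≤ 2 * n → b m - b n < lam * (Real.log m - Real.log n))),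
          (1 : ℝ) / n := by
  obtain ⟨C, hC⟩ := b_upper
  obtain ⟨C1, h1⟩ := J10.records b (fun m n _ h => b_mono m n h) C hC lam hl
  obtain ⟨C2, h2⟩ := rrecords b (fun m n _ h => b_mono m n h) C hC lam hl
  refine ⟨C1 + C2 + 1, fun N hN => ?_⟩
  have h1 := h1 N hN
  have h2 := h2 N hN
  have h3 : ∑ n ∈ Icc 1 N, (1 : ℝ) / n ≤ 1 + Real.log N := by
    have := harmonic_le_one_add_log N
    rw [harmonic_eq_sum_Icc] at this
    push_cast at this
    simpa [one_div] using this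
  set A1 := (Icc 2 N).filter (fun n : ℕ => ∀ m : ℕ, 1 ≤ m → m < n →
          b n - b m < lam * (Real.log n - Real.log m)) with hA1
  set A2 := (Icc 1 N).filter (fun n : ℕ => ∀ m : ℕ, n < m → m ≤ 2 * n →
          b m - b n < lam * (Real.log m - Real.log n)) with hA2
  set A3 := (Icc 1 N).filter (fun n : ℕ =>
          (∀ m : ℕ, 1 ≤ m → m < n → b n - b m < lam * (Real.log n - Real.log m)) ∧
          (∀ m : ℕ, n < m → m ≤ 2 * n → b m - b n < lam * (Real.log m - Real.log n))) with hA3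
  have h4 := sum_union_inter (s₁ := A1) (s₂ := A2) (f := fun n : ℕ => (1 : ℝ) / n)
  have h5 : ∑ n ∈ A1 ∪ A2, (1 : ℝ) / n ≤ ∑ n ∈ Icc 1 N, (1 : ℝ) / n := by
    refine sum_le_sum_of_subset_of_nonneg ?_ (fun n _ _ => by positivity)
    intro n hn
    rw [mem_union, hA1, hA2, mem_filter, mem_filter, mem_Icc, mem_Icc] at hn
    rw [mem_Icc]
    omega
  have h6 : ∑ n ∈ A1 ∩ A2, (1 : ℝ) / n ≤ ∑ n ∈ A3, (1 : ℝ) / n := by
    refine sum_le_sum_of_subset_of_nonneg ?_ (fun n _ _ => by positivity)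
    intro n hn
    rw [mem_inter, hA1, hA2, mem_filter, mem_filter] at hn
    rw [hA3, mem_filter]
    exact ⟨hn.2.1, hn.1.2, hn.2.2⟩
  have e : (1 - 2 / lam) * Real.log N =
      (1 - 1 / lam) * Real.log N + (1 - 1 / lam) * Real.log N - Real.log N := by ring
  rw [e]
  linarith

open Classical in
theorem lag_main (J : ℕ) (hJ : 3 ≤ J) (ε : ℝ) (hε : 0 < ε) :
    ∃ N0 : ℕ, ∀ N : ℕ, N0 ≤ N →
      (1 - 2 / (J : ℝ) - ε) * Real.log N ≤ ∑ n ∈ (Icc 1 N).filter (LU J), (1 : ℝ) / n := by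
  have hJR : (3 : ℝ) ≤ (J : ℝ) := by exact_mod_cast hJ
  set δ : ℝ := min (ε / 2) 1 with hδ
  have hδ0 : 0 < δ := lt_min (by linarith) (by norm_num)
  have hδ1 : δ ≤ ε / 2 := min_le_left _ _
  have hδ2 : δ ≤ 1 := min_le_right _ _
  set u : ℝ := 2 / (J : ℝ) with hu
  have hu0 : 0 < u := by positivity
  have hu1 : u ≤ 2 / 3 := by
    rw [hu]
    exact div_le_div_of_nonneg_left (by norm_num) (by norm_num) hJR
  set lam : ℝ := 2 / (u + δ) with hlam
  have hl1 : 1 < lam := by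
    rw [hlam, lt_div_iff₀ (by positivity)]
    linarith
  have hl2 : lam < J := by
    have e : (J : ℝ) = 2 / u := by
      rw [hu]; field_simp
    rw [e, hlam]
    exact div_lt_div_of_pos_left (by norm_num) hu0 (by linarith)
  have hl3 : 2 / lam = u + δ := by
    rw [hlam]; field_simp
  obtain ⟨C', hC'⟩ := both_records lam hl1
  obtain ⟨n0, hn0⟩ := lag_of_records J hJ lam (by linarith) hl2
  set D : ℝ := ∑ n ∈ range n0, (1 : ℝ) / n with hD
  obtain ⟨N1, hN1⟩ := eventually_atTop.1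
    ((Real.tendsto_log_atTop.comp tendsto_natCast_atTop_atTop).eventually_ge_atTop (2 * (C' + D) / ε))
  refine ⟨N1 + 1, fun N hN => ?_⟩
  have hlog : 2 * (C' + D) / ε ≤ Real.log N := hN1 N (by omega)
  have hlog0 : 0 ≤ Real.log N := Real.log_natCast_nonneg N
  have h1 := hC' N (by omega)
  rw [hl3] at h1
  set R := (Icc 1 N).filter (fun n : ℕ =>
          (∀ m : ℕ, 1 ≤ m → m < n → b n - b m < lam * (Real.log n - Real.log m)) ∧
          (∀ m : ℕ, n < m → m ≤ 2 * n → b m - b n < lam * (Real.log m - Real.log n))) with hR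
  set G := (Icc 1 N).filter (LU J) with hG
  have hsub : R ⊆ range n0 ∪ G := by
    intro n hn
    rw [hR, mem_filter] at hn
    rw [mem_union, mem_range]
    rcases lt_or_ge n n0 with h | h
    · exact Or.inl h
    · right
      rw [hG, mem_filter]
      exact ⟨hn.1, hn0 n h hn.2.1 hn.2.2⟩
  have h2 : ∑ n ∈ R, (1 : ℝ) / n ≤ D + ∑ n ∈ G, (1 : ℝ) / n := by
    refine (sum_le_sum_of_subset_of_nonneg hsub (fun n _ _ => by positivity)).trans ?_
    have := sum_union_inter (s₁ := range n0) (s₂ := G) (f := fun n : ℕ => (1 : ℝ) / n)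
    have h3 : 0 ≤ ∑ n ∈ range n0 ∩ G, (1 : ℝ) / n := sum_nonneg (fun n _ => by positivity)
    linarith
  have h4 : C' + D ≤ ε / 2 * Real.log N := by
    rw [div_le_iff₀ hε] at hlog
    linarith
  have h5 : δ * Real.log N ≤ ε / 2 * Real.log N := mul_le_mul_of_nonneg_right hδ1 hlog0
  have h6 : (1 - (u + δ)) * Real.log N = (1 - u - ε) * Real.log N + ε * Real.log N - δ * Real.log N := by ring
  linarith

end Pool.Agent.Helper46.R
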