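import Pool.Agent.Helper46.R.Nat

set_option autoImplicit false

namespace Pool.Agent.Helper46.R

open Finset Filter

theorem lag_log_x {n r j y : ℕ} (hny : n = r + j + y) {x : ℝ} (hx0 : 0 < x)
    (h5 : a (2 * y + 1) ≤ x * a (2 * r))
    (h9 : (n.choose (r + j) : ℝ) * ((1 + 2 / (r : ℝ) ^ 2) * x) ≤ (n.choose r : ℝ))
    (hr2 : 2 ≤ r) (hn : n ≤ 2 * r) (hj : 1 ≤ j) :
    Real.log (S n (r + j)) ≤ (1 - 1 / (n : ℝ) ^ 2) * Real.log (S n r) := by
  subst hny
  have hrR : (0 : ℝ) < r := by exact_mod_cast (by omega : 0 < r)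
  have hr2R : (2 : ℝ) ≤ r := by exact_mod_cast hr2
  have h1 := phi_le_a (r + j + y) (r + j) (by omega) (by omega)
  have e1 : 2 * (r + j + y - (r + j)) + 1 = 2 * y + 1 := by omega
  rw [e1] at h1
  have h2 := phi_ge_a (r + j + y) r hn (by omega)
  have hC1 : (0 : ℝ) < ((r + j + y).choose (r + j) : ℝ) := by
    exact_mod_cast Nat.choose_pos (by omega)
  have hC2 : (0 : ℝ) < ((r + j + y).choose r : ℝ) := by
    exact_mod_cast Nat.choose_pos (by omega)
  set n' : ℝ := ((r + j + y : ℕ) : ℝ) with hn'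
  have hn'r : (r : ℝ) ≤ n' := by rw [hn']; exact_mod_cast (by omega : r ≤ r + j + y)
  have h8 : ((r + j + y).choose (r + j) : ℝ) * x ≤ (1 - 1 / n' ^ 2) * ((r + j + y).choose r : ℝ) := by
    have h10 : 1 / n' ^ 2 ≤ 1 / (r : ℝ) ^ 2 := by
      apply one_div_le_one_div_of_le (by positivity)
      gcongr
    have h11 : 1 ≤ (1 - 1 / n' ^ 2) * (1 + 2 / (r : ℝ) ^ 2) := by
      set s : ℝ := 1 / (r : ℝ) ^ 2 with hs
      have hs0 : 0 < s := by rw [hs]; positivity
      have hs1 : s ≤ 1 / 4 := by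
        rw [hs]
        apply one_div_le_one_div_of_le (by norm_num)
        nlinarith
      have e3 : 2 / (r : ℝ) ^ 2 = 2 * s := by rw [hs]; ring
      rw [e3]
      have : (1 - s) * (1 + 2 * s) ≤ (1 - 1 / n' ^ 2) * (1 + 2 * s) := by
        gcongr
      nlinarith
    have h12 : 0 ≤ 1 - 1 / n' ^ 2 := by
      have : 1 / (r : ℝ) ^ 2 ≤ 1 := by
        rw [div_le_one (by positivity)]
        nlinarith
      linarith
    calc ((r + j + y).choose (r + j) : ℝ) * x
        ≤ ((r + j + y).choose (r + j) : ℝ) * x * ((1 - 1 / n' ^ 2) * (1 + 2 / (r : ℝ) ^ 2)) := by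
          exact le_mul_of_one_le_right (by positivity) h11
      _ = (1 - 1 / n' ^ 2) * (((r + j + y).choose (r + j) : ℝ) * ((1 + 2 / (r : ℝ) ^ 2) * x)) := by
          ring
      _ ≤ _ := mul_le_mul_of_nonneg_left h9 h12
  rw [log_S (by omega : r + j ≤ r + j + y), log_S (by omega : r ≤ r + j + y)]
  have h12 : 0 ≤ 1 - 1 / n' ^ 2 := by
    have h13 : 0 ≤ (1 - 1 / n' ^ 2) * ((r + j + y).choose r : ℝ) := le_trans (by positivity) h8
    exact nonneg_of_mul_nonneg_left h13 hC2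
  calc ((r + j + y).choose (r + j) : ℝ) * phi (r + j + y) (r + j)
      ≤ ((r + j + y).choose (r + j) : ℝ) * a (2 * y + 1) := mul_le_mul_of_nonneg_left h1 hC1.le
    _ ≤ ((r + j + y).choose (r + j) : ℝ) * (x * a (2 * r)) := mul_le_mul_of_nonneg_left h5 hC1.le
    _ = (((r + j + y).choose (r + j) : ℝ) * x) * a (2 * r) := by ring
    _ ≤ ((1 - 1 / n' ^ 2) * ((r + j + y).choose r : ℝ)) * a (2 * r) :=
        mul_le_mul_of_nonneg_right h8 (a_pos _).le
    _ ≤ ((1 - 1 / n' ^ 2) * ((r + j + y).choose r : ℝ)) * phi (r + j + y) r :=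
        mul_le_mul_of_nonneg_left h2 (by positivity)
    _ = _ := by ring

theorem prod_exp (r y j : ℕ) (hry : y ≤ r) (n : ℝ) (hn0 : 0 < n) (hn : (r : ℝ) + j ≤ n) (k : ℕ)
    (hk : k ≤ j) :
    Real.exp (((j - k : ℕ) : ℝ) * ((r : ℝ) - y) / n) ≤
      ∏ i ∈ Ico k j, (((r : ℝ) + i + 1) / ((y : ℝ) + i + 1)) := by
  have h1 : ∀ i ∈ Ico k j, Real.exp (((r : ℝ) - y) / n) ≤ ((r : ℝ) + i + 1) / ((y : ℝ) + i + 1) := by
    intro i hi
    rw [mem_Ico] at hi
    have hry' : (y : ℝ) ≤ r := by exact_mod_cast hry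
    have hi' : (i : ℝ) + 1 ≤ j := by exact_mod_cast (by omega : i + 1 ≤ j)
    have hA : (0 : ℝ) < (r : ℝ) + i + 1 := by positivity
    have hB : (0 : ℝ) < (y : ℝ) + i + 1 := by positivity
    have h2 : ((r : ℝ) - y) / n ≤ ((r : ℝ) - y) / ((r : ℝ) + i + 1) :=
      div_le_div_of_nonneg_left (by linarith) hA (by linarith)
    have h3 : 1 - ((r : ℝ) - y) / ((r : ℝ) + i + 1) ≤ Real.exp (-(((r : ℝ) - y) / ((r : ℝ) + i + 1))) := by
      have := Real.add_one_le_exp (-(((r : ℝ) - y) / ((r : ℝ) + i + 1)))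
      linarith
    have e : 1 - ((r : ℝ) - y) / ((r : ℝ) + i + 1) = ((y : ℝ) + i + 1) / ((r : ℝ) + i + 1) := by
      rw [eq_div_iff hA.ne', sub_mul, div_mul_cancel₀ _ hA.ne']
      ring
    rw [e, Real.exp_neg] at h3
    have h4 : Real.exp (((r : ℝ) - y) / ((r : ℝ) + i + 1)) ≤ ((r : ℝ) + i + 1) / ((y : ℝ) + i + 1) := by
      have h5 : 0 < ((y : ℝ) + i + 1) / ((r : ℝ) + i + 1) := by positivity
      have h6 := inv_anti₀ h5 h3
      rwa [inv_inv, inv_div] at h6
    exact (Real.exp_le_exp.2 h2).trans h4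
  have h2 := prod_le_prod (s := Ico k j) (f := fun _ => Real.exp (((r : ℝ) - y) / n))
    (g := fun i : ℕ => ((r : ℝ) + i + 1) / ((y : ℝ) + i + 1)) (fun i _ => by positivity) h1
  rw [prod_const, Nat.card_Ico, ← Real.exp_nat_mul] at h2
  refine le_trans (le_of_eq ?_) h2
  congr 1
  ring

theorem lag_all : ∃ C : ℕ, ∃ n0 : ℕ, ∀ n : ℕ, n0 ≤ n → ∀ i j : ℕ, n ≤ 2 * i → i ≤ j → j ≤ n →
    C * n ≤ (j - i) * (i + j - n) → numC n j ≤ numC n i := by
  obtain ⟨C1, hb1, hb2⟩ := b_two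
  obtain ⟨r0, H⟩ := prod_lower 2 1 (by norm_num) (by norm_num)
  obtain ⟨n1, H1⟩ := numtail5
  obtain ⟨n2, H2⟩ := numtail34
  obtain ⟨C, hC⟩ := exists_nat_gt (4 * C1 + 6)
  have hC10 : 0 ≤ C1 := by
    have h1 := hb1 1 le_rfl
    have h2 := hb2 1 le_rfl
    linarith
  refine ⟨C, 2 * r0 + n1 + n2 + 10, fun n hn i j hi hij hjn hprod => ?_⟩
  obtain ⟨d, rfl⟩ : ∃ d, j = i + d := ⟨j - i, by omega⟩
  obtain ⟨y, hy⟩ : ∃ y, n = i + d + y := ⟨n - (i + d), by omega⟩
  have hC6 : 6 ≤ C := by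
    have : (6 : ℝ) < C := by linarith
    exact_mod_cast this.le
  have e1 : i + d - i = d := by omega
  have e2 : i + (i + d) - n = i - y := by omega
  rw [e1, e2] at hprod
  have hd6 : 6 ≤ d := by
    by_contra hcon
    have h3 : d * (i - y) ≤ 5 * n := Nat.mul_le_mul (by omega) (by omega)
    have h4 : 6 * n ≤ C * n := Nat.mul_le_mul_right n hC6
    omega
  have hnR : (0 : ℝ) < n := by exact_mod_cast (by omega : 0 < n)
  have hiR : (0 : ℝ) < i := by exact_mod_cast (by omega : 0 < i)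
  have hyi : y ≤ i := by omega
  have hprodR : (C : ℝ) * n ≤ (d : ℝ) * ((i : ℝ) - y) := by
    have h3 : ((C * n : ℕ) : ℝ) ≤ ((d * (i - y) : ℕ) : ℝ) := by exact_mod_cast hprod
    push_cast [Nat.cast_sub hyi] at h3
    exact h3
  set x : ℝ := Real.exp (2 * C1) * ((2 * (i : ℝ)) / (2 * y + 1)) with hx
  have hx0 : 0 < x := by rw [hx]; positivity
  have h5 : a (2 * y + 1) ≤ x * a (2 * i) := by
    have h6 := hb1 (2 * i) (by omega)
    have h7 := hb2 (2 * y + 1) (by omega)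
    have h8 : Real.log (a (2 * y + 1)) ≤ Real.log (x * a (2 * i)) := by
      rw [Real.log_mul hx0.ne' (a_pos _).ne', hx, Real.log_mul (by positivity) (by positivity),
        Real.log_exp, Real.log_div (by positivity) (by positivity)]
      unfold b at h6 h7
      push_cast at h6 h7
      linarith
    exact (Real.log_le_log_iff (a_pos _) (mul_pos hx0 (a_pos _))).1 h8
  have h9 : (n.choose (i + d) : ℝ) * ((1 + 2 / (i : ℝ) ^ 2) * x) ≤ (n.choose i : ℝ) := by
    have h6 := H i y (by omega) (by omega)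
    rw [Real.rpow_one] at h6
    have h7 := prod_exp i y d hyi n hnR (by
      have : i + d ≤ n := by omega
      exact_mod_cast this) 2 (by omega)
    have h8 := choose_prod i y d d le_rfl (by omega)
    rw [← hy] at h8
    have h10 : Real.exp (2 * C1) ≤ Real.exp (((d - 2 : ℕ) : ℝ) * ((i : ℝ) - y) / n) := by
      apply Real.exp_le_exp.2
      rw [le_div_iff₀ hnR]
      have h11 : (((d - 2 : ℕ) : ℝ)) = (d : ℝ) - 2 := by
        rw [Nat.cast_sub (by omega)]; norm_num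
      rw [h11]
      have h12 : (i : ℝ) - y ≤ n := by
        have h13 : (i : ℝ) ≤ n := by exact_mod_cast (by omega : i ≤ n)
        have h14 : (0 : ℝ) ≤ y := by positivity
        linarith
      nlinarith
    have h13 : Real.exp (2 * C1) * ((1 + 2 / (i : ℝ) ^ 2) * ((2 * (i : ℝ)) / (2 * y + 1))) ≤
        ∏ k ∈ range d, (((i : ℝ) + k + 1) / ((y : ℝ) + k + 1)) := by
      rw [range_eq_Ico, ← prod_Ico_consecutive _ (Nat.zero_le 2) (by omega : 2 ≤ d), ← range_eq_Ico,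
        mul_comm (Real.exp (2 * C1))]
      exact mul_le_mul h6 (h10.trans h7) (by positivity) (prod_nonneg (fun k _ => by positivity))
    have e : (1 + 2 / (i : ℝ) ^ 2) * x =
        Real.exp (2 * C1) * ((1 + 2 / (i : ℝ) ^ 2) * ((2 * (i : ℝ)) / (2 * y + 1))) := by
      rw [hx]; ring
    rw [e]
    exact (mul_le_mul_of_nonneg_left h13 (by positivity)).trans h8
  rcases Nat.lt_or_ge (n - i) 5 with h6 | h6
  · omega
  · have h2 := lag_log_x hy hx0 h5 h9 (by omega) hi (by omega)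
    have h3 := H1 n (n - i) (by omega) h6 (by omega)
    rw [Nat.choose_symm (by omega : i ≤ n)] at h3
    exact lag_num (by omega) h2 h3 (by omega) (by omega)

/-- all large `n`, both sides of the middle -/
theorem lag_all' : ∃ C : ℕ, ∃ n0 : ℕ, ∀ n : ℕ, n0 ≤ n →
    (∀ i j : ℕ, i ≤ j → 2 * j ≤ n → C * n ≤ (j - i) * (n - i - j) → numC n i ≤ numC n j) ∧
    (∀ i j : ℕ, n ≤ 2 * i → i ≤ j → j ≤ n → C * n ≤ (j - i) * (i + j - n) → numC n j ≤ numC n i) := by
  obtain ⟨C, n0, H⟩ := lag_all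
  refine ⟨C, n0, fun n hn => ⟨fun i j hij hj hprod => ?_, H n hn⟩⟩
  have h2 := H n hn (n - j) (n - i) (by omega) (by omega) (by omega) (by
    have e1 : n - i - (n - j) = j - i := by omega
    have e2 : n - j + (n - i) - n = n - i - j := by omega
    rw [e1, e2]
    exact hprod)
  have h3 := numC_dual n (n - i) (by omega)
  have h4 := numC_dual n j (by omega)
  have e : n - (n - i) = i := by omega
  rw [e] at h3
  exact h3.trans (h2.trans h4)

end Pool.Agent.Helper46.R
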