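import Mathlib

set_option autoImplicit false

namespace Pool.Agent.Helper46.R.V3

open Finset

theorem nw_log (n : ℕ) (hn : 1 ≤ n) :
    1 / ((n : ℝ) + 1) ≤ Real.log ((n : ℝ) + 1) - Real.log n := by
  have hn0 : (0:ℝ) < n := by exact_mod_cast hn
  rw [← Real.log_div (by positivity) (by positivity)]
  have h := Real.one_sub_inv_le_log_of_pos (x := ((n : ℝ) + 1) / n) (by positivity)
  refine le_trans (le_of_eq ?_) h
  field_simp
  ring

theorem nw_main (b : ℕ → ℝ) (hmono : ∀ m n, 1 ≤ m → m ≤ n → b m ≤ b n) (lam : ℝ) (hlam : 0 < lam)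
    (N : ℕ) (hN : 1 ≤ N) (bad : ℕ → Prop) [DecidablePred bad]
    (hbad : ∀ n, bad n → 1 ≤ n → n ≤ N → ∃ m, n < m ∧ m ≤ 2 * N ∧
      b n - lam * Real.log n ≤ b m - lam * Real.log m) :
    lam * ∑ n ∈ Ico (N / 2 + 1) (N + 1),
      (if bad n then (Real.log ((n : ℝ) + 1) - Real.log n) else 0) ≤ b (2 * N) - b (N / 2 + 1) := by
  obtain ⟨g, hg⟩ : ∃ g : ℕ → ℝ, ∀ n, g n = b n - lam * Real.log n := ⟨_, fun _ => rfl⟩
  obtain ⟨M, hM⟩ : ∃ M : ℕ → ℝ, ∀ k, M k = sSup (g '' (Set.Icc k (2 * N))) := ⟨_, fun _ => rfl⟩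
  have le_M : ∀ k m, k ≤ m → m ≤ 2 * N → g m ≤ M k := by
    intro k m h1 h2
    rw [hM]
    exact le_csSup ((Set.finite_Icc k (2 * N)).image g).bddAbove ⟨m, ⟨h1, h2⟩, rfl⟩
  have M_le : ∀ k B, k ≤ 2 * N → (∀ m, k ≤ m → m ≤ 2 * N → g m ≤ B) → M k ≤ B := by
    intro k B hk h
    rw [hM]
    refine csSup_le ⟨g k, k, ⟨le_rfl, hk⟩, rfl⟩ ?_
    rintro _ ⟨m, ⟨h1, h2⟩, rfl⟩
    exact h m h1 h2
  have hloginc : ∀ n : ℕ, 1 ≤ n → 0 ≤ Real.log ((n : ℝ) + 1) - Real.log n := by
    intro n hn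
    refine le_trans ?_ (nw_log n hn)
    positivity
  have step : ∀ n, 1 ≤ n → n + 1 ≤ 2 * N →
      M n ≤ M (n + 1) + lam * (Real.log ((n : ℝ) + 1) - Real.log n) := by
    intro n hn hn2
    have hpos := mul_nonneg hlam.le (hloginc n hn)
    refine M_le n _ (by omega) ?_
    intro m h1 h2
    rcases Nat.eq_or_lt_of_le h1 with h | h
    · subst h
      have h3 := le_M (n + 1) (n + 1) le_rfl hn2
      have h4 := hmono n (n + 1) hn (Nat.le_succ n)
      rw [hg] at h3 ⊢
      push_cast at h3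
      linarith
    · have h3 := le_M (n + 1) m h h2
      linarith
  have stepb : ∀ n, bad n → 1 ≤ n → n ≤ N → M n ≤ M (n + 1) := by
    intro n hb hn hnN
    obtain ⟨m', h5, h6, h7⟩ := hbad n hb hn hnN
    refine M_le n _ (by omega) ?_
    intro m h1 h2
    rcases Nat.eq_or_lt_of_le h1 with h | h
    · subst h
      have h3 := le_M (n + 1) m' h5 h6
      rw [hg] at h3 ⊢
      linarith
    · exact le_M (n + 1) m h h2
  have key : ∀ k, N / 2 + 1 ≤ k → k ≤ N + 1 → lam * ∑ n ∈ Ico (N / 2 + 1) k,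
      (if bad n then (Real.log ((n : ℝ) + 1) - Real.log n) else 0)
      ≤ (M k + lam * Real.log k) - (M (N / 2 + 1) + lam * Real.log ((N / 2 + 1 : ℕ) : ℝ)) := by
    intro k hk
    induction k, hk using Nat.le_induction with
    | base =>
      intro _
      simp
    | succ k hk ih =>
      intro hk1
      rw [Finset.sum_Ico_succ_top hk, mul_add]
      have h1 := ih (by omega)
      have hk' : ((k + 1 : ℕ) : ℝ) = (k : ℝ) + 1 := by push_cast; ring
      rw [hk']
      split_ifs with hb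
      · have h2 := stepb k hb (by omega) (by omega)
        linarith
      · have h2 := step k (by omega) (by omega)
        linarith
  have h1 := key (N + 1) (by omega) le_rfl
  have h2 : M (N + 1) ≤ b (2 * N) - lam * Real.log ((N + 1 : ℕ) : ℝ) := by
    refine M_le _ _ (by omega) ?_
    intro m hm1 hm2
    rw [hg]
    have h3 := hmono m (2 * N) (by omega) hm2
    have h4 : Real.log ((N + 1 : ℕ) : ℝ) ≤ Real.log m := by
      apply Real.log_le_log
      · positivity
      · exact_mod_cast hm1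
    have h5 := mul_le_mul_of_nonneg_left h4 hlam.le
    linarith
  have h3 := le_M (N / 2 + 1) (N / 2 + 1) le_rfl (by omega)
  rw [hg] at h3
  linarith

open Classical in
theorem nonrrec_window (b : ℕ → ℝ) (hmono : ∀ m n, 1 ≤ m → m ≤ n → b m ≤ b n) (C1 : ℝ)
    (h1 : ∀ n : ℕ, 1 ≤ n → b n ≤ Real.log n + C1)
    (h2 : ∀ n : ℕ, 1 ≤ n → Real.log n - C1 ≤ b n) :
    ∃ C2 : ℝ, 0 < C2 ∧ ∀ lam : ℝ, 0 < lam → ∀ N : ℕ, 1 ≤ N →
      (((Ioc (N / 2) N).filter (fun n : ℕ => ¬ ∀ m : ℕ, n < m → m ≤ 2 * n →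
        b m - b n < lam * (Real.log m - Real.log n))).card : ℝ) ≤ C2 * N / lam := by
  have hC1 : 0 ≤ C1 := by
    have e1 := h1 1 le_rfl
    have e2 := h2 1 le_rfl
    linarith
  have hlog4 : 0 < Real.log 4 := Real.log_pos (by norm_num)
  refine ⟨2 * (Real.log 4 + 2 * C1), by positivity, ?_⟩
  intro lam hlam N hN
  have hN0 : (0:ℝ) < N := by exact_mod_cast hN
  obtain ⟨bad, hbaddef⟩ : ∃ bad : ℕ → Prop, bad = (fun n : ℕ => ¬ ∀ m : ℕ, n < m → m ≤ 2 * n →
        b m - b n < lam * (Real.log m - Real.log n)) := ⟨_, rfl⟩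
  have hmain := nw_main b hmono lam hlam N hN bad (by
    intro n hb hn hnN
    rw [hbaddef] at hb
    push Not at hb
    obtain ⟨m, hm1, hm2, hm3⟩ := hb
    exact ⟨m, hm1, by omega, by linarith⟩)
  have hset : Ioc (N / 2) N = Ico (N / 2 + 1) (N + 1) := by
    ext x
    simp only [mem_Ioc, mem_Ico]
    omega
  have hcard : (((Ioc (N / 2) N).filter bad).card : ℝ) * (1 / (2 * N))
      ≤ ∑ n ∈ Ico (N / 2 + 1) (N + 1),
      (if bad n then (Real.log ((n : ℝ) + 1) - Real.log n) else 0) := by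
    rw [hset, ← Finset.sum_filter, ← nsmul_eq_mul]
    refine Finset.card_nsmul_le_sum _ _ _ ?_
    intro n hn
    rw [mem_filter, mem_Ico] at hn
    refine le_trans ?_ (nw_log n (by omega))
    apply one_div_le_one_div_of_le (by positivity)
    have : n + 1 ≤ 2 * N := by omega
    exact_mod_cast this
  have hb2 : b (2 * N) - b (N / 2 + 1) ≤ Real.log 4 + 2 * C1 := by
    have e1 := h1 (2 * N) (by omega)
    have e2 := h2 (N / 2 + 1) (by omega)
    have e3 : Real.log ((2 * N : ℕ) : ℝ) ≤ Real.log 4 + Real.log ((N / 2 + 1 : ℕ) : ℝ) := by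
      rw [← Real.log_mul (by norm_num) (by positivity)]
      apply Real.log_le_log
      · push_cast
        positivity
      · have : 2 * N ≤ 4 * (N / 2 + 1) := by omega
        exact_mod_cast this
    linarith
  have h3 : lam * ((((Ioc (N / 2) N).filter bad).card : ℝ) * (1 / (2 * N)))
      ≤ Real.log 4 + 2 * C1 :=
    (mul_le_mul_of_nonneg_left hcard hlam.le).trans (hmain.trans hb2)
  have hfin : (((Ioc (N / 2) N).filter bad).card : ℝ) ≤ 2 * (Real.log 4 + 2 * C1) * N / lam := by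
    rw [le_div_iff₀ hlam]
    have h4 : lam * ((((Ioc (N / 2) N).filter bad).card : ℝ) * (1 / (2 * N))) * (2 * N)
        = (((Ioc (N / 2) N).filter bad).card : ℝ) * lam := by
      field_simp
    rw [← h4]
    calc lam * ((((Ioc (N / 2) N).filter bad).card : ℝ) * (1 / (2 * N))) * (2 * N)
        ≤ (Real.log 4 + 2 * C1) * (2 * N) := mul_le_mul_of_nonneg_right h3 (by positivity)
      _ = 2 * (Real.log 4 + 2 * C1) * N := by ring
  subst hbaddef
  convert hfin


end Pool.Agent.Helper46.R.V3
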