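import Pool.Agent.Helper46.R.Nat
import Pool.Agent.Helper46.R.V3

set_option autoImplicit false

namespace Pool.Agent.Helper46.R

open Finset Filter

open Classical in
theorem lu_window : ∃ C : ℝ, 0 < C ∧ ∀ J : ℕ, 3 ≤ J → ∃ N0 : ℕ, ∀ N : ℕ, N0 ≤ N →
    (((Ioc (N / 2) N).filter (fun n : ℕ => ¬ LU J n)).card : ℝ) ≤ C * N / J := by
  obtain ⟨C1, hb1, hb2⟩ := b_two
  obtain ⟨C2, hC2, HV⟩ := V1.nonrec_window b (fun m n _ h => b_mono m n h) C1 hb1 hb2
  obtain ⟨C3, hC3, HW⟩ := V3.nonrrec_window b (fun m n _ h => b_mono m n h) C1 hb1 hb2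
  refine ⟨3 / 2 * (C2 + C3), by positivity, fun J hJ => ?_⟩
  have hJR : (3 : ℝ) ≤ (J : ℝ) := by exact_mod_cast hJ
  set lam : ℝ := 2 / 3 * (J : ℝ) with hlam
  have hl2 : 2 ≤ lam := by rw [hlam]; linarith
  have hlJ : lam < J := by rw [hlam]; linarith
  obtain ⟨n0, hn0⟩ := lag_of_records J hJ lam (by linarith) hlJ
  refine ⟨2 * n0 + 2, fun N hN => ?_⟩
  have h1 := HV lam hl2 N (by omega)
  have h2 := HW lam (by linarith) N (by omega)
  set A1 := (Ioc (N / 2) N).filter (fun n : ℕ => ¬ ∀ m : ℕ, 1 ≤ m → m < n →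
        b n - b m < lam * (Real.log n - Real.log m)) with hA1
  set A2 := (Ioc (N / 2) N).filter (fun n : ℕ => ¬ ∀ m : ℕ, n < m → m ≤ 2 * n →
        b m - b n < lam * (Real.log m - Real.log n)) with hA2
  have hsub : ((Ioc (N / 2) N).filter (fun n : ℕ => ¬ LU J n)) ⊆ A1 ∪ A2 := by
    intro n hn
    rw [mem_filter, mem_Ioc] at hn
    rw [mem_union, hA1, hA2, mem_filter, mem_filter, mem_Ioc]
    by_contra hcon
    push Not at hcon
    obtain ⟨hc1, hc2⟩ := hcon
    refine hn.2 (hn0 n (by omega) ?_ ?_)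
    · have := hc1 hn.1
      exact this
    · have := hc2 hn.1
      exact this
  have h3 : (((Ioc (N / 2) N).filter (fun n : ℕ => ¬ LU J n)).card : ℝ) ≤ A1.card + A2.card := by
    have h4 := card_le_card hsub
    have h5 := card_union_le A1 A2
    exact_mod_cast h4.trans h5
  have hN0 : (0 : ℝ) ≤ N := by positivity
  have e1 : C2 * N / lam + C3 * N / lam = 3 / 2 * (C2 + C3) * N / J := by
    rw [hlam]
    field_simp
  linarith

end Pool.Agent.Helper46.R
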