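import Pool.Agent.Helper46.R.Defs
import Pool.Agent.Helper46.A.B1
import Pool.Agent.Helper46.A.B6
import Pool.Agent.Helper46.A.Bridge
import Pool.Agent.Helper46.R.J1
import Pool.Agent.Helper46.R.J2
import Pool.Agent.Helper46.R.J3
import Pool.Agent.Helper46.R.J4
import Pool.Agent.Helper46.R.J6
import Pool.Agent.Helper46.R.J10
import Pool.Agent.Helper46.R.J12
import Pool.Agent.Helper46.R.Binom

set_option autoImplicit false

namespace Pool.Agent.Helper46.R

open Finset Filter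

theorem S_con (n r : ℕ) : (S (n + 1) (r + 1)) ^ (r + 1) ≤ (S n r) ^ (n + 1) :=
  J4.S_con (fun m F A k hk U hF hcov => J1.shearer F A k hk U hF hcov) J2.trace_con n r

theorem S_del (n r : ℕ) (hr : r ≤ n) : (S (n + 1) r) ^ (n + 1 - r) ≤ (S n r) ^ (n + 1) :=
  J4.S_del (fun m F A k hk U hF hcov => J1.shearer F A k hk U hF hcov) J3.trace_del n r hr

theorem phi_con (n r : ℕ) (hr : r ≤ n) : phi (n + 1) (r + 1) ≤ phi n r :=
  J6.phi_con S_con n r hr

theorem phi_del (n r : ℕ) (hr : r ≤ n) : phi (n + 1) r ≤ phi n r :=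
  J6.phi_del S_del n r hr

theorem a_anti (m n : ℕ) (h : m ≤ n) : a n ≤ a m := J6.a_anti phi_con phi_del m n h

theorem phi_le_a (n r : ℕ) (h1 : n < 2 * r) (h2 : r ≤ n) : phi n r ≤ a (2 * (n - r) + 1) :=
  J6.phi_le_a phi_con n r h1 h2

/-- duality -/
theorem BF_dual_le {n r : ℕ} (hr : r ≤ n) : (BF n r).card ≤ (BF n (n - r)).card := by
  classical
  refine card_le_card_of_injOn A.dualF ?_ ?_
  · intro B hB
    simp only [A.BF, coe_filter, mem_univ, true_and, Set.mem_setOf_eq] at hB ⊢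
    exact A.dual_isBF hB
  · intro B _ B' _ h
    have hinj : Function.Injective (fun X : Finset (Fin n) => Xᶜ) := compl_injective
    exact image_injective hinj h

theorem BF_dual {n r : ℕ} (hr : r ≤ n) : (BF n (n - r)).card = (BF n r).card := by
  refine le_antisymm ?_ (BF_dual_le hr)
  have := BF_dual_le (n := n) (r := n - r) (Nat.sub_le _ _)
  rwa [Nat.sub_sub_self hr] at this

theorem S_dual {n r : ℕ} (hr : r ≤ n) : S n (n - r) = S n r := by
  unfold S
  rw [BF_dual hr]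

theorem S_lower {n : ℕ} (hn : 2 ≤ n) :
    (2 : ℝ) ^ ((n.choose ((n + 1) / 2) : ℝ) / n) ≤ (S n ((n + 1) / 2) : ℝ) := by
  have h := A.B1.st_lower (n := n) (by omega) (powersetCard ((n + 1) / 2) (univ : Finset (Fin n)))
  rw [card_powersetCard, card_univ, Fintype.card_fin] at h
  refine h.trans ?_
  have h2 := A.B6.st_le_BF (n := n) (r := (n + 1) / 2) (by omega) (by omega)
  unfold S
  have h3 : ((A.St (powersetCard ((n + 1) / 2) (univ : Finset (Fin n)))).card : ℝ) ≤ (BF n ((n + 1) / 2)).card := by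
    exact_mod_cast h2
  push_cast
  linarith

theorem choose_pos' (n : ℕ) : (0 : ℝ) < (n.choose ((n + 1) / 2) : ℝ) := by
  exact_mod_cast Nat.choose_pos (by omega)

theorem log_S_mid (n : ℕ) :
    Real.log (S n ((n + 1) / 2)) = (n.choose ((n + 1) / 2) : ℝ) * a n := by
  unfold a phi
  rw [mul_div_cancel₀]
  exact (choose_pos' n).ne'

theorem a_lower {n : ℕ} (hn : 2 ≤ n) : Real.log 2 / n ≤ a n := by
  have h := S_lower hn
  have h1 := Real.log_le_log (by positivity) h
  rw [Real.log_rpow (by norm_num), log_S_mid] at h1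
  have hC := choose_pos' n
  have hn' : (0 : ℝ) < n := by exact_mod_cast (by omega : 0 < n)
  have e : ((n.choose ((n + 1) / 2) : ℝ) / n) * Real.log 2 =
      (n.choose ((n + 1) / 2) : ℝ) * (Real.log 2 / n) := by ring
  rw [e] at h1
  exact le_of_mul_le_mul_left h1 hC

theorem a_pos (n : ℕ) : 0 < a n := by
  have h1 : 0 < a (n + 2) := by
    have := a_lower (n := n + 2) (by omega)
    refine lt_of_lt_of_le ?_ this
    have : (0 : ℝ) < ((n + 2 : ℕ) : ℝ) := by positivity
    exact div_pos (Real.log_pos (by norm_num)) this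
  exact h1.trans_le (a_anti n (n + 2) (by omega))

noncomputable def b (n : ℕ) : ℝ := - Real.log (a n)

theorem b_mono (m n : ℕ) (h : m ≤ n) : b m ≤ b n := by
  unfold b
  have := Real.log_le_log (a_pos n) (a_anti m n h)
  linarith

theorem b_upper : ∃ C : ℝ, ∀ n : ℕ, 1 ≤ n → b n ≤ Real.log n + C := by
  refine ⟨max (b 1) (- Real.log (Real.log 2)), fun n hn => ?_⟩
  rcases Nat.lt_or_ge n 2 with h | h
  · have : n = 1 := by omega
    subst this
    simp
  · have h1 := a_lower h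
    have hl2 : 0 < Real.log 2 := Real.log_pos (by norm_num)
    have hn' : (0 : ℝ) < n := by exact_mod_cast (by omega : 0 < n)
    have h2 := Real.log_le_log (by positivity) h1
    rw [Real.log_div hl2.ne' hn'.ne'] at h2
    unfold b
    have h3 := le_max_right (- Real.log (a 1)) (- Real.log (Real.log 2))
    have h4 : max (b 1) (- Real.log (Real.log 2)) ≥ - Real.log (Real.log 2) := le_max_right _ _
    unfold b at h4
    linarith

/-- records dominate all non-central ranks above the middle -/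
theorem key_upper {K : ℕ} {lam : ℝ} {n r : ℕ} (hl : 0 < lam)
    (hrec : ∀ m : ℕ, 1 ≤ m → m < n → b n - b m < lam * (Real.log n - Real.log m))
    (hbin : (n.choose r : ℝ) * ((n : ℝ) / ((2 * (n - r) + 1 : ℕ) : ℝ)) ^ lam ≤
        (1 - 1 / (n : ℝ) ^ 2) * (n.choose ((n + 1) / 2) : ℝ))
    (hr : n + 2 * K + 2 ≤ 2 * r) (hrn : r ≤ n) :
    Real.log (S n r) ≤ (1 - 1 / (n : ℝ) ^ 2) * Real.log (S n ((n + 1) / 2)) := by
  have hn' : (0 : ℝ) < n := by exact_mod_cast (by omega : 0 < n)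
  set m : ℕ := 2 * (n - r) + 1 with hm
  have hm1 : 1 ≤ m := by omega
  have hmn : m < n := by omega
  have hm' : (0 : ℝ) < m := by exact_mod_cast hm1
  have h1 := hrec m hm1 hmn
  have h2 : a m ≤ ((n : ℝ) / (m : ℝ)) ^ lam * a n := by
    have h3 : Real.log (a m) ≤ Real.log (((n : ℝ) / (m : ℝ)) ^ lam * a n) := by
      rw [Real.log_mul (by positivity) (a_pos n).ne', Real.log_rpow (by positivity),
        Real.log_div hn'.ne' hm'.ne']
      unfold b at h1
      linarith
    exact (Real.log_le_log_iff (a_pos m) (mul_pos (by positivity) (a_pos n))).1 h3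
  have hC : (0 : ℝ) < (n.choose r : ℝ) := by exact_mod_cast Nat.choose_pos hrn
  have h4 : Real.log (S n r) = (n.choose r : ℝ) * phi n r := by
    unfold phi
    rw [mul_div_cancel₀]
    exact hC.ne'
  rw [h4, log_S_mid]
  calc (n.choose r : ℝ) * phi n r ≤ (n.choose r : ℝ) * a m :=
        mul_le_mul_of_nonneg_left (phi_le_a n r (by omega) hrn) hC.le
    _ ≤ (n.choose r : ℝ) * (((n : ℝ) / (m : ℝ)) ^ lam * a n) :=
        mul_le_mul_of_nonneg_left h2 hC.le
    _ = ((n.choose r : ℝ) * ((n : ℝ) / (m : ℝ)) ^ lam) * a n := by ring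
    _ ≤ ((1 - 1 / (n : ℝ) ^ 2) * (n.choose ((n + 1) / 2) : ℝ)) * a n :=
        mul_le_mul_of_nonneg_right hbin (a_pos n).le
    _ = (1 - 1 / (n : ℝ) ^ 2) * ((n.choose ((n + 1) / 2) : ℝ) * a n) := by ring

/-- the number of base families of a non-central rank is tiny for record `n` -/
theorem key_count {K : ℕ} {lam : ℝ} {n : ℕ} (hn : 2 ≤ n) (hl : 0 < lam)
    (hrec : ∀ m : ℕ, 1 ≤ m → m < n → b n - b m < lam * (Real.log n - Real.log m))
    (hbin : ∀ r : ℕ, n + 2 * K + 2 ≤ 2 * r → r ≤ n →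
      (n.choose r : ℝ) * ((n : ℝ) / ((2 * (n - r) + 1 : ℕ) : ℝ)) ^ lam ≤
        (1 - 1 / (n : ℝ) ^ 2) * (n.choose ((n + 1) / 2) : ℝ))
    (r : ℕ) (hrn : r ≤ n) (hr : n + 2 * K + 2 ≤ 2 * r ∨ 2 * r + 2 * K + 2 ≤ n) :
    ((BF n r).card : ℝ) ≤ (S n ((n + 1) / 2) : ℝ) *
      (2 : ℝ) ^ (-((n.choose ((n + 1) / 2) : ℝ) / (n : ℝ) ^ 3)) := by
  wlog h : n + 2 * K + 2 ≤ 2 * r generalizing r
  · have h' : n + 2 * K + 2 ≤ 2 * (n - r) := by omega
    have := this (n - r) (Nat.sub_le _ _) (Or.inl h') h'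
    rwa [BF_dual hrn] at this
  have h1 := key_upper (K := K) hl hrec (hbin r h hrn) h hrn
  have hS : (0 : ℝ) < (S n r : ℝ) := by unfold S; positivity
  have hSc : (0 : ℝ) < (S n ((n + 1) / 2) : ℝ) := by unfold S; positivity
  have hn' : (0 : ℝ) < n := by exact_mod_cast (by omega : 0 < n)
  have hlow := Real.log_le_log (by positivity) (S_lower hn)
  rw [Real.log_rpow (by norm_num)] at hlow
  have h2 : ((BF n r).card : ℝ) ≤ (S n r : ℝ) := by
    unfold S; push_cast; linarith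
  refine h2.trans ?_
  rw [← Real.log_le_log_iff hS (mul_pos hSc (by positivity)), Real.log_mul hSc.ne' (by positivity),
    Real.log_rpow (by norm_num)]
  have h3 : (1 / (n : ℝ) ^ 2) * ((n.choose ((n + 1) / 2) : ℝ) / n * Real.log 2) ≤
      (1 / (n : ℝ) ^ 2) * Real.log (S n ((n + 1) / 2)) :=
    mul_le_mul_of_nonneg_left hlow (by positivity)
  have h4 : (1 / (n : ℝ) ^ 2) * ((n.choose ((n + 1) / 2) : ℝ) / n * Real.log 2) =
      ((n.choose ((n + 1) / 2) : ℝ) / (n : ℝ) ^ 3) * Real.log 2 := by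
    field_simp
  rw [h4] at h3
  have h5 : (1 - 1 / (n : ℝ) ^ 2) * Real.log (S n ((n + 1) / 2)) =
    Real.log (S n ((n + 1) / 2)) - (1 / (n : ℝ) ^ 2) * Real.log (S n ((n + 1) / 2)) := by ring
  rw [h5] at h1
  linarith

end Pool.Agent.Helper46.R
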