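import Mathlib

set_option autoImplicit false

namespace Pool.Agent.Helper46.R.V4

open Finset

open Classical in
theorem rec_18_low (g : ℕ → ℝ) (c : ℝ) (hc : 0 ≤ c) (M : ℕ) (hM : 1 ≤ M)
    (hstep : ∀ n, M ≤ n → g n - c ≤ g (n+1)) (L : ℝ) (hL : ∀ m, 1 ≤ m → m ≤ M → L ≤ g m) :
    ∀ N, M ≤ N → ∀ m, 1 ≤ m → m ≤ N →
      L - c * (∑ n ∈ Ioc M N, if (∀ m : ℕ, 1 ≤ m → m < n → g n < g m) then (1:ℝ) else 0) ≤ g m := by
  intro N hN
  induction N, hN using Nat.le_induction with
  | base => intro m h1 h2; simpa using hL m h1 h2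
  | succ N hN ih =>
    intro m h1 h2
    rw [Finset.sum_Ioc_succ_top hN]
    by_cases hr : (∀ m : ℕ, 1 ≤ m → m < N+1 → g (N+1) < g m)
    · rw [if_pos hr, mul_add, mul_one]
      rcases Nat.lt_or_ge m (N+1) with h | h
      · have := ih m h1 (by omega)
        linarith
      · have hm : m = N+1 := by omega
        rw [hm]
        have h3 := ih N (by omega) le_rfl
        have h4 := hstep N hN
        linarith
    · rw [if_neg hr, add_zero]
      push Not at hr
      obtain ⟨m', hm1, hm2, hm3⟩ := hr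
      rcases Nat.lt_or_ge m (N+1) with h | h
      · exact ih m h1 (by omega)
      · have hm : m = N+1 := by omega
        rw [hm]
        exact (ih m' hm1 (by omega)).trans hm3

theorem log_three_ge : (106/100 : ℝ) ≤ Real.log 3 := by
  rw [Real.le_log_iff_exp_le (by norm_num)]
  have h1 : Real.exp (106/100) = Real.exp 1 * Real.exp (6/100) := by
    rw [← Real.exp_add]; norm_num
  have h2 : (94/100 : ℝ) ≤ Real.exp (-(6/100)) := by
    have := Real.add_one_le_exp (-(6/100) : ℝ)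
    linarith
  have h3 : Real.exp (6/100) ≤ 100/94 := by
    rw [Real.exp_neg] at h2
    have hpos : 0 < Real.exp (6/100) := Real.exp_pos _
    rw [le_inv_comm₀ (by norm_num) hpos] at h2
    linarith [h2, (by norm_num : ((94:ℝ)/100)⁻¹ = 100/94)]
  have h4 := Real.exp_one_lt_d9
  rw [h1]
  have hpos1 : 0 < Real.exp 1 := Real.exp_pos _
  calc Real.exp 1 * Real.exp (6/100) ≤ Real.exp 1 * (100/94) :=
        mul_le_mul_of_nonneg_left h3 hpos1.le
    _ ≤ 3 := by linarith

open Classical in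
theorem rec_18 (b : ℕ → ℝ) (hmono : ∀ m n, 1 ≤ m → m ≤ n → b m ≤ b n) (α β : ℝ)
    (hab : β - α ≤ Real.log 3) (n0 : ℕ)
    (h1 : ∀ n : ℕ, n0 ≤ n → b n ≤ Real.log n - α)
    (h2 : ∀ n : ℕ, n0 ≤ n → Real.log n - β ≤ b n) :
    ∃ N0 : ℕ, ∀ N : ℕ, N0 ≤ N →
      (N : ℝ) / 18 ≤ (((Icc 2 N).filter (fun n : ℕ => ∀ m : ℕ, 1 ≤ m → m < n →
        b n - b m < (99 / 50) * (Real.log n - Real.log m))).card : ℝ) := by
  obtain ⟨g, hg⟩ : ∃ g : ℕ → ℝ, g = fun m : ℕ => b m - (99/50) * Real.log m := ⟨_, rfl⟩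
  have hgm : ∀ m : ℕ, g m = b m - (99/50) * Real.log m := fun m => by rw [hg]
  -- threshold for the finitely many small m
  have hev : ∀ᶠ M : ℕ in Filter.atTop, ∀ m ∈ Finset.range n0, -β - (49/50) * Real.log M ≤ g m := by
    rw [Filter.eventually_all_finset]
    intro m _
    have ht : Filter.Tendsto (fun M : ℕ => (49/50 : ℝ) * Real.log M) Filter.atTop Filter.atTop :=
      (Real.tendsto_log_atTop.comp tendsto_natCast_atTop_atTop).const_mul_atTop (by norm_num)
    filter_upwards [ht.eventually_ge_atTop (-β - g m)] with M hM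
    linarith
  obtain ⟨M0, hM0⟩ := Filter.eventually_atTop.mp hev
  refine ⟨9 * (M0 + 1) + n0 + 1000, fun N hN => ?_⟩
  obtain ⟨M, hM⟩ : ∃ M : ℕ, M = N / 9 := ⟨_, rfl⟩
  have hMM0 : M0 + 1 ≤ M := by omega
  have hM1 : 1 ≤ M := by omega
  have h9M : 9 * M ≤ N := by omega
  have h9M' : N ≤ 9 * M + 8 := by omega
  have hMN : M ≤ N := by omega
  have hMr : (0:ℝ) < M := by exact_mod_cast hM1
  obtain ⟨c, hc⟩ : ∃ c : ℝ, c = (99/50) / M := ⟨_, rfl⟩
  have hc0 : 0 < c := by rw [hc]; positivity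
  have hstep : ∀ n, M ≤ n → g n - c ≤ g (n+1) := by
    intro n hn
    have hn1 : 1 ≤ n := hM1.trans hn
    have hnr : (0:ℝ) < n := by exact_mod_cast hn1
    have hb := hmono n (n+1) hn1 (Nat.le_succ n)
    have hlog : Real.log ((n+1 : ℕ) : ℝ) - Real.log n ≤ 1 / n := by
      rw [← Real.log_div (by positivity) hnr.ne']
      have := Real.log_le_sub_one_of_pos (show (0:ℝ) < ((n+1 : ℕ) : ℝ) / n by positivity)
      have e : ((n+1 : ℕ) : ℝ) / n - 1 = 1 / n := by
        push_cast; field_simp; ring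
      linarith
    have hdiv : (1:ℝ) / n ≤ 1 / M := by
      apply one_div_le_one_div_of_le hMr
      exact_mod_cast hn
    have hcM : c = (99/50) * (1 / M) := by rw [hc]; ring
    rw [hgm, hgm, hcM]
    linarith
  have hL : ∀ m, 1 ≤ m → m ≤ M → -β - (49/50) * Real.log M ≤ g m := by
    intro m hm1 hm2
    rcases Nat.lt_or_ge m n0 with h | h
    · exact hM0 M (by omega) m (Finset.mem_range.mpr h)
    · have hm := h2 m h
      have hmr : (0:ℝ) < m := by exact_mod_cast hm1
      have hl : Real.log m ≤ Real.log M := Real.log_le_log hmr (by exact_mod_cast hm2)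
      rw [hgm]
      linarith
  have hlow := rec_18_low g c hc0.le M hM1 hstep _ hL N hMN N (by omega) le_rfl
  have hgN : g N ≤ -α - (49/50) * Real.log N := by
    have := h1 N (by omega)
    rw [hgm]; linarith
  obtain ⟨R, hR⟩ : ∃ R : ℝ, R = ∑ n ∈ Ioc M N, if (∀ m : ℕ, 1 ≤ m → m < n → g n < g m) then (1:ℝ) else 0 :=
    ⟨_, rfl⟩
  rw [← hR] at hlow
  have hlog9 : 2 * Real.log 3 + Real.log M ≤ Real.log N := by
    have e : 2 * Real.log 3 + Real.log M = Real.log (9 * M) := by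
      rw [Real.log_mul (by norm_num) hMr.ne', show (9:ℝ) = 3^2 by norm_num, Real.log_pow]
      norm_num
    rw [e]
    apply Real.log_le_log (by positivity)
    exact_mod_cast h9M
  have hcR : (48/50) * Real.log 3 ≤ c * R := by linarith
  have hRM : (M:ℝ) * ((48/99) * Real.log 3) ≤ R := by
    have h := mul_le_mul_of_nonneg_left hcR (show (0:ℝ) ≤ M * (50/99) by positivity)
    have e : (M:ℝ) * (50/99) * (c * R) = R := by
      rw [hc]; field_simp
    rw [e] at h
    linarith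
  have hl3 := log_three_ge
  have hRM' : (M:ℝ) * ((48/99) * (106/100)) ≤ R := by
    refine le_trans ?_ hRM
    apply mul_le_mul_of_nonneg_left _ hMr.le
    linarith
  have hMN9 : (N:ℝ) ≤ 9 * M + 8 := by exact_mod_cast h9M'
  have hN1000 : (1000:ℝ) ≤ N := by
    have : 1000 ≤ N := by omega
    exact_mod_cast this
  have hRN : (N:ℝ)/18 ≤ R := by linarith
  refine hRN.trans ?_
  rw [hR, ← Finset.natCast_card_filter]
  have hsub : (Ioc M N).filter (fun n : ℕ => ∀ m : ℕ, 1 ≤ m → m < n → g n < g m)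
      ⊆ (Icc 2 N).filter (fun n : ℕ => ∀ m : ℕ, 1 ≤ m → m < n →
        b n - b m < (99 / 50) * (Real.log n - Real.log m)) := by
    intro n hn
    rw [Finset.mem_filter, Finset.mem_Ioc] at hn
    rw [Finset.mem_filter, Finset.mem_Icc]
    refine ⟨⟨by omega, hn.1.2⟩, fun m hm1 hm2 => ?_⟩
    have := hn.2 m hm1 hm2
    rw [hgm, hgm] at this
    linarith
  exact_mod_cast Finset.card_le_card hsub

end Pool.Agent.Helper46.R.V4
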