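import Pool.Agent.Helper46.R.WDefs

set_option autoImplicit false

namespace Pool.Agent.Helper46.R.W1

open Finset

theorem numC_le (n r : ℕ) : numC n r ≤ (BF n r).card := by
  classical
  have hmem : ∀ M : YM n r, bs_22726 M.1 ∈ BF n r := by
    intro M
    obtain ⟨r', -, hr'⟩ := bs_isBF_22726 M.1
    obtain ⟨B, hB⟩ := hr'.ne
    have hb := (mem_bs_22726 M.1 B).1 hB
    have h1 := hb.encard_eq_eRank
    rw [M.2.2, Set.encard_coe_eq_coe_finsetCard, hr'.card B hB] at h1
    have h2 : r' = r := by exact_mod_cast h1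
    subst h2
    simp only [BF, Finset.mem_filter, Finset.mem_univ, true_and]
    exact hr'
  let g : YM n r → {B : Fam n // B ∈ BF n r} := fun M => ⟨bs_22726 M.1, hmem M⟩
  have hg : Function.Injective g := by
    intro M N h
    have h' : bs_22726 M.1 = bs_22726 N.1 := congrArg Subtype.val h
    exact Subtype.ext (bs_inj' M.2.1 N.2.1 h')
  haveI : Finite (YM n r) := Finite.of_injective g hg
  have h1 : Nat.card (Quot (RI n r)) ≤ Nat.card (YM n r) :=
    Nat.card_le_card_of_surjective (Quot.mk (RI n r)) Quot.mk_surjective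
  have h2 : Nat.card (YM n r) ≤ Nat.card {B : Fam n // B ∈ BF n r} :=
    Nat.card_le_card_of_injective g hg
  have h3 : Nat.card {B : Fam n // B ∈ BF n r} = (BF n r).card := by
    rw [Nat.card_eq_fintype_card, Fintype.card_coe]
  unfold numC
  omega

end Pool.Agent.Helper46.R.W1
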