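import Pool.Agent.Helper46.R.WDefs

set_option autoImplicit false

namespace Pool.Agent.Helper46.R.W2

open Finset

theorem RI_equiv (n r : ℕ) : Equivalence (RI n r) := by
  refine ⟨fun M => ⟨1, fun I => by simp⟩, ?_, ?_⟩
  · rintro M N ⟨σ, hσ⟩
    refine ⟨σ⁻¹, fun I => ?_⟩
    rw [hσ]
    have : (σ : Fin n → Fin n) '' ((σ⁻¹ : Equiv.Perm (Fin n)) '' I) = I := by
      rw [← Set.image_comp]
      have : (σ : Fin n → Fin n) ∘ ((σ⁻¹ : Equiv.Perm (Fin n)) : Fin n → Fin n) = id := by
        funext x; simp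
      rw [this, Set.image_id]
    rw [this]
  · rintro M N K ⟨σ, hσ⟩ ⟨τ, hτ⟩
    refine ⟨τ * σ, fun I => ?_⟩
    rw [hσ, hτ, Equiv.Perm.coe_mul, Set.image_comp]

theorem BF_le_numC (n r : ℕ) : (BF n r).card ≤ numC n r * n.factorial := by
  classical
  have hfin : Finite (YM n r) := by
    refine Finite.of_injective (fun M : YM n r => bs_22726 M.val) ?_
    intro M N h
    exact Subtype.ext (bs_inj' M.2.1 N.2.1 h)
  have hq : Finite (Quot (RI n r)) := Finite.of_surjective (Quot.mk _) Quot.mk_surjective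
  -- first map
  have h1 : (BF n r).card ≤ Nat.card (YM n r) := by
    have hB : ∀ B : {B // B ∈ BF n r}, IsBF r B.1 := fun B => by
      exact (Finset.mem_filter.1 B.2).2
    choose f hf1 hf2 using fun B : {B // B ∈ BF n r} => toMat (hB B)
    have hrank : ∀ B, (f B).eRank = (r : ℕ∞) := fun B => by
      obtain ⟨X, hX⟩ := (hB B).ne
      have hXb := (hf2 B X).2 hX
      rw [← hXb.encard_eq_eRank, Set.encard_coe_eq_coe_finsetCard, (hB B).card X hX]
    have hinj : Function.Injective (fun B : {B // B ∈ BF n r} => (⟨f B, hf1 B, hrank B⟩ : YM n r)) := by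
      intro B C h
      have h' : f B = f C := congrArg Subtype.val h
      apply Subtype.ext
      ext X
      rw [← hf2 B X, ← hf2 C X, h']
    have := Nat.card_le_card_of_injective _ hinj
    rwa [Nat.card_eq_fintype_card, Fintype.card_coe] at this
  -- second map
  have hex : ∀ M : YM n r, ∃ σ : Equiv.Perm (Fin n), ∀ I : Set (Fin n),
      (Quot.out (Quot.mk (RI n r) M)).val.Indep I ↔ M.val.Indep (σ '' I) := by
    intro M
    have h := Quot.eqvGen_exact (Quot.out_eq (Quot.mk (RI n r) M))
    rw [(RI_equiv n r).eqvGen_iff] at h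
    exact h
  choose s hs using hex
  have hinj2 : Function.Injective (fun M : YM n r => ((Quot.mk (RI n r) M, s M) :
      Quot (RI n r) × Equiv.Perm (Fin n))) := by
    intro M N h
    simp only [Prod.mk.injEq] at h
    obtain ⟨ha, hb⟩ := h
    apply Subtype.ext
    apply Matroid.ext_indep (by rw [M.2.1, N.2.1])
    intro J _
    have e : (s M : Fin n → Fin n) '' (((s M)⁻¹ : Equiv.Perm (Fin n)) '' J) = J := by
      rw [← Set.image_comp]
      have : (s M : Fin n → Fin n) ∘ (((s M)⁻¹ : Equiv.Perm (Fin n)) : Fin n → Fin n) = id := by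
        funext x; simp
      rw [this, Set.image_id]
    have k1 := hs M (((s M)⁻¹ : Equiv.Perm (Fin n)) '' J)
    have k2 := hs N (((s M)⁻¹ : Equiv.Perm (Fin n)) '' J)
    rw [e] at k1
    rw [← hb, e, ← ha] at k2
    rw [← k1, ← k2]
  have h2 := Nat.card_le_card_of_injective _ hinj2
  rw [Nat.card_prod, Nat.card_perm, Nat.card_fin] at h2
  exact h1.trans h2

end Pool.Agent.Helper46.R.W2
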