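import Pool.Agent.Helper46.R.WDefs

set_option autoImplicit false

namespace Pool.Agent.Helper46.R.W3

open Finset

theorem RI_iff {n r : ℕ} (M₁ M₂ : YM n r) :
    RI n r M₁ M₂ ↔ ∃ σ : Equiv.Perm (Fin n), M₂.val = M₁.val.mapEquiv σ := by
  constructor
  · rintro ⟨σ, h⟩
    refine ⟨σ, ?_⟩
    apply Matroid.ext_indep
    · rw [M₂.2.1, Matroid.mapEquiv_ground_eq, M₁.2.1]
      exact (Set.image_univ_of_surjective σ.surjective).symm
    · intro I _
      rw [Matroid.mapEquiv_indep_iff, h, ← Set.image_comp]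
      simp
  · rintro ⟨σ, h⟩
    refine ⟨σ, fun I => ?_⟩
    rw [h, Matroid.mapEquiv_indep_iff, ← Set.image_comp]
    simp

theorem RI_equiv (n r : ℕ) : Equivalence (RI n r) := by
  refine ⟨?_, ?_, ?_⟩
  · intro M
    exact ⟨Equiv.refl _, fun I => by simp⟩
  · rintro M₁ M₂ ⟨σ, h⟩
    refine ⟨σ.symm, fun I => ?_⟩
    rw [h, ← Set.image_comp]
    simp
  · rintro M₁ M₂ M₃ ⟨σ, h⟩ ⟨τ, h'⟩
    refine ⟨σ.trans τ, fun I => ?_⟩
    rw [h, h', ← Set.image_comp]
    rfl

theorem RI_exact {n r : ℕ} {M₁ M₂ : YM n r} (h : Quot.mk (RI n r) M₁ = Quot.mk (RI n r) M₂) :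
    RI n r M₁ M₂ := (RI_equiv n r).eqvGen_iff.mp (Quot.eqvGen_exact h)

theorem YM_finite (n r : ℕ) : Finite (YM n r) := by
  apply Finite.of_injective (fun M : YM n r => bs_22726 M.val)
  intro M N h
  exact Subtype.ext (bs_inj' M.2.1 N.2.1 h)

theorem numC_dual (n r : ℕ) (hr : r ≤ n) : numC n (n - r) ≤ numC n r := by
  have hd : ∀ M : YM n (n - r), M.val✶.E = Set.univ ∧ M.val✶.eRank = (r : ℕ∞) := by
    intro M
    refine ⟨by rw [Matroid.dual_ground]; exact M.2.1, ?_⟩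
    have h1 := Matroid.eRank_add_eRank_dual M.val
    rw [M.2.2, M.2.1, Set.encard_univ] at h1
    simp only [ENat.card_eq_coe_fintype_card, Fintype.card_fin] at h1
    have h2 : ((n - r : ℕ) : ℕ∞) + M.val✶.eRank = ((n - r : ℕ) : ℕ∞) + (r : ℕ∞) := by
      rw [h1]
      exact_mod_cast (by omega : n = n - r + r)
    exact ENat.add_right_injective_of_ne_top (ENat.coe_ne_top (n - r)) h2
  let f : YM n (n - r) → YM n r := fun M => ⟨M.val✶, hd M⟩
  have hf : ∀ M₁ M₂ : YM n (n - r), RI n (n - r) M₁ M₂ ↔ RI n r (f M₁) (f M₂) := by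
    intro M₁ M₂
    rw [RI_iff, RI_iff]
    constructor
    · rintro ⟨σ, h⟩
      refine ⟨σ, ?_⟩
      show M₂.val✶ = M₁.val✶.mapEquiv σ
      rw [h, Matroid.mapEquiv_eq_map, Matroid.map_dual]; rfl
    · rintro ⟨σ, h⟩
      refine ⟨σ, ?_⟩
      have h' : M₂.val✶ = M₁.val✶.mapEquiv σ := h
      have h2 := congrArg Matroid.dual h'
      have h3 : (M₁.val✶.mapEquiv σ)✶ = M₁.val✶✶.mapEquiv σ := by
        rw [Matroid.mapEquiv_eq_map, Matroid.map_dual]; rfl
      rw [Matroid.dual_dual, h3, Matroid.dual_dual] at h2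
      exact h2
  haveI := YM_finite n r
  unfold numC
  refine Nat.card_le_card_of_injective (Quot.map f fun a b h => (hf a b).mp h) ?_
  rintro ⟨M₁⟩ ⟨M₂⟩ h
  apply Quot.sound
  rw [hf]
  exact RI_exact h

theorem numC_zero (n r : ℕ) (hr : n < r) : numC n r = 0 := by
  haveI : IsEmpty (YM n r) := by
    refine ⟨fun M => ?_⟩
    have h1 := Matroid.eRank_le_encard_ground M.val
    rw [M.2.2, M.2.1, Set.encard_univ] at h1
    simp only [ENat.card_eq_coe_fintype_card, Fintype.card_fin] at h1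
    have : r ≤ n := by exact_mod_cast h1
    omega
  unfold numC
  exact Nat.card_of_isEmpty

end Pool.Agent.Helper46.R.W3
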