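import Pool.Agent.Helper46.R.Defs
import Pool.Agent.Helper46.A.Bridge
import Pool.Agent.Helper46.A.F

set_option autoImplicit false

namespace Pool.Agent.Helper46.R

open Finset

export Pool.Agent.Helper46.A (toMat)
export Pool.Agent.Helper46.A.F (bs_22726 mem_bs_22726 bs_isBF_22726)

/-- a matroid on `Fin n` is determined by its bases -/
theorem bs_inj' {n : ℕ} {M N : Matroid (Fin n)} (hM : M.E = Set.univ) (hN : N.E = Set.univ)
    (h : bs_22726 M = bs_22726 N) : M = N := by
  apply Matroid.ext_isBase (by rw [hM, hN])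
  intro B _
  lift B to Finset (Fin n) using B.toFinite
  rw [← mem_bs_22726, ← mem_bs_22726, h]

/-- matroids of rank `r` on the ground set `Fin n` -/
abbrev YM (n r : ℕ) : Type := {M : Matroid (Fin n) // M.E = Set.univ ∧ M.eRank = (r : ℕ∞)}

/-- isomorphism -/
abbrev RI (n r : ℕ) : YM n r → YM n r → Prop := fun M₁ M₂ =>
  ∃ σ : Equiv.Perm (Fin n), ∀ I : Set (Fin n), M₁.val.Indep I ↔ M₂.val.Indep (σ '' I)

/-- number of isomorphism classes of matroids of rank `r` on `n` elements -/
noncomputable def numC (n r : ℕ) : ℕ := Nat.card (Quot (RI n r))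

end Pool.Agent.Helper46.R
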