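import Pool.Agent.Helper46.R.Classes
import Pool.Agent.Helper46.R.K1
import Pool.Agent.Helper46.R.K2
import Pool.Agent.Helper46.R.K3
import Pool.Agent.Helper46.R.K4
import Pool.Agent.Helper46.R.K5

set_option autoImplicit false

namespace Pool.Agent.Helper46.R

open Finset Filter

theorem binom2 : ∃ n0 : ℕ, ∀ n : ℕ, n0 ≤ n → ∀ K : ℕ, 1 ≤ K → K ^ 2 ≤ 2 * n → ∀ r : ℕ,
    n + 2 * K + 2 ≤ 2 * r → r ≤ n →
      (n.choose r : ℝ) * ((n : ℝ) / ((2 * (n - r) + 1 : ℕ) : ℝ)) ^ (((K : ℝ) + 1) / 4) ≤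
        (1 - 1 / (n : ℝ) ^ 2) * (n.choose ((n + 1) / 2) : ℝ) := by
  obtain ⟨n1, H1⟩ := K2.tail2
  obtain ⟨h2, H2⟩ := K3.even2
  obtain ⟨h3, H3⟩ := K4.odd2
  refine ⟨n1 + 2 * h2 + 2 * h3 + 10, fun n hn K hK hKn r hr hrn => ?_⟩
  rcases le_or_gt n (r + K) with hc | hc
  · exact H1 n (by omega) K hK hKn r hrn hc
  set r0 : ℕ := (n + 2 * K + 3) / 2 with hr0
  have hr0r : r0 ≤ r := by omega
  have hdec : ∀ s : ℕ, r0 ≤ s → s ≤ r →
      (n.choose s : ℝ) * ((n : ℝ) / ((2 * (n - s) + 1 : ℕ) : ℝ)) ^ (((K : ℝ) + 1) / 4) ≤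
        (n.choose r0 : ℝ) * ((n : ℝ) / ((2 * (n - r0) + 1 : ℕ) : ℝ)) ^ (((K : ℝ) + 1) / 4) := by
    intro s hs
    induction s, hs using Nat.le_induction with
    | base => intro _; exact le_refl _
    | succ s hs ih =>
      intro hsn
      exact (K1.step2 K n s hK (by omega) (by omega)).trans (ih (by omega))
  refine (hdec r hr0r le_rfl).trans ?_
  rcases Nat.even_or_odd' n with ⟨h, rfl | rfl⟩
  · have e1 : r0 = h + K + 1 := by omega
    have e2 : (2 * h + 1) / 2 = h := by omega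
    rw [e1, e2]
    have e3 : ((2 * (2 * h - (h + K + 1)) + 1 : ℕ) : ℝ) = 2 * (h : ℝ) - 2 * K - 1 := by
      have : 2 * (2 * h - (h + K + 1)) + 1 + 2 * K + 1 = 2 * h := by omega
      have h' : ((2 * (2 * h - (h + K + 1)) + 1 + 2 * K + 1 : ℕ) : ℝ) = ((2 * h : ℕ) : ℝ) := by rw [this]
      push_cast at h' ⊢
      linarith
    rw [e3]
    have := H2 h (by omega) K hK (by omega)
    push_cast
    exact this
  · have e1 : r0 = h + K + 2 := by omega
    have e2 : (2 * h + 1 + 1) / 2 = h + 1 := by omega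
    rw [e1, e2]
    have e3 : ((2 * (2 * h + 1 - (h + K + 2)) + 1 : ℕ) : ℝ) = 2 * (h : ℝ) - 2 * K - 1 := by
      have : 2 * (2 * h + 1 - (h + K + 2)) + 1 + 2 * K + 1 = 2 * h := by omega
      have h' : ((2 * (2 * h + 1 - (h + K + 2)) + 1 + 2 * K + 1 : ℕ) : ℝ) = ((2 * h : ℕ) : ℝ) := by rw [this]
      push_cast at h' ⊢
      linarith
    rw [e3]
    have := H3 h (by omega) K hK hKn
    push_cast
    exact this

theorem good_of_record' :
    ∃ n0 : ℕ, ∀ n : ℕ, n0 ≤ n → ∀ (K : ℕ) (lam : ℝ), 0 < lam →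
      (∀ r : ℕ, n + 2 * K + 2 ≤ 2 * r → r ≤ n →
        (n.choose r : ℝ) * ((n : ℝ) / ((2 * (n - r) + 1 : ℕ) : ℝ)) ^ lam ≤
          (1 - 1 / (n : ℝ) ^ 2) * (n.choose ((n + 1) / 2) : ℝ)) →
      (∀ m : ℕ, 1 ≤ m → m < n → b n - b m < lam * (Real.log n - Real.log m)) →
      1 - 1 / 2 ^ n ≤ prop K n := by
  classical
  obtain ⟨n2, H2⟩ := eventually_atTop.1 J12.numtail
  refine ⟨n2 + 2, fun n hn K lam h0 H1 hrec => ?_⟩
  have hn2 : 2 ≤ n := by omega
  set c := (n + 1) / 2 with hc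
  set x : ℝ := (n.choose c : ℝ) / (n : ℝ) ^ 3 with hx
  have hSc := S_mid_two hn2
  have hbad : (Nat.card {q : Quot (RR n) // ¬ ∀ M : XM n, q = Quot.mk _ M → Cen K M.1} : ℝ) ≤
      ((n : ℝ) + 1) * ((S n c : ℝ) * (2 : ℝ) ^ (-x)) := by
    refine (classes_bad K n).trans ?_
    have h2 : ∀ r ∈ badR K n, ((BF n r).card : ℝ) ≤ (S n c : ℝ) * (2 : ℝ) ^ (-x) := by
      intro r hr
      rw [badR, mem_filter, mem_range] at hr
      exact key_count hn2 h0 hrec (fun r h3 h4 => H1 r h3 h4) r (by omega) hr.2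
    refine (sum_le_card_nsmul _ _ _ h2).trans ?_
    rw [nsmul_eq_mul]
    have h3 : ((badR K n).card : ℝ) ≤ (n : ℝ) + 1 := by
      have : (badR K n).card ≤ n + 1 := by
        have := card_filter_le (range (n + 1)) (fun r => n + 2 * K + 2 ≤ 2 * r ∨ 2 * r + 2 * K + 2 ≤ n)
        rwa [card_range] at this
      exact_mod_cast this
    exact mul_le_mul_of_nonneg_right h3 (by positivity)
  have hT := classes_lower n c (by omega)
  have hBF : (S n c : ℝ) / 2 ≤ ((BF n c).card : ℝ) := by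
    have h4 : (S n c : ℝ) = ((BF n c).card : ℝ) + 1 := by unfold S; push_cast; ring
    linarith
  have hTpos : 0 < (Nat.card (Quot (RR n)) : ℝ) := by
    by_contra hcon
    have h5 : (Nat.card (Quot (RR n)) : ℝ) = 0 := le_antisymm (not_lt.1 hcon) (by positivity)
    rw [h5, zero_mul] at hT
    linarith
  have hnum := H2 n (by omega)
  have hsplit := classes_split K n
  unfold prop
  rw [le_div_iff₀ hTpos]
  set T : ℝ := (Nat.card (Quot (RR n)) : ℝ)
  set B : ℝ := (Nat.card {q : Quot (RR n) // ¬ ∀ M : XM n, q = Quot.mk _ M → Cen K M.1} : ℝ)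
  have h6 : B * 2 ^ n ≤ T := by
    have hfac : ((n + 1).factorial : ℝ) = ((n : ℝ) + 1) * (n.factorial : ℝ) := by
      rw [Nat.factorial_succ]; push_cast; ring
    have hx2 : (0 : ℝ) < (2 : ℝ) ^ x := by positivity
    have h7 : (2 : ℝ) ^ (-x) * (2 : ℝ) ^ x = 1 := by
      rw [← Real.rpow_add (by norm_num)]; simp
    have h8 : (S n c : ℝ) ≤ 2 * (T * (n.factorial : ℝ)) := by linarith
    have h9 : B * 2 ^ n * (2 : ℝ) ^ x ≤ T * (2 : ℝ) ^ x := by
      calc B * 2 ^ n * (2 : ℝ) ^ x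
          ≤ (((n : ℝ) + 1) * ((S n c : ℝ) * (2 : ℝ) ^ (-x))) * 2 ^ n * (2 : ℝ) ^ x := by gcongr
        _ = ((n : ℝ) + 1) * (S n c : ℝ) * 2 ^ n * ((2 : ℝ) ^ (-x) * (2 : ℝ) ^ x) := by ring
        _ = ((n : ℝ) + 1) * (S n c : ℝ) * 2 ^ n := by rw [h7, mul_one]
        _ ≤ ((n : ℝ) + 1) * (2 * (T * (n.factorial : ℝ))) * 2 ^ n := by gcongr
        _ = T * (2 * ((n + 1).factorial : ℝ) * 2 ^ n) := by rw [hfac]; ring
        _ ≤ T * (2 : ℝ) ^ x := mul_le_mul_of_nonneg_left hnum hTpos.le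
    exact le_of_mul_le_mul_right h9 hx2
  have h10 : B ≤ 1 / 2 ^ n * T := by
    rw [one_div, inv_mul_eq_div, le_div_iff₀ (by positivity)]
    exact h6
  rw [sub_mul, one_mul]
  linarith

/-- uniform windows -/
theorem window : ∃ C : ℝ, 0 < C ∧ ∀ N : ℕ, 2 ≤ N → ∀ K : ℕ, 1 ≤ K → K ^ 2 ≤ N →
    (((Ioc (N / 2) N).filter (fun n : ℕ => ¬ 1 - 1 / 2 ^ n ≤ prop K n)).card : ℝ) ≤
      C * N * Real.log N / K := by
  classical
  obtain ⟨n1, H1⟩ := binom2
  obtain ⟨n2, H2⟩ := good_of_record'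
  obtain ⟨C0, hC0⟩ := b_upper
  have hl2 : 0 < Real.log 2 := Real.log_pos (by norm_num)
  set n0 : ℕ := n1 + n2 + 2 with hn0
  set D : ℝ := |C0 - b 1| with hD
  have hD0 : 0 ≤ D := abs_nonneg _
  refine ⟨4 * (1 + D / Real.log 2) + 2 * n0 / Real.log 2, by positivity, fun N hN K hK hKN => ?_⟩
  have hKr : (1 : ℝ) ≤ (K : ℝ) := by exact_mod_cast hK
  have hNr : (0 : ℝ) < (N : ℝ) := by exact_mod_cast (by omega : 0 < N)
  have hlogN : Real.log 2 ≤ Real.log N := Real.log_le_log (by norm_num) (by exact_mod_cast hN)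
  have hlog0 : 0 < Real.log N := lt_of_lt_of_le hl2 hlogN
  rcases le_or_gt N (2 * n0) with hc | hc
  · have h1 : (((Ioc (N / 2) N).filter (fun n : ℕ => ¬ 1 - 1 / 2 ^ n ≤ prop K n)).card : ℝ) ≤ N := by
      have : ((Ioc (N / 2) N).filter (fun n : ℕ => ¬ 1 - 1 / 2 ^ n ≤ prop K n)).card ≤ N := by
        refine (card_filter_le _ _).trans ?_
        rw [Nat.card_Ioc]
        omega
      exact_mod_cast this
    refine h1.trans ?_
    rw [le_div_iff₀ (by linarith)]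
    have hKn0 : (K : ℝ) ≤ 2 * n0 := by
      have : K ≤ 2 * n0 := by nlinarith
      exact_mod_cast this
    have h2 : (K : ℝ) ≤ (4 * (1 + D / Real.log 2) + 2 * n0 / Real.log 2) * Real.log N := by
      have h3 : (2 * (n0 : ℝ)) ≤ 2 * n0 / Real.log 2 * Real.log N := by
        rw [div_mul_eq_mul_div, le_div_iff₀ hl2]
        exact mul_le_mul_of_nonneg_left hlogN (by positivity)
      have h4 : 0 ≤ 4 * (1 + D / Real.log 2) * Real.log N := by positivity
      calc (K : ℝ) ≤ 2 * n0 := hKn0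
        _ ≤ 2 * n0 / Real.log 2 * Real.log N := h3
        _ ≤ (4 * (1 + D / Real.log 2) + 2 * n0 / Real.log 2) * Real.log N := by linarith
    calc (N : ℝ) * K ≤ N * ((4 * (1 + D / Real.log 2) + 2 * n0 / Real.log 2) * Real.log N) :=
          mul_le_mul_of_nonneg_left h2 hNr.le
      _ = _ := by ring
  · set lam : ℝ := ((K : ℝ) + 1) / 4 with hlam
    have hlam0 : 0 < lam := by positivity
    have h1 := K5.nonrecords b (fun m n _ h => b_mono m n h) C0 hC0 lam hlam0 N (by omega)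
    have hsub : ((Ioc (N / 2) N).filter (fun n : ℕ => ¬ 1 - 1 / 2 ^ n ≤ prop K n)) ⊆
        ((Icc 2 N).filter (fun n : ℕ => ¬ ∀ m : ℕ, 1 ≤ m → m < n →
          b n - b m < lam * (Real.log n - Real.log m))) := by
      intro n hn
      rw [mem_filter, mem_Ioc] at hn
      rw [mem_filter, mem_Icc]
      refine ⟨⟨by omega, hn.1.2⟩, fun hrec => hn.2 ?_⟩
      have hK2 : K ^ 2 ≤ 2 * n := by omega
      exact H2 n (by omega) K lam hlam0 (fun r h3 h4 => H1 n (by omega) K hK hK2 r h3 h4) hrec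
    have h2 : (((Ioc (N / 2) N).filter (fun n : ℕ => ¬ 1 - 1 / 2 ^ n ≤ prop K n)).card : ℝ) ≤
        N * (Real.log N + C0 - b 1) / lam := by
      refine le_trans ?_ h1
      exact_mod_cast card_le_card hsub
    refine h2.trans ?_
    rw [div_le_div_iff₀ hlam0 (by linarith)]
    have h3 : Real.log N + C0 - b 1 ≤ (1 + D / Real.log 2) * Real.log N := by
      have h4 : C0 - b 1 ≤ D := le_abs_self _
      have h5 : D ≤ D / Real.log 2 * Real.log N := by
        rw [div_mul_eq_mul_div, le_div_iff₀ hl2]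
        exact mul_le_mul_of_nonneg_left hlogN hD0
      linarith
    have h6 : (K : ℝ) ≤ 4 * lam := by rw [hlam]; linarith
    have h7 : 0 ≤ (1 + D / Real.log 2) * Real.log N := by positivity
    calc (N : ℝ) * (Real.log N + C0 - b 1) * K ≤ N * ((1 + D / Real.log 2) * Real.log N) * (4 * lam) := by
          have h8 : (N : ℝ) * (Real.log N + C0 - b 1) ≤ N * ((1 + D / Real.log 2) * Real.log N) :=
            mul_le_mul_of_nonneg_left h3 hNr.le
          have h9 : 0 ≤ (N : ℝ) * ((1 + D / Real.log 2) * Real.log N) := by positivity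
          calc (N : ℝ) * (Real.log N + C0 - b 1) * K ≤ N * ((1 + D / Real.log 2) * Real.log N) * K :=
                mul_le_mul_of_nonneg_right h8 (by linarith)
            _ ≤ _ := mul_le_mul_of_nonneg_left h6 h9
      _ = 4 * (1 + D / Real.log 2) * N * Real.log N * lam := by ring
      _ ≤ (4 * (1 + D / Real.log 2) + 2 * n0 / Real.log 2) * N * Real.log N * lam := by
          have : 0 ≤ 2 * (n0 : ℝ) / Real.log 2 := by positivity
          gcongr
          linarith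

end Pool.Agent.Helper46.R
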