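import Pool.Agent.Helper46.R.Classes
import Pool.Agent.Helper46.R.Window
import Pool.Agent.Helper46.R.W1
import Pool.Agent.Helper46.R.W2
import Pool.Agent.Helper46.R.W3

set_option autoImplicit false

namespace Pool.Agent.Helper46.R

open Finset Filter

theorem numC_le (n r : ℕ) : numC n r ≤ (BF n r).card := W1.numC_le n r

theorem BF_le_numC (n r : ℕ) : (BF n r).card ≤ numC n r * n.factorial := W2.BF_le_numC n r

theorem numC_dual (n r : ℕ) (hr : r ≤ n) : numC n (n - r) ≤ numC n r := W3.numC_dual n r hr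

theorem numC_zero (n r : ℕ) (hr : n < r) : numC n r = 0 := W3.numC_zero n r hr

theorem welsh_of_record :
    ∃ n0 : ℕ, ∀ n : ℕ, n0 ≤ n → ∀ (lam : ℝ), 0 < lam →
      (∀ r : ℕ, n + 2 * 0 + 2 ≤ 2 * r → r ≤ n →
        (n.choose r : ℝ) * ((n : ℝ) / ((2 * (n - r) + 1 : ℕ) : ℝ)) ^ lam ≤
          (1 - 1 / (n : ℝ) ^ 2) * (n.choose ((n + 1) / 2) : ℝ)) →
      (∀ m : ℕ, 1 ≤ m → m < n → b n - b m < lam * (Real.log n - Real.log m)) →
      ∀ r : ℕ, (2 * r + 2 ≤ n ∨ n + 2 ≤ 2 * r) → numC n r * 2 ^ n ≤ numC n (n / 2) := by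
  classical
  obtain ⟨n2, H2⟩ := eventually_atTop.1 J12.numtail
  refine ⟨n2 + 2, fun n hn lam h0 H1 hrec r hr => ?_⟩
  have hn2 : 2 ≤ n := by omega
  rcases Nat.lt_or_ge n r with hrn | hrn
  · rw [numC_zero n r hrn]; simp
  set c := (n + 1) / 2 with hc
  set x : ℝ := (n.choose c : ℝ) / (n : ℝ) ^ 3 with hx
  have hSc := S_mid_two hn2
  have h2 : ((BF n r).card : ℝ) ≤ (S n c : ℝ) * (2 : ℝ) ^ (-x) :=
    key_count (K := 0) hn2 h0 hrec (fun r h3 h4 => H1 r h3 h4) r hrn (by omega)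
  have h3 : (numC n r : ℝ) ≤ ((BF n r).card : ℝ) := by exact_mod_cast numC_le n r
  have h4 : ((BF n (n / 2)).card : ℝ) ≤ (numC n (n / 2) : ℝ) * (n.factorial : ℝ) := by
    exact_mod_cast BF_le_numC n (n / 2)
  have h5 : (BF n (n / 2)).card = (BF n c).card := by
    have : n - n / 2 = c := by omega
    rw [← this]
    exact (BF_dual (by omega)).symm
  rw [h5] at h4
  have hBF : (S n c : ℝ) / 2 ≤ ((BF n c).card : ℝ) := by
    have h6 : (S n c : ℝ) = ((BF n c).card : ℝ) + 1 := by unfold S; push_cast; ring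
    linarith
  have hnum := H2 n (by omega)
  have hfac : (n.factorial : ℝ) ≤ ((n + 1).factorial : ℝ) := by
    exact_mod_cast Nat.factorial_le (by omega)
  have hx2 : (0 : ℝ) < (2 : ℝ) ^ x := by positivity
  have h7 : (2 : ℝ) ^ (-x) * (2 : ℝ) ^ x = 1 := by
    rw [← Real.rpow_add (by norm_num)]; simp
  set T : ℝ := (numC n (n / 2) : ℝ) with hT
  have hT0 : 0 ≤ T := by positivity
  have h8 : (S n c : ℝ) ≤ 2 * (T * (n.factorial : ℝ)) := by linarith
  have h9 : (numC n r : ℝ) * 2 ^ n * (2 : ℝ) ^ x ≤ T * (2 : ℝ) ^ x := by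
    calc (numC n r : ℝ) * 2 ^ n * (2 : ℝ) ^ x
        ≤ ((S n c : ℝ) * (2 : ℝ) ^ (-x)) * 2 ^ n * (2 : ℝ) ^ x := by
          have := h3.trans h2
          gcongr
      _ = (S n c : ℝ) * 2 ^ n * ((2 : ℝ) ^ (-x) * (2 : ℝ) ^ x) := by ring
      _ = (S n c : ℝ) * 2 ^ n := by rw [h7, mul_one]
      _ ≤ (2 * (T * (n.factorial : ℝ))) * 2 ^ n := by gcongr
      _ ≤ (2 * (T * ((n + 1).factorial : ℝ))) * 2 ^ n := by gcongr
      _ = T * (2 * ((n + 1).factorial : ℝ) * 2 ^ n) := by ring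
      _ ≤ T * (2 : ℝ) ^ x := mul_le_mul_of_nonneg_left hnum hT0
  have h10 := le_of_mul_le_mul_right h9 hx2
  rw [hT] at h10
  exact_mod_cast h10

/-- Welsh's inequality at `n` -/
def WelshAt (n : ℕ) : Prop := ∀ r : ℕ, numC n r ≤ numC n (n / 2) ∧
  ((2 * r + 2 ≤ n ∨ n + 2 ≤ 2 * r) → numC n r * 2 ^ n ≤ numC n (n / 2))

theorem welshAt_of {n : ℕ} (h : ∀ r : ℕ, (2 * r + 2 ≤ n ∨ n + 2 ≤ 2 * r) →
    numC n r * 2 ^ n ≤ numC n (n / 2)) : WelshAt n := by
  intro r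
  refine ⟨?_, h r⟩
  by_cases hr : 2 * r + 2 ≤ n ∨ n + 2 ≤ 2 * r
  · have h1 := h r hr
    exact le_trans (Nat.le_mul_of_pos_right _ (by positivity)) h1
  · rcases Nat.lt_or_ge (n / 2) r with h2 | h2
    · have e : n - n / 2 = r := by omega
      rw [← e]
      exact numC_dual n (n / 2) (by omega)
    · have e : r = n / 2 := by omega
      rw [e]

open Classical in
theorem welsh_main (ε : ℝ) (hε : 0 < ε) :
    ∃ N0 : ℕ, ∀ N : ℕ, N0 ≤ N →
      (1 / 2 - ε) * Real.log N ≤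
        ∑ n ∈ (Icc 1 N).filter (fun n : ℕ => ∀ r : ℕ, numC n r ≤ numC n (n / 2) ∧
          ((2 * r + 2 ≤ n ∨ n + 2 ≤ 2 * r) → numC n r * 2 ^ n ≤ numC n (n / 2))), (1 : ℝ) / n := by
  set δ : ℝ := min (ε / 2) (1 / 4) with hδ
  have hδ0 : 0 < δ := lt_min (by linarith) (by norm_num)
  have hδ1 : δ ≤ ε / 2 := min_le_left _ _
  have hδ2 : δ ≤ 1 / 4 := min_le_right _ _
  set lam : ℝ := 1 / (1 / 2 + δ) with hlam
  have hl1 : 1 < lam := by
    rw [hlam, lt_div_iff₀ (by positivity)]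
    linarith
  have hl2 : lam < 2 * (((0 : ℕ) : ℝ) + 1) ^ 2 / (2 * ((0 : ℕ) : ℝ) + 1) := by
    have e : 2 * (((0 : ℕ) : ℝ) + 1) ^ 2 / (2 * ((0 : ℕ) : ℝ) + 1) = 2 := by norm_num
    rw [e, hlam, div_lt_iff₀ (by positivity)]
    linarith
  have hl3 : 1 / lam = 1 / 2 + δ := by rw [hlam, one_div_one_div]
  obtain ⟨C, hC⟩ := b_upper
  obtain ⟨C', hC'⟩ := J10.records b (fun m n _ h => b_mono m n h) C hC lam hl1
  obtain ⟨n1, hn1⟩ := binom 0 lam (by linarith) hl2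
  obtain ⟨n2, hn2⟩ := welsh_of_record
  set n0 := n1 + n2 with hn0
  set D : ℝ := ∑ n ∈ range n0, (1 : ℝ) / n with hD
  obtain ⟨N1, hN1⟩ := eventually_atTop.1
    ((Real.tendsto_log_atTop.comp tendsto_natCast_atTop_atTop).eventually_ge_atTop (2 * (C' + D) / ε))
  refine ⟨N1 + 1, fun N hN => ?_⟩
  have hlog : 2 * (C' + D) / ε ≤ Real.log N := hN1 N (by omega)
  have hlog0 : 0 ≤ Real.log N := Real.log_natCast_nonneg N
  have h1 := hC' N (by omega)
  rw [hl3] at h1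
  set R := (Icc 2 N).filter (fun n : ℕ => ∀ m : ℕ, 1 ≤ m → m < n →
          b n - b m < lam * (Real.log n - Real.log m)) with hR
  set G := (Icc 1 N).filter (fun n : ℕ => ∀ r : ℕ, numC n r ≤ numC n (n / 2) ∧
          ((2 * r + 2 ≤ n ∨ n + 2 ≤ 2 * r) → numC n r * 2 ^ n ≤ numC n (n / 2))) with hG
  have hsub : R ⊆ range n0 ∪ G := by
    intro n hn
    rw [hR, mem_filter, mem_Icc] at hn
    rw [mem_union, mem_range]
    rcases lt_or_ge n n0 with h | h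
    · exact Or.inl h
    · right
      rw [hG, mem_filter, mem_Icc]
      exact ⟨⟨by omega, hn.1.2⟩, welshAt_of (hn2 n (by omega) lam (by linarith)
        (fun r h3 h4 => hn1 n (by omega) r h3 h4) hn.2)⟩
  have h2 : ∑ n ∈ R, (1 : ℝ) / n ≤ D + ∑ n ∈ G, (1 : ℝ) / n := by
    refine (sum_le_sum_of_subset_of_nonneg hsub (fun n _ _ => by positivity)).trans ?_
    have := sum_union_inter (s₁ := range n0) (s₂ := G) (f := fun n : ℕ => (1 : ℝ) / n)
    have h3 : 0 ≤ ∑ n ∈ range n0 ∩ G, (1 : ℝ) / n := sum_nonneg (fun n _ => by positivity)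
    linarith
  have h4 : C' + D ≤ ε / 2 * Real.log N := by
    rw [div_le_iff₀ hε] at hlog
    linarith
  have h5 : δ * Real.log N ≤ ε / 2 * Real.log N := mul_le_mul_of_nonneg_right hδ1 hlog0
  have h6 : (1 - (1 / 2 + δ)) * Real.log N =
      (1 / 2 - ε) * Real.log N + ε * Real.log N - δ * Real.log N := by ring
  linarith

end Pool.Agent.Helper46.R
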