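import Pool.Agent.Helper46.R.Welsh

set_option autoImplicit false

namespace Pool.Agent.Helper46.R

open Finset Filter

/-- all ranks outside the window of half-width `K + 1/2` are less frequent than `n / 2` -/
def WG (K n : ℕ) : Prop := ∀ r : ℕ, (2 * r + 2 * K + 2 ≤ n ∨ n + 2 * K + 2 ≤ 2 * r) →
  numC n r * 2 ^ n ≤ numC n (n / 2)

theorem wg_of_record :
    ∃ n0 : ℕ, ∀ n : ℕ, n0 ≤ n → ∀ (K : ℕ) (lam : ℝ), 0 < lam →
      (∀ r : ℕ, n + 2 * K + 2 ≤ 2 * r → r ≤ n →
        (n.choose r : ℝ) * ((n : ℝ) / ((2 * (n - r) + 1 : ℕ) : ℝ)) ^ lam ≤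
          (1 - 1 / (n : ℝ) ^ 2) * (n.choose ((n + 1) / 2) : ℝ)) →
      (∀ m : ℕ, 1 ≤ m → m < n → b n - b m < lam * (Real.log n - Real.log m)) →
      WG K n := by
  classical
  obtain ⟨n2, H2⟩ := eventually_atTop.1 J12.numtail
  refine ⟨n2 + 2, fun n hn K lam h0 H1 hrec r hr => ?_⟩
  have hn2 : 2 ≤ n := by omega
  rcases Nat.lt_or_ge n r with hrn | hrn
  · rw [numC_zero n r hrn]; simp
  set c := (n + 1) / 2 with hc
  set x : ℝ := (n.choose c : ℝ) / (n : ℝ) ^ 3 with hx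
  have hSc := S_mid_two hn2
  have h2 : ((BF n r).card : ℝ) ≤ (S n c : ℝ) * (2 : ℝ) ^ (-x) :=
    key_count (K := K) hn2 h0 hrec (fun r h3 h4 => H1 r h3 h4) r hrn (by omega)
  have h3 : (numC n r : ℝ) ≤ ((BF n r).card : ℝ) := by exact_mod_cast numC_le n r
  have h4 : ((BF n (n / 2)).card : ℝ) ≤ (numC n (n / 2) : ℝ) * (n.factorial : ℝ) := by
    exact_mod_cast BF_le_numC n (n / 2)
  have h5 : (BF n (n / 2)).card = (BF n c).card := by
    have : n - n / 2 = c := by omega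
    rw [← this]
    exact (BF_dual (by omega)).symm
  rw [h5] at h4
  have hBF : (S n c : ℝ) / 2 ≤ ((BF n c).card : ℝ) := by
    have h6 : (S n c : ℝ) = ((BF n c).card : ℝ) + 1 := by unfold S; push_cast; ring
    linarith
  have hnum := H2 n (by omega)
  have hfac : (n.factorial : ℝ) ≤ ((n + 1).factorial : ℝ) := by
    exact_mod_cast Nat.factorial_le (by omega)
  have hx2 : (0 : ℝ) < (2 : ℝ) ^ x := by positivity
  have h7 : (2 : ℝ) ^ (-x) * (2 : ℝ) ^ x = 1 := by
    rw [← Real.rpow_add (by norm_num)]; simp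
  set T : ℝ := (numC n (n / 2) : ℝ) with hT
  have hT0 : 0 ≤ T := by positivity
  have h8 : (S n c : ℝ) ≤ 2 * (T * (n.factorial : ℝ)) := by linarith
  have h9 : (numC n r : ℝ) * 2 ^ n * (2 : ℝ) ^ x ≤ T * (2 : ℝ) ^ x := by
    calc (numC n r : ℝ) * 2 ^ n * (2 : ℝ) ^ x
        ≤ ((S n c : ℝ) * (2 : ℝ) ^ (-x)) * 2 ^ n * (2 : ℝ) ^ x := by
          have := h3.trans h2
          gcongr
      _ = (S n c : ℝ) * 2 ^ n * ((2 : ℝ) ^ (-x) * (2 : ℝ) ^ x) := by ring
      _ = (S n c : ℝ) * 2 ^ n := by rw [h7, mul_one]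
      _ ≤ (2 * (T * (n.factorial : ℝ))) * 2 ^ n := by gcongr
      _ ≤ (2 * (T * ((n + 1).factorial : ℝ))) * 2 ^ n := by gcongr
      _ = T * (2 * ((n + 1).factorial : ℝ) * 2 ^ n) := by ring
      _ ≤ T * (2 : ℝ) ^ x := mul_le_mul_of_nonneg_left hnum hT0
  have h10 := le_of_mul_le_mul_right h9 hx2
  rw [hT] at h10
  exact_mod_cast h10

open Classical in
/-- uniform windows -/
theorem wg_window : ∃ C : ℝ, 0 < C ∧ ∀ N : ℕ, 2 ≤ N → ∀ K : ℕ, 1 ≤ K → K ^ 2 ≤ N →
    (((Ioc (N / 2) N).filter (fun n : ℕ => ¬ WG K n)).card : ℝ) ≤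
      C * N * Real.log N / K := by
  obtain ⟨n1, H1⟩ := binom2
  obtain ⟨n2, H2⟩ := wg_of_record
  obtain ⟨C0, hC0⟩ := b_upper
  have hl2 : 0 < Real.log 2 := Real.log_pos (by norm_num)
  set n0 : ℕ := n1 + n2 + 2 with hn0
  set D : ℝ := |C0 - b 1| with hD
  have hD0 : 0 ≤ D := abs_nonneg _
  refine ⟨4 * (1 + D / Real.log 2) + 2 * n0 / Real.log 2, by positivity, fun N hN K hK hKN => ?_⟩
  have hKr : (1 : ℝ) ≤ (K : ℝ) := by exact_mod_cast hK
  have hNr : (0 : ℝ) < (N : ℝ) := by exact_mod_cast (by omega : 0 < N)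
  have hlogN : Real.log 2 ≤ Real.log N := Real.log_le_log (by norm_num) (by exact_mod_cast hN)
  have hlog0 : 0 < Real.log N := lt_of_lt_of_le hl2 hlogN
  rcases le_or_gt N (2 * n0) with hc | hc
  · have h1 : (((Ioc (N / 2) N).filter (fun n : ℕ => ¬ WG K n)).card : ℝ) ≤ N := by
      have : ((Ioc (N / 2) N).filter (fun n : ℕ => ¬ WG K n)).card ≤ N := by
        refine (card_filter_le _ _).trans ?_
        rw [Nat.card_Ioc]
        omega
      exact_mod_cast this
    refine h1.trans ?_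
    rw [le_div_iff₀ (by linarith)]
    have hKn0 : (K : ℝ) ≤ 2 * n0 := by
      have : K ≤ 2 * n0 := by nlinarith
      exact_mod_cast this
    have h2 : (K : ℝ) ≤ (4 * (1 + D / Real.log 2) + 2 * n0 / Real.log 2) * Real.log N := by
      have h3 : (2 * (n0 : ℝ)) ≤ 2 * n0 / Real.log 2 * Real.log N := by
        rw [div_mul_eq_mul_div, le_div_iff₀ hl2]
        exact mul_le_mul_of_nonneg_left hlogN (by positivity)
      have h4 : 0 ≤ 4 * (1 + D / Real.log 2) * Real.log N := by positivity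
      calc (K : ℝ) ≤ 2 * n0 := hKn0
        _ ≤ 2 * n0 / Real.log 2 * Real.log N := h3
        _ ≤ (4 * (1 + D / Real.log 2) + 2 * n0 / Real.log 2) * Real.log N := by linarith
    calc (N : ℝ) * K ≤ N * ((4 * (1 + D / Real.log 2) + 2 * n0 / Real.log 2) * Real.log N) :=
          mul_le_mul_of_nonneg_left h2 hNr.le
      _ = _ := by ring
  · set lam : ℝ := ((K : ℝ) + 1) / 4 with hlam
    have hlam0 : 0 < lam := by positivity
    have h1 := K5.nonrecords b (fun m n _ h => b_mono m n h) C0 hC0 lam hlam0 N (by omega)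
    have hsub : ((Ioc (N / 2) N).filter (fun n : ℕ => ¬ WG K n)) ⊆
        ((Icc 2 N).filter (fun n : ℕ => ¬ ∀ m : ℕ, 1 ≤ m → m < n →
          b n - b m < lam * (Real.log n - Real.log m))) := by
      intro n hn
      rw [mem_filter, mem_Ioc] at hn
      rw [mem_filter, mem_Icc]
      refine ⟨⟨by omega, hn.1.2⟩, fun hrec => hn.2 ?_⟩
      have hK2 : K ^ 2 ≤ 2 * n := by omega
      exact H2 n (by omega) K lam hlam0 (fun r h3 h4 => H1 n (by omega) K hK hK2 r h3 h4) hrec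
    have h2 : (((Ioc (N / 2) N).filter (fun n : ℕ => ¬ WG K n)).card : ℝ) ≤
        N * (Real.log N + C0 - b 1) / lam := by
      refine le_trans ?_ h1
      exact_mod_cast card_le_card hsub
    refine h2.trans ?_
    rw [div_le_div_iff₀ hlam0 (by linarith)]
    have h3 : Real.log N + C0 - b 1 ≤ (1 + D / Real.log 2) * Real.log N := by
      have h4 : C0 - b 1 ≤ D := le_abs_self _
      have h5 : D ≤ D / Real.log 2 * Real.log N := by
        rw [div_mul_eq_mul_div, le_div_iff₀ hl2]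
        exact mul_le_mul_of_nonneg_left hlogN hD0
      linarith
    have h6 : (K : ℝ) ≤ 4 * lam := by rw [hlam]; linarith
    have h7 : 0 ≤ (1 + D / Real.log 2) * Real.log N := by positivity
    calc (N : ℝ) * (Real.log N + C0 - b 1) * K ≤ N * ((1 + D / Real.log 2) * Real.log N) * (4 * lam) := by
          have h8 : (N : ℝ) * (Real.log N + C0 - b 1) ≤ N * ((1 + D / Real.log 2) * Real.log N) :=
            mul_le_mul_of_nonneg_left h3 hNr.le
          have h9 : 0 ≤ (N : ℝ) * ((1 + D / Real.log 2) * Real.log N) := by positivity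
          calc (N : ℝ) * (Real.log N + C0 - b 1) * K ≤ N * ((1 + D / Real.log 2) * Real.log N) * K :=
                mul_le_mul_of_nonneg_right h8 (by linarith)
            _ ≤ _ := mul_le_mul_of_nonneg_left h6 h9
      _ = 4 * (1 + D / Real.log 2) * N * Real.log N * lam := by ring
      _ ≤ (4 * (1 + D / Real.log 2) + 2 * n0 / Real.log 2) * N * Real.log N * lam := by
          have : 0 ≤ 2 * (n0 : ℝ) / Real.log 2 := by positivity
          gcongr
          linarith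

open Classical in
theorem wg_main (K : ℕ) (ε : ℝ) (hε : 0 < ε) :
    ∃ N0 : ℕ, ∀ N : ℕ, N0 ≤ N →
      (1 - (2 * (K : ℝ) + 1) / (2 * ((K : ℝ) + 1) ^ 2) - ε) * Real.log N ≤
        ∑ n ∈ (Icc 1 N).filter (fun n : ℕ => WG K n), (1 : ℝ) / n := by
  have hK0 : (0 : ℝ) ≤ (K : ℝ) := by positivity
  set u : ℝ := (2 * (K : ℝ) + 1) / (2 * ((K : ℝ) + 1) ^ 2) with hu
  have hu0 : 0 < u := by positivity
  have hu1 : u ≤ 1 / 2 := by
    rw [hu, div_le_div_iff₀ (by positivity) (by norm_num)]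
    nlinarith
  set δ : ℝ := min (ε / 2) (1 / 4) with hδ
  have hδ0 : 0 < δ := lt_min (by linarith) (by norm_num)
  have hδ1 : δ ≤ ε / 2 := min_le_left _ _
  have hδ2 : δ ≤ 1 / 4 := min_le_right _ _
  set lam : ℝ := 1 / (u + δ) with hlam
  have hl1 : 1 < lam := by
    rw [hlam, lt_div_iff₀ (by positivity)]
    linarith
  have hl2 : lam < 2 * ((K : ℝ) + 1) ^ 2 / (2 * K + 1) := by
    have e : 2 * ((K : ℝ) + 1) ^ 2 / (2 * K + 1) = 1 / u := by
      rw [hu, one_div_div]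
    rw [e, hlam]
    exact one_div_lt_one_div_of_lt hu0 (by linarith)
  have hl3 : 1 / lam = u + δ := by rw [hlam, one_div_one_div]
  obtain ⟨C, hC⟩ := b_upper
  obtain ⟨C', hC'⟩ := J10.records b (fun m n _ h => b_mono m n h) C hC lam hl1
  obtain ⟨n1, hn1⟩ := binom K lam (by linarith) hl2
  obtain ⟨n2, hn2⟩ := wg_of_record
  set n0 := n1 + n2 with hn0
  set D : ℝ := ∑ n ∈ range n0, (1 : ℝ) / n with hD
  obtain ⟨N1, hN1⟩ := eventually_atTop.1
    ((Real.tendsto_log_atTop.comp tendsto_natCast_atTop_atTop).eventually_ge_atTop (2 * (C' + D) / ε))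
  refine ⟨N1 + 1, fun N hN => ?_⟩
  have hlog : 2 * (C' + D) / ε ≤ Real.log N := hN1 N (by omega)
  have hlog0 : 0 ≤ Real.log N := Real.log_natCast_nonneg N
  have h1 := hC' N (by omega)
  rw [hl3] at h1
  set R := (Icc 2 N).filter (fun n : ℕ => ∀ m : ℕ, 1 ≤ m → m < n →
          b n - b m < lam * (Real.log n - Real.log m)) with hR
  set G := (Icc 1 N).filter (fun n : ℕ => WG K n) with hG
  have hsub : R ⊆ range n0 ∪ G := by
    intro n hn
    rw [hR, mem_filter, mem_Icc] at hn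
    rw [mem_union, mem_range]
    rcases lt_or_ge n n0 with h | h
    · exact Or.inl h
    · right
      rw [hG, mem_filter, mem_Icc]
      exact ⟨⟨by omega, hn.1.2⟩, hn2 n (by omega) K lam (by linarith)
        (fun r h3 h4 => hn1 n (by omega) r h3 h4) hn.2⟩
  have h2 : ∑ n ∈ R, (1 : ℝ) / n ≤ D + ∑ n ∈ G, (1 : ℝ) / n := by
    refine (sum_le_sum_of_subset_of_nonneg hsub (fun n _ _ => by positivity)).trans ?_
    have := sum_union_inter (s₁ := range n0) (s₂ := G) (f := fun n : ℕ => (1 : ℝ) / n)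
    have h3 : 0 ≤ ∑ n ∈ range n0 ∩ G, (1 : ℝ) / n := sum_nonneg (fun n _ => by positivity)
    linarith
  have h4 : C' + D ≤ ε / 2 * Real.log N := by
    rw [div_le_iff₀ hε] at hlog
    linarith
  have h5 : δ * Real.log N ≤ ε / 2 * Real.log N := mul_le_mul_of_nonneg_right hδ1 hlog0
  have h6 : (1 - (u + δ)) * Real.log N = (1 - u - ε) * Real.log N + ε * Real.log N - δ * Real.log N := by ring
  linarith

end Pool.Agent.Helper46.R
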