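import Pool.Agent.Helper46.R.Nat
import Pool.Agent.Helper46.R.V4

set_option autoImplicit false

namespace Pool.Agent.Helper46.R

open Finset Filter

theorem b_two_sharp : ∃ n0 : ℕ, (∀ n : ℕ, n0 ≤ n → b n ≤ Real.log n - Real.log (Real.log 2)) ∧
    (∀ n : ℕ, n0 ≤ n → Real.log n - Real.log (3 * Real.log 2) ≤ b n) := by
  obtain ⟨n0, hn0⟩ := S_upper
  have hl2 : 0 < Real.log 2 := Real.log_pos (by norm_num)
  refine ⟨n0 + 2, fun n hn => ?_, fun n hn => ?_⟩
  · have h1 := a_lower (n := n) (by omega)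
    have hn' : (0 : ℝ) < n := by exact_mod_cast (by omega : 0 < n)
    have h2 := Real.log_le_log (by positivity) h1
    rw [Real.log_div hl2.ne' hn'.ne'] at h2
    unfold b
    linarith
  · have hnR : (0 : ℝ) < n := by exact_mod_cast (by omega : 0 < n)
    have h1 := hn0 n (by omega)
    have hS : (0 : ℝ) < (S n ((n + 1) / 2) : ℝ) := by unfold S; positivity
    have h2 := Real.log_le_log hS h1
    rw [Real.log_rpow (by norm_num), log_S_mid] at h2
    have hC' := choose_pos' n
    have e : 3 * ((n.choose ((n + 1) / 2) : ℝ) / n) * Real.log 2 =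
        (n.choose ((n + 1) / 2) : ℝ) * (3 * Real.log 2 / n) := by ring
    rw [e] at h2
    have h3 : a n ≤ 3 * Real.log 2 / n := le_of_mul_le_mul_left h2 hC'
    have h4 := Real.log_le_log (a_pos n) h3
    rw [Real.log_div (by positivity) hnR.ne'] at h4
    unfold b
    linarith

open Classical in
/-- positive lower density of the integers where the middle rank is the most frequent one -/
theorem welsh_20 : ∃ N0 : ℕ, ∀ N : ℕ, N0 ≤ N →
    (N : ℝ) / 20 ≤ (((Icc 1 N).filter WelshAt).card : ℝ) := by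
  obtain ⟨m0, hb1, hb2⟩ := b_two_sharp
  have hl2 : 0 < Real.log 2 := Real.log_pos (by norm_num)
  obtain ⟨N0, HV⟩ := V4.rec_18 b (fun m n _ h => b_mono m n h) (Real.log (Real.log 2))
    (Real.log (3 * Real.log 2)) (by rw [Real.log_mul (by norm_num) hl2.ne']; linarith) m0 hb1 hb2
  obtain ⟨n1, hn1⟩ := binom 0 (99 / 50) (by norm_num) (by norm_num)
  obtain ⟨n2, hn2⟩ := welsh_of_record
  set n0 := n1 + n2 with hn0
  refine ⟨N0 + 180 * n0, fun N hN => ?_⟩
  have h1 := HV N (by omega)
  set R := (Icc 2 N).filter (fun n : ℕ => ∀ m : ℕ, 1 ≤ m → m < n →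
        b n - b m < (99 / 50) * (Real.log n - Real.log m)) with hR
  set G := (Icc 1 N).filter WelshAt with hG
  have hsub : R ⊆ range n0 ∪ G := by
    intro n hn
    rw [hR, mem_filter, mem_Icc] at hn
    rw [mem_union, mem_range]
    rcases lt_or_ge n n0 with h | h
    · exact Or.inl h
    · right
      rw [hG, mem_filter, mem_Icc]
      exact ⟨⟨by omega, hn.1.2⟩, welshAt_of (hn2 n (by omega) (99 / 50) (by norm_num)
        (fun r h3 h4 => hn1 n (by omega) r h3 h4) hn.2)⟩
  have h2 : R.card ≤ n0 + G.card := by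
    have h3 := card_le_card hsub
    have h4 := card_union_le (range n0) G
    rw [card_range] at h4
    exact h3.trans h4
  have h2' : (R.card : ℝ) ≤ n0 + G.card := by exact_mod_cast h2
  have h5 : 180 * (n0 : ℝ) ≤ N := by exact_mod_cast (by omega : 180 * n0 ≤ N)
  linarith

open Classical in
/-- positive lower density of the integers where almost all matroids have a middle rank -/
theorem prop_20 : ∃ N0 : ℕ, ∀ N : ℕ, N0 ≤ N →
    (N : ℝ) / 20 ≤ (((Icc 1 N).filter (fun n : ℕ => 1 - 1 / 2 ^ n ≤ prop 0 n)).card : ℝ) := by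
  obtain ⟨m0, hb1, hb2⟩ := b_two_sharp
  have hl2 : 0 < Real.log 2 := Real.log_pos (by norm_num)
  obtain ⟨N0, HV⟩ := V4.rec_18 b (fun m n _ h => b_mono m n h) (Real.log (Real.log 2))
    (Real.log (3 * Real.log 2)) (by rw [Real.log_mul (by norm_num) hl2.ne']; linarith) m0 hb1 hb2
  obtain ⟨n1, hn1⟩ := binom 0 (99 / 50) (by norm_num) (by norm_num)
  obtain ⟨n2, hn2⟩ := good_of_record'
  set n0 := n1 + n2 with hn0
  refine ⟨N0 + 180 * n0, fun N hN => ?_⟩
  have h1 := HV N (by omega)
  set R := (Icc 2 N).filter (fun n : ℕ => ∀ m : ℕ, 1 ≤ m → m < n →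
        b n - b m < (99 / 50) * (Real.log n - Real.log m)) with hR
  set G := (Icc 1 N).filter (fun n : ℕ => 1 - 1 / 2 ^ n ≤ prop 0 n) with hG
  have hsub : R ⊆ range n0 ∪ G := by
    intro n hn
    rw [hR, mem_filter, mem_Icc] at hn
    rw [mem_union, mem_range]
    rcases lt_or_ge n n0 with h | h
    · exact Or.inl h
    · right
      rw [hG, mem_filter, mem_Icc]
      exact ⟨⟨by omega, hn.1.2⟩, hn2 n (by omega) 0 (99 / 50) (by norm_num)
        (fun r h3 h4 => hn1 n (by omega) r h3 h4) hn.2⟩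
  have h2 : R.card ≤ n0 + G.card := by
    have h3 := card_le_card hsub
    have h4 := card_union_le (range n0) G
    rw [card_range] at h4
    exact h3.trans h4
  have h2' : (R.card : ℝ) ≤ n0 + G.card := by exact_mod_cast h2
  have h5 : 180 * (n0 : ℝ) ≤ N := by exact_mod_cast (by omega : 180 * n0 ≤ N)
  linarith

end Pool.Agent.Helper46.R
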